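import Pool.Agent.P.MP_5c258a_lc.Defs

namespace Pool.Agent.P.MP_5c258a_lc.Bin

/-- A binary unbiased black-box algorithm (for a fixed value of its own randomness). All choices
depend only on the list `h` of fitness values seen so far: `op h` is the binary unbiased operator
and `par h` gives the numbers of the two earlier queries it is applied to. -/
structure BAlg (n : ℕ) where
  op : List ℕ → Op n 2
  par : List ℕ → Fin 2 → ℕ
  par_lt : ∀ h i, h ≠ [] → par h i < h.length

/-- The probability that the query after the queries `xs` is `y`. -/
noncomputable def bstep {n : ℕ} (A : BAlg n) (f : (Fin n → Bool) → ℕ)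
    (xs : List (Fin n → Bool)) (y : Fin n → Bool) : ℝ :=
  if xs = [] then 1 / 2 ^ n
  else (A.op (xs.map f)).p (fun i => xs.getD (A.par (xs.map f) i) fun _ => false) y

open Classical in
/-- The probability that none of the `t` queries after the queries `xs` maximises `f`. -/
noncomputable def bmiss {n : ℕ} (A : BAlg n) (f : (Fin n → Bool) → ℕ) :
    ℕ → List (Fin n → Bool) → ℝ
  | 0, _ => 1
  | t + 1, xs => ∑ y, bstep A f xs y * if ∀ x, f x ≤ f y then 0 else bmiss A f t (xs ++ [y])

/-- The expected number of queries until a maximiser is queried: the sum of `P(T > t)`. -/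
noncomputable def btime {n : ℕ} (A : BAlg n) (f : (Fin n → Bool) → ℕ) : ENNReal :=
  ∑' t : ℕ, ENNReal.ofReal (bmiss A f t [])

end Pool.Agent.P.MP_5c258a_lc.Bin
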