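import Pool.Agent.P.MP_5c258a_lc.Bin.Flow

/-! Task GEO: (G0)-(G3) of paper section 2. -/

namespace Pool.Agent.P.MP_5c258a_lc.Bin

open Finset Classical

namespace Tr

variable {n : ℕ} {tr : Tr n} {O N : Finset (Fin n)} {δ : ℝ} {T T' τ z : ℕ}

namespace GeoX

lemma pi0 (h : tr.WF) (τ z w : ℕ) : 0 ≤ tr.pi τ z w := gr_nonneg h _ _ _

lemma pi1 (h : tr.WF) (τ z w : ℕ) : tr.pi τ z w ≤ 1 := gr_le_one h _ _ _

lemma kap1 (h : tr.WF) (b : Fin n) (τ z : ℕ) : tr.kap τ z ≤ 1 := by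
  have := mass h τ z b
  have := x1_nonneg h τ z b
  have := x0_nonneg h τ z b
  linarith

lemma kap_split (tr : Tr n) {t : ℕ} (h1 : τ ≤ t) (h2 : t ≤ z) :
    tr.kap τ z = ∑ w ∈ Ioc τ t, tr.pi τ z w * tr.al w + tr.kap t z := by
  unfold kap
  rw [← sum_Ioc_consecutive _ h1 h2]
  congr 1
  exact sum_congr rfl fun w hw => by rw [pi_congr tr h1 z (mem_Ioc.1 hw).1.le]

/-- A sum of at most `T'` terms `π w * a w` with `a w ≤ D`. -/
lemma sum_pi_le (h : tr.WF) (hT : z ≤ τ + T') {a : ℕ → ℝ} {D : ℝ} (hD : 0 ≤ D)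
    (ha : ∀ w ∈ Ioc τ z, a w ≤ D) : ∑ w ∈ Ioc τ z, tr.pi τ z w * a w ≤ D * T' := by
  have h1 : ∑ w ∈ Ioc τ z, tr.pi τ z w * a w ≤ ∑ w ∈ Ioc τ z, D := sum_le_sum fun w hw => by
    have := mul_le_mul_of_nonneg_left (ha w hw) (pi0 h τ z w)
    have := mul_le_mul_of_nonneg_right (pi1 h τ z w) hD
    linarith
  rw [sum_const, Nat.card_Ioc, nsmul_eq_mul] at h1
  have h2 : ((z - τ : ℕ) : ℝ) ≤ T' := by exact_mod_cast (by omega : z - τ ≤ T')
  have := mul_le_mul_of_nonneg_right h2 hD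
  linarith

/-- Centred profile. -/
noncomputable def yy (tr : Tr n) (t z : ℕ) (b : Fin n) : ℝ :=
  ∑ x ∈ range (z + 1), tr.st (fun w => t < w) z x * (tr.bt x b - 1 / 2)

lemma yy_eq (tr : Tr n) (t z : ℕ) (b : Fin n) :
    yy tr t z b = (tr.x1 t z b - tr.x0 t z b) / 2 := by
  unfold yy x1 x0
  rw [← sum_sub_distrib, sum_div]
  exact sum_congr rfl fun x _ => by ring

lemma yy_evolve (h : tr.WF) {t : ℕ} (h1 : τ ≤ t) (h2 : t ≤ z) (b : Fin n) :
    tr.XX (tr.pi τ z) b τ t = yy tr t z b - yy tr τ z b -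
      ∑ w ∈ Ioc τ t, tr.pi τ z w * tr.al w * (tr.kb w b - 1 / 2) := by
  have e1 := evolve h le_rfl h1 z b
  have e2 := kap_split tr h1 h2
  have e3 := mass h τ z b
  have e4 := mass h t z b
  have e5 : ∑ w ∈ Ioc τ t, tr.pi τ z w * (tr.xi w b + tr.al w * tr.kb w b) =
      tr.XX (tr.pi τ z) b τ t + ∑ w ∈ Ioc τ t, tr.pi τ z w * tr.al w * (tr.kb w b - 1 / 2) +
        (∑ w ∈ Ioc τ t, tr.pi τ z w * tr.al w) / 2 := by
    unfold XX
    rw [sum_div, ← sum_add_distrib, ← sum_add_distrib]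
    exact sum_congr rfl fun w _ => by ring
  rw [yy_eq, yy_eq]
  linarith

lemma ip_yy (h : tr.WF) (hG : tr.Good O N δ T) (h0 : 0 ≤ δ) {w t : ℕ} (ht : t < w) (hw : w ≤ T)
    (z : ℕ) : |∑ b ∈ N, tr.xi w b * yy tr t z b| ≤ δ * N.card := by
  have hD : 0 ≤ δ * N.card := by positivity
  have e : ∑ b ∈ N, tr.xi w b * yy tr t z b = ∑ x ∈ range (z + 1),
      tr.st (fun w => t < w) z x * ∑ b ∈ N, tr.xi w b * (tr.bt x b - 1 / 2) := by
    unfold yy
    simp only [mul_sum]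
    rw [sum_comm]
    exact sum_congr rfl fun x _ => sum_congr rfl fun b _ => by ring
  rw [e]
  refine (abs_sum_le_sum_abs _ _).trans ?_
  have h1 : ∀ x ∈ range (z + 1), |tr.st (fun w => t < w) z x *
      ∑ b ∈ N, tr.xi w b * (tr.bt x b - 1 / 2)| ≤ tr.st (fun w => t < w) z x * (δ * N.card) := by
    intro x _
    rw [abs_mul, abs_of_nonneg (st_nonneg h _ z x)]
    by_cases hx : t < x
    · simp [st, hx]
    · exact mul_le_mul_of_nonneg_left (hG.gN w (by omega) hw x (by omega)) (st_nonneg h _ z x)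
  refine (sum_le_sum h1).trans ?_
  rw [← sum_mul]
  have := mul_le_mul_of_nonneg_right (st_sum_le h (A := fun w => t < w) (by simp) z) hD
  linarith

lemma ip_two (hG : tr.Good O N δ T) {w x x' : ℕ} (hw : w ≤ T) (hx : x < w) (hx' : x' < w)
    {r s : ℝ} (hrs : |r| + |s| ≤ 1) (h0 : 0 ≤ δ) {F : Fin n → ℝ}
    (hF : ∀ b, F b = r * (tr.bt x b - 1 / 2) + s * (tr.bt x' b - 1 / 2)) :
    |∑ b ∈ N, tr.xi w b * F b| ≤ δ * N.card := by
  have hD : 0 ≤ δ * N.card := by positivity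
  have e : ∑ b ∈ N, tr.xi w b * F b = r * ∑ b ∈ N, tr.xi w b * (tr.bt x b - 1 / 2) +
      s * ∑ b ∈ N, tr.xi w b * (tr.bt x' b - 1 / 2) := by
    rw [mul_sum, mul_sum, ← sum_add_distrib]
    exact sum_congr rfl fun b _ => by rw [hF]; ring
  rw [e]
  refine (abs_add_le _ _).trans ?_
  rw [abs_mul, abs_mul]
  have a1 := mul_le_mul_of_nonneg_left (hG.gN w (by omega) hw x hx) (abs_nonneg r)
  have a2 := mul_le_mul_of_nonneg_left (hG.gN w (by omega) hw x' hx') (abs_nonneg s)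
  have a3 := mul_le_mul_of_nonneg_right hrs hD
  linarith

lemma ip_kb (h : tr.WF) (hG : tr.Good O N δ T) (h0 : 0 ≤ δ) {w w' : ℕ} (h1 : 0 < w')
    (h2 : w' < w) (hw : w ≤ T) : |∑ b ∈ N, tr.xi w b * (tr.kb w' b - 1 / 2)| ≤ δ * N.card := by
  refine ip_two hG hw ((h.u_lt w' h1).trans h2) ((h.v_lt w' h1).trans h2)
    (r := -tr.be w') (s := -(1 - tr.be w')) ?_ h0 fun b => by unfold kb; ring
  rw [abs_neg, abs_neg, abs_of_nonneg (h.be0 w'), abs_of_nonneg (sub_nonneg.2 (h.be1 w'))]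
  linarith

lemma ip_pb (h : tr.WF) (hG : tr.Good O N δ T) (h0 : 0 ≤ δ) {w : ℕ} (h1 : 0 < w) (hw : w ≤ T) :
    |∑ b ∈ N, tr.xi w b * (tr.pb w b - 1 / 2)| ≤ δ * N.card := by
  refine ip_two hG hw (h.u_lt w h1) (h.v_lt w h1) (r := 1 - tr.al w - tr.be w)
    (s := tr.be w - tr.al w) ?_ h0 fun b => by unfold pb kb; ring
  have := h.al0 w
  have := h.al1 w
  have := h.be0 w
  have := h.be1 w
  rcases abs_cases (1 - tr.al w - tr.be w) with a | a <;>
    rcases abs_cases (tr.be w - tr.al w) with a' | a' <;> linarith [a.1, a'.1]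

lemma ip_XX (h : tr.WF) (hG : tr.Good O N δ T) (hN : N.Nonempty) (h0 : 0 ≤ δ) {t : ℕ}
    (h1 : τ ≤ t) (h2 : t < z) (hz : z ≤ T) :
    |∑ b ∈ N, tr.xi (t + 1) b * tr.XX (tr.pi τ z) b τ t| ≤ 3 * (δ * N.card) := by
  have hD : 0 ≤ δ * N.card := by positivity
  have e : ∑ b ∈ N, tr.xi (t + 1) b * tr.XX (tr.pi τ z) b τ t =
      ∑ b ∈ N, tr.xi (t + 1) b * yy tr t z b - ∑ b ∈ N, tr.xi (t + 1) b * yy tr τ z b -
        ∑ w ∈ Ioc τ t, tr.pi τ z w * tr.al w *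
          ∑ b ∈ N, tr.xi (t + 1) b * (tr.kb w b - 1 / 2) := by
    simp only [yy_evolve h h1 h2.le, mul_sub (tr.xi _ _) _ (Finset.sum _ _),
      mul_sub (tr.xi _ _) (yy _ _ _ _), sum_sub_distrib, mul_sum]
    rw [sum_comm]
    congr 1
    exact sum_congr rfl fun w _ => sum_congr rfl fun b _ => by ring
  have a1 := ip_yy h hG h0 (w := t + 1) (t := t) (by omega) (by omega) z
  have a2 := ip_yy h hG h0 (w := t + 1) (t := τ) (by omega) (by omega) z
  have a3 : |∑ w ∈ Ioc τ t, tr.pi τ z w * tr.al w *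
      ∑ b ∈ N, tr.xi (t + 1) b * (tr.kb w b - 1 / 2)| ≤ δ * N.card := by
    refine (abs_sum_le_sum_abs _ _).trans ?_
    refine (sum_le_sum (g := fun w => tr.pi τ z w * tr.al w * (δ * N.card)) fun w hw => ?_).trans ?_
    · have hp := mul_nonneg (pi0 h τ z w) (h.al0 w)
      have := mem_Ioc.1 hw
      rw [abs_mul, abs_of_nonneg hp]
      exact mul_le_mul_of_nonneg_left (ip_kb h hG h0 (by omega) (by omega) (by omega)) hp
    · rw [← sum_mul]
      have b1 := kap_split tr h1 h2.le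
      have b2 := kap_nonneg h t z
      have b3 := kap1 h hN.choose τ z
      have := mul_le_mul_of_nonneg_right
        (show ∑ w ∈ Ioc τ t, tr.pi τ z w * tr.al w ≤ 1 by linarith) hD
      linarith
  rw [e, abs_le] at *
  constructor <;> linarith [a1.1, a1.2, a2.1, a2.2, a3.1, a3.2]

lemma xi_sq (tr : Tr n) (w : ℕ) (b : Fin n) :
    tr.xi w b ^ 2 = tr.vr w b - 2 * (tr.xi w b * (tr.pb w b - 1 / 2)) := by
  have := bt_mul_one_sub tr w b
  unfold xi vr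
  linear_combination -this

/-- (G0). -/
lemma G0 (h : tr.WF) (hG : tr.Good O N δ T) (hN : N.Nonempty) (h0 : 0 ≤ δ) (hz : z ≤ T) {t : ℕ}
    (h1 : τ ≤ t) : t ≤ z → |∑ b ∈ N, tr.XX (tr.pi τ z) b τ t ^ 2 -
      ∑ w ∈ Ioc τ t, tr.pi τ z w ^ 2 * ∑ b ∈ N, tr.vr w b| ≤ 8 * (δ * N.card) * ((t : ℝ) - τ) := by
  have hD : 0 ≤ δ * N.card := by positivity
  induction t, h1 using Nat.le_induction with
  | base => intro _; simp [XX]
  | succ t h1 ih =>
    intro h2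
    have ih := ih (by omega)
    have a1 := ip_XX h hG hN h0 h1 (show t < z by omega) hz
    have a2 := ip_pb h hG h0 (w := t + 1) (by omega) (by omega)
    have e : ∑ b ∈ N, tr.XX (tr.pi τ z) b τ (t + 1) ^ 2 = ∑ b ∈ N, tr.XX (tr.pi τ z) b τ t ^ 2 +
        2 * (tr.pi τ z (t + 1) * ∑ b ∈ N, tr.xi (t + 1) b * tr.XX (tr.pi τ z) b τ t) +
        tr.pi τ z (t + 1) ^ 2 * ∑ b ∈ N, tr.vr (t + 1) b -
        2 * (tr.pi τ z (t + 1) ^ 2 * ∑ b ∈ N, tr.xi (t + 1) b * (tr.pb (t + 1) b - 1 / 2)) := by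
      simp only [mul_sum, ← sum_add_distrib, ← sum_sub_distrib]
      refine sum_congr rfl fun b _ => ?_
      have e1 : tr.XX (tr.pi τ z) b τ (t + 1) =
          tr.XX (tr.pi τ z) b τ t + tr.pi τ z (t + 1) * tr.xi (t + 1) b := sum_Ioc_succ_top h1 _
      rw [e1]
      linear_combination tr.pi τ z (t + 1) ^ 2 * xi_sq tr (t + 1) b
    have p0 := pi0 h τ z (t + 1)
    have p1 := pi1 h τ z (t + 1)
    have b1 : |tr.pi τ z (t + 1) * ∑ b ∈ N, tr.xi (t + 1) b * tr.XX (tr.pi τ z) b τ t| ≤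
        3 * (δ * N.card) := by
      rw [abs_mul, abs_of_nonneg p0]
      exact (mul_le_of_le_one_left (abs_nonneg _) p1).trans a1
    have b2 : |tr.pi τ z (t + 1) ^ 2 * ∑ b ∈ N, tr.xi (t + 1) b * (tr.pb (t + 1) b - 1 / 2)| ≤
        δ * N.card := by
      rw [abs_mul, abs_of_nonneg (sq_nonneg _)]
      exact (mul_le_of_le_one_left (abs_nonneg _) (pow_le_one₀ p0 p1)).trans a2
    rw [e, sum_Ioc_succ_top h1]
    push_cast
    rw [abs_le] at *
    constructor <;> linarith [ih.1, ih.2, b1.1, b1.2, b2.1, b2.2]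

lemma G0' (h : tr.WF) (hG : tr.Good O N δ T) (hN : N.Nonempty) (h0 : 0 ≤ δ) (hz : z ≤ T)
    (hT : z ≤ τ + T') (h1 : τ ≤ z) : |∑ b ∈ N, tr.XX (tr.pi τ z) b τ z ^ 2 -
      tr.vv N τ z * N.card| ≤ 8 * δ * T' * N.card := by
  have hc : (0 : ℝ) < N.card := by exact_mod_cast hN.card_pos
  have e : tr.vv N τ z * N.card = ∑ w ∈ Ioc τ z, tr.pi τ z w ^ 2 * ∑ b ∈ N, tr.vr w b := by
    unfold vv VV
    rw [sum_mul]
    exact sum_congr rfl fun w _ => by field_simp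
  rw [e]
  refine (G0 h hG hN h0 hz h1 le_rfl).trans ?_
  have h2 : (z : ℝ) ≤ τ + T' := by exact_mod_cast hT
  have := mul_le_mul_of_nonneg_left (show (z : ℝ) - τ ≤ T' by linarith)
    (show 0 ≤ 8 * (δ * N.card) by positivity)
  linarith

lemma XX_eq (h : tr.WF) (h1 : τ ≤ z) (b : Fin n) : tr.XX (tr.pi τ z) b τ z =
    tr.bt z b - tr.x1 τ z b - ∑ w ∈ Ioc τ z, tr.pi τ z w * (tr.al w * tr.kb w b) := by
  have e1 := evolve h le_rfl h1 z b
  rw [x1_top tr le_rfl] at e1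
  simp only [mul_add, sum_add_distrib] at e1
  unfold XX
  linarith

end GeoX

open GeoX

/-- (G1). `g x = mean_O bt x ≥ 1/2 - δ` for all `x ≤ T`; `flow_id` with `F = g`. -/
theorem kill_bound (h : tr.WF) (hG : tr.Good O N δ T) (hN : tr.Norm O) (hO : O.Nonempty)
    (h0 : 0 ≤ δ) (h1 : δ ≤ 1 / 4) (hz : z ≤ T) (hT : z ≤ τ + T')
    (hr : ∀ b ∈ O, tr.c z b = true) : tr.kap τ z ≤ 4 * δ * T' := by
  rcases lt_or_ge z τ with hτ | hτ
  · rw [kap, Ioc_eq_empty (by omega), sum_empty]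
    positivity
  have hc : (0 : ℝ) < O.card := by exact_mod_cast hO.card_pos
  have hg : ∀ x ≤ T, (1 / 2 - δ) * O.card ≤ ∑ b ∈ O, tr.bt x b := by
    intro x hx
    rcases Nat.eq_zero_or_pos x with rfl | hx0
    · have := hN.n0
      nlinarith
    · have a1 := hN.nw x hx0
      have a2 := (abs_le.1 (hG.gO x hx0 hx)).1
      simp only [xi, sum_sub_distrib] at a2
      linarith
  have hk : ∀ w ∈ Ioc τ z, ∑ b ∈ O, tr.kb w b ≤ (1 / 2 + δ) * O.card := by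
    intro w hw
    have hw := mem_Ioc.1 hw
    have b1 := h.u_lt w (by omega)
    have b2 := h.v_lt w (by omega)
    have a1 := mul_le_mul_of_nonneg_left (hg (tr.u w) (by omega)) (h.be0 w)
    have a2 := mul_le_mul_of_nonneg_left (hg (tr.v w) (by omega)) (sub_nonneg.2 (h.be1 w))
    simp only [kb, sum_add_distrib, ← mul_sum, sum_sub_distrib, sum_const, nsmul_eq_mul]
    linarith
  have a1 : ∑ b ∈ O, tr.kap τ z ≤ ∑ b ∈ O, (tr.XX (tr.pi τ z) b τ z +
      ∑ w ∈ Ioc τ z, tr.pi τ z w * (tr.al w * tr.kb w b)) := sum_le_sum fun b hb => by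
    have e1 := XX_eq h hτ b
    have e2 := mass h τ z b
    have e3 := x0_nonneg h τ z b
    have e4 : tr.bt z b = 1 := by simp [bt, hr b hb]
    linarith
  have a2 : ∑ b ∈ O, tr.XX (tr.pi τ z) b τ z ≤ δ * O.card * T' := by
    unfold XX
    rw [sum_comm]
    simp only [← mul_sum]
    exact sum_pi_le h hT (by positivity) fun w hw =>
      (abs_le.1 (hG.gO w (by have := mem_Ioc.1 hw; omega) (by have := mem_Ioc.1 hw; omega))).2
  have a3 : ∑ b ∈ O, ∑ w ∈ Ioc τ z, tr.pi τ z w * (tr.al w * tr.kb w b) ≤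
      tr.kap τ z * ((1 / 2 + δ) * O.card) := by
    rw [sum_comm, kap, sum_mul]
    refine sum_le_sum fun w hw => ?_
    simp only [← mul_sum, ← mul_assoc]
    rw [mul_assoc (_ * _)]
    exact mul_le_mul_of_nonneg_left (hk w hw) (mul_nonneg (pi0 h τ z w) (h.al0 w))
  rw [sum_add_distrib, sum_const, nsmul_eq_mul] at a1
  have a4 := kap_nonneg h τ z
  have a5 := mul_le_mul_of_nonneg_left h1 a4
  have a6 : tr.kap τ z * O.card ≤ (δ * T' + tr.kap τ z * (1 / 2 + δ)) * O.card := by linarith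
  have := le_of_mul_le_mul_right a6 hc
  linarith

/-- (G2). -/
theorem vv_le (h : tr.WF) (hG : tr.Good O N δ T) (hN : N.Nonempty) (h0 : 0 ≤ δ)
    (hz : z ≤ T) (hT : z ≤ τ + T') : tr.vv N τ z ≤ 1 + 8 * δ * T' := by
  rcases lt_or_ge z τ with hτ | hτ
  · rw [vv, Ioc_eq_empty (by omega), sum_empty]
    positivity
  have hc : (0 : ℝ) < N.card := by exact_mod_cast hN.card_pos
  have a1 := (abs_le.1 (G0' h hG hN h0 hz hT hτ)).1
  have a2 : ∑ b ∈ N, tr.XX (tr.pi τ z) b τ z ^ 2 ≤ ∑ b ∈ N, (1 : ℝ) := sum_le_sum fun b _ => by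
    have e1 := XX_eq h hτ b
    have e2 := mass h τ z b
    have e3 := x0_nonneg h τ z b
    have e4 := x1_nonneg h τ z b
    have e5 := kill_le h (t := z) le_rfl z b (τ := τ)
    have e6 := bt_nonneg tr z b
    have e7 := bt_le_one tr z b
    exact (sq_le_one_iff_abs_le_one _).2 (abs_le.2 ⟨by linarith [e5.2], by linarith [e5.1]⟩)
  rw [sum_const, nsmul_eq_mul] at a2
  exact le_of_mul_le_mul_right (by linarith) hc

/-- (G3). -/
theorem low_v (h : tr.WF) (hG : tr.Good O N δ T) (hN : N.Nonempty) (h0 : 0 ≤ δ)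
    (hz : z ≤ T) (hT : z ≤ τ + T') :
    (∑ b ∈ N, tr.x0 τ z b * tr.x1 τ z b) / N.card ≤
      tr.vv N τ z + 10 * δ * T' + 2 * tr.kap τ z := by
  have hk := kap_nonneg h τ z
  rcases lt_or_ge z τ with hτ | hτ
  · rw [vv, Ioc_eq_empty (by omega), sum_empty, sum_eq_zero fun b _ => by
      rw [x0_top tr hτ.le, x1_top tr hτ.le, mul_comm, bt_mul_one_sub], zero_div]
    positivity
  have hc : (0 : ℝ) < N.card := by exact_mod_cast hN.card_pos
  have a1 := (abs_le.1 (G0' h hG hN h0 hz hT hτ)).2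
  have a2 : ∑ b ∈ N, tr.XX (tr.pi τ z) b τ z * yy tr τ z b ≤ δ * N.card * T' := by
    unfold XX
    simp only [sum_mul, mul_assoc]
    rw [sum_comm]
    simp only [← mul_sum, ← mul_assoc δ]
    exact sum_pi_le h hT (by positivity) fun w hw =>
      (abs_le.1 (ip_yy h hG h0 (mem_Ioc.1 hw).1 ((mem_Ioc.1 hw).2.trans hz) z)).2
  have a3 : ∑ b ∈ N, tr.x0 τ z b * tr.x1 τ z b ≤ ∑ b ∈ N, (tr.XX (tr.pi τ z) b τ z ^ 2 +
      2 * (tr.XX (tr.pi τ z) b τ z * yy tr τ z b) + 2 * tr.kap τ z) := sum_le_sum fun b _ => by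
    have e1 := XX_eq h hτ b
    have e2 := mass h τ z b
    have e3 := x0_nonneg h τ z b
    have e4 := x1_nonneg h τ z b
    have e5 := kill_le h (t := z) le_rfl z b (τ := τ)
    have e6 := bt_nonneg tr z b
    have e7 := bt_le_one tr z b
    have e8 := bt_mul_one_sub tr z b
    have e9 := kap1 h b τ z
    rw [yy_eq, e1]
    generalize ∑ w ∈ Ioc τ z, tr.pi τ z w * (tr.al w * tr.kb w b) = k at *
    rw [show tr.x0 τ z b = 1 - tr.x1 τ z b - tr.kap τ z by linarith]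
    generalize tr.x1 τ z b = x at *
    generalize tr.kap τ z = κ at *
    generalize tr.bt z b = c at *
    nlinarith [e5.1, e5.2, sq_nonneg (k - κ / 2), mul_nonneg e6 e5.1, mul_nonneg e6 hk,
      mul_nonneg (sub_nonneg.2 e7) (sub_nonneg.2 e5.2), mul_nonneg hk (sub_nonneg.2 e9),
      mul_nonneg e5.1 (sub_nonneg.2 e5.2), mul_nonneg (sub_nonneg.2 e7) e5.1,
      mul_nonneg e6 (sub_nonneg.2 e5.2), mul_nonneg (sub_nonneg.2 e7) hk]
  rw [sum_add_distrib, sum_add_distrib, ← mul_sum, sum_const, nsmul_eq_mul] at a3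
  rw [div_le_iff₀ hc]
  linarith

end Tr

end Pool.Agent.P.MP_5c258a_lc.Bin
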