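import Pool.Agent.P.MP_5c258a_lc.Bin.Par
import Pool.Agent.P.MP_5c258a_lc.Bin.Geo

/-! Task AVG: budgets and the choice of `d j k` (paper section 4, BUDGETS). -/

namespace Pool.Agent.P.MP_5c258a_lc.Bin

open Finset Classical

variable {n : ℕ}

lemma avg_pR {r : ℕ} (hr : 2 ≤ r) : 16 ≤ pR r :=
  le_trans (by norm_num) (Nat.pow_le_pow_left hr 20)

lemma avg_pH {r : ℕ} (hr : 2 ≤ r) : 16 ≤ pH r := by
  have h1 := avg_pR hr
  calc 16 ≤ pR r := h1
    _ = pR r ^ 1 := (pow_one _).symm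
    _ ≤ pR r ^ (pK r + 1) := Nat.pow_le_pow_right (by omega) (by omega)

lemma avg_ph_le {r k : ℕ} (hr : 2 ≤ r) (hk : 1 ≤ k) : ph r k ≤ pR r ^ k := by
  rw [← pS_mul_ph hk]
  exact Nat.le_mul_of_pos_left _ (Nat.pow_pos (by omega))

lemma avg_ph_succ {r k : ℕ} (hr : 2 ≤ r) : 3 * pR r ^ k ≤ ph r (k + 1) := by
  have h1 : 3 ≤ r ^ 2 := le_trans (by norm_num) (Nat.pow_le_pow_left hr 2)
  rw [ph, Nat.add_sub_cancel, mul_comm]
  exact Nat.mul_le_mul_left _ h1

lemma avg_len {r k e : ℕ} (hr : 2 ≤ r) (he : 1 ≤ e) (hk : e < k) :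
    2 * pR r ^ (k - e) ≤ pR r ^ k := by
  have h1 := avg_pR hr
  have h2 : pR r ^ (k - e) ≤ pR r ^ (k - 1) := Nat.pow_le_pow_right (by omega) (by omega)
  have h3 : pR r ^ k = pR r ^ (k - 1) * pR r := by rw [← pow_succ]; congr 1; omega
  have h4 := Nat.mul_le_mul_left (pR r ^ (k - 1)) h1
  omega

lemma avg_delta {r T' : ℕ} (hr : 2 ≤ r) (h : T' ≤ pH r ^ 82) :
    ((pH r : ℝ) ^ 83)⁻¹ * T' ≤ 1 / pH r := by
  have h0 : (16 : ℝ) ≤ pH r := by exact_mod_cast avg_pH hr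
  have h1 : (T' : ℝ) ≤ (pH r : ℝ) ^ 82 := by exact_mod_cast h
  have h2 : (0 : ℝ) < pH r := by linarith
  calc ((pH r : ℝ) ^ 83)⁻¹ * T' ≤ ((pH r : ℝ) ^ 83)⁻¹ * (pH r : ℝ) ^ 82 := by gcongr
    _ = 1 / pH r := by field_simp

lemma avg_vv {r : ℕ} (hr : 2 ≤ r) {tr : Tr n} {O N : Finset (Fin n)}
    {col : ℕ → Fin (pL r) → Fin n} {t : ℕ → ℕ} {T T' : ℕ} (h : Blk r tr O N col t T T')
    {j z : ℕ} (hj : j ≤ pH r) (hz : z ≤ t (pH r)) : tr.vv N (t j) z ≤ 2 := by
  have h0 : (16 : ℝ) ≤ pH r := by exact_mod_cast avg_pH hr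
  have h1 := h.mono 0 j (by omega) hj
  have h2 := h.fast
  have h3 := Tr.vv_le (τ := t j) (T' := T') h.wf h.good h.Nne (by positivity) (hz.trans h.top)
    (by omega)
  have h4 := avg_delta hr h.T'_le
  have h5 : 1 / (pH r : ℝ) ≤ 1 / 16 := one_div_le_one_div_of_le (by norm_num) h0
  linarith

theorem ctx_of_blk {r : ℕ} (hr : 2 ≤ r) {tr : Tr n} {O N : Finset (Fin n)}
    {col : ℕ → Fin (pL r) → Fin n} {t : ℕ → ℕ} {T T' : ℕ} (h : Blk r tr O N col t T T')
    {j k d : ℕ} (hj : j < pJ r) (k1 : 1 ≤ k) (kK : k ≤ pK r) (d1 : pR r ^ k ≤ d)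
    (d2 : d < 2 * pR r ^ k)
    (hb : BudOK r tr N (t j) (t (j + d + ph r k)) (lev r t j k d)) :
    Ctx r tr N (col j) (t j) (t (j + d + ph r k)) k (lev r t j k d) := by
  have hJ := pJ_add hr kK
  have hh := avg_ph_le hr k1
  have hR := avg_pR hr
  have hRk : 0 < pR r ^ k := Nat.pow_pos (by omega)
  have hI : j + d + ph r k ≤ pH r := by omega
  have ha := h.mono _ _ hI le_rfl
  have h0 : (16 : ℝ) ≤ pH r := by exact_mod_cast avg_pH hr
  have hj0 := h.mono 0 j (by omega) (by omega)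
  have hf := h.fast
  have hT := h.top
  have hδ := avg_delta hr h.T'_le
  have h4 : ∀ i : ℕ, 1 ≤ 4 ^ i := fun i => Nat.pow_pos (by norm_num)
  have hlo : ∀ i, t j ≤ lev r t j k d i := by
    intro i
    unfold lev
    split_ifs with h1 h2
    · exact h.mono _ _ (by omega) (by omega)
    · exact le_rfl
    · have := avg_len hr (h4 i) (not_le.1 h2)
      exact h.mono _ _ (by omega) (by omega)
  refine ⟨h.wf, k1, kK, ?_, hlo, ?_, ?_, ?_, ?_, ?_, hb, h.typ j (by omega),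
    h.rightW _ hI j (by omega)⟩
  · refine antitone_nat_of_succ_le fun i => ?_
    by_cases h2 : k ≤ 4 ^ (i + 1)
    · refine le_trans (le_of_eq ?_) (hlo i)
      rw [lev, if_neg (by omega), if_pos h2]
    have h3 := avg_len hr (h4 (i + 1)) (not_le.1 h2)
    have h5 : 4 ^ i ≤ 4 ^ (i + 1) := Nat.pow_le_pow_right (by norm_num) (by omega)
    rw [lev, if_neg (by omega), if_neg h2, lev]
    split_ifs with h6 h7
    · exact h.mono _ _ (by omega) (by omega)
    · omega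
    · have h8 := avg_len hr (h4 i) (not_le.1 h7)
      have h9 : pR r ^ (k - 4 ^ (i + 1)) ≤ pR r ^ (k - 4 ^ i) :=
        Nat.pow_le_pow_right (by omega) (by omega)
      exact h.mono _ _ (by omega) (by omega)
  · rw [lev, if_pos rfl]
    exact h.mono _ _ (by omega) hI
  · intro i h1 h2
    rw [lev, if_neg (by omega), if_pos h2]
  · have h1 : ((pH r : ℝ) ^ 83)⁻¹ ≤ 1 / 4 := by
      rw [one_div]
      refine inv_anti₀ (by norm_num) (le_trans (by linarith) (le_self_pow₀ (by linarith) (by norm_num)))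
    have h2 := Tr.kill_bound (τ := t j) (T' := T') h.wf h.good h.norm h.One (by positivity) h1
      (ha.trans hT) (by omega) (h.rightO _ hI)
    have h3 : 4 / (pH r : ℝ) = 4 * (1 / pH r) := by ring
    linarith
  · exact fun z hz => avg_vv hr h (by omega) (hz.trans ha)
  · intro z hz
    have h2 := Tr.low_v (τ := t j) (T' := T') (z := z) h.wf h.good h.Nne (by positivity)
      (by omega) (by omega)
    have h3 : 10 / (pH r : ℝ) = 10 * (1 / pH r) := by ring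
    linarith

/-- Cumulative budget of the target `t I` up to the time `t m`. -/
noncomputable def avgG (tr : Tr n) (N : Finset (Fin n)) (t : ℕ → ℕ) (I m : ℕ) : ℝ :=
  ∑ w ∈ Ioc (t 0) (t m), tr.pi (t 0) (t I) w ^ 2 * tr.VV N w

lemma avgG_nonneg {tr : Tr n} (h : tr.WF) (N : Finset (Fin n)) (t : ℕ → ℕ) (I m : ℕ) :
    0 ≤ avgG tr N t I m :=
  sum_nonneg fun w _ => mul_nonneg (sq_nonneg _) (Tr.VV_nonneg h N w)

lemma avgG_mono {tr : Tr n} (h : tr.WF) (N : Finset (Fin n)) {t : ℕ → ℕ} (I : ℕ) {m m' : ℕ}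
    (hm : t m ≤ t m') : avgG tr N t I m ≤ avgG tr N t I m' :=
  sum_le_sum_of_subset_of_nonneg (Ioc_subset_Ioc_right hm)
    fun w _ _ => mul_nonneg (sq_nonneg _) (Tr.VV_nonneg h N w)

lemma avgG_sub (tr : Tr n) (N : Finset (Fin n)) {t : ℕ → ℕ} (I : ℕ) {j m : ℕ}
    (h0 : t 0 ≤ t j) (hm : t j ≤ t m) :
    ∑ w ∈ Ioc (t j) (t m), tr.pi (t j) (t I) w ^ 2 * tr.VV N w =
      avgG tr N t I m - avgG tr N t I j := by
  rw [avgG, avgG, ← sum_Ioc_consecutive _ h0 hm, add_sub_cancel_left]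
  refine sum_congr rfl fun w hw => ?_
  rw [Tr.pi_congr tr h0 _ (mem_Ioc.1 hw).1.le]

lemma avgG_le {r : ℕ} (hr : 2 ≤ r) {tr : Tr n} {O N : Finset (Fin n)}
    {col : ℕ → Fin (pL r) → Fin n} {t : ℕ → ℕ} {T T' : ℕ} (h : Blk r tr O N col t T T')
    {I : ℕ} (hI : I ≤ pH r) (m : ℕ) : avgG tr N t I m ≤ 2 := by
  refine le_trans ?_ (avg_vv hr h (j := 0) (by omega) (h.mono _ _ hI le_rfl))
  rcases le_total (t m) (t I) with h1 | h1
  · exact avgG_mono h.wf N I h1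
  · refine (sum_subset (Ioc_subset_Ioc_right h1) fun w h2 h3 => ?_).ge
    rw [mem_Ioc] at h2 h3
    rw [Tr.pi_of_lt tr _ (show t I < w by omega)]
    simp

lemma avg_tele (g : ℕ → ℝ) (h0 : ∀ m, 0 ≤ g m) (h2 : ∀ m, g m ≤ 2) (J l : ℕ) :
    ∑ j ∈ range J, (g (j + l) - g j) ≤ 2 * l := by
  have e1 := sum_range_add g J l
  have e2 := sum_range_add g l J
  rw [add_comm l J] at e2
  have e3 : ∑ j ∈ range l, g (J + j) ≤ ∑ _j ∈ range l, (2 : ℝ) := sum_le_sum fun j _ => h2 _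
  have e4 : 0 ≤ ∑ j ∈ range l, g j := sum_nonneg fun j _ => h0 _
  have e5 : ∑ j ∈ range J, g (j + l) = ∑ j ∈ range J, g (l + j) :=
    sum_congr rfl fun j _ => by rw [add_comm]
  simp only [sum_const, card_range, nsmul_eq_mul] at e3
  rw [sum_sub_distrib]
  linarith

lemma avg_shift (F : ℕ → ℝ) (H c : ℕ) (h0 : ∀ I ≤ H, 0 ≤ F I) (s : Finset ℕ)
    (hs : ∀ x ∈ s, x + c ≤ H) : ∑ x ∈ s, F (x + c) ≤ ∑ I ∈ range (H + 1), F I := by
  have e : ∑ x ∈ s, F (x + c) = ∑ y ∈ s.map (addRightEmbedding c), F y := by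
    rw [sum_map]; rfl
  rw [e]
  refine sum_le_sum_of_subset_of_nonneg (fun y hy => ?_)
    fun I hI _ => h0 I (by have := mem_range.1 hI; omega)
  obtain ⟨x, hx, rfl⟩ := mem_map.1 hy
  have := hs x hx
  exact mem_range.2 (by simp only [addRightEmbedding_apply]; omega)

/-- The budget of the ring of scale `k` below the target `I`. -/
noncomputable def avgE (r : ℕ) (tr : Tr n) (N : Finset (Fin n)) (t : ℕ → ℕ) (k I : ℕ) : ℝ :=
  avgG tr N t I (I - ph r k) - avgG tr N t I (I - ph r (k + 1))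

/-- The cost of the choice `d`. -/
noncomputable def avgC (r : ℕ) (tr : Tr n) (N : Finset (Fin n)) (col : ℕ → Fin (pL r) → Fin n)
    (t : ℕ → ℕ) (j k d : ℕ) : ℝ :=
  if BudOK r tr N (t j) (t (j + d + ph r k)) (lev r t j k d)
    then (nbad tr (col j) (t (j + d)) (t (j + d + ph r k)) : ℝ) else pL r

lemma avgE_nonneg {r : ℕ} (hr : 2 ≤ r) {tr : Tr n} {O N : Finset (Fin n)}
    {col : ℕ → Fin (pL r) → Fin n} {t : ℕ → ℕ} {T T' : ℕ} (h : Blk r tr O N col t T T')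
    {k I : ℕ} (k1 : 1 ≤ k) (hI : I ≤ pH r) : 0 ≤ avgE r tr N t k I := by
  have h1 := avg_ph_le hr k1
  have h2 := avg_ph_succ (k := k) hr
  exact sub_nonneg.2 (avgG_mono h.wf N I (h.mono _ _ (by omega) (by omega)))

lemma avgC_le {r : ℕ} (hr : 2 ≤ r) {tr : Tr n} {O N : Finset (Fin n)}
    {col : ℕ → Fin (pL r) → Fin n} {t : ℕ → ℕ} {T T' : ℕ} (h : Blk r tr O N col t T T')
    {j k d : ℕ} (hj : j < pJ r) (k1 : 1 ≤ k) (kK : k ≤ pK r)
    (d2 : d < 2 * pR r ^ k) :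
    avgC r tr N col t j k d ≤ nbad tr (col j) (t (j + d)) (t (j + d + ph r k)) +
      pL r * ((r : ℝ) ^ 12 * avgE r tr N t k (j + d + ph r k) +
        ∑ i ∈ (range k).filter fun i => 1 ≤ i ∧ 4 ^ i < k, (r : ℝ) ^ (12 * 4 ^ i) *
          (avgG tr N t (j + d + ph r k) (j + 2 * pR r ^ (k - 4 ^ i)) -
            avgG tr N t (j + d + ph r k) j)) := by
  have hJ := pJ_add hr kK
  have hh := avg_ph_le hr k1
  have hs := avg_ph_succ (k := k) hr
  have hI : j + d + ph r k ≤ pH r := by omega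
  have hj0 := h.mono 0 j (by omega) (by omega)
  have h4 : ∀ i : ℕ, 1 ≤ 4 ^ i := fun i => Nat.pow_pos (by norm_num)
  have hE := avgE_nonneg hr h k1 hI
  have hr0 : 0 < r := by omega
  have hS : ∀ i ∈ (range k).filter fun i => 1 ≤ i ∧ 4 ^ i < k, 0 ≤ (r : ℝ) ^ (12 * 4 ^ i) *
      (avgG tr N t (j + d + ph r k) (j + 2 * pR r ^ (k - 4 ^ i)) -
        avgG tr N t (j + d + ph r k) j) := by
    intro i hi
    have := avg_len hr (h4 i) (mem_filter.1 hi).2.2
    exact mul_nonneg (by positivity)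
      (sub_nonneg.2 (avgG_mono h.wf N _ (h.mono _ _ (by omega) (by omega))))
  have hS0 := sum_nonneg hS
  have hE0 : 0 ≤ (r : ℝ) ^ 12 * avgE r tr N t k (j + d + ph r k) := by positivity
  unfold avgC
  split_ifs with hb
  · exact le_add_of_nonneg_right (by positivity)
  refine le_add_of_nonneg_of_le (by positivity) (le_mul_of_one_le_right (by positivity) ?_)
  unfold BudOK at hb
  push Not at hb
  obtain ⟨i, hi⟩ := hb
  have hm := rp_mul_pow hr0 (12 * 4 ^ i)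
  have hp : (0 : ℝ) < (r : ℝ) ^ (12 * 4 ^ i) := by positivity
  unfold lev at hi
  split_ifs at hi with h1 h2
  · subst h1
    rw [avgG_sub tr N _ hj0 (h.mono _ _ (by omega) (by omega))] at hi
    have h3 : avgG tr N t (j + d + ph r k) (j + d + ph r k - ph r (k + 1)) ≤
        avgG tr N t (j + d + ph r k) j := avgG_mono h.wf N _ (h.mono _ _ (by omega) (by omega))
    have h5 : rp r (12 * 4 ^ 0) ≤ avgE r tr N t k (j + d + ph r k) := by
      rw [avgE, Nat.add_sub_cancel]; linarith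
    have h6 := mul_le_mul_of_nonneg_left h5 hp.le
    simp only [pow_zero, mul_one] at h6 hm
    linarith
  · rw [Ioc_self, sum_empty] at hi
    exact absurd hi (rp_pos hr0 _).not_gt
  · have h3 := avg_len hr (h4 i) (not_le.1 h2)
    rw [avgG_sub tr N _ hj0 (h.mono _ _ (by omega) (by omega))] at hi
    have h5 : i < 4 ^ i := Nat.lt_pow_self (by norm_num)
    have h6 := single_le_sum hS (a := i) (mem_filter.2 ⟨mem_range.2 (by omega), by omega, by omega⟩)
    have h7 := mul_le_mul_of_nonneg_left hi.le hp.le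
    linarith

lemma avg_pow {r k e : ℕ} (hr : 2 ≤ r) (he : 4 ≤ e) (hk : e < k) :
    r ^ (12 * e) * pR r ^ (k - e) * r ^ 14 ≤ pR r ^ k := by
  rw [pR, ← pow_mul, ← pow_mul, ← pow_add, ← pow_add]
  exact Nat.pow_le_pow_right (by omega) (by omega)

/-- The total cost of one scale. -/
lemma avgC_sum {r : ℕ} (hr : 2 ≤ r) {tr : Tr n} {O N : Finset (Fin n)}
    {col : ℕ → Fin (pL r) → Fin n} {t : ℕ → ℕ} {T T' : ℕ} (h : Blk r tr O N col t T T')
    {k : ℕ} (k1 : 1 ≤ k) (kK : k ≤ pK r) (hl : LockOK r tr col t k) :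
    ∑ j ∈ range (pJ r), ∑ d ∈ Ico (pR r ^ k) (2 * pR r ^ k), avgC r tr N col t j k d ≤
      (pR r : ℝ) ^ k * (pL r * (pJ r / r + (r : ℝ) ^ 12 *
        ∑ I ∈ range (pH r + 1), avgE r tr N t k I + 4 * (pH r + 1) / r)) := by
  have hJ := pJ_add hr kK
  have hh := avg_ph_le hr k1
  have hr0 : (0 : ℝ) < r := by exact_mod_cast (by omega : 0 < r)
  have h4 : ∀ i : ℕ, 1 ≤ 4 ^ i := fun i => Nat.pow_pos (by norm_num)
  refine le_trans (sum_le_sum fun j hj => sum_le_sum fun d hd =>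
    avgC_le hr h (mem_range.1 hj) k1 kK (mem_Ico.1 hd).2) ?_
  unfold LockOK at hl
  push_cast at hl
  have hb : ∑ j ∈ range (pJ r), ∑ d ∈ Ico (pR r ^ k) (2 * pR r ^ k),
      avgE r tr N t k (j + d + ph r k) ≤
      (pR r : ℝ) ^ k * ∑ I ∈ range (pH r + 1), avgE r tr N t k I := by
    rw [sum_comm]
    refine le_trans (sum_le_card_nsmul _ _ (∑ I ∈ range (pH r + 1), avgE r tr N t k I)
      fun d hd => ?_) (le_of_eq ?_)
    · simp only [add_assoc]
      refine avg_shift _ _ _ (fun I hI => avgE_nonneg hr h k1 hI) _ fun j hj => ?_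
      have := mem_range.1 hj
      have := mem_Ico.1 hd
      omega
    · rw [Nat.card_Ico, nsmul_eq_mul, show 2 * pR r ^ k - pR r ^ k = pR r ^ k by omega]
      push_cast; rfl
  have hc : ∀ i ∈ (range k).filter fun i => 1 ≤ i ∧ 4 ^ i < k,
      ∑ j ∈ range (pJ r), ∑ d ∈ Ico (pR r ^ k) (2 * pR r ^ k), (r : ℝ) ^ (12 * 4 ^ i) *
        (avgG tr N t (j + d + ph r k) (j + 2 * pR r ^ (k - 4 ^ i)) -
          avgG tr N t (j + d + ph r k) j) ≤ (pR r : ℝ) ^ k * (4 * (pH r + 1) / r ^ 14) := by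
    intro i hi
    obtain ⟨-, i1, i2⟩ := mem_filter.1 hi
    have h1 := avg_len hr (h4 i) i2
    have h2 : ∑ j ∈ range (pJ r), ∑ d ∈ Ico (pR r ^ k) (2 * pR r ^ k),
        (avgG tr N t (j + d + ph r k) (j + 2 * pR r ^ (k - 4 ^ i)) -
          avgG tr N t (j + d + ph r k) j) ≤
        (pH r + 1) * (2 * ((2 * pR r ^ (k - 4 ^ i) : ℕ) : ℝ)) := by
      refine le_trans (sum_le_sum (g := fun j => ∑ I ∈ range (pH r + 1),
        (avgG tr N t I (j + 2 * pR r ^ (k - 4 ^ i)) - avgG tr N t I j)) fun j hj => ?_) ?_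
      · have hj' := mem_range.1 hj
        have e : ∀ d, j + d + ph r k = d + (j + ph r k) := fun d => by omega
        simp only [e]
        refine avg_shift (fun I => avgG tr N t I (j + 2 * pR r ^ (k - 4 ^ i)) - avgG tr N t I j)
          _ _ (fun I _ => sub_nonneg.2 (avgG_mono h.wf N _ (h.mono _ _ (by omega) (by omega))))
          _ fun d hd => ?_
        have := mem_Ico.1 hd
        omega
      · rw [sum_comm]
        refine le_trans (sum_le_card_nsmul _ _ (2 * ((2 * pR r ^ (k - 4 ^ i) : ℕ) : ℝ))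
          fun I hI => avg_tele _ (avgG_nonneg h.wf N t I)
            (avgG_le hr h (by have := mem_range.1 hI; omega)) _ _) (le_of_eq ?_)
        rw [card_range, nsmul_eq_mul]
        push_cast; rfl
    have h3 : (r : ℝ) ^ (12 * 4 ^ i) * (pR r : ℝ) ^ (k - 4 ^ i) * r ^ 14 ≤ (pR r : ℝ) ^ k := by
      exact_mod_cast avg_pow hr
        (le_trans (by norm_num) (Nat.pow_le_pow_right (by norm_num : 0 < 4) i1)) i2
    simp only [← mul_sum]
    refine le_trans (mul_le_mul_of_nonneg_left h2 (by positivity)) ?_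
    push_cast
    rw [← mul_div_assoc, le_div_iff₀ (by positivity)]
    have h5 : (0 : ℝ) ≤ 4 * (pH r + 1) := by positivity
    have h6 := mul_le_mul_of_nonneg_right h3 h5
    linarith
  have hd := sum_le_card_nsmul _ _ _ hc
  have hk : (((range k).filter fun i => 1 ≤ i ∧ 4 ^ i < k).card : ℝ) ≤ (r : ℝ) ^ 13 := by
    have : ((range k).filter fun i => 1 ≤ i ∧ 4 ^ i < k).card ≤ r ^ 13 :=
      le_trans (card_filter_le _ _) (by rw [card_range]; exact kK)
    exact_mod_cast this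
  rw [nsmul_eq_mul] at hd
  have he : (r : ℝ) ^ 13 * ((pR r : ℝ) ^ k * (4 * (pH r + 1) / r ^ 14)) =
      (pR r : ℝ) ^ k * (4 * (pH r + 1) / r) := by field_simp
  have hf := hd.trans ((mul_le_mul_of_nonneg_right hk (by positivity)).trans he.le)
  rw [sum_comm] at hf
  rw [sum_congr rfl fun j _ => sum_comm] at hf
  simp only [sum_add_distrib, ← mul_sum]
  have hL : (0 : ℝ) ≤ pL r := by positivity
  have h7 := mul_le_mul_of_nonneg_left hb (show (0 : ℝ) ≤ (r : ℝ) ^ 12 by positivity)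
  have h8 := mul_le_mul_of_nonneg_left (add_le_add h7 hf) hL
  have h9 : (pJ r : ℝ) * pL r * pR r ^ k / r = (pR r : ℝ) ^ k * (pL r * (pJ r / r)) := by ring
  linarith

lemma avgE_sum {r : ℕ} (hr : 2 ≤ r) {tr : Tr n} {O N : Finset (Fin n)}
    {col : ℕ → Fin (pL r) → Fin n} {t : ℕ → ℕ} {T T' : ℕ} (h : Blk r tr O N col t T T')
    {I : ℕ} (hI : I ≤ pH r) (K : ℕ) : ∑ k ∈ Icc 1 K, avgE r tr N t k I ≤ 2 := by
  have e : ∀ K, ∑ k ∈ Icc 1 K, avgE r tr N t k I =
      avgG tr N t I (I - ph r 1) - avgG tr N t I (I - ph r (K + 1)) := by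
    intro K
    induction K with
    | zero => simp
    | succ K ih => rw [sum_Icc_succ_top (by omega), ih, avgE]; ring
  have h1 := avgG_le hr h hI (I - ph r 1)
  have h2 := avgG_nonneg h.wf N t I (I - ph r (K + 1))
  rw [e]; linarith

theorem choose_d : ∃ r0 : ℕ, ∀ r ≥ r0, ∀ {n : ℕ} {tr : Tr n} {O N : Finset (Fin n)}
    {col : ℕ → Fin (pL r) → Fin n} {t : ℕ → ℕ} {T T' : ℕ}, Blk r tr O N col t T T' →
    (∀ k, 1 ≤ k → k ≤ pK r → LockOK r tr col t k) →
    ∃ d : ℕ → ℕ → ℕ, (∀ j k, pR r ^ k ≤ d j k ∧ d j k < 2 * pR r ^ k) ∧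
      ∑ j ∈ range (pJ r), ∑ k ∈ Icc 1 (pK r),
        (if BudOK r tr N (t j) (t (j + d j k + ph r k)) (lev r t j k (d j k))
          then (nbad tr (col j) (t (j + d j k)) (t (j + d j k + ph r k)) : ℝ) else pL r) ≤
        1 / 100 * pJ r * pK r * pL r := by
  refine ⟨1900, fun r hr0 n tr O N col t T T' h hl => ?_⟩
  have hr : 2 ≤ r := by omega
  have hR := avg_pR hr
  have hRk : ∀ k, 0 < pR r ^ k := fun k => Nat.pow_pos (by omega)
  have hch : ∀ j k, ∃ d ∈ Ico (pR r ^ k) (2 * pR r ^ k),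
      ∀ d' ∈ Ico (pR r ^ k) (2 * pR r ^ k), avgC r tr N col t j k d ≤ avgC r tr N col t j k d' :=
    fun j k => exists_min_image _ _ (nonempty_Ico.2 (by have := hRk k; omega))
  choose d hd hmin using hch
  refine ⟨d, fun j k => mem_Ico.1 (hd j k), ?_⟩
  change ∑ j ∈ range (pJ r), ∑ k ∈ Icc 1 (pK r), avgC r tr N col t j k (d j k) ≤ _
  have hρ : (1900 : ℝ) ≤ r := by exact_mod_cast hr0
  have h1 : ∀ k ∈ Icc 1 (pK r), ∑ j ∈ range (pJ r), avgC r tr N col t j k (d j k) ≤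
      pL r * (pJ r / r + (r : ℝ) ^ 12 *
        ∑ I ∈ range (pH r + 1), avgE r tr N t k I + 4 * (pH r + 1) / r) := by
    intro k hk
    obtain ⟨k1, kK⟩ := mem_Icc.1 hk
    have h2 : (0 : ℝ) < (pR r : ℝ) ^ k := by exact_mod_cast hRk k
    refine le_of_mul_le_mul_left (le_trans ?_ (avgC_sum hr h k1 kK (hl k k1 kK))) h2
    rw [mul_sum]
    refine sum_le_sum fun j _ => le_trans (le_of_eq ?_) (card_nsmul_le_sum _ _ _ (hmin j k))
    rw [Nat.card_Ico, nsmul_eq_mul, show 2 * pR r ^ k - pR r ^ k = pR r ^ k by omega]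
    push_cast; rfl
  have h3 : ∑ k ∈ Icc 1 (pK r), ∑ I ∈ range (pH r + 1), avgE r tr N t k I ≤ (pH r + 1) * 2 := by
    rw [sum_comm]
    refine le_trans (sum_le_card_nsmul _ _ 2 fun I hI =>
      avgE_sum hr h (by have := mem_range.1 hI; omega) _) (le_of_eq ?_)
    rw [card_range, nsmul_eq_mul]
    push_cast; rfl
  have h4 : (pH r : ℝ) + 1 ≤ 3 * pJ r := by
    have h5 := avg_pH hr
    have : pH r + 1 ≤ 3 * pJ r := by unfold pJ; omega
    exact_mod_cast this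
  rw [sum_comm]
  refine (sum_le_sum h1).trans ?_
  simp only [sum_add_distrib, ← mul_sum, sum_const, Nat.card_Icc, Nat.add_sub_cancel,
    nsmul_eq_mul]
  have hK : (pK r : ℝ) = (r : ℝ) ^ 12 * r := by rw [pK]; push_cast; ring
  have hJ : (0 : ℝ) ≤ pJ r := by positivity
  have h12 : (0 : ℝ) < (r : ℝ) ^ 12 := by positivity
  have e1 : (pK r : ℝ) * (pJ r / r) = (r : ℝ) ^ 12 * pJ r := by rw [hK]; field_simp
  have e2 : (pK r : ℝ) * (4 * (pH r + 1) / r) = (r : ℝ) ^ 12 * (4 * (pH r + 1)) := by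
    rw [hK]; field_simp
  have e3 : 1 / 100 * (pJ r : ℝ) * pK r * pL r = pL r * ((r : ℝ) ^ 12 * (pJ r * (r / 100))) := by
    rw [hK]; ring
  rw [e1, e2, e3, ← mul_add, ← mul_add]
  refine mul_le_mul_of_nonneg_left (mul_le_mul_of_nonneg_left ?_ h12.le) (by positivity)
  have h6 := mul_le_mul_of_nonneg_left (show (19 : ℝ) ≤ r / 100 by linarith) hJ
  linarith

end Pool.Agent.P.MP_5c258a_lc.Bin
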