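import Pool.Agent.P.MP_5c258a_lc.Bin.Hyp

/-! Task BET: the betting lemma and GOOD (paper section 1). -/

namespace Pool.Agent.P.MP_5c258a_lc.Bin

open Finset Classical

lemma ExL_add {X : Type} [Fintype X] {st : List X → X → ℝ} (a b : ℕ) (xs : List X)
    (φ : List X → ℝ) : Ex st (a + b) xs φ = Ex st a xs fun l => Ex st b l φ := by
  induction a generalizing xs with
  | zero => simp
  | succ a ih =>
    rw [Nat.add_right_comm, Ex_succ, Ex_succ]
    simp only [ih]

lemma ExL_sum {X ι : Type} [Fintype X] {st : List X → X → ℝ} (s : Finset ι) (t : ℕ) (xs : List X)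
    (a : ι → ℝ) (φ : ι → List X → ℝ) :
    Ex st t xs (fun l => ∑ i ∈ s, a i * φ i l) = ∑ i ∈ s, a i * Ex st t xs (φ i) := by
  have : (fun l => ∑ i ∈ s, a i * φ i l) = ∑ i ∈ s, a i • φ i := by
    funext l; simp
  rw [this, map_sum]
  simp

variable {n : ℕ}

section app

variable (A : BAlg n) (O : Finset (Fin n)) (xs zs : List (Fin n → Bool))

lemma parW_le (i : Fin 2) (w : ℕ) : parW A xs i w ≤ w - 1 := min_le_right _ _

lemma parW_app (i : Fin 2) {w : ℕ} (h : w ≤ xs.length) :
    parW A (xs ++ zs) i w = parW A xs i w := by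
  simp only [parW, List.take_append_of_le_length h]

lemma nc_app (w : ℕ) : w < xs.length → nc A O (xs ++ zs) w = nc A O xs w := by
  induction w using Nat.strong_induction_on with
  | _ w ih =>
    intro h
    cases w with
    | zero => rw [nc_zero, nc_zero, List.getD_append _ _ _ _ h]
    | succ w =>
      have h0 := parW_le A xs 0 (w + 1)
      have h1 := parW_le A xs 1 (w + 1)
      rw [nc_succ, nc_succ, List.getD_append _ _ _ _ h, parW_app A xs zs 0 h.le,
        parW_app A xs zs 1 h.le, ih _ (by omega) (by omega), ih _ (by omega) (by omega)]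

lemma nc_par_app (i : Fin 2) {w : ℕ} (h : w ≤ xs.length) (h0 : 0 < xs.length) :
    nc A O (xs ++ zs) (parW A (xs ++ zs) i w) = nc A O xs (parW A xs i w) := by
  have := parW_le A xs i w
  rw [parW_app A xs zs i h, nc_app A O xs zs _ (by omega)]

/-- The cut trajectory at the next step when the next normalised string is `y`. -/
noncomputable def cutAt (y : Fin n → Bool) : Tr n where
  c := fun i => if i < xs.length then nc A O xs i else fun _ => false
  u := fun i => if i ≤ xs.length then parW A xs 0 i else 0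
  v := fun i => if i ≤ xs.length then parW A xs 1 i else 0
  al := fun i => if i < xs.length then (nrm A O xs).al i else if i = xs.length then
    alf (nc A O xs (parW A xs 0 i)) (nc A O xs (parW A xs 1 i)) y else 0
  be := fun i => if i < xs.length then (nrm A O xs).be i else if i = xs.length then
    bet (nc A O xs (parW A xs 0 i)) (nc A O xs (parW A xs 1 i)) y else 0

lemma cut_app (h0 : 0 < xs.length) :
    (nrm A O (xs ++ zs)).cut xs.length = cutAt A O xs (nc A O (xs ++ zs) xs.length) := by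
  simp only [Tr.cut, cutAt, nrm, Tr.mk.injEq]
  refine ⟨?_, ?_, ?_, ?_, ?_⟩ <;> funext i
  · split_ifs with h
    exacts [nc_app A O xs zs i h, rfl]
  · split_ifs with h
    exacts [parW_app A xs zs 0 h, rfl]
  · split_ifs with h
    exacts [parW_app A xs zs 1 h, rfl]
  all_goals
    rcases lt_trichotomy i xs.length with h | rfl | h
    · rw [if_pos h.le, if_pos h, nc_par_app A O xs zs 0 h.le h0, nc_par_app A O xs zs 1 h.le h0,
        nc_app A O xs zs i h]
    · rw [if_pos le_rfl, if_neg (lt_irrefl _), if_pos rfl, nc_par_app A O xs zs 0 le_rfl h0,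
        nc_par_app A O xs zs 1 le_rfl h0]
    · rw [if_neg (by omega), if_neg (by omega), if_neg (by omega)]

lemma nc_last (h0 : 0 < xs.length) (y : Fin n → Bool) :
    nc A O (xs ++ [y] ++ zs) xs.length = nz O (nc A O xs (parW A xs 0 xs.length))
      (nc A O xs (parW A xs 1 xs.length)) y := by
  obtain ⟨w, hw⟩ := Nat.exists_eq_succ_of_ne_zero h0.ne'
  rw [nc_app A O _ zs _ (by simp), hw, nc_succ, ← Nat.succ_eq_add_one, ← hw,
    nc_par_app A O xs _ 0 le_rfl h0, nc_par_app A O xs _ 1 le_rfl h0]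
  simp

lemma cutAt_pb (h0 : 0 < xs.length) (y : Fin n → Bool) (b : Fin n) :
    (cutAt A O xs y).pb xs.length b =
      pbf (nc A O xs (parW A xs 0 xs.length)) (nc A O xs (parW A xs 1 xs.length))
        (alf (nc A O xs (parW A xs 0 xs.length)) (nc A O xs (parW A xs 1 xs.length)) y)
        (bet (nc A O xs (parW A xs 0 xs.length)) (nc A O xs (parW A xs 1 xs.length)) y) b := by
  have h1 : parW A xs 0 xs.length < xs.length := by have := parW_le A xs 0 xs.length; omega
  have h2 : parW A xs 1 xs.length < xs.length := by have := parW_le A xs 1 xs.length; omega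
  rw [pb_eq_pbf]
  simp [cutAt, h1, h2]

lemma cutAt_orb {y y' : Fin n → Bool} (h : y' ∈ orb (nc A O xs (parW A xs 0 xs.length))
    (nc A O xs (parW A xs 1 xs.length)) y) : cutAt A O xs y' = cutAt A O xs y := by
  simp only [cutAt, Tr.mk.injEq, true_and]
  refine ⟨?_, ?_⟩ <;> funext i <;> split_ifs with h1 h2 <;> try rfl
  · rw [h2, alf_orb h]
  · rw [h2, bet_orb h]

end app

lemma pbf_mem (u v y : Fin n → Bool) (b : Fin n) :
    0 ≤ pbf u v (alf u v y) (bet u v y) b ∧ pbf u v (alf u v y) (bet u v y) b ≤ 1 := by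
  unfold pbf
  split_ifs <;> constructor <;>
    linarith [alf_nonneg u v y, alf_le_one u v y, bet_nonneg u v y, bet_le_one u v y]

namespace Bettor

variable {St Opt : Type} [Fintype Opt] (B : Bettor n St Opt)

/-- The wealth summed over all option sequences. -/
noncomputable def tot (tr : Tr n) : ℕ → ℕ → St → ℝ
  | 0, _, _ => 1
  | m + 1, t, s => ∑ o, B.fac tr s (t + 1) o *
      tot tr m (t + 1) (B.upd s (tr.cut (t + 1)) (t + 1) o (tr.c (t + 1)))

theorem tot_realize : True := by have := @tot.eq_def; trivial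

lemma fac_nonneg (tr : Tr n) (s : St) (w : ℕ) (o : Opt) : 0 ≤ B.fac tr s w o :=
  mul_nonneg (B.wt0 _ _ _ _) (Real.sqrt_nonneg _)

lemma tot_nonneg (tr : Tr n) : ∀ m t s, 0 ≤ B.tot tr m t s
  | 0, _, _ => zero_le_one
  | m + 1, _, _ => sum_nonneg fun _ _ => mul_nonneg (B.fac_nonneg _ _ _ _) (tot_nonneg tr m _ _)

lemma wealth_mul_le (tr : Tr n) (t0 : ℕ) (o : ℕ → Opt) : ∀ r m,
    B.wealth tr t0 o r * B.tot tr m (t0 + r) (B.run tr t0 o r) ≤ B.tot tr (r + m) t0 B.init
  | 0, m => by simp [wealth, run_zero]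
  | r + 1, m => by
    refine le_trans ?_ ((wealth_mul_le tr t0 o r (m + 1)).trans (le_of_eq (by congr 1; omega)))
    rw [wealth, prod_range_succ, mul_assoc]
    refine mul_le_mul_of_nonneg_left ?_ (prod_nonneg fun _ _ => B.fac_nonneg _ _ _ _)
    exact single_le_sum (f := fun o' => B.fac tr (B.run tr t0 o r) (t0 + r + 1) o' *
      B.tot tr m (t0 + r + 1) (B.upd (B.run tr t0 o r) (tr.cut (t0 + r + 1)) (t0 + r + 1) o'
        (tr.c (t0 + r + 1))))
      (fun _ _ => mul_nonneg (B.fac_nonneg _ _ _ _) (B.tot_nonneg _ _ _ _)) (mem_univ (o r))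

lemma tot_mean (A : BAlg n) (O : Finset (Fin n)) (k : ℕ) :
    ∀ (m t : ℕ) (s : St) (xs : List (Fin n → Bool)), xs.length = t + 1 →
      Ex (bstep A f0) (m + k) xs (fun l => B.tot (nrm A O l) m t s) ≤ 1
  | 0, _, _, _, _ => (Ex_const (bstep_sum A f0) _ _ _).le
  | m + 1, t, s, xs, hl => by
    have h0 : 0 < xs.length := by omega
    have hx : xs ≠ [] := List.length_pos_iff.1 h0
    set u := nc A O xs (parW A xs 0 xs.length) with hu
    set v := nc A O xs (parW A xs 1 xs.length) with hv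
    let Ψ : (Fin n → Bool) → ℝ := fun y => ∑ o, B.wt s (cutAt A O xs y) xs.length o *
      √(∏ b, B.G s (cutAt A O xs y) xs.length o b (y b))
    have h1 : ∀ y, Ex (bstep A f0) (m + k) (xs ++ [y])
        (fun l => B.tot (nrm A O l) (m + 1) t s) ≤ Ψ (nz O u v y) := fun y => by
      refine le_trans (Ex_mono' (bstep_nonneg A f0) _ _ _ (fun l =>
        ∑ o, (B.wt s (cutAt A O xs (nz O u v y)) xs.length o *
          √(∏ b, B.G s (cutAt A O xs (nz O u v y)) xs.length o b (nz O u v y b))) *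
          B.tot (nrm A O l) m (t + 1) (B.upd s (cutAt A O xs (nz O u v y)) xs.length o (nz O u v y)))
        fun zs _ => le_of_eq ?_) ?_
      · have e1 : (nrm A O (xs ++ [y] ++ zs)).c (t + 1) = nz O u v y := hl ▸ nc_last A O xs zs h0 y
        have e2 : (nrm A O (xs ++ [y] ++ zs)).cut (t + 1) = cutAt A O xs (nz O u v y) := by
          rw [← nc_last A O xs zs h0 y, List.append_assoc, ← cut_app A O xs _ h0, hl]
        simp only [tot, fac, e1, e2, hl]
      · rw [ExL_sum]
        exact sum_le_sum fun o _ => mul_le_of_le_one_right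
          (mul_nonneg (B.wt0 _ _ _ _) (Real.sqrt_nonneg _))
          (tot_mean A O k m (t + 1) _ _ (by simp [hl]))
    rw [Nat.add_right_comm, Ex_succ]
    refine (sum_le_sum fun y _ => mul_le_mul_of_nonneg_left (h1 y) (bstep_nonneg A f0 _ _)).trans ?_
    have hp : ∀ i, parW A xs i xs.length = A.par (xs.map f0) i := fun i => by
      have := A.par_lt (xs.map f0) i (by simpa using hx)
      simp only [parW, List.take_length, List.length_map] at this ⊢
      omega
    simp only [bstep, if_neg hx]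
    refine step_le _ _ O u v (by rw [hu, hp]; exact nc_cases _ _ _ _)
      (by rw [hv, hp]; exact nc_cases _ _ _ _) Ψ 1 fun y0 => ?_
    rw [sum_congr rfl (g := fun y => ∑ o, B.wt s (cutAt A O xs y0) xs.length o *
      √(∏ b, B.G s (cutAt A O xs y0) xs.length o b (y b))) fun y hy => by
        simp only [Ψ, cutAt_orb A O xs hy], sum_comm]
    have hb := fun b => pbf_mem u v y0 b
    simp only [hu, hv, ← cutAt_pb A O xs h0] at hb
    refine le_trans (sum_le_sum fun o _ => ?_) (le_trans (mul_sum _ _ _).ge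
      (mul_le_mul_of_nonneg_left (B.wt1 s (cutAt A O xs y0) xs.length) (Nat.cast_nonneg _)))
    rw [← mul_sum, mul_comm]
    refine mul_le_mul_of_nonneg_right (lemmaH u v y0 _ (fun b x => B.G0 _ _ _ _ _ _ (hb b).1 (hb b).2)
      fun b => ?_) (B.wt0 _ _ _ _)
    rw [hu, hv, ← cutAt_pb A O xs h0]
    exact B.G1 _ _ _ _ _ (hb b).1 (hb b).2

end Bettor

/-- Betting lemma. -/
theorem bet_bound {St Opt : Type} [Fintype Opt] (B : Bettor n St Opt) (A : BAlg n)
    (O : Finset (Fin n)) (t0 m T : ℕ) (h : t0 + m ≤ T) (g : ℝ) :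
    Pr A (T + 1) (fun xs => ∃ o, Real.exp g ≤ B.wealth (nrm A O xs) t0 o m) ≤ Real.exp (-g) := by
  obtain ⟨k, rfl⟩ := Nat.exists_eq_add_of_le h
  have h1 : Ex (bstep A f0) (t0 + m + k + 1) [] (fun l => B.tot (nrm A O l) m t0 B.init) ≤ 1 := by
    rw [show t0 + m + k + 1 = t0 + 1 + (m + k) by omega, ExL_add]
    refine le_trans (Ex_mono' (bstep_nonneg A f0) _ _ _ (fun _ => 1) fun zs hz => ?_)
      (Ex_const (bstep_sum A f0) _ _ _).le
    exact B.tot_mean A O k m t0 _ _ (by simpa using hz)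
  have h2 := (Ex (bstep A f0) (t0 + m + k + 1) []).map_smul (Real.exp (-g))
    fun l => B.tot (nrm A O l) m t0 B.init
  refine le_trans (Ex_mono (bstep_nonneg A f0) _ _ _ _ fun xs => ?_)
    (h2.le.trans (mul_le_of_le_one_right (Real.exp_pos _).le h1))
  simp only [Pi.smul_apply, smul_eq_mul]
  split_ifs with h3
  · obtain ⟨o, h3⟩ := h3
    have := B.wealth_mul_le (nrm A O xs) t0 o m 0
    simp only [Bettor.tot, mul_one, add_zero] at this
    calc (1 : ℝ) = Real.exp (-g) * Real.exp g := by rw [← Real.exp_add]; simp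
      _ ≤ _ := mul_le_mul_of_nonneg_left (h3.trans this) (Real.exp_pos _).le
  · exact mul_nonneg (Real.exp_pos _).le (B.tot_nonneg _ _ _ _)

lemma bet_hoeff {p s δ : ℝ} (h0 : 0 ≤ p) (h1 : p ≤ 1) (hs : |s| ≤ 2 * δ) (hδ : δ ≤ 1 / 2) :
    p * Real.exp (s * (1 - p) - δ ^ 2) + (1 - p) * Real.exp (s * (0 - p) - δ ^ 2) ≤ 1 := by
  have e : ∀ x : ℝ, |x| ≤ 1 → Real.exp (s * x) ≤ 1 + s * x + (s * x) ^ 2 := fun x hx => by
    have := Real.abs_exp_sub_one_sub_id_le (x := s * x)
      (by rw [abs_mul]; exact mul_le_one₀ (by linarith) (abs_nonneg _) hx)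
    linarith [(abs_le.1 this).2]
  have a1 := mul_le_mul_of_nonneg_left (e (1 - p) (abs_le.2 ⟨by linarith, by linarith⟩)) h0
  have a2 := mul_le_mul_of_nonneg_left (e (0 - p) (abs_le.2 ⟨by linarith, by linarith⟩))
    (sub_nonneg.2 h1)
  have a3 : s ^ 2 ≤ (2 * δ) ^ 2 := sq_le_sq' (abs_le.1 hs).1 (abs_le.1 hs).2
  have a4 : s ^ 2 * (p * (1 - p)) ≤ δ ^ 2 := by nlinarith [sq_nonneg (p - 1 / 2), sq_nonneg s]
  rw [Real.exp_sub, Real.exp_sub, ← mul_div_assoc, ← mul_div_assoc, ← add_div,
    div_le_one (Real.exp_pos _)]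
  nlinarith [Real.add_one_le_exp (δ ^ 2)]

lemma bet_cut_pb {tr : Tr n} (h : tr.WF) {w : ℕ} (hw : 0 < w) (b : Fin n) :
    (tr.cut w).pb w b = tr.pb w b := by
  simp [pb_eq_pbf, Tr.cut, h.u_lt w hw, h.v_lt w hw]

lemma dev_prob (A : BAlg n) (O N : Finset (Fin n)) {T w : ℕ} (hw : 0 < w) (hT : w ≤ T)
    (om : Tr n → Fin n → ℝ) (ho : ∀ tr b, |om tr b| ≤ 1) {δ : ℝ} (h0 : 0 ≤ δ) (h1 : δ ≤ 1 / 2)
    {m : ℕ} (hN : m ≤ N.card) :
    Pr A (T + 1) (fun xs => δ * N.card <
      ∑ b ∈ N, (nrm A O xs).xi w b * om ((nrm A O xs).cut w) b) ≤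
      Real.exp (-(δ ^ 2 * m / 2)) := by
  let B : Bettor n Unit Unit :=
    { init := ()
      wt := fun _ _ _ _ => 1
      G := fun _ tr w _ b x => if b ∈ N then
        Real.exp (2 * δ * om tr b * ((if x = true then 1 else 0) - tr.pb w b) - δ ^ 2) else 1
      upd := fun _ _ _ _ _ => ()
      wt0 := fun _ _ _ _ => zero_le_one
      wt1 := fun _ _ _ => by simp
      G0 := fun _ _ _ _ _ _ _ _ => by split_ifs <;> positivity
      G1 := fun _ tr w _ b p0 p1 => by
        by_cases hb : b ∈ N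
        · simp only [hb, if_true, Bool.false_eq_true, if_false]
          refine bet_hoeff p0 p1 ?_ h1
          rw [abs_mul, abs_of_nonneg (by linarith : 0 ≤ 2 * δ)]
          exact mul_le_of_le_one_right (by linarith) (ho _ _)
        · simp [hb] }
  refine (Pr_mono A _ fun xs _ h => ⟨fun _ => (), ?_⟩).trans
    (bet_bound B A O (w - 1) 1 T (by omega) (δ ^ 2 * m / 2))
  have e : w - 1 + 0 + 1 = w := by omega
  simp only [Bettor.wealth, range_one, prod_singleton, Bettor.fac, B, e, one_mul,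
    bet_cut_pb (nrm_WF A O xs) hw]
  refine Real.le_sqrt_of_sq_le ?_
  rw [prod_ite_mem, univ_inter, ← Real.exp_nat_mul, ← Real.exp_sum, Real.exp_le_exp,
    sum_sub_distrib, sum_const, nsmul_eq_mul]
  have h2 := mul_le_mul_of_nonneg_left h.le (by linarith : 0 ≤ 2 * δ)
  have h3 : (m : ℝ) * δ ^ 2 ≤ N.card * δ ^ 2 :=
    mul_le_mul_of_nonneg_right (Nat.cast_le.2 hN) (sq_nonneg _)
  rw [mul_sum] at h2
  rw [sum_congr rfl (g := fun b => 2 * δ * ((nrm A O xs).xi w b * om ((nrm A O xs).cut w) b))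
    fun b _ => by simp only [Tr.xi, Tr.bt]; ring]
  push_cast
  nlinarith

/-- GOOD. -/
theorem good_prob (A : BAlg n) (O N : Finset (Fin n)) (T : ℕ) (δ : ℝ) (h0 : 0 ≤ δ)
    (h1 : δ ≤ 1 / 2) (m : ℕ) (hO : m ≤ O.card) (hN : m ≤ N.card) :
    Pr A (T + 1) (fun xs => ¬(nrm A O xs).Good O N δ T) ≤
      4 * (T + 1) ^ 2 * Real.exp (-(δ ^ 2 * m / 2)) := by
  have hs : ∀ s : Bool, |(if s = true then 1 else -1 : ℝ)| = 1 := fun s => by cases s <;> simp
  have := Pr_exists A (T + 1) (Icc 1 T ×ˢ range (T + 1) ×ˢ (univ : Finset Bool)) fun i xs =>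
    δ * N.card < ∑ b ∈ N, (nrm A O xs).xi i.1 b * ((if i.2.2 = true then 1 else -1) *
      (((nrm A O xs).cut i.1).bt i.2.1 b - 1 / 2)) ∨
    δ * O.card < ∑ b ∈ O, (nrm A O xs).xi i.1 b * if i.2.2 = true then 1 else -1
  refine (Pr_mono A _ fun xs _ h => ?_).trans (this.trans ((sum_le_card_nsmul _ _
    (2 * Real.exp (-(δ ^ 2 * m / 2))) fun ⟨w, x, s⟩ hi => ?_).trans ?_))
  · by_contra hc
    simp only [not_exists, not_and, not_or, not_lt, Prod.forall, mem_product, mem_Icc, mem_range,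
      mem_univ, and_true, and_imp, Bool.forall_bool, if_true, Bool.false_eq_true, if_false,
      one_mul, mul_one, neg_mul, mul_neg, sum_neg_distrib] at hc
    refine h ⟨fun w hw hT x hx => ?_, fun w hw hT => ?_⟩
    · have a := hc w x
      have e : ∀ b, ((nrm A O xs).cut w).bt x b = (nrm A O xs).bt x b := fun b => by
        simp [Tr.bt, Tr.cut, hx]
      simp only [e] at a
      exact abs_le.2 ⟨by linarith [(a.1 hw hT (by omega)).1], (a.2 hw hT (by omega)).1⟩
    · have a := hc w 0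
      exact abs_le.2 ⟨by linarith [(a.1 hw hT (by omega)).2], (a.2 hw hT (by omega)).2⟩
  · rw [nsmul_eq_mul, ← mul_assoc]
    refine mul_le_mul_of_nonneg_right ?_ (Real.exp_pos _).le
    simp only [card_product, Nat.card_Icc, card_range, card_univ, Fintype.card_bool,
      add_tsub_cancel_right]
    push_cast
    nlinarith [(Nat.cast_nonneg T : (0 : ℝ) ≤ T)]
  · have hw := mem_Icc.1 (mem_product.1 hi).1
    refine (Pr_or A _ _ _).trans ?_
    rw [two_mul]
    refine add_le_add (dev_prob A O N hw.1 hw.2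
      (fun tr b => (if s = true then 1 else -1) * (tr.bt x b - 1 / 2)) (fun tr b => ?_) h0 h1 hN)
      (dev_prob A O O hw.1 hw.2 (fun _ _ => if s = true then 1 else -1) (fun _ _ => (hs s).le)
        h0 h1 hO)
    rw [abs_mul, hs, one_mul, Tr.bt]
    split_ifs <;> norm_num [abs_le]

end Pool.Agent.P.MP_5c258a_lc.Bin
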