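import Pool.Agent.P.MP_5c258a_lc.Bin.Par

/-! Task DALT: the dichotomy for one good particle (paper section 4, DICHOTOMY). -/

namespace Pool.Agent.P.MP_5c258a_lc.Bin

open Finset Classical

section

variable {n : ℕ} {r : ℕ} {tr : Tr n} {N : Finset (Fin n)} {τ a : ℕ} {Tm : ℕ → ℕ}

lemma dalt_AA_gt (i w : ℕ) (h : AA r tr N τ Tm i w) : τ < w := h.1

lemma dalt_AA_mono (hr : 0 < r) (anti : Antitone Tm) (i w : ℕ) (h : AA r tr N τ Tm i w) :
    AA r tr N τ Tm (i + 1) w := by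
  refine ⟨h.1, ?_⟩
  rcases h.2 with h2 | h2
  · exact Or.inl (lt_of_le_of_lt (anti (Nat.le_succ i)) h2)
  · refine Or.inr (lt_of_le_of_lt (rp_anti hr ?_) h2)
    exact Nat.mul_le_mul_left 3 (Nat.pow_le_pow_right (by norm_num) (Nat.le_succ i))

lemma dalt_st_of_lt (tr : Tr n) (A : ℕ → Prop) {z x : ℕ} (hx : z < x) : tr.st A z x = 0 := by
  unfold Tr.st
  split_ifs
  · rfl
  · exact tr.gr_of_lt A hx

lemma dalt_ZZ_nonneg (h : tr.WF) (i z : ℕ) : 0 ≤ ZZ r tr N τ a Tm i z := by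
  cases i with
  | zero => rw [ZZ]; split_ifs <;> norm_num
  | succ i => rw [ZZ]; exact Tr.st_nonneg h _ _ _

lemma dalt_ZZ_zero (F : ℕ → ℝ) : ∑ z ∈ range (a + 1), ZZ r tr N τ a Tm 0 z * F z = F a := by
  rw [sum_eq_single a]
  · simp [ZZ]
  · intro z _ hz
    simp [ZZ, hz]
  · intro h
    exact absurd (mem_range.2 (Nat.lt_succ_self a)) h

/-- `Z_(i+1) = stop^(A_i) Z_i`. -/
lemma dalt_ZZ_succ (h : tr.WF) (hr : 0 < r) (anti : Antitone Tm) (i x : ℕ) :
    ZZ r tr N τ a Tm (i + 1) x =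
      ∑ z ∈ range (a + 1), ZZ r tr N τ a Tm i z * tr.st (AA r tr N τ Tm i) z x := by
  cases i with
  | zero => rw [dalt_ZZ_zero (fun z => tr.st (AA r tr N τ Tm 0) z x), ZZ]
  | succ i =>
    rw [ZZ, Tr.st_comp h (dalt_AA_mono hr anti i) a x]
    refine sum_congr rfl fun z _ => ?_
    rw [ZZ]

lemma dalt_ZZ_kap (h : tr.WF) (i : ℕ) :
    ∑ z ∈ range (a + 1), ZZ r tr N τ a Tm i z * tr.kap τ z ≤ tr.kap τ a := by
  cases i with
  | zero => rw [dalt_ZZ_zero (fun z => tr.kap τ z)]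
  | succ i =>
    refine le_trans (le_of_eq ?_) (Tr.kap_comp h (dalt_AA_gt (r := r) (tr := tr) (N := N) (Tm := Tm) i) a)
    refine sum_congr rfl fun z _ => ?_
    rw [ZZ]

lemma dalt_x0_le (h : tr.WF) (τ z : ℕ) (b : Fin n) : tr.x0 τ z b ≤ 1 := by
  have h1 := Tr.mass h τ z b
  have h2 := Tr.x1_nonneg h τ z b
  have h3 := Tr.kap_nonneg h τ z
  linarith

/-- One node of the bound `EG ≤ U + tau + y`. -/
lemma dalt_node (h : tr.WF) {A : ℕ → Prop} (hA : ∀ w, A w → τ < w) (z : ℕ) (b : Fin n) :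
    tr.x0 τ z b * Gz tr A z b ≤
      ∑ x ∈ range (z + 1), tr.st A z x * (tr.x0 τ x b * tr.bt x b) +
        tr.x0 τ z b * tr.x1 τ z b + tr.kap τ z := by
  have h1 : Gz tr A z b ≤ ∑ x ∈ range (z + 1), tr.st A z x * (tr.x0 τ x b * tr.bt x b) +
      tr.x1 τ z b + tr.kap τ z := by
    have e1 := Tr.x1_comp h hA z b
    have e2 := Tr.kap_comp h hA z
    have e3 : Gz tr A z b ≤ ∑ x ∈ range (z + 1), (tr.st A z x * (tr.x0 τ x b * tr.bt x b) +
        tr.st A z x * tr.x1 τ x b + tr.st A z x * tr.kap τ x) := by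
      unfold Gz
      refine sum_le_sum fun x _ => ?_
      have m := Tr.mass h τ x b
      have s0 := Tr.st_nonneg h A z x
      have b1 := tr.bt_le_one x b
      have k0 := Tr.kap_nonneg h τ x
      have y0 := Tr.x1_nonneg h τ x b
      have e4 : tr.bt x b ≤ tr.x0 τ x b * tr.bt x b + tr.x1 τ x b + tr.kap τ x := by
        have e5 : tr.x0 τ x b = 1 - (tr.x1 τ x b + tr.kap τ x) := by linarith
        have e6 := mul_nonneg (add_nonneg y0 k0) (sub_nonneg.2 b1)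
        rw [e5]
        nlinarith
      have e7 := mul_le_mul_of_nonneg_left e4 s0
      linarith
    rw [sum_add_distrib, sum_add_distrib] at e3
    linarith
  have h2 : 0 ≤ ∑ x ∈ range (z + 1), tr.st A z x * (tr.x0 τ x b * tr.bt x b) :=
    sum_nonneg fun x _ => mul_nonneg (Tr.st_nonneg h A z x)
      (mul_nonneg (Tr.x0_nonneg h τ x b) (tr.bt_nonneg x b))
  have h3 := Tr.x0_nonneg h τ z b
  have h4 := dalt_x0_le h τ z b
  have h5 := Tr.kap_nonneg h τ z
  have h6 := mul_le_mul_of_nonneg_left h1 h3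
  have h7 := mul_nonneg (sub_nonneg.2 h4) h2
  have h8 := mul_nonneg (sub_nonneg.2 h4) h5
  nlinarith

/-- `EG ≤ U_(i+1) + tau_i + kap`. -/
lemma dalt_EG (h : tr.WF) (hr : 0 < r) (anti : Antitone Tm) (i : ℕ) (b : Fin n) :
    (EZ r tr N τ a Tm i b fun z => Gz tr (AA r tr N τ Tm i) z b) ≤
      (EZ r tr N τ a Tm (i + 1) b fun z => tr.bt z b) +
        (EZ r tr N τ a Tm i b fun z => tr.x1 τ z b) + tr.kap τ a := by
  have h1 : (EZ r tr N τ a Tm (i + 1) b fun z => tr.bt z b) =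
      ∑ z ∈ range (a + 1), ZZ r tr N τ a Tm i z * ∑ x ∈ range (z + 1),
        tr.st (AA r tr N τ Tm i) z x * (tr.x0 τ x b * tr.bt x b) := by
    unfold EZ
    simp_rw [dalt_ZZ_succ h hr anti i, sum_mul]
    rw [sum_comm]
    refine sum_congr rfl fun z hz => ?_
    rw [mul_sum]
    have hsub : range (z + 1) ⊆ range (a + 1) := range_subset_range.2 (mem_range.1 hz)
    rw [← sum_subset hsub]
    · exact sum_congr rfl fun x _ => by ring
    · intro x _ hx
      rw [dalt_st_of_lt tr _ (by rw [mem_range] at hx; omega)]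
      ring
  have h2 := dalt_ZZ_kap (r := r) (N := N) (τ := τ) (a := a) (Tm := Tm) h i
  rw [h1]
  unfold EZ
  refine le_trans ?_ (add_le_add_right h2 _)
  rw [← sum_add_distrib, ← sum_add_distrib]
  refine sum_le_sum fun z _ => ?_
  have h3 := mul_le_mul_of_nonneg_left
    (dalt_node h (dalt_AA_gt (r := r) (tr := tr) (N := N) (τ := τ) (Tm := Tm) i) z b)
    (dalt_ZZ_nonneg (r := r) (N := N) (τ := τ) (a := a) (Tm := Tm) h i z)
  beta_reduce
  linarith

/-- `EP = U_(i+1)` at the level `i + 1`. -/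
lemma dalt_EP (lo : ∀ i, τ ≤ Tm i) (i : ℕ) (b : Fin n) :
    (EZ r tr N τ a Tm (i + 1) b fun z => tr.x1 (Tm i) z b) =
      EZ r tr N τ a Tm (i + 1) b fun z => tr.bt z b := by
  unfold EZ
  refine sum_congr rfl fun z _ => ?_
  by_cases hz : z ≤ Tm i
  · simp only [tr.x1_top hz b]
  · have hA : AA r tr N τ Tm i z := ⟨lt_of_le_of_lt (lo i) (not_le.1 hz), Or.inl (not_le.1 hz)⟩
    simp [ZZ, Tr.st, hA]

/-- At a trivial level `U` vanishes. -/
lemma dalt_U_zero {i : ℕ} (hi : Tm i = τ) (b : Fin n) :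
    (EZ r tr N τ a Tm (i + 1) b fun z => tr.bt z b) = 0 := by
  unfold EZ
  refine sum_eq_zero fun z _ => ?_
  by_cases hz : z ≤ τ
  · have h1 := tr.bt_mul_one_sub z b
    simp only [tr.x0_top hz b]
    linear_combination ZZ r tr N τ a Tm (i + 1) z * h1
  · have hA : AA r tr N τ Tm i z := ⟨not_le.1 hz, Or.inl (by rw [hi]; exact not_le.1 hz)⟩
    simp [ZZ, Tr.st, hA]

lemma dalt_sw_nonneg (tr : Tr n) (b : Fin n) (x : Option (ℕ × ℕ)) : 0 ≤ sw tr b x := by
  cases x with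
  | none => rw [sw]
  | some x => rw [sw]; exact sub_nonneg.2 (tr.bt_le_one _ b)

lemma dalt_sw_le (tr : Tr n) (b : Fin n) (x : Option (ℕ × ℕ)) : sw tr b x ≤ so x := by
  cases x with
  | none => rw [sw, so]
  | some x => rw [sw, so]; have := tr.bt_nonneg x.2 b; linarith

/-- The averaged pair inequality. -/
lemma dalt_pair {m : ℕ} (h : tr.WF) (lo : ∀ i, τ ≤ Tm i) (i : ℕ) (s : Fin m → Option (ℕ × ℕ))
    (b : Fin n) :
    Yh tr (Tm i) s b ≤ Gh tr (AA r tr N τ Tm i) s b +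
      tr.XX (qL r tr N τ Tm i s b) b τ (Tm i) + kh tr τ s := by
  have h1 : tr.XX (qL r tr N τ Tm i s b) b τ (Tm i) =
      (∑ j, sw tr b (s j) * tr.XX (fun w => if AA r tr N τ Tm i w then
        tr.gr (AA r tr N τ Tm i) (sz (s j)) w else 0) b τ (Tm i)) / m := by
    unfold Tr.XX qL
    simp_rw [mul_sum]
    rw [sum_comm, sum_div]
    refine sum_congr rfl fun w hw => ?_
    rw [div_mul_eq_mul_div, sum_mul]
    congr 1
    refine sum_congr rfl fun j _ => ?_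
    have hw' := mem_Ioc.1 hw
    have hiff : AA r tr N τ Tm i w ↔ rp r (3 * 4 ^ i) < tr.vv N τ w :=
      ⟨fun hA => hA.2.resolve_left (not_lt.2 hw'.2), fun hv => ⟨hw'.1, Or.inr hv⟩⟩
    by_cases hv : rp r (3 * 4 ^ i) < tr.vv N τ w
    · rw [if_pos hv, if_pos (hiff.2 hv)]; ring
    · rw [if_neg hv, if_neg (fun hA => hv (hiff.1 hA))]; ring
  rw [h1]
  unfold Yh Gh kh
  rw [← add_div, ← add_div, ← sum_add_distrib, ← sum_add_distrib]
  refine div_le_div_of_nonneg_right (sum_le_sum fun j _ => ?_) (Nat.cast_nonneg m)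
  have h2 := Tr.pair_id h (A := AA r tr N τ Tm i) (lo i) (dalt_AA_gt i)
    (fun w hw => ⟨lt_of_le_of_lt (lo i) hw, Or.inl hw⟩) (sz (s j)) b
  have h3 := mul_le_mul_of_nonneg_left h2 (dalt_sw_nonneg tr b (s j))
  have h4 := mul_le_mul_of_nonneg_right (dalt_sw_le tr b (s j)) (Tr.kap_nonneg h τ (sz (s j)))
  unfold Gz
  linarith

lemma dalt_dev {m : ℕ} {i : ℕ} {s : Fin m → Option (ℕ × ℕ)} {b : Fin n} {e : ℝ} (he : 0 ≤ e)
    (hd : dev r tr N τ a Tm i s b ≤ e ^ 2) :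
    (EZ r tr N τ a Tm i b fun z => tr.x1 (Tm (i - 1)) z b) - e ≤ Yh tr (Tm (i - 1)) s b ∧
      Gh tr (AA r tr N τ Tm i) s b ≤
        (EZ r tr N τ a Tm i b fun z => Gz tr (AA r tr N τ Tm i) z b) + e := by
  unfold dev at hd
  have h1 := abs_le_of_sq_le_sq' (le_trans (le_add_of_nonneg_right (sq_nonneg _)) hd) he
  have h2 := abs_le_of_sq_le_sq' (le_trans (le_add_of_nonneg_left (sq_nonneg _)) hd) he
  constructor
  · linarith [h1.1]
  · linarith [h2.2]

/-- A total rise of `2 s_i` gives the late or the early alternative. -/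
lemma dalt_split {m k : ℕ} {W : Fin (pL r) → Fin n} (hr : 0 < r) (h : Ctx r tr N W τ a k Tm)
    (i : ℕ) (s : Fin m → Option (ℕ × ℕ)) (b : Fin n)
    (hb : 2 * rp r (4 ^ i) ≤ tr.XX (qL r tr N τ Tm i s b) b τ (Tm i)) :
    Alt r tr N τ k Tm s i b := by
  have h1 : tr.XX (qL r tr N τ Tm i s b) b τ (Tm i) =
      tr.XX (qL r tr N τ Tm i s b) b τ (Tm (i + 1)) +
        tr.XX (qL r tr N τ Tm i s b) b (Tm (i + 1)) (Tm i) := by
    unfold Tr.XX
    rw [sum_Ioc_consecutive _ (h.lo (i + 1)) (h.anti (Nat.le_succ i))]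
  have hp := rp_pos hr (4 ^ i)
  by_cases h2 : rp r (4 ^ i) ≤ tr.XX (qL r tr N τ Tm i s b) b (Tm (i + 1)) (Tm i)
  · refine Or.inr (Or.inl ⟨?_, h2⟩)
    rcases Nat.eq_zero_or_pos i with hi | hi
    · rw [hi, pow_zero]; exact le_trans h.k1 h.kK
    · by_contra hc
      have h3 : Tm i = τ := h.triv i hi (le_trans h.kK (not_le.1 hc).le)
      have h4 : Ioc (Tm (i + 1)) (Tm i) = ∅ := Ioc_eq_empty (by have := h.lo (i + 1); omega)
      unfold Tr.XX at h2
      rw [h4, sum_empty] at h2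
      linarith
  · have h3 : rp r (4 ^ i) ≤ tr.XX (qL r tr N τ Tm i s b) b τ (Tm (i + 1)) := by
      have := not_le.1 h2
      linarith
    refine Or.inr (Or.inr ⟨?_, h3⟩)
    by_contra hc
    have h4 : Tm (i + 1) = τ := h.triv (i + 1) (Nat.succ_pos i) (not_lt.1 hc)
    unfold Tr.XX at h3
    rw [h4, Ioc_self, sum_empty] at h3
    linarith

/-- A locked particle has risen before the time `t`. -/
lemma dalt_lock (h : tr.WF) {t : ℕ} (h1 : τ ≤ t) (h2 : t ≤ a) {b : Fin n} (hb : tr.c a b = true) :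
    1 - rise tr t a b - tr.kap τ a ≤ tr.x1 t a b := by
  have e1 := Tr.evolve h (le_refl t) h2 a b
  have e2 := (Tr.kill_le h (t := a) (le_refl t) a b).2
  have e3 := Tr.kap_anti h h1 a
  have e4 : tr.x1 a a b = 1 := by rw [tr.x1_top (le_refl a) b, Tr.bt, if_pos hb]
  simp_rw [mul_add (tr.pi t a _), sum_add_distrib] at e1
  unfold rise Tr.XX
  linarith

lemma dalt_rp_le {r : ℕ} (hr : 100 ≤ r) {c : ℕ} (hc : 2 ≤ c) : rp r c ≤ 1 / 10000 := by
  refine le_trans (rp_anti (by omega) hc) ?_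
  have h1 : (100 : ℝ) ≤ r := by exact_mod_cast hr
  unfold rp
  rw [one_div]
  exact inv_anti₀ (by norm_num) (by nlinarith)

lemma dalt_rp_one {r : ℕ} (hr : 100 ≤ r) : rp r 1 ≤ 1 / 100 := by
  have h1 : (100 : ℝ) ≤ r := by exact_mod_cast hr
  unfold rp
  rw [one_div, pow_one]
  exact inv_anti₀ (by norm_num) h1

end

/-- `U (i+1) = EZ (i+1) b (bt · b)`; take the least `i` with `U (i+1) < rp r (4^i)`. -/
theorem alternative : ∃ r0 : ℕ, ∀ r ≥ r0, ∀ {n : ℕ} {tr : Tr n} {N : Finset (Fin n)}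
    {W : Fin (pL r) → Fin n} {τ a k : ℕ} {Tm : ℕ → ℕ} {s : ℕ → Fin (pN r) → Option (ℕ × ℕ)},
    Ctx r tr N W τ a k Tm → Smp r tr N W τ a Tm s → ∀ l, GoodP r tr N τ a Tm s (W l) →
    ∃ i ≤ pK r, Alt r tr N τ k Tm (s i) i (W l) := by
  refine ⟨100, fun r hr n tr N W τ a k Tm s h hs l hg => ?_⟩
  have hr0 : 0 < r := by omega
  have hK : 1 ≤ pK r := le_trans h.k1 h.kK
  have hPK : (EZ r tr N τ a Tm (pK r + 1) (W l) fun z => tr.bt z (W l)) < rp r (4 ^ pK r) := by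
    rw [dalt_U_zero (h.triv _ hK (le_trans h.kK (Nat.lt_pow_self (by norm_num)).le))]
    exact rp_pos hr0 _
  have hex : ∃ i, (EZ r tr N τ a Tm (i + 1) (W l) fun z => tr.bt z (W l)) < rp r (4 ^ i) :=
    ⟨_, hPK⟩
  obtain ⟨i, hiK, hi, hmin⟩ : ∃ i ≤ pK r,
      (EZ r tr N τ a Tm (i + 1) (W l) fun z => tr.bt z (W l)) < rp r (4 ^ i) ∧ ∀ j < i,
        rp r (4 ^ j) ≤ EZ r tr N τ a Tm (j + 1) (W l) fun z => tr.bt z (W l) :=
    ⟨Nat.find hex, Nat.find_min' hex hPK, Nat.find_spec hex,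
      fun j hj => not_lt.1 (Nat.find_min hex hj)⟩
  refine ⟨i, hiK, ?_⟩
  have he0 : 0 ≤ rp r (2 * pK r) / 16 := by have := rp_pos hr0 (2 * pK r); positivity
  obtain ⟨d1, d2⟩ := dalt_dev he0 (hg.dev i hiK)
  have g1 := dalt_EG (N := N) (τ := τ) (a := a) h.wf hr0 h.anti i (W l)
  have g2 := dalt_pair (r := r) (N := N) h.wf h.lo i (s i) (W l)
  have hy : 1 / (pH r : ℝ) ≤ rp r (2 * pK r) / 10000 := by
    rw [inv_pH, show 20 * (pK r + 1) = 2 * pK r + (18 * pK r + 20) by ring, rp_add]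
    have e1 := dalt_rp_le hr (c := 18 * pK r + 20) (by omega)
    have e2 := mul_le_mul_of_nonneg_left e1 (rp_pos hr0 (2 * pK r)).le
    linarith
  have k1 : tr.kap τ a ≤ 4 * (rp r (2 * pK r) / 10000) := by
    have e1 := h.kill
    rw [div_eq_mul_one_div] at e1
    linarith
  have k2 : kh tr τ (s i) ≤ 16 * (rp r (2 * pK r) / 10000) := by
    have e1 := hs.kill i
    rw [div_eq_mul_one_div] at e1
    linarith
  cases i with
  | zero =>
    refine dalt_split hr0 h 0 (s 0) (W l) ?_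
    have e1 := dalt_rp_le hr (c := 2 * pK r) (by omega)
    have e2 := dalt_rp_one hr
    have e3 := dalt_lock h.wf (h.lo 0) h.top (h.right l)
    have e4 := hg.lock
    have e5 := hg.start
    have e6 := Tr.mass h.wf τ a (W l)
    have e7 : ∀ F : ℕ → ℝ, EZ r tr N τ a Tm 0 (W l) F = tr.x0 τ a (W l) * F a := fun F => by
      unfold EZ
      simp_rw [mul_assoc]
      exact dalt_ZZ_zero fun z => tr.x0 τ z (W l) * F z
    rw [e7] at d1 g1
    rw [e7] at g1
    rw [e7] at d2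
    simp only [Nat.zero_sub, pow_zero] at d1 hi ⊢
    have e8 : (24 / 100 : ℝ) ≤ tr.x0 τ a (W l) := by linarith
    have e9 : (23 / 100 : ℝ) ≤ tr.x1 (Tm 0) a (W l) - tr.x1 τ a (W l) := by linarith
    have e10 := mul_le_mul e8 e9 (by norm_num) (by linarith)
    linarith
  | succ i =>
    have m1 := hmin i (Nat.lt_succ_self i)
    have hp := rp_pos hr0 (4 ^ i)
    have h4 : 4 ^ i ≤ pK r := by
      rcases Nat.eq_zero_or_pos i with hi0 | hi0
      · rw [hi0, pow_zero]; exact hK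
      · by_contra hc
        rw [dalt_U_zero (h.triv i hi0 (le_trans h.kK (not_le.1 hc).le))] at m1
        linarith
    have e1 : rp r (2 * pK r) ≤ rp r (2 * 4 ^ i) := rp_anti hr0 (by omega)
    have e2 : rp r (2 * 4 ^ i) ≤ rp r (4 ^ i) := rp_anti hr0 (by omega)
    simp only [Nat.add_sub_cancel] at d1
    rw [dalt_EP h.lo] at d1
    by_cases hc : Yh tr (Tm (i + 1)) (s (i + 1)) (W l) + kh tr τ (s (i + 1)) ≤
        2 * rp r (2 * 4 ^ i)
    · refine Or.inl ⟨Nat.succ_pos i, ?_, ?_, ?_⟩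
      · simpa only [Nat.add_sub_cancel] using h4
      · simpa only [Nat.add_sub_cancel] using hc
      · simp only [Nat.add_sub_cancel]
        linarith
    · refine dalt_split hr0 h (i + 1) (s (i + 1)) (W l) ?_
      have e3 := not_le.1 hc
      have e4 := hg.tau i h4
      have e5 : rp r (4 ^ (i + 1)) ≤ rp r (2 * 4 ^ i) / 10000 := by
        have e6 : 1 ≤ 4 ^ i := Nat.one_le_pow _ _ (by norm_num)
        rw [show 4 ^ (i + 1) = 2 * 4 ^ i + 2 * 4 ^ i by ring, rp_add]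
        have e7 := mul_le_mul_of_nonneg_left (dalt_rp_le hr (c := 2 * 4 ^ i) (by omega))
          (rp_pos hr0 (2 * 4 ^ i)).le
        linarith
      have e8 := rp_pos hr0 (2 * 4 ^ i)
      linarith

end Pool.Agent.P.MP_5c258a_lc.Bin
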