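import Pool.Agent.P.MP_5c258a_lc.Bin.DLocA

/-! Task DLOC: labels and gains for one window and one scale (end of DICHOTOMY). -/

namespace Pool.Agent.P.MP_5c258a_lc.Bin

open Finset Classical

namespace DL

variable {n m : ℕ}

/-- What a label says about a particle. -/
def Lab (r : ℕ) (tr : Tr n) (N : Finset (Fin n)) (τ k : ℕ) (Tm : ℕ → ℕ)
    (s : Fin m → Option (ℕ × ℕ)) (κ : Fin 5) (i : ℕ) (b : Fin n) : Prop :=
  (κ = 0 ∧ 1 ≤ i ∧ 4 ^ (i - 1) ≤ pK r ∧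
    Yh tr (Tm i) s b + kh tr τ s ≤ 2 * rp r (2 * 4 ^ (i - 1)) ∧
    rp r (4 ^ (i - 1)) / 2 ≤ Yh tr (Tm (i - 1)) s b) ∨
  (κ = 1 ∧ 4 ^ i ≤ pK r ∧ rp r (4 ^ i) ≤ tr.XX (qL r tr N τ Tm i s b) b (Tm (i + 1)) (Tm i) ∧
    SS r tr N τ i (Tm (i + 1)) (Tm i) s b ≤ rp r (4 * 4 ^ i)) ∨
  (κ = 2 ∧ 4 ^ i ≤ pK r ∧ rp r (4 * 4 ^ i) < SS r tr N τ i (Tm (i + 1)) (Tm i) s b) ∨
  (κ = 3 ∧ 4 ^ (i + 1) < k ∧ rp r (4 ^ i) ≤ tr.XX (qL r tr N τ Tm i s b) b τ (Tm (i + 1)) ∧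
    SS r tr N τ i τ (Tm (i + 1)) s b ≤ rp r (30 * 4 ^ i)) ∨
  (κ = 4 ∧ 4 ^ (i + 1) < k ∧ rp r (30 * 4 ^ i) < SS r tr N τ i τ (Tm (i + 1)) s b)

lemma lab_of_alt {r : ℕ} {tr : Tr n} {N : Finset (Fin n)} {τ k : ℕ} {Tm : ℕ → ℕ}
    {s : Fin m → Option (ℕ × ℕ)} {i : ℕ} {b : Fin n} (h : Alt r tr N τ k Tm s i b) :
    ∃ κ, Lab r tr N τ k Tm s κ i b := by
  rcases h with h | h | h
  · exact ⟨0, Or.inl ⟨rfl, h⟩⟩
  · rcases le_or_gt (SS r tr N τ i (Tm (i + 1)) (Tm i) s b) (rp r (4 * 4 ^ i)) with h1 | h1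
    · exact ⟨1, Or.inr (Or.inl ⟨rfl, h.1, h.2, h1⟩)⟩
    · exact ⟨2, Or.inr (Or.inr (Or.inl ⟨rfl, h.1, h1⟩))⟩
  · rcases le_or_gt (SS r tr N τ i τ (Tm (i + 1)) s b) (rp r (30 * 4 ^ i)) with h1 | h1
    · exact ⟨3, Or.inr (Or.inr (Or.inr (Or.inl ⟨rfl, h.1, h.2, h1⟩)))⟩
    · exact ⟨4, Or.inr (Or.inr (Or.inr (Or.inr ⟨rfl, h.1, h1⟩)))⟩

/-- The gain of a linear episode. -/
lemma gainL {r : ℕ} (hr : 0 < r) {X Q : ℝ} {e c : ℕ} (hX : rp r e ≤ X)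
    (hQ : Q ≤ rp r (2 * (e + c))) :
    cA * (r : ℝ) ^ c - 1 ≤ cA * X / rp r (e + c) - Q / rp r (e + c) ^ 2 := by
  have h0 := rp_pos hr (e + c)
  have h1 : Q / rp r (e + c) ^ 2 ≤ 1 := by
    rw [div_le_one (by positivity), rp_two]; exact hQ
  have h2 : cA * (r : ℝ) ^ c ≤ cA * X / rp r (e + c) := by
    rw [le_div_iff₀ h0, mul_assoc]
    refine mul_le_mul_of_nonneg_left (le_trans (le_of_eq ?_) hX) (by unfold cA; norm_num)
    rw [rp_add]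
    linear_combination rp r e * rp_mul_pow hr c
  linarith

/-- The total gain of a class of harvest episodes. -/
lemma gainH {r : ℕ} (hr : 0 < r) {ι : Type} (C : Finset ι) (Q : ι → ℝ) {e c : ℕ} {T : ℝ}
    (hQ : C.card * rp r e ≤ rp r (e + c) * ∑ l ∈ C, Q l) (hT : T ≤ cH * (r : ℝ) ^ c - 1) :
    C.card * T ≤ ∑ l ∈ C, (cH * Q l - 1) := by
  have h0 := rp_pos hr (e + c)
  have h1 : C.card * (r : ℝ) ^ c ≤ ∑ l ∈ C, Q l := by
    refine le_of_mul_le_mul_left (le_trans (le_of_eq ?_) hQ) h0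
    rw [rp_add]
    linear_combination C.card * rp r e * rp_mul_pow hr c
  rw [sum_sub_distrib, ← mul_sum, sum_const, nsmul_eq_mul, mul_one]
  have h2 := mul_le_mul_of_nonneg_left hT (Nat.cast_nonneg (α := ℝ) C.card)
  have h3 := mul_le_mul_of_nonneg_left h1 (show (0 : ℝ) ≤ cH by unfold cH; norm_num)
  linarith

lemma card_mul_le {ι : Type} (C : Finset ι) {T : ℝ} {g : ι → ℝ} (h : ∀ l ∈ C, T ≤ g l) :
    C.card * T ≤ ∑ l ∈ C, g l := by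
  rw [← nsmul_eq_mul, ← sum_const]
  exact sum_le_sum h

end DL

open DL in
/-- Label a good particle by its alternative: kind 0 (`condA_one`, `endA_one` averaged over the
sample); for the late/early alternatives let `S_b = ∑_{f ∈ F} pih^2 (xi^2 + vr)` with
`F = {f ∈ Ioc lo hi | rp r (3*4^i) < vv f}`: linear kind if `S_b ≤ lam^2`, harvest kind otherwise
(`meeting` applied to `pih`, `pi_super`, `condH`). -/
theorem local_exists : ∃ r0 : ℕ, ∀ r ≥ r0, ∀ {n : ℕ} {tr : Tr n} {N : Finset (Fin n)}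
    {W : Fin (pL r) → Fin n} {τ a k : ℕ} {Tm : ℕ → ℕ},
    Ctx r tr N W τ a k Tm → ∃ s lab, Loc r tr N W τ a k Tm s lab := by
  obtain ⟨r1, hr1⟩ := count_bad
  obtain ⟨r2, hr2⟩ := alternative
  refine ⟨max (max r1 r2) (max 8 ⌈Real.exp (10 ^ 14)⌉₊), fun r hr n tr N W τ a k Tm h => ?_⟩
  have g1 : r1 ≤ r := le_trans (le_trans (le_max_left _ _) (le_max_left _ _)) hr
  have g2 : r2 ≤ r := le_trans (le_trans (le_max_right _ _) (le_max_left _ _)) hr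
  have g8 : 8 ≤ r := le_trans (le_trans (le_max_left _ _) (le_max_right _ _)) hr
  have g0 : 0 < r := by omega
  have hl : 10 ^ 14 ≤ Real.log r := by
    have g3 : ⌈Real.exp (10 ^ 14)⌉₊ ≤ r :=
      le_trans (le_trans (le_max_right _ _) (le_max_right _ _)) hr
    exact (Real.le_log_iff_exp_le (by exact_mod_cast g0)).2 (Nat.ceil_le.1 g3)
  obtain ⟨s, hs⟩ := samples (by omega) h
  have hex : ∀ l, ∃ o : Option (Fin 5 × ℕ), (o = none → ¬GoodP r tr N τ a Tm s (W l)) ∧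
      ∀ κ i, o = some (κ, i) → i ≤ pK r ∧ Lab r tr N τ k Tm (s i) κ i (W l) := by
    intro l
    by_cases hg : GoodP r tr N τ a Tm s (W l)
    · obtain ⟨i, hi, ha⟩ := hr2 r g2 h hs l hg
      obtain ⟨κ, hκ⟩ := lab_of_alt ha
      refine ⟨some (κ, i), fun e => absurd e (Option.some_ne_none _), fun κ' i' e => ?_⟩
      obtain ⟨rfl, rfl⟩ := Prod.mk.inj (Option.some.inj e)
      exact ⟨hi, hκ⟩
    · exact ⟨none, fun _ => hg, fun κ i e => absurd e.symm (Option.some_ne_none _)⟩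
  choose lab hnone hlab using hex
  have hp : ∀ i, 1 ≤ 4 ^ i := fun i => Nat.one_le_pow i 4 (by norm_num)
  have hk := h.kK
  have late := fun i (hi : 4 ^ i ≤ pK r) => meet_use h.wf g0 i (h.lo (i + 1)) (s i) (hs.bud1 i)
    (bud_le (d := 8 * 4 ^ i) g8 (by omega) (by have := hp i; omega))
  have early := fun i (hi : 4 ^ (i + 1) < k) => meet_use h.wf g0 i (le_refl τ) (s i) (hs.bud2 i)
    (bud_le (d := 44 * 4 ^ i) g8 (by omega) (by have := hp i; rw [pow_succ]; omega))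
  have hTa : ∀ i, Tm i ≤ a := fun i => (h.anti (Nat.zero_le i)).trans h.top
  refine ⟨s, lab, hs.le, ?_, ?_, ?_, ?_⟩
  · refine le_trans ?_ (hr1 r g1 h hs)
    exact_mod_cast card_le_card fun l hl => mem_filter.2 ⟨mem_univ _, hnone l (mem_filter.1 hl).2⟩
  · intro l κ i e
    obtain ⟨hi, hL⟩ := hlab l κ i e
    have one : 1 / (pH r : ℝ) ≤ 1 := by
      rw [inv_pH]
      refine (rp_anti g0 (Nat.zero_le _)).trans (le_of_eq ?_)
      simp [rp]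
    refine ⟨hi, ?_⟩
    rcases hL with ⟨rfl, h1, h2, -⟩ | ⟨rfl, h1, -⟩ | ⟨rfl, -⟩ | ⟨rfl, h1, -⟩ | ⟨rfl, -⟩
    · refine ⟨?_, fun _ => h1⟩
      show _ ≤ 2 * rp r (2 * 4 ^ (i - 1))
      have := rp_anti g0 (show 2 * 4 ^ (i - 1) ≤ 20 * (pK r + 1) by omega)
      have := rp_pos g0 (2 * 4 ^ (i - 1))
      rw [inv_pH]; linarith
    · refine ⟨?_, fun e => absurd e (by decide)⟩
      show _ ≤ rp r (2 * 4 ^ i)
      rw [inv_pH]; exact rp_anti g0 (by omega)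
    · exact ⟨one, fun e => absurd e (by decide)⟩
    · refine ⟨?_, fun e => absurd e (by decide)⟩
      show _ ≤ rp r (15 * 4 ^ i)
      rw [pow_succ] at h1
      rw [inv_pH]; exact rp_anti g0 (by omega)
    · exact ⟨one, fun e => absurd e (by decide)⟩
  · intro l κ i w0 e
    obtain ⟨-, hL⟩ := hlab l κ i e
    rcases hL with ⟨rfl, -, -, h3, -⟩ | ⟨rfl, h1, -⟩ | ⟨rfl, -⟩ | ⟨rfl, h1, -⟩ | ⟨rfl, -⟩
    · exact condA h.wf (s i) (W l) (h.lo i) (Tm (i - 1)) h3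
    · refine condL h.wf i (Tm (i + 1)) (Tm i) (s i) (W l) (rp_pos g0 (2 * 4 ^ i)).le
        fun f hf => ((late i h1).1 f hf).trans ?_
      show _ ≤ rp r (2 * 4 ^ i) ^ 2
      rw [rp_two]; exact rp_anti g0 (by omega)
    · exact Tr.condH h.wf (h.lo (i + 1)) (Tm i) w0 (W l)
    · refine condL h.wf i τ (Tm (i + 1)) (s i) (W l) (rp_pos g0 (15 * 4 ^ i)).le
        fun f hf => ((early i h1).1 f hf).trans ?_
      show _ ≤ rp r (15 * 4 ^ i) ^ 2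
      rw [rp_two]; exact rp_anti g0 (by omega)
    · exact Tr.condH h.wf (le_refl τ) (Tm (i + 1)) w0 (W l)
  · intro κ i C hC
    rcases C.eq_empty_or_nonempty with rfl | ⟨l0, hl0⟩
    · exact ⟨0, Nat.zero_le _, by simp⟩
    have hL := fun l hl => (hlab l κ i (hC l hl)).2
    rcases hL l0 hl0 with ⟨rfl, h1, -⟩ | ⟨rfl, -⟩ | ⟨rfl, h1, -⟩ | ⟨rfl, h1, -⟩ | ⟨rfl, h1, -⟩
    · refine ⟨0, Nat.zero_le _, card_mul_le C fun l hl' => ?_⟩
      rcases hL l hl' with ⟨-, -, -, h3, h4⟩ | ⟨e, -⟩ | ⟨e, -⟩ | ⟨e, -⟩ | ⟨e, -⟩ <;>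
        try exact absurd e (by decide)
      obtain ⟨j, rfl⟩ : ∃ j, i = j + 1 := ⟨i - 1, by omega⟩
      exact num0 g0 hl j rfl
        (h4.trans (endA h.wf (s (j + 1)) (W l) (h.lo (j + 1)) (h.anti (Nat.sub_le _ _)) h3))
    · refine ⟨0, Nat.zero_le _, card_mul_le C fun l hl' => ?_⟩
      rcases hL l hl' with ⟨e, -⟩ | ⟨-, -, h3, h4⟩ | ⟨e, -⟩ | ⟨e, -⟩ | ⟨e, -⟩ <;>
        try exact absurd e (by decide)
      have h5 := gainL g0 (c := 4 ^ i) h3 (((QQ_qL (Tm := Tm) h.wf i _ _ (s i) (W l)).trans h4).trans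
        (le_of_eq (by congr 1; ring)))
      rw [← two_mul] at h5
      exact (num1 g0 hl i).trans h5
    · obtain ⟨w0, hw0, hw⟩ := (late i h1).2 C W _ (rp_pos g0 (4 * 4 ^ i)).le fun l hl' => by
        rcases hL l hl' with ⟨e, -⟩ | ⟨e, -⟩ | ⟨-, -, h3⟩ | ⟨e, -⟩ | ⟨e, -⟩ <;>
          first | exact h3 | exact absurd e (by decide)
      refine ⟨w0, hw0.trans (hTa i), ?_⟩
      rw [show 8 * 4 ^ i = 4 * 4 ^ i + 4 * 4 ^ i by ring] at hw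
      exact gainH g0 C _ hw (num2 g0 hl i)
    · refine ⟨0, Nat.zero_le _, card_mul_le C fun l hl' => ?_⟩
      rcases hL l hl' with ⟨e, -⟩ | ⟨e, -⟩ | ⟨e, -⟩ | ⟨-, -, h3, h4⟩ | ⟨e, -⟩ <;>
        try exact absurd e (by decide)
      have h5 := gainL g0 (c := 14 * 4 ^ i) h3
        (((QQ_qL (Tm := Tm) h.wf i _ _ (s i) (W l)).trans h4).trans (le_of_eq (by congr 1; ring)))
      rw [show 4 ^ i + 14 * 4 ^ i = 15 * 4 ^ i by ring] at h5
      have h6 : cH * (r : ℝ) ^ (14 * 4 ^ i) ≤ cA * (r : ℝ) ^ (14 * 4 ^ i) :=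
        mul_le_mul_of_nonneg_right (by unfold cH cA; norm_num) (by positivity)
      exact ((num4 g0 hl i hk).trans (sub_le_sub_right h6 1)).trans h5
    · obtain ⟨w0, hw0, hw⟩ := (early i h1).2 C W _ (rp_pos g0 (30 * 4 ^ i)).le fun l hl' => by
        rcases hL l hl' with ⟨e, -⟩ | ⟨e, -⟩ | ⟨e, -⟩ | ⟨e, -⟩ | ⟨-, -, h3⟩ <;>
          first | exact h3 | exact absurd e (by decide)
      refine ⟨w0, hw0.trans (hTa (i + 1)), ?_⟩
      rw [show 44 * 4 ^ i = 30 * 4 ^ i + 14 * 4 ^ i by ring] at hw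
      exact gainH g0 C _ hw (num4 g0 hl i hk)

end Pool.Agent.P.MP_5c258a_lc.Bin
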