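import Pool.Agent.P.MP_5c258a_lc.Bin.Flow

/-! Task MEET: the meeting lemma, the sampling lemma and the greedy lemma. -/

namespace Pool.Agent.P.MP_5c258a_lc.Bin

open Finset Classical

theorem meeting_aux {n : ℕ} {tr : Tr n} (h : tr.WF) (τ t : ℕ) (π : ℕ → ℝ)
    (h0 : ∀ x, 0 ≤ π x) (hs : ∀ x, τ < x → x ≤ t → ∑ w ∈ Ioc x t, π w * tr.p w x ≤ π x)
    (F : Finset ℕ) (hF : F ⊆ Ioc τ t) (k : ℕ) : ∀ s, s + k = t → τ ≤ s →
    ∃ M : ℕ → ℝ, (∀ x, 0 ≤ M x) ∧ (∀ z ≤ s, M z = 0) ∧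
      (∀ x y, s < x → x ≤ t → s < y → y ≤ t →
        ∑ z ∈ F, M z * (tr.pi τ z x * tr.pi τ z y) ≤ π x * π y) ∧
      ∀ f ∈ F, s < f → π f * π f ≤ ∑ z ∈ F, M z * (tr.pi τ z f * tr.pi τ z f) := by
  induction k with
  | zero =>
    intro s e _
    refine ⟨fun _ => 0, fun _ => le_rfl, fun _ _ => rfl, fun x y h1 h2 => by omega,
      fun f hf h1 => ?_⟩
    have := mem_Ioc.1 (hF hf)
    omega
  | succ k ih =>
    intro s e hτ
    obtain ⟨M, M0, Mz, K0, Kf⟩ := ih (s + 1) (by omega) (by omega)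
    set x0 := s + 1 with hx0
    have g0 : ∀ z x, 0 ≤ tr.pi τ z x := fun z x => Tr.gr_nonneg h _ z x
    have expand : ∀ y, (∀ w, x0 < w → w ≤ t →
        ∑ z ∈ F, M z * (tr.pi τ z w * tr.pi τ z y) ≤ π w * π y) →
        ∑ z ∈ F, M z * (tr.pi τ z x0 * tr.pi τ z y) ≤ π x0 * π y := by
      intro y hy
      have e1 : ∀ z ∈ F, M z * (tr.pi τ z x0 * tr.pi τ z y) =
          ∑ w ∈ Ioc x0 t, tr.p w x0 * (M z * (tr.pi τ z w * tr.pi τ z y)) := by
        intro z hz
        by_cases hzx : z ≤ x0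
        · simp [Mz z hzx]
        · have e2 : tr.pi τ z x0 = ∑ w ∈ Ioc x0 t, tr.pi τ z w * tr.p w x0 := by
            unfold Tr.pi
            rw [Tr.gr_eq' tr _ (mem_Ioc.1 (hF hz)).2 x0, if_neg (by omega), zero_add]
            refine sum_congr rfl fun w hw => ?_
            rw [if_pos (by have := (mem_Ioc.1 hw).1; omega)]
          rw [e2, sum_mul, mul_sum]
          exact sum_congr rfl fun w _ => by ring
      rw [sum_congr rfl e1, sum_comm]
      calc _ ≤ ∑ w ∈ Ioc x0 t, π w * tr.p w x0 * π y := by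
            refine sum_le_sum fun w hw => ?_
            rw [← mul_sum]
            have := mul_le_mul_of_nonneg_left (hy w (mem_Ioc.1 hw).1 (mem_Ioc.1 hw).2)
              (Tr.p_nonneg h w x0)
            linarith
        _ ≤ _ := by
            rw [← sum_mul]
            exact mul_le_mul_of_nonneg_right (hs x0 (by omega) (by omega)) (h0 y)
    have k1 : ∀ y, x0 < y → y ≤ t → ∑ z ∈ F, M z * (tr.pi τ z x0 * tr.pi τ z y) ≤ π x0 * π y :=
      fun y h1 h2 => expand y fun w h3 h4 => K0 w y h3 h4 h1 h2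
    have k1' : ∀ y, x0 < y → y ≤ t → ∑ z ∈ F, M z * (tr.pi τ z y * tr.pi τ z x0) ≤ π y * π x0 :=
      fun y h1 h2 => by simpa only [mul_comm] using k1 y h1 h2
    have k2 := expand x0 k1'
    set D := π x0 * π x0 - ∑ z ∈ F, M z * (tr.pi τ z x0 * tr.pi τ z x0) with hD
    have D0 : 0 ≤ D := sub_nonneg.2 k2
    have new : ∀ x y, ∑ z ∈ F, (M z + if z = x0 then D else 0) * (tr.pi τ z x * tr.pi τ z y) =
        ∑ z ∈ F, M z * (tr.pi τ z x * tr.pi τ z y) +
          if x0 ∈ F then D * (tr.pi τ x0 x * tr.pi τ x0 y) else 0 := by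
      intro x y
      simp only [add_mul, sum_add_distrib, ite_mul, zero_mul, sum_ite_eq']
    have gz : ∀ x, x0 < x → tr.pi τ x0 x = 0 := fun x hx => Tr.gr_of_lt tr _ hx
    have g1 : tr.pi τ x0 x0 = 1 := Tr.gr_self tr _ x0
    refine ⟨fun z => M z + if z = x0 then D else 0, fun z => ?_, fun z hz => ?_,
      fun x y h1 h2 h3 h4 => ?_, fun f hf h1 => ?_⟩
    · have := M0 z
      beta_reduce
      split_ifs <;> linarith
    · simp only [Mz z (by omega), if_neg (show z ≠ x0 by omega), add_zero]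
    · rw [new]
      rcases (show x = x0 ∨ x0 < x by omega) with rfl | hx
      · rcases (show y = x0 ∨ x0 < y by omega) with rfl | hy
        · rw [g1]
          split_ifs <;> linarith
        · simpa [gz y hy] using k1 y hy h4
      · rcases (show y = x0 ∨ x0 < y by omega) with rfl | hy
        · simpa [gz x hx] using k1' x hx h2
        · simpa [gz x hx] using K0 x y hx h2 hy h4
    · rw [new]
      rcases (show f = x0 ∨ x0 < f by omega) with rfl | hx
      · rw [g1, if_pos hf]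
        linarith
      · simpa [gz f hx] using Kf f hf hx

/-- Meeting lemma (paper section 2). `π` is any superharmonic function on `(τ, t]`. -/
theorem meeting {n : ℕ} {tr : Tr n} (h : tr.WF) (N : Finset (Fin n)) (τ t : ℕ) (π : ℕ → ℝ)
    (h0 : ∀ x, 0 ≤ π x) (hs : ∀ x, τ < x → x ≤ t → ∑ w ∈ Ioc x t, π w * tr.p w x ≤ π x)
    (F : Finset ℕ) (hF : F ⊆ Ioc τ t) (v η : ℝ) (hv : 0 < v) (hFv : ∀ f ∈ F, v ≤ tr.vv N τ f)
    (hη : ∑ w ∈ Ioc τ t, π w ^ 2 * tr.VV N w ≤ η) :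
    ∃ M : ℕ → ℝ, (∀ x, 0 ≤ M x) ∧ ∑ x ∈ F, M x ≤ η / v ∧
      ∀ f ∈ F, π f ^ 2 ≤ ∑ x ∈ F, M x * tr.pi τ x f ^ 2 := by
  rcases lt_or_ge t τ with hlt | hle
  · have : F = ∅ := subset_empty.1 (by rwa [Ioc_eq_empty (by omega)] at hF)
    rw [Ioc_eq_empty (by omega), sum_empty] at hη
    subst this
    exact ⟨fun _ => 0, fun _ => le_rfl, by simpa using div_nonneg hη hv.le, by simp⟩
  obtain ⟨M, M0, -, K0, Kf⟩ := meeting_aux h τ t π h0 hs F hF (t - τ) τ (by omega) le_rfl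
  refine ⟨M, M0, ?_, fun f hf => by simpa only [sq] using Kf f hf (mem_Ioc.1 (hF hf)).1⟩
  rw [le_div_iff₀ hv, sum_mul]
  calc _ ≤ ∑ z ∈ F, ∑ w ∈ Ioc τ t, M z * (tr.pi τ z w * tr.pi τ z w) * tr.VV N w := by
        refine sum_le_sum fun z hz => (mul_le_mul_of_nonneg_left (hFv z hz) (M0 z)).trans ?_
        unfold Tr.vv
        rw [mul_sum]
        refine le_trans (le_of_eq (sum_congr rfl fun w _ => by ring))
          (sum_le_sum_of_subset_of_nonneg (Ioc_subset_Ioc_right (mem_Ioc.1 (hF hz)).2)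
            fun w _ _ => mul_nonneg (mul_nonneg (M0 z) (mul_self_nonneg _)) (Tr.VV_nonneg h N w))
    _ ≤ ∑ w ∈ Ioc τ t, π w ^ 2 * tr.VV N w := by
        rw [sum_comm]
        refine sum_le_sum fun w hw => ?_
        rw [← sum_mul, sq]
        have := mem_Ioc.1 hw
        exact mul_le_mul_of_nonneg_right (K0 w w this.1 this.2 this.1 this.2) (Tr.VV_nonneg h N w)
    _ ≤ η := hη

section Sample

variable {X : Type} {s : Finset X} {P : X → ℝ} {m : ℕ}

/-- Expectation over `m` independent samples. -/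
noncomputable def ExS (s : Finset X) (P : X → ℝ) (m : ℕ) (φ : (Fin m → X) → ℝ) : ℝ :=
  ∑ z ∈ Fintype.piFinset fun _ : Fin m => s, (∏ i, P (z i)) * φ z

theorem ExS_prod (f : Fin m → X → ℝ) :
    ExS s P m (fun z => ∏ i, f i (z i)) = ∏ i, ∑ x ∈ s, P x * f i x := by
  unfold ExS
  rw [prod_univ_sum]
  exact sum_congr rfl fun z _ => by rw [prod_mul_distrib]

theorem ExS_sum {ι : Type} (T : Finset ι) (φ : ι → (Fin m → X) → ℝ) :
    ExS s P m (fun z => ∑ i ∈ T, φ i z) = ∑ i ∈ T, ExS s P m (φ i) := by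
  unfold ExS
  simp only [mul_sum]
  rw [sum_comm]

theorem ExS_mul (c : ℝ) (φ : (Fin m → X) → ℝ) : ExS s P m (fun z => φ z * c) = ExS s P m φ * c := by
  unfold ExS
  rw [sum_mul]
  exact sum_congr rfl fun z _ => by ring

theorem ExS_add (φ ψ : (Fin m → X) → ℝ) :
    ExS s P m (fun z => φ z + ψ z) = ExS s P m φ + ExS s P m ψ := by
  unfold ExS
  simp only [mul_add, sum_add_distrib]

theorem ExS_const (h1 : ∑ x ∈ s, P x = 1) : ExS s P m (fun _ => 1) = 1 := by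
  simpa [h1] using ExS_prod (s := s) (P := P) (m := m) fun _ _ => 1

theorem ExS_one (h1 : ∑ x ∈ s, P x = 1) (f : X → ℝ) (j : Fin m) :
    ExS s P m (fun z => f (z j)) = ∑ x ∈ s, P x * f x := by
  have := ExS_prod (s := s) (P := P) fun i x => if i = j then f x else 1
  simp only [prod_ite_eq', mem_univ, if_true] at this
  rw [this, prod_eq_single j (fun i _ hi => by simp [hi, h1]) (by simp)]
  simp

theorem ExS_two (h1 : ∑ x ∈ s, P x = 1) (f : X → ℝ) {j k : Fin m} (hjk : j ≠ k) :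
    ExS s P m (fun z => f (z j) * f (z k)) = (∑ x ∈ s, P x * f x) ^ 2 := by
  have := ExS_prod (s := s) (P := P)
    fun i x => (if i = j then f x else 1) * (if i = k then f x else 1)
  simp only [prod_mul_distrib, prod_ite_eq', mem_univ, if_true] at this
  rw [this, prod_eq_mul j k hjk (fun i _ hi => by simp [hi.1, hi.2, h1]) (by simp) (by simp)]
  simp [hjk, hjk.symm, sq]

theorem ExS_sq (h1 : ∑ x ∈ s, P x = 1) (hm : 0 < m) (f : X → ℝ) :
    ExS s P m (fun z => ((∑ j, f (z j)) / m) ^ 2) ≤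
      (∑ x ∈ s, P x * f x) ^ 2 + (∑ x ∈ s, P x * f x ^ 2) / m := by
  have hm' : (0 : ℝ) < m := by exact_mod_cast hm
  set a := (∑ x ∈ s, P x * f x) ^ 2 with ha
  set b := ∑ x ∈ s, P x * f x ^ 2 with hb
  have a0 : 0 ≤ a := sq_nonneg _
  have e : (fun z : Fin m → X => ((∑ j, f (z j)) / m) ^ 2) =
      fun z => (∑ j, ∑ k, f (z j) * f (z k)) * (1 / m ^ 2) := by
    ext z
    rw [← sum_mul_sum, div_pow, sq, mul_one_div]
  rw [e, ExS_mul, ExS_sum]
  have k : ∀ j : Fin m, ExS s P m (fun z => ∑ k, f (z j) * f (z k)) ≤ m * a + b := by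
    intro j
    rw [ExS_sum]
    calc _ ≤ ∑ k : Fin m, (a + if k = j then b else 0) := by
          refine sum_le_sum fun k _ => ?_
          split_ifs with hk
          · subst hk
            have := ExS_one (s := s) (P := P) h1 (fun x => f x ^ 2) k
            simp only [← sq]
            rw [this]; linarith
          · rw [ExS_two h1 f (Ne.symm hk), add_zero]
      _ = _ := by simp [sum_add_distrib]
  calc _ ≤ (∑ _j : Fin m, (m * a + b)) * (1 / m ^ 2) :=
        mul_le_mul_of_nonneg_right (sum_le_sum fun j _ => k j) (by positivity)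
    _ = _ := by simp; field_simp

theorem ExS_exists (hP : ∀ x ∈ s, 0 ≤ P x) (h1 : ∑ x ∈ s, P x = 1) (φ : (Fin m → X) → ℝ)
    (h : ExS s P m φ ≤ 1) : ∃ z : Fin m → X, (∀ i, z i ∈ s) ∧ φ z ≤ 1 := by
  by_contra hc
  push Not at hc
  have e := ExS_const (m := m) h1
  have w0 : ∀ z ∈ Fintype.piFinset fun _ : Fin m => s, 0 ≤ ∏ i, P (z i) := fun z hz =>
    prod_nonneg fun i _ => hP _ (Fintype.mem_piFinset.1 hz i)
  obtain ⟨z, hz, hz0⟩ : ∃ z ∈ Fintype.piFinset fun _ : Fin m => s, (∏ i, P (z i)) * 1 ≠ 0 :=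
    exists_ne_zero_of_sum_ne_zero (by unfold ExS at e; rw [e]; exact one_ne_zero)
  have : ExS s P m (fun _ => 1) < ExS s P m φ :=
    sum_lt_sum (fun z hz => mul_le_mul_of_nonneg_left (hc z (Fintype.mem_piFinset.1 hz)).le
      (w0 z hz)) ⟨z, hz, mul_lt_mul_of_pos_left (hc z (Fintype.mem_piFinset.1 hz))
        ((w0 z hz).lt_of_ne' (by simpa only [mul_one] using hz0))⟩
  linarith

theorem ExS_budget (hP : ∀ x ∈ s, 0 ≤ P x) (h1 : ∑ x ∈ s, P x = 1) (hm : 0 < m)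
    (a : ℕ → X → ℝ) (V : ℕ → ℝ) (hV : ∀ w, 0 ≤ V w) (W : Finset ℕ) (η : ℝ)
    (e : ∑ w ∈ W, (∑ x ∈ s, P x * a w x) ^ 2 * V w ≤ η)
    (o : ∀ x ∈ s, ∑ w ∈ W, a w x ^ 2 * V w ≤ 2) :
    ExS s P m (fun z => ∑ w ∈ W, ((∑ j, a w (z j)) / m) ^ 2 * V w) ≤ η + 2 / m := by
  have hm' : (0 : ℝ) < m := by exact_mod_cast hm
  rw [ExS_sum]
  calc _ ≤ ∑ w ∈ W, ((∑ x ∈ s, P x * a w x) ^ 2 + (∑ x ∈ s, P x * a w x ^ 2) / m) * V w := by
        refine sum_le_sum fun w _ => ?_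
        rw [ExS_mul]
        exact mul_le_mul_of_nonneg_right (ExS_sq h1 hm (a w)) (hV w)
    _ = ∑ w ∈ W, (∑ x ∈ s, P x * a w x) ^ 2 * V w +
          (∑ x ∈ s, P x * ∑ w ∈ W, a w x ^ 2 * V w) / m := by
        simp only [add_mul, sum_add_distrib, mul_sum]
        congr 1
        rw [sum_comm, sum_div]
        refine sum_congr rfl fun w _ => ?_
        rw [div_mul_eq_mul_div, sum_mul]
        congr 1
        exact sum_congr rfl fun x _ => by ring
    _ ≤ _ := by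
        refine add_le_add e (div_le_div_of_nonneg_right ?_ hm'.le)
        calc _ ≤ ∑ x ∈ s, P x * 2 :=
              sum_le_sum fun x hx => mul_le_mul_of_nonneg_left (o x hx) (hP x hx)
          _ = 2 := by rw [← sum_mul, h1, one_mul]

end Sample

/-- Sampling lemma: `m` independent samples from `P`; four Markov inequalities at once. -/
theorem sampling {X I : Type} [Fintype I] (s : Finset X) (P : X → ℝ) (hP : ∀ x ∈ s, 0 ≤ P x)
    (h1 : ∑ x ∈ s, P x = 1) (m : ℕ) (hm : 0 < m)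
    (g : I → X → ℝ) (hg : ∀ i, ∀ x ∈ s, 0 ≤ g i x ∧ g i x ≤ 1)
    (a : ℕ → X → ℝ) (V : ℕ → ℝ) (hV : ∀ w, 0 ≤ V w) (W₁ W₂ : Finset ℕ) (η₁ η₂ : ℝ)
    (e₁ : ∑ w ∈ W₁, (∑ x ∈ s, P x * a w x) ^ 2 * V w ≤ η₁)
    (e₂ : ∑ w ∈ W₂, (∑ x ∈ s, P x * a w x) ^ 2 * V w ≤ η₂)
    (o₁ : ∀ x ∈ s, ∑ w ∈ W₁, a w x ^ 2 * V w ≤ 2) (o₂ : ∀ x ∈ s, ∑ w ∈ W₂, a w x ^ 2 * V w ≤ 2)
    (κ : X → ℝ) (hκ : ∀ x ∈ s, 0 ≤ κ x) (y : ℝ) (hy : 0 < y) (eκ : ∑ x ∈ s, P x * κ x ≤ y) :
    ∃ smp : Fin m → X, (∀ i, smp i ∈ s) ∧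
      ∑ i, ((∑ j, g i (smp j)) / m - ∑ x ∈ s, P x * g i x) ^ 2 ≤ 4 * Fintype.card I / m ∧
      ∑ w ∈ W₁, ((∑ j, a w (smp j)) / m) ^ 2 * V w ≤ 4 * (η₁ + 2 / m) ∧
      ∑ w ∈ W₂, ((∑ j, a w (smp j)) / m) ^ 2 * V w ≤ 4 * (η₂ + 2 / m) ∧
      (∑ j, κ (smp j)) / m ≤ 4 * y := by
  have hm' : (0 : ℝ) < m := by exact_mod_cast hm
  have η1 : 0 ≤ η₁ := (sum_nonneg fun w _ => mul_nonneg (sq_nonneg _) (hV w)).trans e₁
  have η2 : 0 ≤ η₂ := (sum_nonneg fun w _ => mul_nonneg (sq_nonneg _) (hV w)).trans e₂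
  set A1 : (Fin m → X) → ℝ := fun z => ∑ i, ((∑ j, g i (z j)) / m - ∑ x ∈ s, P x * g i x) ^ 2
    with hA1
  set A2 : (Fin m → X) → ℝ := fun z => ∑ w ∈ W₁, ((∑ j, a w (z j)) / m) ^ 2 * V w with hA2
  set A3 : (Fin m → X) → ℝ := fun z => ∑ w ∈ W₂, ((∑ j, a w (z j)) / m) ^ 2 * V w with hA3
  set A4 : (Fin m → X) → ℝ := fun z => (∑ j, κ (z j)) / m with hA4
  have E1 : ExS s P m A1 ≤ Fintype.card I / m := by
    rw [hA1, ExS_sum]
    calc _ ≤ ∑ _i : I, (1 : ℝ) / m := by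
          refine sum_le_sum fun i _ => ?_
          set μ := ∑ x ∈ s, P x * g i x with hμ
          have μ0 : 0 ≤ μ := sum_nonneg fun x hx => mul_nonneg (hP x hx) (hg i x hx).1
          have μ1 : μ ≤ 1 := by
            rw [← h1]
            exact sum_le_sum fun x hx => mul_le_of_le_one_right (hP x hx) (hg i x hx).2
          have k := ExS_sq h1 hm fun x => g i x - μ
          have e : (fun z : Fin m → X => ((∑ j, g i (z j)) / m - μ) ^ 2) =
              fun z => ((∑ j, (g i (z j) - μ)) / m) ^ 2 := by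
            ext z
            rw [sum_sub_distrib, sub_div]
            simp [mul_div_cancel_left₀ _ hm'.ne']
          have z0 : ∑ x ∈ s, P x * (g i x - μ) = 0 := by
            simp only [mul_sub, sum_sub_distrib, ← sum_mul, h1, ← hμ]; ring
          rw [e]
          refine k.trans ?_
          rw [z0, zero_pow two_ne_zero, zero_add]
          refine div_le_div_of_nonneg_right ?_ hm'.le
          rw [← h1]
          refine sum_le_sum fun x hx => mul_le_of_le_one_right (hP x hx) ?_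
          have := hg i x hx
          nlinarith [this.1, this.2]
      _ = _ := by simp [div_eq_mul_inv]
  have E2 : ExS s P m A2 ≤ η₁ + 2 / m := ExS_budget hP h1 hm a V hV W₁ η₁ e₁ o₁
  have E3 : ExS s P m A3 ≤ η₂ + 2 / m := ExS_budget hP h1 hm a V hV W₂ η₂ e₂ o₂
  have E4 : ExS s P m A4 ≤ y := by
    rw [hA4]
    simp only [div_eq_mul_inv]
    rw [ExS_mul, ExS_sum]
    simp only [ExS_one h1, sum_const, card_univ, Fintype.card_fin, nsmul_eq_mul]
    rw [mul_comm, ← mul_assoc, inv_mul_cancel₀ hm'.ne', one_mul]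
    exact eκ
  have q : ∀ E c : ℝ, 0 ≤ c → E ≤ c → E * (4 * c)⁻¹ ≤ 1 / 4 := by
    intro E c hc hE
    rcases hc.lt_or_eq with h | h
    · rw [← div_eq_mul_inv, div_le_iff₀ (by positivity)]; linarith
    · rw [← h]; norm_num
  have c1 : (0 : ℝ) ≤ Fintype.card I / m := by positivity
  have c2 : 0 < η₁ + 2 / m := by positivity
  have c3 : 0 < η₂ + 2 / m := by positivity
  obtain ⟨z, hz, hT⟩ := ExS_exists hP h1 (fun z => A1 z * (4 * (Fintype.card I / m : ℝ))⁻¹ +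
      A2 z * (4 * (η₁ + 2 / m))⁻¹ + A3 z * (4 * (η₂ + 2 / m))⁻¹ + A4 z * (4 * y)⁻¹) (by
    rw [ExS_add, ExS_add, ExS_add, ExS_mul, ExS_mul, ExS_mul, ExS_mul]
    linarith [q _ _ c1 E1, q _ _ c2.le E2, q _ _ c3.le E3, q _ _ hy.le E4])
  have p1 : 0 ≤ A1 z := sum_nonneg fun _ _ => sq_nonneg _
  have p2 : 0 ≤ A2 z := sum_nonneg fun w _ => mul_nonneg (sq_nonneg _) (hV w)
  have p3 : 0 ≤ A3 z := sum_nonneg fun w _ => mul_nonneg (sq_nonneg _) (hV w)
  have p4 : 0 ≤ A4 z := div_nonneg (sum_nonneg fun j _ => hκ _ (hz j)) hm'.le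
  have n1 : 0 ≤ A1 z * (4 * (Fintype.card I / m : ℝ))⁻¹ := by positivity
  have n2 : 0 ≤ A2 z * (4 * (η₁ + 2 / m))⁻¹ := by positivity
  have n3 : 0 ≤ A3 z * (4 * (η₂ + 2 / m))⁻¹ := by positivity
  have n4 : 0 ≤ A4 z * (4 * y)⁻¹ := by positivity
  have r : ∀ E c : ℝ, 0 < c → E * c⁻¹ ≤ 1 → E ≤ c := fun E c hc hE => by
    rwa [← div_eq_mul_inv, div_le_one hc] at hE
  refine ⟨z, hz, ?_, r (A2 z) _ (by positivity) (by linarith),
    r (A3 z) _ (by positivity) (by linarith), r (A4 z) _ (by positivity) (by linarith)⟩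
  rcases isEmpty_or_nonempty I with hI | hI
  · simp
  · have : (0 : ℝ) < Fintype.card I := by exact_mod_cast Fintype.card_pos
    rw [mul_div_assoc]
    exact r (A1 z) _ (by positivity) (by linarith)

/-- Greedy choice from the top. -/
theorem greedy (G : Finset ℕ) (m : ℕ → ℕ) (hm : ∀ k ∈ G, 1 ≤ m k) :
    ∃ S ⊆ G, (∀ k ∈ S, ∀ k' ∈ S, k' < k → k' + m k ≤ k) ∧ G.card ≤ ∑ k ∈ S, m k := by
  induction G using Finset.strongInduction with
  | H G ih =>
    rcases G.eq_empty_or_nonempty with rfl | hne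
    · exact ⟨∅, Subset.rfl, by simp, by simp⟩
    set k := G.max' hne with hk
    have kG : k ∈ G := G.max'_mem hne
    have kmax : ∀ x ∈ G, x ≤ k := fun x hx => G.le_max' x hx
    have mk := hm k kG
    set G' := G.filter fun x => x + m k ≤ k with hG'
    have kG' : k ∉ G' := by simp only [hG', mem_filter]; omega
    have sub : G' ⊆ G := filter_subset _ _
    obtain ⟨S, S1, S2, S3⟩ := ih G' ⟨sub, fun h => kG' (h kG)⟩ fun x hx => hm x (sub hx)
    refine ⟨insert k S, insert_subset kG (S1.trans sub), fun a ha b hb hab => ?_, ?_⟩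
    · rcases mem_insert.1 hb with rfl | hb
      · have := kmax a (insert_subset kG (S1.trans sub) ha)
        omega
      · rcases mem_insert.1 ha with rfl | ha
        · exact (mem_filter.1 (S1 hb)).2
        · exact S2 a ha b hb hab
    · rw [sum_insert fun h => kG' (S1 h)]
      have e := card_filter_add_card_filter_not (s := G) fun x => x + m k ≤ k
      have e2 : (G.filter fun x => ¬ x + m k ≤ k).card ≤ (Ico (k + 1 - m k) (k + 1)).card :=
        card_le_card fun x hx => by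
          have := mem_filter.1 hx
          have := kmax x this.1
          rw [mem_Ico]; omega
      rw [Nat.card_Ico] at e2
      rw [← hG'] at e
      omega

end Pool.Agent.P.MP_5c258a_lc.Bin
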