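import Pool.Agent.P.MP_5c258a_lc.Bin.DSmp
import Pool.Agent.P.MP_5c258a_lc.Bin.DAlt
import Pool.Agent.P.MP_5c258a_lc.Bin.Meet

/-! Auxiliary facts for the task DLOC. -/

namespace Pool.Agent.P.MP_5c258a_lc.Bin.DL

open Finset Classical

variable {n m : ℕ} {r : ℕ} {tr : Tr n} {N : Finset (Fin n)} {τ : ℕ} {Tm : ℕ → ℕ}

lemma so_nonneg (x : Option (ℕ × ℕ)) : 0 ≤ so x := by
  cases x with
  | none => rw [so]
  | some x => rw [so]; norm_num

lemma pih_nonneg (h : tr.WF) (s : Fin m → Option (ℕ × ℕ)) (w : ℕ) : 0 ≤ pih tr τ s w :=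
  div_nonneg (sum_nonneg fun _ _ => mul_nonneg (so_nonneg _) (Tr.pi_nonneg h _ _ _))
    (Nat.cast_nonneg _)

lemma pih_super (h : tr.WF) (s : Fin m → Option (ℕ × ℕ)) {x : ℕ} (hx : τ ≤ x) (t : ℕ) :
    ∑ w ∈ Ioc x t, pih tr τ s w * tr.p w x ≤ pih tr τ s x := by
  have e : ∑ w ∈ Ioc x t, pih tr τ s w * tr.p w x =
      (∑ j, so (s j) * ∑ w ∈ Ioc x t, tr.pi τ (sz (s j)) w * tr.p w x) / m := by
    unfold pih
    simp_rw [mul_sum]
    rw [sum_comm, sum_div]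
    refine sum_congr rfl fun w _ => ?_
    rw [div_mul_eq_mul_div, sum_mul]
    congr 1
    exact sum_congr rfl fun j _ => by ring
  rw [e, pih]
  refine div_le_div_of_nonneg_right (sum_le_sum fun j _ => ?_) (Nat.cast_nonneg _)
  exact mul_le_mul_of_nonneg_left (Tr.pi_super h hx _ t) (so_nonneg _)

lemma XX_qA (s : Fin m → Option (ℕ × ℕ)) (b : Fin n) (lo t : ℕ) :
    tr.XX (qA tr τ s b) b lo t =
      (∑ j, sw tr b (s j) * tr.XX (tr.pi τ (sz (s j))) b lo t) / m := by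
  unfold Tr.XX qA
  simp_rw [mul_sum]
  rw [sum_comm, sum_div]
  refine sum_congr rfl fun w _ => ?_
  rw [div_mul_eq_mul_div, sum_mul]
  congr 1
  exact sum_congr rfl fun j _ => by ring

/-- Averaging a bound that holds for each sampled flow. -/
lemma avg_A (h : tr.WF) (s : Fin m → Option (ℕ × ℕ)) (b : Fin n) (lo t : ℕ) (G : ℕ → ℝ)
    (hG : ∀ z, G z ≤ tr.x1 lo z b + tr.kap τ z + tr.XX (tr.pi τ z) b lo t) :
    (∑ j, sw tr b (s j) * G (sz (s j))) / m ≤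
      Yh tr lo s b + kh tr τ s + tr.XX (qA tr τ s b) b lo t := by
  rw [XX_qA, Yh, kh, ← add_div, ← add_div, ← sum_add_distrib, ← sum_add_distrib]
  refine div_le_div_of_nonneg_right (sum_le_sum fun j _ => ?_) (Nat.cast_nonneg _)
  have h1 := mul_le_mul_of_nonneg_left (hG (sz (s j))) (dalt_sw_nonneg tr b (s j))
  have h2 := mul_le_mul_of_nonneg_right (dalt_sw_le tr b (s j)) (Tr.kap_nonneg h τ (sz (s j)))
  linarith

lemma condA (h : tr.WF) (s : Fin m → Option (ℕ × ℕ)) (b : Fin n) {lo : ℕ} (hlo : τ ≤ lo) (hi : ℕ)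
    {lam : ℝ} (hl : Yh tr lo s b + kh tr τ s ≤ lam) : Cond tr (qA tr τ s b) b lo hi lam .A := by
  intro w hw
  have h1 := avg_A h s b lo (w - 1) (fun z => tr.pi τ z w * tr.pb w b)
    fun z => Tr.condA_one h hlo (mem_Ioc.1 hw).1 z b
  have e : qA tr τ s b w * tr.pb w b =
      (∑ j, sw tr b (s j) * (tr.pi τ (sz (s j)) w * tr.pb w b)) / m := by
    rw [qA, div_mul_eq_mul_div, sum_mul]
    congr 1
    exact sum_congr rfl fun j _ => by ring
  rw [e]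
  linarith

lemma endA (h : tr.WF) (s : Fin m → Option (ℕ × ℕ)) (b : Fin n) {lo hi : ℕ} (hlo : τ ≤ lo)
    (hhi : lo ≤ hi) {lam : ℝ} (hl : Yh tr lo s b + kh tr τ s ≤ lam) :
    Yh tr hi s b ≤ lam + tr.XX (qA tr τ s b) b lo hi := by
  have h1 := avg_A h s b lo hi (fun z => tr.x1 hi z b) fun z => Tr.endA_one h hlo hhi z b
  rw [Yh]
  linarith

lemma qL_nonneg (h : tr.WF) (i : ℕ) (s : Fin m → Option (ℕ × ℕ)) (b : Fin n) (w : ℕ) :
    0 ≤ qL r tr N τ Tm i s b w := by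
  refine div_nonneg (sum_nonneg fun j _ => mul_nonneg (dalt_sw_nonneg tr b _) ?_)
    (Nat.cast_nonneg _)
  split_ifs
  · exact Tr.gr_nonneg h _ _ _
  · exact le_rfl

lemma qL_le (h : tr.WF) (i : ℕ) (s : Fin m → Option (ℕ × ℕ)) (b : Fin n) (w : ℕ) :
    qL r tr N τ Tm i s b w ≤ pih tr τ s w := by
  refine div_le_div_of_nonneg_right (sum_le_sum fun j _ => ?_) (Nat.cast_nonneg _)
  refine mul_le_mul (dalt_sw_le tr b _) ?_ ?_ (so_nonneg _)
  · split_ifs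
    · exact Tr.gr_mono h (fun w hw => hw.1) _ _
    · exact Tr.pi_nonneg h _ _ _
  · split_ifs
    · exact Tr.gr_nonneg h _ _ _
    · exact le_rfl

lemma qL_zero (i : ℕ) (s : Fin m → Option (ℕ × ℕ)) (b : Fin n) {w : ℕ}
    (hw : ¬rp r (3 * 4 ^ i) < tr.vv N τ w) : qL r tr N τ Tm i s b w = 0 := by
  simp [qL, hw]

/-- The set `F` of the nodes of large variance in the range. -/
noncomputable def FF (r : ℕ) (tr : Tr n) (N : Finset (Fin n)) (τ i lo hi : ℕ) : Finset ℕ :=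
  (Ioc lo hi).filter fun f => rp r (3 * 4 ^ i) < tr.vv N τ f

/-- The quantity `S_b`. -/
noncomputable def SS (r : ℕ) (tr : Tr n) (N : Finset (Fin n)) (τ i lo hi : ℕ)
    (s : Fin m → Option (ℕ × ℕ)) (b : Fin n) : ℝ :=
  ∑ f ∈ FF r tr N τ i lo hi, pih tr τ s f ^ 2 * (tr.xi f b ^ 2 + tr.vr f b)

lemma var_nonneg (h : tr.WF) (f : ℕ) (b : Fin n) : 0 ≤ tr.xi f b ^ 2 + tr.vr f b :=
  add_nonneg (sq_nonneg _) (Tr.vr_nonneg h f b)

lemma QQ_qL (h : tr.WF) (i lo hi : ℕ) (s : Fin m → Option (ℕ × ℕ)) (b : Fin n) :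
    tr.QQ (qL r tr N τ Tm i s b) b lo hi ≤ SS r tr N τ i lo hi s b := by
  rw [SS, FF, sum_filter, Tr.QQ]
  refine sum_le_sum fun w _ => ?_
  split_ifs with hw
  · exact mul_le_mul_of_nonneg_right
      (pow_le_pow_left₀ (qL_nonneg h i s b w) (qL_le h i s b w) 2) (var_nonneg h w b)
  · rw [qL_zero i s b hw]; simp

/-- The two consequences of the meeting lemma. -/
lemma meet_use (h : tr.WF) (hr : 0 < r) (i : ℕ) {lo hi : ℕ} (hlo : τ ≤ lo)
    (s : Fin m → Option (ℕ × ℕ)) {η μ : ℝ}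
    (hη : ∑ w ∈ Ioc τ hi, pih tr τ s w ^ 2 * tr.VV N w ≤ η) (hμ : η ≤ μ * rp r (3 * 4 ^ i)) :
    (∀ f ∈ FF r tr N τ i lo hi, pih tr τ s f ^ 2 ≤ μ) ∧
      ∀ {ι : Type} (C : Finset ι) (W : ι → Fin n) (c : ℝ), 0 ≤ c →
        (∀ l ∈ C, c < SS r tr N τ i lo hi s (W l)) →
        ∃ w0 ≤ hi, C.card * c ≤ μ * ∑ l ∈ C, tr.QQ (tr.pi τ w0) (W l) lo hi := by
  have hv := rp_pos hr (3 * 4 ^ i)
  have hF : FF r tr N τ i lo hi ⊆ Ioc τ hi :=
    (filter_subset _ _).trans (Ioc_subset_Ioc_left hlo)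
  obtain ⟨M, M0, M1, M2⟩ := meeting h N τ hi (pih tr τ s) (pih_nonneg h s)
    (fun x hx _ => pih_super h s hx.le hi) (FF r tr N τ i lo hi) hF _ η hv
    (fun f hf => (mem_filter.1 hf).2.le) hη
  have M3 : ∑ x ∈ FF r tr N τ i lo hi, M x ≤ μ := M1.trans ((div_le_iff₀ hv).2 hμ)
  refine ⟨fun f hf => (M2 f hf).trans (le_trans (sum_le_sum fun x _ => ?_) M3), ?_⟩
  · exact mul_le_of_le_one_right (M0 x)
      (pow_le_one₀ (Tr.pi_nonneg h _ _ _) (Tr.gr_le_one h _ _ _))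
  intro ι C W c hc hC
  rcases C.eq_empty_or_nonempty with rfl | ⟨l0, hl0⟩
  · exact ⟨0, Nat.zero_le _, by simp⟩
  have hne : (FF r tr N τ i lo hi).Nonempty := by
    rw [nonempty_iff_ne_empty]
    intro he
    have := hC l0 hl0
    rw [SS, he, sum_empty] at this
    linarith
  obtain ⟨w0, hw0, hmax⟩ := exists_max_image _
    (fun x => ∑ l ∈ C, tr.QQ (tr.pi τ x) (W l) lo hi) hne
  refine ⟨w0, (mem_Ioc.1 (hF hw0)).2, ?_⟩
  have hQ0 : ∀ x l, 0 ≤ tr.QQ (tr.pi τ x) (W l) lo hi := fun x l =>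
    sum_nonneg fun w _ => mul_nonneg (sq_nonneg _) (var_nonneg h w _)
  have h1 : ∀ l, SS r tr N τ i lo hi s (W l) ≤
      ∑ x ∈ FF r tr N τ i lo hi, M x * tr.QQ (tr.pi τ x) (W l) lo hi := by
    intro l
    calc _ ≤ ∑ f ∈ FF r tr N τ i lo hi, ∑ x ∈ FF r tr N τ i lo hi,
            M x * (tr.pi τ x f ^ 2 * (tr.xi f (W l) ^ 2 + tr.vr f (W l))) := by
          refine sum_le_sum fun f hf => le_trans
            (mul_le_mul_of_nonneg_right (M2 f hf) (var_nonneg h f _)) (le_of_eq ?_)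
          rw [sum_mul]
          exact sum_congr rfl fun x _ => by ring
      _ ≤ _ := by
          rw [sum_comm]
          refine sum_le_sum fun x _ => ?_
          rw [← mul_sum]
          refine mul_le_mul_of_nonneg_left ?_ (M0 x)
          exact sum_le_sum_of_subset_of_nonneg (filter_subset _ _)
            fun w _ _ => mul_nonneg (sq_nonneg _) (var_nonneg h w _)
  calc (C.card : ℝ) * c = ∑ _l ∈ C, c := by rw [sum_const, nsmul_eq_mul]
    _ ≤ ∑ l ∈ C, ∑ x ∈ FF r tr N τ i lo hi, M x * tr.QQ (tr.pi τ x) (W l) lo hi :=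
        sum_le_sum fun l hl => (hC l hl).le.trans (h1 l)
    _ = ∑ x ∈ FF r tr N τ i lo hi, M x * ∑ l ∈ C, tr.QQ (tr.pi τ x) (W l) lo hi := by
        rw [sum_comm]
        exact sum_congr rfl fun x _ => by rw [mul_sum]
    _ ≤ ∑ x ∈ FF r tr N τ i lo hi, M x * ∑ l ∈ C, tr.QQ (tr.pi τ w0) (W l) lo hi :=
        sum_le_sum fun x hx => mul_le_mul_of_nonneg_left (hmax x hx) (M0 x)
    _ ≤ _ := by
        rw [← sum_mul]
        exact mul_le_mul_of_nonneg_right M3 (sum_nonneg fun l _ => hQ0 w0 l)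

lemma condL (h : tr.WF) (i lo hi : ℕ) (s : Fin m → Option (ℕ × ℕ)) (b : Fin n) {lam : ℝ}
    (hl : 0 ≤ lam) (hF : ∀ f ∈ FF r tr N τ i lo hi, pih tr τ s f ^ 2 ≤ lam ^ 2) :
    Cond tr (qL r tr N τ Tm i s b) b lo hi lam .L := by
  intro w hw
  by_cases h1 : rp r (3 * 4 ^ i) < tr.vv N τ w
  · exact (qL_le h i s b w).trans (abs_le_of_sq_le_sq' (hF w (mem_filter.2 ⟨hw, h1⟩)) hl).2
  · rw [qL_zero i s b h1]; exact hl

/-- The budget of a sample in terms of powers of `r`. -/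
lemma bud_le (hr : 8 ≤ r) {c e d : ℕ} (hc : c ≤ 12 * pK r) (he : d + 3 * e + 1 ≤ c) :
    4 * (rp r c + 2 / pN r) ≤ rp r d * rp r (3 * e) := by
  have hr0 : 0 < r := by omega
  have h8 : (8 : ℝ) ≤ r := by exact_mod_cast hr
  have h1 : rp r 1 ≤ 1 / 8 := by
    unfold rp
    rw [pow_one, one_div]
    exact inv_anti₀ (by norm_num) h8
  have h2 : (1 : ℝ) / pN r = rp r (20 * (pK r + 1) + 20 * (pK r + 1)) := by
    rw [rp_add, ← inv_pH, pN]; push_cast; ring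
  have h3 : rp r (20 * (pK r + 1) + 20 * (pK r + 1)) ≤ rp r c * rp r 1 := by
    rw [← rp_add]; exact rp_anti hr0 (by omega)
  have h4 : rp r c ≤ rp r d * rp r (3 * e) * rp r 1 := by
    rw [← rp_add, ← rp_add]; exact rp_anti hr0 (by omega)
  have h5 := rp_pos hr0 c
  have h6 := mul_pos (rp_pos hr0 d) (rp_pos hr0 (3 * e))
  have h7 : (2 : ℝ) / pN r = 2 * (1 / pN r) := by ring
  rw [h7, h2]
  nlinarith

lemma rp_two (r c : ℕ) : rp r c ^ 2 = rp r (2 * c) := by rw [two_mul, rp_add, sq]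

lemma pow_eq_exp (hr : 0 < r) (c : ℕ) : (r : ℝ) ^ c = Real.exp (c * Real.log r) := by
  rw [Real.exp_nat_mul, Real.exp_log (by exact_mod_cast hr)]

lemma four_pow (i : ℕ) : (i : ℝ) + 1 ≤ (4 : ℝ) ^ i := by
  have : i + 1 ≤ 4 ^ i := Nat.lt_pow_self (by norm_num)
  exact_mod_cast this

lemma num0 (hr : 0 < r) (hl : 10 ^ 14 ≤ Real.log r) (j : ℕ) {lam X : ℝ}
    (h1 : lam = 2 * rp r (2 * 4 ^ j)) (h2 : rp r (4 ^ j) / 2 ≤ lam + X) :
    cA / 8 * ((4 ^ (j + 1) : ℕ) : ℝ) * Real.log r + 2 * (((j + 1 : ℕ) : ℝ) + 4) ≤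
      cA * Real.log ((lam + X) / lam) - 1 := by
  have hs := rp_pos hr (4 ^ j)
  have e1 := rp_mul_pow hr (4 ^ j)
  have hp : (0 : ℝ) < (r : ℝ) ^ (4 ^ j) := by
    have : (0 : ℝ) < r := by exact_mod_cast hr
    positivity
  have h3 : (r : ℝ) ^ (4 ^ j) / 4 ≤ (lam + X) / lam := by
    rw [le_div_iff₀ (by rw [h1]; have := rp_pos hr (2 * 4 ^ j); positivity)]
    refine le_trans (le_of_eq ?_) h2
    rw [h1, ← rp_two]
    linear_combination rp r (4 ^ j) / 2 * e1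
  have h4 := Real.log_le_log (by positivity) h3
  rw [Real.log_div hp.ne' (by norm_num), Real.log_pow] at h4
  have h5 : Real.log 4 ≤ 4 - 1 := Real.log_le_sub_one_of_pos (by norm_num)
  have h6 := four_pow j
  have h7 : (0 : ℝ) ≤ j := Nat.cast_nonneg _
  have h8 : (4 : ℝ) ^ j * 10 ^ 14 ≤ 4 ^ j * Real.log r :=
    mul_le_mul_of_nonneg_left hl (by positivity)
  push_cast at h4 ⊢
  unfold cA
  rw [pow_succ]
  nlinarith

lemma num1 (hr : 0 < r) (hl : 10 ^ 14 ≤ Real.log r) (i : ℕ) :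
    cA / 8 * ((4 ^ (i + 1) : ℕ) : ℝ) * Real.log r + 2 * ((i : ℝ) + 4) ≤
      cA * (r : ℝ) ^ (4 ^ i) - 1 := by
  have h1 := Real.add_one_le_exp (((4 ^ i : ℕ) : ℝ) * Real.log r)
  rw [← pow_eq_exp hr] at h1
  have h6 := four_pow i
  have h7 : (0 : ℝ) ≤ i := Nat.cast_nonneg _
  have h8 : (4 : ℝ) ^ i * 10 ^ 14 ≤ 4 ^ i * Real.log r :=
    mul_le_mul_of_nonneg_left hl (by positivity)
  push_cast at h1 ⊢
  unfold cA
  rw [pow_succ]
  nlinarith

lemma num2 (hr : 0 < r) (hl : 10 ^ 14 ≤ Real.log r) (i : ℕ) :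
    cA / 8 * ((4 ^ (i + 1) : ℕ) : ℝ) * Real.log r + 2 * ((i : ℝ) + 4) ≤
      cH * (r : ℝ) ^ (4 * 4 ^ i) - 1 := by
  have h6 := four_pow i
  have h7 : (0 : ℝ) ≤ i := Nat.cast_nonneg _
  have h8 : (4 : ℝ) ^ i * 10 ^ 14 ≤ 4 ^ i * Real.log r :=
    mul_le_mul_of_nonneg_left hl (by positivity)
  have h0 : 0 ≤ ((4 * 4 ^ i : ℕ) : ℝ) * Real.log r := by
    have : 0 ≤ Real.log r := le_trans (by norm_num) hl
    positivity
  have h1 := Real.quadratic_le_exp_of_nonneg h0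
  rw [← pow_eq_exp hr] at h1
  push_cast at h1 ⊢
  unfold cA cH
  rw [pow_succ]
  set y := (4 : ℝ) ^ i * Real.log r with hy
  have e1 : 4 * (4 : ℝ) ^ i * Real.log r = 4 * y := by rw [hy]; ring
  have e2 : 1 / 20000 / 8 * ((4 : ℝ) ^ i * 4) * Real.log r = y / 40000 := by rw [hy]; ring
  rw [e1] at h1
  rw [e2]
  have h9 : 10 ^ 14 * y ≤ y * y := mul_le_mul_of_nonneg_right (by nlinarith) (by nlinarith)
  nlinarith

lemma num4 (hr : 0 < r) (hl : 10 ^ 14 ≤ Real.log r) (i : ℕ) {k : ℕ} (hk : k ≤ pK r) :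
    cA / 8 * (k : ℝ) * Real.log r + 2 * ((i : ℝ) + 4) ≤ cH * (r : ℝ) ^ (14 * 4 ^ i) - 1 := by
  have h6 := four_pow i
  have h7 : (0 : ℝ) ≤ i := Nat.cast_nonneg _
  have h8 : (4 : ℝ) ^ i * 10 ^ 14 ≤ 4 ^ i * Real.log r :=
    mul_le_mul_of_nonneg_left hl (by positivity)
  have hl0 : 0 ≤ Real.log r := le_trans (by norm_num) hl
  have hr1 : (1 : ℝ) ≤ r := by exact_mod_cast hr
  have h1 := Real.add_one_le_exp (((14 * 4 ^ i : ℕ) : ℝ) * Real.log r)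
  rw [← pow_eq_exp hr] at h1
  have h2 := Real.quadratic_le_exp_of_nonneg hl0
  rw [Real.exp_log (by linarith)] at h2
  have h3 : (k : ℝ) ≤ (r : ℝ) ^ 13 := by exact_mod_cast hk
  have h4 : (r : ℝ) ^ 13 * r ≤ (r : ℝ) ^ (14 * 4 ^ i) := by
    rw [← pow_succ]
    exact pow_le_pow_right₀ hr1 (by have := Nat.one_le_pow i 4 (by norm_num); omega)
  have h5 : 10 ^ 13 * Real.log r ≤ r := by nlinarith
  have h9 : (k : ℝ) * (10 ^ 13 * Real.log r) ≤ (r : ℝ) ^ 13 * r :=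
    mul_le_mul h3 h5 (by positivity) (by positivity)
  push_cast at h1
  unfold cA cH
  nlinarith

end Pool.Agent.P.MP_5c258a_lc.Bin.DL
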