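import Pool.Agent.P.MP_5c258a_lc.Bin.DSmpA
import Pool.Agent.P.MP_5c258a_lc.Bin.Meet

/-! Task DSMP: samples of all levels, and the number of bad particles (paper section 4). -/

namespace Pool.Agent.P.MP_5c258a_lc.Bin

open Finset Classical

variable {n : ℕ}

namespace DS

lemma pH_pos {r : ℕ} (hr : 0 < r) : 0 < pH r := by rw [pH_eq]; positivity

lemma samples_one {r : ℕ} (hr : 2 ≤ r) {tr : Tr n} {N : Finset (Fin n)} {W : Fin (pL r) → Fin n}
    {τ a k : ℕ} {Tm : ℕ → ℕ} (h : Ctx r tr N W τ a k Tm) (i : ℕ) :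
    ∃ s : Fin (pN r) → Option (ℕ × ℕ), (∀ j x, s j = some x → x.1 ≤ a ∧ x.2 ≤ τ) ∧
      ∑ w ∈ Ioc τ (Tm i), pih tr τ s w ^ 2 * tr.VV N w ≤ 4 * (rp r (12 * 4 ^ i) + 2 / pN r) ∧
      ∑ w ∈ Ioc τ (Tm (i + 1)), pih tr τ s w ^ 2 * tr.VV N w ≤
        4 * (rp r (12 * 4 ^ (i + 1)) + 2 / pN r) ∧
      kh tr τ s ≤ 16 / pH r ∧ ∑ l, dev r tr N τ a Tm i s (W l) ≤ 8 * pL r / pN r := by
  have hw := h.wf
  have hH : 0 < pH r := pH_pos (by omega)
  have hH' : (0 : ℝ) < pH r := by exact_mod_cast hH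
  have hN : 0 < pN r := by unfold pN; positivity
  set Z : ℕ → ℝ := ZZ r tr N τ a Tm i with hZ
  have hZ0 : ∀ z, 0 ≤ Z z := ZZ_nonneg N τ a Tm hw i
  have hP := PP_nonneg hw τ a hZ0 (ZZ_sum_le N τ a Tm hw i)
  have hpi : ∀ w z, 0 ≤ tr.pi τ z w := fun w z => Tr.gr_nonneg hw _ z w
  have hbud : ∀ t, ∑ w ∈ Ioc τ t, (∑ x ∈ insertNone (range (a + 1) ×ˢ range (τ + 1)),
      PP tr τ a Z x * (so x * tr.pi τ (sz x) w)) ^ 2 * tr.VV N w ≤
      ∑ w ∈ Ioc τ t, tr.pi τ a w ^ 2 * tr.VV N w := by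
    intro t
    refine sum_le_sum fun w _ => mul_le_mul_of_nonneg_right ?_ (Tr.VV_nonneg hw N w)
    refine pow_le_pow_left₀ (sum_nonneg fun x _ => mul_nonneg (hP x)
      (mul_nonneg (so_nonneg x) (hpi w _))) ?_ 2
    exact (PP_so hw τ a hZ0 (F := fun z => tr.pi τ z w) (hpi w)).trans (ZZ_pi N τ a Tm hw i w)
  have hone : ∀ t, ∀ x ∈ insertNone (range (a + 1) ×ˢ range (τ + 1)),
      ∑ w ∈ Ioc τ t, (so x * tr.pi τ (sz x) w) ^ 2 * tr.VV N w ≤ 2 := by
    intro t x hx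
    cases x with
    | none => simp [so]
    | some y =>
      simp only [so, sz, one_mul]
      have hy : y.1 ≤ a := by
        have := mem_product.1 (some_mem_insertNone.1 hx)
        simpa [Nat.lt_succ_iff] using this.1
      exact (vv_cut hw N τ y.1 t).trans (h.g2 _ hy)
  obtain ⟨s, hs, h1, h2, h3, h4⟩ := sampling (I := Fin (pL r) × Bool)
    (insertNone (range (a + 1) ×ˢ range (τ + 1))) (PP tr τ a Z) (fun x _ => hP x)
    (PP_sum tr τ a Z) (pN r) hN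
    (fun p x => sw tr (W p.1) x * (bif p.2 then tr.x1 (Tm (i - 1)) (sz x) (W p.1)
      else Gz tr (AA r tr N τ Tm i) (sz x) (W p.1)))
    (by
      rintro ⟨l, c⟩ x _
      cases c
      · exact ⟨mul_nonneg (sw_nonneg _ _ _) (Gz_nonneg hw _ _ _),
          mul_le_one₀ (sw_le_one _ _ _) (Gz_nonneg hw _ _ _)
            (Gz_le_one hw (AA_zero N τ Tm i) _ _)⟩
      · exact ⟨mul_nonneg (sw_nonneg _ _ _) (Tr.x1_nonneg hw _ _ _),
          mul_le_one₀ (sw_le_one _ _ _) (Tr.x1_nonneg hw _ _ _) (x1_le_one hw _ _ _)⟩)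
    (fun w x => so x * tr.pi τ (sz x) w) (tr.VV N) (Tr.VV_nonneg hw N)
    (Ioc τ (Tm i)) (Ioc τ (Tm (i + 1))) (rp r (12 * 4 ^ i)) (rp r (12 * 4 ^ (i + 1)))
    ((hbud _).trans (h.bud i)) ((hbud _).trans (h.bud (i + 1))) (hone _) (hone _)
    (fun x => so x * tr.kap τ (sz x))
    (fun x _ => mul_nonneg (so_nonneg x) (Tr.kap_nonneg hw _ _)) (4 / pH r) (by positivity)
    (((PP_so hw τ a hZ0 (F := fun z => tr.kap τ z) (Tr.kap_nonneg hw τ)).trans
      (ZZ_kap N τ a Tm hw i)).trans h.kill)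
  refine ⟨s, ?_, h2, h3, ?_, ?_⟩
  · intro j x hx
    have h5 := hs j
    rw [hx] at h5
    have := mem_product.1 (some_mem_insertNone.1 h5)
    simpa [Nat.lt_succ_iff] using this
  · refine h4.trans (le_of_eq ?_)
    ring
  · rw [Fintype.sum_prod_type] at h1
    refine le_trans (le_of_eq ?_) (h1.trans (le_of_eq ?_))
    · refine sum_congr rfl fun l _ => ?_
      rw [Fintype.sum_bool]
      simp only [cond_true, cond_false]
      rw [PP_sw tr τ a Z (W l) fun z => tr.x1 (Tm (i - 1)) z (W l),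
        PP_sw tr τ a Z (W l) fun z => Gz tr (AA r tr N τ Tm i) z (W l)]
      rfl
    · simp only [Fintype.card_prod, Fintype.card_fin, Fintype.card_bool]
      push_cast
      ring

lemma inv_pH_le {r : ℕ} (hr : 2 ≤ r) {m : ℕ} (hm : m ≤ 20 * pK r) :
    1 / (pH r : ℝ) ≤ rp r m / 400 := by
  have hr0 : 0 < r := by omega
  have h1 : rp r 20 ≤ 1 / 400 := by
    unfold rp
    have : (2 : ℝ) ≤ r := by exact_mod_cast hr
    have h2 : (2 : ℝ) ^ 20 ≤ (r : ℝ) ^ 20 := pow_le_pow_left₀ (by norm_num) this 20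
    rw [one_div]
    exact inv_anti₀ (by norm_num) (le_trans (by norm_num) h2)
  have h2 : rp r (20 * pK r) ≤ rp r m := rp_anti hr0 hm
  rw [inv_pH, mul_add, mul_one, rp_add]
  calc rp r (20 * pK r) * rp r 20 ≤ rp r m * (1 / 400) :=
        mul_le_mul h2 h1 (rp_pos hr0 _).le (rp_pos hr0 _).le
    _ = rp r m / 400 := by ring

lemma count_start {r : ℕ} (hr : 2 ≤ r) {tr : Tr n} {N : Finset (Fin n)}
    {W : Fin (pL r) → Fin n} {τ a k : ℕ} {Tm : ℕ → ℕ} (h : Ctx r tr N W τ a k Tm) :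
    ((univ.filter fun l => 3 / 4 < tr.x1 τ a (W l)).card : ℝ) ≤ 67 / 100 * pL r := by
  refine markov (fun l => tr.x1 τ a (W l)) (fun l => Tr.x1_nonneg h.wf _ _ _) (by norm_num) ?_
  refine (sum_x1_le h.wf (by positivity) h.typ a).trans ?_
  have h1 := inv_pH_le hr (Nat.zero_le _)
  have h2 : rp r 0 = 1 := by simp [rp]
  rw [h2] at h1
  have h3 : (0 : ℝ) ≤ pL r := Nat.cast_nonneg _
  nlinarith

lemma count_tau {r : ℕ} (hr : 2 ≤ r) {tr : Tr n} {N : Finset (Fin n)}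
    {W : Fin (pL r) → Fin n} {τ a k : ℕ} {Tm : ℕ → ℕ} (h : Ctx r tr N W τ a k Tm) {i : ℕ}
    (hi : 4 ^ i ≤ pK r) :
    ((univ.filter fun l => rp r (2 * 4 ^ i) / 4 <
      EZ r tr N τ a Tm (i + 1) (W l) fun z => tr.x1 τ z (W l)).card : ℝ) ≤
      8 * rp r (4 ^ i) * pL r := by
  have hw := h.wf
  have hr0 : 0 < r := by omega
  have hZ0 := ZZ_nonneg (r := r) N τ a Tm hw (i + 1)
  have hL : (0 : ℝ) ≤ pL r := Nat.cast_nonneg _
  have hε : (0 : ℝ) ≤ 1 / pH r := by positivity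
  refine markov (fun l => EZ r tr N τ a Tm (i + 1) (W l) fun z => tr.x1 τ z (W l))
    (fun l => sum_nonneg fun z _ => mul_nonneg (mul_nonneg (hZ0 z) (Tr.x0_nonneg hw _ _ _))
      (Tr.x1_nonneg hw _ _ _)) (by have := rp_pos hr0 (2 * 4 ^ i); positivity) ?_
  have e1 : rp r (2 * 4 ^ i) / 4 * (8 * rp r (4 ^ i) * pL r) = 2 * rp r (3 * 4 ^ i) * pL r := by
    rw [show 3 * 4 ^ i = 2 * 4 ^ i + 4 ^ i by ring, rp_add]
    ring
  rw [e1]
  unfold EZ
  rw [sum_comm]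
  have e2 : ∀ z ∈ range (a + 1),
      ∑ l, ZZ r tr N τ a Tm (i + 1) z * tr.x0 τ z (W l) * tr.x1 τ z (W l) ≤
        ZZ r tr N τ a Tm (i + 1) z * ((rp r (3 * 4 ^ i) + 11 * (1 / pH r)) * pL r) +
          ZZ r tr N τ a Tm (i + 1) z * tr.kap τ z * (2 * pL r) := by
    intro z hz
    by_cases h0 : ZZ r tr N τ a Tm (i + 1) z = 0
    · simp [h0]
    have h1 := ZZ_vv N τ a Tm hr0 h0
    have h2 := h.g3 z (by simpa [Nat.lt_succ_iff] using hz)
    have h3 := sum_xoxi_le hw hε h.typ z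
    have h4 : ∑ l, tr.x0 τ z (W l) * tr.x1 τ z (W l) ≤
        (rp r (3 * 4 ^ i) + 11 * (1 / pH r) + 2 * tr.kap τ z) * pL r := by
      refine h3.trans (mul_le_mul_of_nonneg_right ?_ hL)
      have : (10 : ℝ) / pH r = 10 * (1 / pH r) := by ring
      linarith
    simp only [mul_assoc]
    rw [← mul_sum, ← mul_add]
    refine mul_le_mul_of_nonneg_left (h4.trans (le_of_eq ?_)) (hZ0 z)
    ring
  refine (sum_le_sum e2).trans ?_
  rw [sum_add_distrib, ← sum_mul, ← sum_mul]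
  have h1 := ZZ_sum_le (r := r) N τ a Tm hw (i + 1)
  have h2 := (ZZ_kap (r := r) N τ a Tm hw (i + 1)).trans h.kill
  have h3 : 1 / (pH r : ℝ) ≤ rp r (3 * 4 ^ i) / 400 := inv_pH_le hr (by omega)
  have h4 := rp_pos hr0 (3 * 4 ^ i)
  have h5 : (∑ z ∈ range (a + 1), ZZ r tr N τ a Tm (i + 1) z) *
      ((rp r (3 * 4 ^ i) + 11 * (1 / pH r)) * pL r) ≤
      (rp r (3 * 4 ^ i) + 11 * (1 / pH r)) * pL r :=
    mul_le_of_le_one_left (by positivity) h1
  have h6 : (∑ z ∈ range (a + 1), ZZ r tr N τ a Tm (i + 1) z * tr.kap τ z) * (2 * pL r) ≤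
      4 / pH r * (2 * pL r) := mul_le_mul_of_nonneg_right h2 (by positivity)
  have h7 : (4 : ℝ) / pH r = 4 * (1 / pH r) := by ring
  rw [h7] at h6
  nlinarith

lemma sum_rp_le {r : ℕ} (hr : 2 ≤ r) (m : ℕ) : ∑ i ∈ range m, rp r (4 ^ i) ≤ 2 / r := by
  have hr0 : 0 < r := by omega
  have hr2 : (2 : ℝ) ≤ r := by exact_mod_cast hr
  have h1 : ∀ i ∈ range m, rp r (4 ^ i) ≤ 1 / r * (1 / 2) ^ i := by
    intro i _
    have h2 : i + 1 ≤ 4 ^ i := Nat.lt_pow_self (by norm_num)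
    refine (rp_anti hr0 h2).trans ?_
    unfold rp
    rw [one_div, one_div, inv_pow, ← mul_inv, pow_succ, mul_comm]
    refine inv_anti₀ (by positivity) (mul_le_mul_of_nonneg_left ?_ (by positivity))
    exact pow_le_pow_left₀ (by norm_num) hr2 i
  refine (sum_le_sum h1).trans ?_
  rw [← mul_sum]
  calc 1 / (r : ℝ) * ∑ i ∈ range m, (1 / 2 : ℝ) ^ i ≤ 1 / r * 2 :=
        mul_le_mul_of_nonneg_left (sum_geometric_two_le m) (by positivity)
    _ = 2 / r := by ring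

lemma dev_small {r : ℕ} (hr : 2 ≤ r) :
    ((pK r + 1 : ℕ) : ℝ) * (2048 * rp r (36 * pK r + 40)) ≤ 1 / 200 := by
  have hr2 : (2 : ℝ) ≤ r := by exact_mod_cast hr
  have h1 : ((pK r + 1 : ℕ) : ℝ) ≤ (r : ℝ) ^ (36 * pK r) := by
    have h2 : pK r + 1 ≤ r ^ pK r := Nat.lt_pow_self (by omega)
    have h3 : r ^ pK r ≤ r ^ (36 * pK r) := Nat.pow_le_pow_right (by omega) (by omega)
    exact_mod_cast h2.trans h3
  have h2 : (409600 : ℝ) ≤ (r : ℝ) ^ 40 :=
    le_trans (by norm_num) (pow_le_pow_left₀ (by norm_num) hr2 40)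
  have h3 := rp_mul_pow (r := r) (by omega) (36 * pK r + 40)
  have h4 := rp_pos (r := r) (by omega) (36 * pK r + 40)
  have h5 : ((pK r + 1 : ℕ) : ℝ) * 409600 ≤ (r : ℝ) ^ (36 * pK r + 40) := by
    rw [pow_add]
    exact mul_le_mul h1 h2 (by norm_num) (by positivity)
  nlinarith

lemma count_dev {r : ℕ} (hr : 2 ≤ r) {tr : Tr n} {N : Finset (Fin n)}
    {W : Fin (pL r) → Fin n} {τ a : ℕ} {Tm : ℕ → ℕ} {s : ℕ → Fin (pN r) → Option (ℕ × ℕ)}
    (h : Smp r tr N W τ a Tm s) (i : ℕ) :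
    ((univ.filter fun l => (rp r (2 * pK r) / 16) ^ 2 < dev r tr N τ a Tm i (s i) (W l)).card : ℝ)
      ≤ 2048 * rp r (36 * pK r + 40) * pL r := by
  have hr0 : 0 < r := by omega
  refine markov (fun l => dev r tr N τ a Tm i (s i) (W l))
    (fun l => add_nonneg (sq_nonneg _) (sq_nonneg _))
    (by have := rp_pos hr0 (2 * pK r); positivity) ((h.dev i).trans (le_of_eq ?_))
  have e1 : (1 / (pH r : ℝ)) * (1 / pH r) =
      rp r (2 * pK r) * rp r (2 * pK r) * rp r (36 * pK r + 40) := by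
    rw [inv_pH, ← rp_add, ← rp_add, ← rp_add]
    congr 1
    ring
  have e2 : (8 : ℝ) * pL r / pN r = 8 * pL r * ((1 / (pH r : ℝ)) * (1 / pH r)) := by
    unfold pN
    push_cast
    ring
  rw [e2, e1]
  ring

end DS

open DS

/-- Apply `sampling` for each level `i` with `X = Option (ℕ × ℕ)`,
`s = insertNone (range (a+1) ×ˢ range (τ+1))`, `P (some (z,f)) = ZZ i z * st (τ < ·) z f`, the rest
on `none`; `I = Fin (pL r) × Bool`; `a w x = so x * pi τ (sz x) w`, whose mean is at most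
`pi τ a w` (`pi_comp`, `st_sum_le`); `κ x = so x * kap τ (sz x)` (`kap_comp`). -/
theorem samples {r : ℕ} (hr : 2 ≤ r) {tr : Tr n} {N : Finset (Fin n)} {W : Fin (pL r) → Fin n}
    {τ a k : ℕ} {Tm : ℕ → ℕ} (h : Ctx r tr N W τ a k Tm) : ∃ s, Smp r tr N W τ a Tm s := by
  choose s h1 h2 h3 h4 h5 using samples_one hr h
  exact ⟨s, h1, h2, h3, h4, h5⟩

/-- Markov: `start` fails for at most `0.67 L` (`Typ.one`), `tau i` for at most `8 r^(-4^i) L`
(`Typ.two`, `g3`, `kap_comp`; nodes `z ≤ τ` have `x0 * x1 = 0`, the other nodes carrying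
`ZZ (i+1)` have `vv ≤ rp r (3 * 4^i)`), `dev` for a tiny part. -/
theorem count_bad : ∃ r0 : ℕ, ∀ r ≥ r0, ∀ {n : ℕ} {tr : Tr n} {N : Finset (Fin n)}
    {W : Fin (pL r) → Fin n} {τ a k : ℕ} {Tm : ℕ → ℕ} {s : ℕ → Fin (pN r) → Option (ℕ × ℕ)},
    Ctx r tr N W τ a k Tm → Smp r tr N W τ a Tm s →
    ((univ.filter fun l => ¬GoodP r tr N τ a Tm s (W l)).card : ℝ) ≤
      68 / 100 * pL r + nbad tr W (Tm 0) a := by
  refine ⟨3200, fun r hr n tr N W τ a k Tm s h hs => ?_⟩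
  have hr2 : 2 ≤ r := by omega
  have hr0 : 0 < r := by omega
  have hL : (0 : ℝ) ≤ pL r := Nat.cast_nonneg _
  set B1 := univ.filter fun l => 1 / 100 < rise tr (Tm 0) a (W l) with hB1
  set B2 := univ.filter fun l => 3 / 4 < tr.x1 τ a (W l) with hB2
  set B3 : ℕ → Finset (Fin (pL r)) := fun i => univ.filter fun l => rp r (2 * 4 ^ i) / 4 <
      EZ r tr N τ a Tm (i + 1) (W l) fun z => tr.x1 τ z (W l) with hB3
  set B4 : ℕ → Finset (Fin (pL r)) := fun i => univ.filter fun l =>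
      (rp r (2 * pK r) / 16) ^ 2 < dev r tr N τ a Tm i (s i) (W l) with hB4
  set I3 := (range (pK r)).filter fun i => 4 ^ i ≤ pK r with hI3
  have hsub : (univ.filter fun l => ¬GoodP r tr N τ a Tm s (W l)) ⊆
      B1 ∪ B2 ∪ I3.biUnion B3 ∪ (range (pK r + 1)).biUnion B4 := by
    intro l hl
    by_contra hc
    simp only [mem_union, not_or, mem_biUnion, not_exists, not_and] at hc
    obtain ⟨⟨⟨c1, c2⟩, c3⟩, c4⟩ := hc
    apply (mem_filter.1 hl).2
    refine ⟨?_, ?_, fun i hi => ?_, fun i hi => ?_⟩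
    · exact not_lt.1 fun h' => c1 (mem_filter.2 ⟨mem_univ _, h'⟩)
    · exact not_lt.1 fun h' => c2 (mem_filter.2 ⟨mem_univ _, h'⟩)
    · have h2 : i < 4 ^ i := Nat.lt_pow_self (by norm_num)
      exact not_lt.1 fun h' => c3 i (mem_filter.2 ⟨mem_range.2 (by omega), hi⟩)
        (mem_filter.2 ⟨mem_univ _, h'⟩)
    · exact not_lt.1 fun h' => c4 i (mem_range.2 (by omega)) (mem_filter.2 ⟨mem_univ _, h'⟩)
  have hcard : (univ.filter fun l => ¬GoodP r tr N τ a Tm s (W l)).card ≤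
      B1.card + B2.card + ∑ i ∈ I3, (B3 i).card + ∑ i ∈ range (pK r + 1), (B4 i).card := by
    refine (card_le_card hsub).trans ((card_union_le _ _).trans ?_)
    refine Nat.add_le_add ((card_union_le _ _).trans ?_) card_biUnion_le
    exact Nat.add_le_add (card_union_le _ _) card_biUnion_le
  have hcard' : ((univ.filter fun l => ¬GoodP r tr N τ a Tm s (W l)).card : ℝ) ≤
      B1.card + B2.card + ∑ i ∈ I3, ((B3 i).card : ℝ) +
        ∑ i ∈ range (pK r + 1), ((B4 i).card : ℝ) := by exact_mod_cast hcard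
  have h1 : (B1.card : ℝ) = nbad tr W (Tm 0) a := rfl
  have h2 : (B2.card : ℝ) ≤ 67 / 100 * pL r := count_start hr2 h
  have h3 : ∑ i ∈ I3, ((B3 i).card : ℝ) ≤ 1 / 200 * pL r := by
    calc ∑ i ∈ I3, ((B3 i).card : ℝ) ≤ ∑ i ∈ I3, 8 * rp r (4 ^ i) * pL r :=
          sum_le_sum fun i hi => count_tau hr2 h (mem_filter.1 hi).2
      _ ≤ ∑ i ∈ range (pK r), 8 * rp r (4 ^ i) * pL r :=
          sum_le_sum_of_subset_of_nonneg (filter_subset _ _) fun i _ _ => by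
            have := rp_pos hr0 (4 ^ i); positivity
      _ = 8 * (∑ i ∈ range (pK r), rp r (4 ^ i)) * pL r := by rw [mul_sum, sum_mul]
      _ ≤ 1 / 200 * pL r := by
          refine mul_le_mul_of_nonneg_right ?_ hL
          have e1 := sum_rp_le hr2 (pK r)
          have e2 : (3200 : ℝ) ≤ r := by exact_mod_cast hr
          have e3 : (2 : ℝ) / r ≤ 2 / 3200 := div_le_div_of_nonneg_left (by norm_num) (by norm_num) e2
          linarith
  have h4 : ∑ i ∈ range (pK r + 1), ((B4 i).card : ℝ) ≤ 1 / 200 * pL r := by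
    calc ∑ i ∈ range (pK r + 1), ((B4 i).card : ℝ)
        ≤ ∑ _i ∈ range (pK r + 1), 2048 * rp r (36 * pK r + 40) * pL r :=
          sum_le_sum fun i _ => count_dev hr2 hs i
      _ = ((pK r + 1 : ℕ) : ℝ) * (2048 * rp r (36 * pK r + 40)) * pL r := by
          rw [sum_const, card_range, nsmul_eq_mul]; ring
      _ ≤ 1 / 200 * pL r := mul_le_mul_of_nonneg_right (dev_small hr2) hL
  linarith

end Pool.Agent.P.MP_5c258a_lc.Bin
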