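import Pool.Agent.P.MP_5c258a_lc.Bin.Par

/-! Auxiliary facts for the task DSMP: the measures `ZZ`, the law of a sampled pair, Markov. -/

namespace Pool.Agent.P.MP_5c258a_lc.Bin

open Finset Classical

namespace DS

variable {n : ℕ}

lemma st_range (tr : Tr n) (τ z : ℕ) (F : ℕ → ℝ) :
    ∑ f ∈ range (z + 1), tr.st (fun w => τ < w) z f * F f =
      ∑ f ∈ range (τ + 1), tr.st (fun w => τ < w) z f * F f := by
  have h1 : ∑ f ∈ range (z + 1), tr.st (fun w => τ < w) z f * F f =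
      ∑ f ∈ range (z + τ + 1), tr.st (fun w => τ < w) z f * F f := by
    apply sum_subset
    · intro x hx; simp only [mem_range] at hx ⊢; omega
    · intro x _ hx
      simp only [mem_range, not_lt] at hx
      unfold Tr.st
      rw [Tr.gr_of_lt tr _ (by omega : z < x)]
      simp
  have h2 : ∑ f ∈ range (τ + 1), tr.st (fun w => τ < w) z f * F f =
      ∑ f ∈ range (z + τ + 1), tr.st (fun w => τ < w) z f * F f := by
    apply sum_subset
    · intro x hx; simp only [mem_range] at hx ⊢; omega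
    · intro x _ hx
      simp only [mem_range, not_lt] at hx
      unfold Tr.st
      rw [if_pos (by omega : τ < x)]
      simp
  rw [h1, h2]

lemma st_sum_le' {tr : Tr n} (h : tr.WF) (τ z : ℕ) :
    ∑ f ∈ range (τ + 1), tr.st (fun w => τ < w) z f ≤ 1 := by
  have h1 := st_range tr τ z fun _ => 1
  simp only [mul_one] at h1
  rw [← h1]
  exact Tr.st_sum_le h (by simp) z

lemma x0_eq (tr : Tr n) (τ z : ℕ) (b : Fin n) : tr.x0 τ z b =
    ∑ f ∈ range (τ + 1), tr.st (fun w => τ < w) z f * (1 - tr.bt f b) :=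
  st_range tr τ z fun f => 1 - tr.bt f b

lemma x1_eq (tr : Tr n) (τ z : ℕ) (b : Fin n) : tr.x1 τ z b =
    ∑ f ∈ range (τ + 1), tr.st (fun w => τ < w) z f * tr.bt f b :=
  st_range tr τ z fun f => tr.bt f b

lemma x1_le_one {tr : Tr n} (h : tr.WF) (t z : ℕ) (b : Fin n) : tr.x1 t z b ≤ 1 := by
  have h1 := Tr.mass h t z b
  have h2 := Tr.x0_nonneg h t z b
  have h3 := Tr.kap_nonneg h t z
  linarith

lemma Gz_nonneg {tr : Tr n} (h : tr.WF) (A : ℕ → Prop) (z : ℕ) (b : Fin n) : 0 ≤ Gz tr A z b :=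
  sum_nonneg fun x _ => mul_nonneg (Tr.st_nonneg h A z x) (tr.bt_nonneg x b)

lemma Gz_le_one {tr : Tr n} (h : tr.WF) {A : ℕ → Prop} (h0 : ¬A 0) (z : ℕ) (b : Fin n) :
    Gz tr A z b ≤ 1 := by
  refine le_trans (sum_le_sum fun x _ => ?_) (Tr.st_sum_le h h0 z)
  exact mul_le_of_le_one_right (Tr.st_nonneg h A z x) (tr.bt_le_one x b)

section ZZ

variable {r : ℕ} {tr : Tr n} (N : Finset (Fin n)) (τ a : ℕ) (Tm : ℕ → ℕ)

lemma AA_zero (i : ℕ) : ¬AA r tr N τ Tm i 0 := fun h => absurd h.1 (Nat.not_lt_zero τ)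

lemma AA_lt (i w : ℕ) (h : AA r tr N τ Tm i w) : τ < w := h.1

lemma ZZ_zero_sum (F : ℕ → ℝ) : ∑ z ∈ range (a + 1), ZZ r tr N τ a Tm 0 z * F z = F a := by
  simp [ZZ]

lemma ZZ_nonneg (h : tr.WF) (i z : ℕ) : 0 ≤ ZZ r tr N τ a Tm i z := by
  cases i with
  | zero => simp only [ZZ]; split_ifs <;> norm_num
  | succ i => exact Tr.st_nonneg h _ a z

lemma ZZ_sum_le (h : tr.WF) (i : ℕ) : ∑ z ∈ range (a + 1), ZZ r tr N τ a Tm i z ≤ 1 := by
  cases i with
  | zero => simp [ZZ]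
  | succ i => exact Tr.st_sum_le h (AA_zero N τ Tm i) a

lemma ZZ_pi (h : tr.WF) (i w : ℕ) :
    ∑ z ∈ range (a + 1), ZZ r tr N τ a Tm i z * tr.pi τ z w ≤ tr.pi τ a w := by
  cases i with
  | zero => exact (ZZ_zero_sum N τ a Tm fun z => tr.pi τ z w).le
  | succ i => exact Tr.pi_comp h (AA_lt N τ Tm i) a w

lemma ZZ_kap (h : tr.WF) (i : ℕ) :
    ∑ z ∈ range (a + 1), ZZ r tr N τ a Tm i z * tr.kap τ z ≤ tr.kap τ a := by
  cases i with
  | zero => exact (ZZ_zero_sum N τ a Tm fun z => tr.kap τ z).le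
  | succ i => exact Tr.kap_comp h (AA_lt N τ Tm i) a

/-- The nodes that carry `ZZ (i + 1)` have a small variance. -/
lemma ZZ_vv (hr : 0 < r) {i z : ℕ} (hz : ZZ r tr N τ a Tm (i + 1) z ≠ 0) :
    tr.vv N τ z ≤ rp r (3 * 4 ^ i) := by
  have h1 : ¬AA r tr N τ Tm i z := by
    intro h
    apply hz
    simp only [ZZ, Tr.st]
    rw [if_pos h]
  by_cases h2 : τ < z
  · by_contra h3
    exact h1 ⟨h2, Or.inr (not_le.1 h3)⟩
  · unfold Tr.vv
    rw [Ioc_eq_empty (by omega), sum_empty]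
    exact (rp_pos hr _).le

end ZZ

/-- The law of a pair `(z, f)`; the missing mass sits on `none`. -/
noncomputable def PP (tr : Tr n) (τ a : ℕ) (Z : ℕ → ℝ) : Option (ℕ × ℕ) → ℝ := fun x =>
  Option.elim x
    (1 - ∑ y ∈ range (a + 1) ×ˢ range (τ + 1), Z y.1 * tr.st (fun w => τ < w) y.1 y.2)
    fun y => Z y.1 * tr.st (fun w => τ < w) y.1 y.2

lemma PP_sum (tr : Tr n) (τ a : ℕ) (Z : ℕ → ℝ) :
    ∑ x ∈ insertNone (range (a + 1) ×ˢ range (τ + 1)), PP tr τ a Z x = 1 := by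
  rw [sum_insertNone]
  simp [PP]

lemma PP_mean (tr : Tr n) (τ a : ℕ) (Z : ℕ → ℝ) (G : Option (ℕ × ℕ) → ℝ) (hG : G none = 0) :
    ∑ x ∈ insertNone (range (a + 1) ×ˢ range (τ + 1)), PP tr τ a Z x * G x =
      ∑ z ∈ range (a + 1), Z z *
        ∑ f ∈ range (τ + 1), tr.st (fun w => τ < w) z f * G (some (z, f)) := by
  rw [sum_insertNone, hG, mul_zero, zero_add, sum_product]
  refine sum_congr rfl fun z _ => ?_
  rw [mul_sum]
  refine sum_congr rfl fun f _ => ?_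
  simp only [PP, Option.elim]
  ring

lemma PP_nonneg {tr : Tr n} (h : tr.WF) (τ a : ℕ) {Z : ℕ → ℝ} (hZ : ∀ z, 0 ≤ Z z)
    (h1 : ∑ z ∈ range (a + 1), Z z ≤ 1) (x : Option (ℕ × ℕ)) : 0 ≤ PP tr τ a Z x := by
  cases x with
  | none =>
    simp only [PP, Option.elim]
    rw [sum_product, sub_nonneg]
    refine le_trans (sum_le_sum fun z _ => ?_) h1
    simp only
    rw [← mul_sum]
    exact mul_le_of_le_one_right (hZ z) (st_sum_le' h τ z)
  | some y => exact mul_nonneg (hZ _) (Tr.st_nonneg h _ _ _)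

lemma PP_sw (tr : Tr n) (τ a : ℕ) (Z : ℕ → ℝ) (b : Fin n) (F : ℕ → ℝ) :
    ∑ x ∈ insertNone (range (a + 1) ×ˢ range (τ + 1)), PP tr τ a Z x * (sw tr b x * F (sz x)) =
      ∑ z ∈ range (a + 1), Z z * tr.x0 τ z b * F z := by
  rw [PP_mean tr τ a Z _ (by simp [sw])]
  refine sum_congr rfl fun z _ => ?_
  rw [x0_eq, mul_assoc, sum_mul]
  congr 1
  refine sum_congr rfl fun f _ => ?_
  simp only [sw, sz]
  ring

lemma PP_so {tr : Tr n} (h : tr.WF) (τ a : ℕ) {Z : ℕ → ℝ} (hZ : ∀ z, 0 ≤ Z z) {F : ℕ → ℝ}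
    (hF : ∀ z, 0 ≤ F z) :
    ∑ x ∈ insertNone (range (a + 1) ×ˢ range (τ + 1)), PP tr τ a Z x * (so x * F (sz x)) ≤
      ∑ z ∈ range (a + 1), Z z * F z := by
  rw [PP_mean tr τ a Z _ (by simp [so])]
  refine sum_le_sum fun z _ => mul_le_mul_of_nonneg_left ?_ (hZ z)
  simp only [so, sz, one_mul]
  rw [← sum_mul]
  exact mul_le_of_le_one_left (hF z) (st_sum_le' h τ z)

lemma so_nonneg (x : Option (ℕ × ℕ)) : 0 ≤ so x := by
  cases x <;> simp [so]

lemma sw_nonneg (tr : Tr n) (b : Fin n) (x : Option (ℕ × ℕ)) : 0 ≤ sw tr b x := by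
  cases x with
  | none => simp [sw]
  | some y => simp only [sw]; linarith [tr.bt_le_one y.2 b]

lemma sw_le_one (tr : Tr n) (b : Fin n) (x : Option (ℕ × ℕ)) : sw tr b x ≤ 1 := by
  cases x with
  | none => simp [sw]
  | some y => simp only [sw]; linarith [tr.bt_nonneg y.2 b]

/-- A truncated variance is at most the full one. -/
lemma vv_cut {tr : Tr n} (h : tr.WF) (N : Finset (Fin n)) (τ z t : ℕ) :
    ∑ w ∈ Ioc τ t, tr.pi τ z w ^ 2 * tr.VV N w ≤ tr.vv N τ z := by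
  have h1 : tr.vv N τ z = ∑ w ∈ Ioc τ (z + t), tr.pi τ z w ^ 2 * tr.VV N w := by
    unfold Tr.vv
    apply sum_subset
    · intro x hx; simp only [mem_Ioc] at hx ⊢; omega
    · intro x hx hx'
      simp only [mem_Ioc] at hx hx'
      unfold Tr.pi
      rw [Tr.gr_of_lt tr _ (by omega : z < x)]
      simp
  rw [h1]
  apply sum_le_sum_of_subset_of_nonneg
  · intro x hx; simp only [mem_Ioc] at hx ⊢; omega
  · intro w _ _
    exact mul_nonneg (sq_nonneg _) (Tr.VV_nonneg h N w)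

lemma markov {ι : Type} [Fintype ι] (F : ι → ℝ) (hF : ∀ l, 0 ≤ F l) {c B : ℝ} (hc : 0 < c)
    (h : ∑ l, F l ≤ c * B) : ((univ.filter fun l => c < F l).card : ℝ) ≤ B := by
  have h1 : c * ((univ.filter fun l => c < F l).card : ℝ) ≤ ∑ l, F l := by
    calc c * ((univ.filter fun l => c < F l).card : ℝ)
        = ∑ _l ∈ univ.filter (fun l => c < F l), c := by rw [sum_const, nsmul_eq_mul, mul_comm]
      _ ≤ ∑ l ∈ univ.filter (fun l => c < F l), F l :=
          sum_le_sum fun l hl => (mem_filter.1 hl).2.le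
      _ ≤ ∑ l, F l := sum_le_sum_of_subset_of_nonneg (filter_subset _ _) fun l _ _ => hF l
  exact le_of_mul_le_mul_left (h1.trans h) hc

lemma df_eq (tr : Tr n) (f f' : ℕ) (b : Fin n) :
    tr.df f f' b = (1 - tr.bt f b) * tr.bt f' b + (1 - tr.bt f' b) * tr.bt f b := by
  unfold Tr.df Tr.bt
  cases tr.c f b <;> cases tr.c f' b <;> simp

/-- `x0 * x1` is half the probability that two independent stopping nodes differ. -/
lemma xoxi_eq (tr : Tr n) (τ z : ℕ) (b : Fin n) : 2 * (tr.x0 τ z b * tr.x1 τ z b) =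
    ∑ f ∈ range (τ + 1), ∑ f' ∈ range (τ + 1),
      tr.st (fun w => τ < w) z f * tr.st (fun w => τ < w) z f' * tr.df f f' b := by
  rw [x0_eq, x1_eq, two_mul]
  conv_lhs => enter [2]; rw [mul_comm]
  rw [sum_mul_sum, sum_mul_sum, ← sum_add_distrib]
  refine sum_congr rfl fun f _ => ?_
  rw [← sum_add_distrib]
  refine sum_congr rfl fun f' _ => ?_
  rw [df_eq]
  ring

lemma sum_x1_le {tr : Tr n} (h : tr.WF) {L : ℕ} {W : Fin L → Fin n} {N : Finset (Fin n)} {ε : ℝ}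
    {τ : ℕ} (hε : 0 ≤ ε) (ht : tr.Typ W N ε τ) (z : ℕ) :
    ∑ l, tr.x1 τ z (W l) ≤ (1 / 2 + ε) * L := by
  simp only [x1_eq]
  rw [sum_comm]
  calc ∑ f ∈ range (τ + 1), ∑ l, tr.st (fun w => τ < w) z f * tr.bt f (W l)
      ≤ ∑ f ∈ range (τ + 1), tr.st (fun w => τ < w) z f * ((1 / 2 + ε) * L) := by
        refine sum_le_sum fun f hf => ?_
        rw [← mul_sum]
        exact mul_le_mul_of_nonneg_left (ht.one f (by simpa [Nat.lt_succ_iff] using hf))
          (Tr.st_nonneg h _ _ _)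
    _ ≤ (1 / 2 + ε) * L := by
        rw [← sum_mul]
        exact mul_le_of_le_one_left (by positivity) (st_sum_le' h τ z)

lemma sum_xoxi_le {tr : Tr n} (h : tr.WF) {L : ℕ} {W : Fin L → Fin n} {N : Finset (Fin n)} {ε : ℝ}
    {τ : ℕ} (hε : 0 ≤ ε) (ht : tr.Typ W N ε τ) (z : ℕ) :
    ∑ l, tr.x0 τ z (W l) * tr.x1 τ z (W l) ≤
      ((∑ b ∈ N, tr.x0 τ z b * tr.x1 τ z b) / N.card + ε) * L := by
  set S : ℕ → ℝ := fun f => tr.st (fun w => τ < w) z f with hS
  have hS0 : ∀ f, 0 ≤ S f := fun f => Tr.st_nonneg h _ _ _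
  have hS1 : ∑ f ∈ range (τ + 1), S f ≤ 1 := st_sum_le' h τ z
  have hS2 : ∑ f ∈ range (τ + 1), ∑ f' ∈ range (τ + 1), S f * S f' ≤ 1 := by
    rw [← sum_mul_sum]
    exact mul_le_one₀ hS1 (sum_nonneg fun f _ => hS0 f) hS1
  have e1 : ∀ {ι : Type} (s : Finset ι) (c : ι → Fin n),
      2 * ∑ l ∈ s, tr.x0 τ z (c l) * tr.x1 τ z (c l) =
        ∑ f ∈ range (τ + 1), ∑ f' ∈ range (τ + 1), S f * S f' * ∑ l ∈ s, tr.df f f' (c l) := by
    intro ι s c
    rw [mul_sum]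
    simp only [xoxi_eq]
    rw [sum_comm]
    refine sum_congr rfl fun f _ => ?_
    rw [sum_comm]
    refine sum_congr rfl fun f' _ => ?_
    rw [mul_sum]
  have e2 := e1 univ W
  have e3 := e1 N id
  simp only [id] at e3
  have e4 : ∑ f ∈ range (τ + 1), ∑ f' ∈ range (τ + 1), S f * S f' * ∑ l, tr.df f f' (W l) ≤
      ∑ f ∈ range (τ + 1), ∑ f' ∈ range (τ + 1),
        S f * S f' * (((∑ b ∈ N, tr.df f f' b) / N.card + ε) * L) := by
    refine sum_le_sum fun f hf => sum_le_sum fun f' hf' => ?_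
    exact mul_le_mul_of_nonneg_left (ht.two f (by simpa [Nat.lt_succ_iff] using hf) f'
      (by simpa [Nat.lt_succ_iff] using hf')) (mul_nonneg (hS0 f) (hS0 f'))
  have e5 : ∑ f ∈ range (τ + 1), ∑ f' ∈ range (τ + 1),
        S f * S f' * (((∑ b ∈ N, tr.df f f' b) / N.card + ε) * L) =
      (∑ f ∈ range (τ + 1), ∑ f' ∈ range (τ + 1), S f * S f' * ∑ b ∈ N, tr.df f f' b) *
          (L / N.card) +
        (∑ f ∈ range (τ + 1), ∑ f' ∈ range (τ + 1), S f * S f') * (ε * L) := by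
    rw [sum_mul, sum_mul, ← sum_add_distrib]
    refine sum_congr rfl fun f _ => ?_
    rw [sum_mul, sum_mul, ← sum_add_distrib]
    refine sum_congr rfl fun f' _ => ?_
    ring
  rw [e5, ← e3, ← e2] at e4
  have e6 : (∑ f ∈ range (τ + 1), ∑ f' ∈ range (τ + 1), S f * S f') * (ε * L) ≤ ε * L :=
    mul_le_of_le_one_left (by positivity) hS2
  have e7 : 0 ≤ ε * L := by positivity
  have e8 : ((∑ b ∈ N, tr.x0 τ z b * tr.x1 τ z b) / N.card + ε) * L =
      (∑ b ∈ N, tr.x0 τ z b * tr.x1 τ z b) * (L / N.card) + ε * L := by ring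
  rw [e8]
  linarith

end DS

end Pool.Agent.P.MP_5c258a_lc.Bin
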