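import Pool.Agent.P.MP_5c258a_lc.Bin.Flow

/-! Task DIR: direction tracking (paper section 6, DIRECTIONS). -/

namespace Pool.Agent.P.MP_5c258a_lc.Bin

open Finset Classical

variable {n : ℕ} {K : Type} [Fintype K]

/-- The direction of node `w`: inherited from the parents, or spelled out. -/
noncomputable def dnew (N : ℕ) (dh : ℕ → K → ℝ) (tr : Tr n) (w : ℕ) :
    Option (K → Fin (N + 1)) → K → ℝ
  | some m => fun k => ((m k : ℕ) + 1 : ℝ) / (N + Fintype.card K)
  | none => fun k => (1 - tr.be w) * dh (tr.u w) k + tr.be w * dh (tr.v w) k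

theorem dnew_realize : True := by
  have := @dnew.eq_1
  have := @dnew.eq_2
  trivial

namespace DirX

lemma kl_ge {a b : ℝ} (ha : 0 ≤ a) (hb : 0 < b) :
    a - b + (√a - √b) ^ 2 ≤ a * Real.log (a / b) := by
  have hb2 := Real.sq_sqrt hb.le
  rcases ha.eq_or_lt with rfl | ha'
  · simp [hb2]
  have ha2 := Real.sq_sqrt ha
  have hsa := Real.sqrt_pos.2 ha'
  have hsb := Real.sqrt_pos.2 hb
  have e : Real.log (a / b) = -2 * Real.log (√b / √a) := by
    rw [Real.log_div ha'.ne' hb.ne', Real.log_div hsb.ne' hsa.ne', Real.log_sqrt ha,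
      Real.log_sqrt hb.le]
    ring
  have l := Real.log_le_sub_one_of_pos (div_pos hsb hsa)
  have e2 : a * (√b / √a) = √a * √b := by
    field_simp
    rw [ha2]
  rw [e]
  nlinarith [mul_le_mul_of_nonneg_left l ha]

lemma sq_gap {a b ε θ : ℝ} (ha : 0 ≤ a) (hb : 0 ≤ b) (e0 : 0 < ε) (e1 : ε ≤ 1) (h0 : 0 < θ)
    (h : ε * a + 2 * θ < |a - b|) : ε * θ / 4 ≤ (√a - √b) ^ 2 := by
  have ha2 := Real.sq_sqrt ha
  have hb2 := Real.sq_sqrt hb
  have hsa := Real.sqrt_nonneg a
  have hsb := Real.sqrt_nonneg b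
  set x := √a
  set y := √b
  have hD : 0 < |a - b| := lt_of_le_of_lt (by positivity) h
  have key : (a - b) ^ 2 ≤ (x - y) ^ 2 * (2 * (a + b)) := by
    have e : (a - b) ^ 2 = (x - y) ^ 2 * (x + y) ^ 2 := by rw [← ha2, ← hb2]; ring
    rw [e]
    refine mul_le_mul_of_nonneg_left ?_ (sq_nonneg _)
    nlinarith [sq_nonneg (x - y)]
  have hb3 : b ≤ a + |a - b| := by have := neg_abs_le (a - b); linarith
  have h1 : ε * (a + b) ≤ 3 * |a - b| := by nlinarith
  have h2 : ε * a ≥ 0 := by positivity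
  have hq := sq_abs (a - b)
  set D := |a - b|
  by_contra hc
  push Not at hc
  have h3 : ε * D ^ 2 ≤ (x - y) ^ 2 * (6 * D) := by
    rw [hq]
    nlinarith [mul_le_mul_of_nonneg_left key e0.le,
      mul_le_mul_of_nonneg_left h1 (sq_nonneg (x - y))]
  have h4 : (x - y) ^ 2 * (6 * D) < ε * θ / 4 * (6 * D) :=
    mul_lt_mul_of_pos_right hc (by positivity)
  have h5 : 2 * θ < D := by linarith
  nlinarith [mul_pos (mul_pos e0 hD) (sub_pos.2 h5), mul_pos (mul_pos e0 hD) h0]

/-- The invariant of a direction. -/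
def Inv (N : ℕ) (d : K → ℝ) : Prop :=
  (∀ k, 1 / ((N : ℝ) + Fintype.card K) ≤ d k) ∧ ∑ k, d k ≤ 1

lemma resync (hK : 0 < Fintype.card K) {N : ℕ} {ε θ : ℝ} (e0 : 0 < ε) (e1 : ε ≤ 1)
    (h0 : 0 < θ) (hN : (Fintype.card K : ℝ) ^ 2 ≤ ε * θ / 8 * N) {g e : K → ℝ}
    (g0 : ∀ k, 0 ≤ g k) (g1 : ∀ k, g k ≤ 1) (he : Inv N e) {k0 : K}
    (hv : ε * g k0 + 2 * θ < |g k0 - (∑ k', g k') * e k0|) :
    ∃ m : K → Fin (N + 1), Inv N (fun k => ((m k : ℕ) + 1 : ℝ) / (N + Fintype.card K)) ∧
      (∀ k, |g k - (∑ k', g k') * (((m k : ℕ) + 1 : ℝ) / (N + Fintype.card K))| ≤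
        ε * g k + 2 * θ) ∧
      ε * θ / 8 ≤ ∑ k, g k * (Real.log (((m k : ℕ) + 1 : ℝ) / (N + Fintype.card K)) -
        Real.log (e k)) := by
  set s := ∑ k', g k' with hs
  set c : ℝ := (Fintype.card K : ℝ) with hc
  have c1 : 1 ≤ c := by rw [hc]; exact_mod_cast hK
  have hgs : ∀ k, g k ≤ s := fun k => single_le_sum (fun k _ => g0 k) (mem_univ k)
  have hsc : s ≤ c := by
    have := sum_le_sum (s := univ) fun k _ => g1 k
    simpa [hc] using this
  have N0 : (0 : ℝ) < N := by
    by_contra hn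
    have : (N : ℝ) = 0 := le_antisymm (not_lt.1 hn) (Nat.cast_nonneg N)
    rw [this] at hN
    nlinarith
  have s0 : 0 < s := by
    refine lt_of_le_of_ne ((g0 k0).trans (hgs k0)) fun h => ?_
    have h1 : g k0 = 0 := le_antisymm (h ▸ hgs k0) (g0 k0)
    rw [← h, h1] at hv
    simp at hv
    linarith
  have M0 : (0 : ℝ) < N + c := by linarith
  have epos : ∀ k, 0 < e k := fun k => lt_of_lt_of_le (by positivity) (he.1 k)
  have hfl : ∀ k, ⌊N * g k / s⌋₊ < N + 1 := fun k => by
    refine Nat.lt_succ_of_le (Nat.floor_le_of_le ?_)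
    rw [div_le_iff₀ s0]
    exact mul_le_mul_of_nonneg_left (hgs k) N0.le
  have q0 : ∀ k, 0 ≤ N * g k / s := fun k => by have := g0 k; positivity
  have f1 : ∀ k, (⌊N * g k / s⌋₊ : ℝ) ≤ N * g k / s := fun k => Nat.floor_le (q0 k)
  have f2 : ∀ k, N * g k / s < (⌊N * g k / s⌋₊ : ℝ) + 1 := fun k => Nat.lt_floor_add_one _
  have hcN : c * c / N ≤ ε * θ / 8 := by rw [div_le_iff₀ N0]; nlinarith
  have hcM : c / (N + c) ≤ θ := by
    have a1 : c / (N + c) ≤ c * c / N := by
      rw [div_le_div_iff₀ M0 N0]; nlinarith [mul_pos N0 (lt_of_lt_of_le one_pos c1)]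
    nlinarith
  refine ⟨fun k => ⟨⌊N * g k / s⌋₊, hfl k⟩, ⟨fun k => ?_, ?_⟩, fun k => ?_, ?_⟩
  · refine div_le_div_of_nonneg_right ?_ M0.le
    have : (0 : ℝ) ≤ ⌊N * g k / s⌋₊ := Nat.cast_nonneg _
    simp only
    linarith
  · simp only
    rw [← sum_div, div_le_one M0, sum_add_distrib]
    have a1 := sum_le_sum (s := univ) fun k _ => f1 k
    rw [← sum_div, ← mul_sum, ← hs, mul_div_assoc, div_self s0.ne', mul_one] at a1
    simp only [sum_const, card_univ, nsmul_eq_mul, mul_one]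
    linarith
  · simp only
    have a1 := mul_le_mul_of_nonneg_left (f1 k) s0.le
    have a2 := mul_le_mul_of_nonneg_left (f2 k).le s0.le
    rw [mul_div_cancel₀ _ s0.ne'] at a1 a2
    have a3 : 0 ≤ ε * g k := mul_nonneg e0.le (g0 k)
    rw [div_le_iff₀ M0] at hcM
    have e3 : g k - s * (((⌊N * g k / s⌋₊ : ℝ) + 1) / (N + c)) =
        (g k * (N + c) - s * ((⌊N * g k / s⌋₊ : ℝ) + 1)) / (N + c) := by field_simp
    rw [e3, abs_le, le_div_iff₀ M0, div_le_iff₀ M0]
    have := g0 k
    have := g1 k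
    constructor <;> nlinarith [mul_nonneg a3 M0.le, mul_pos h0 M0]
  · simp only
    have a1 : ∀ k, g k - s * e k + (√(g k) - √(s * e k)) ^ 2 - g k * (c / N) ≤
        g k * (Real.log (((⌊N * g k / s⌋₊ : ℝ) + 1) / (N + c)) - Real.log (e k)) := fun k => by
      have b1 := kl_ge (g0 k) (mul_pos s0 (epos k))
      rcases (g0 k).eq_or_lt with h | h
      · rw [← h] at b1 ⊢
        simpa using b1
      have ek := epos k
      have b2 : Real.log (N * g k / s / (N + c)) ≤
          Real.log (((⌊N * g k / s⌋₊ : ℝ) + 1) / (N + c)) :=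
        Real.log_le_log (by positivity) (div_le_div_of_nonneg_right (f2 k).le M0.le)
      have b3 : Real.log (N * g k / s / (N + c)) = Real.log (g k / (s * e k)) + Real.log (e k)
          - Real.log ((N + c) / N) := by
        rw [← Real.log_mul (by positivity) ek.ne', ← Real.log_div (by positivity) (by positivity)]
        congr 1
        field_simp
      have b4 := Real.log_le_sub_one_of_pos (div_pos M0 N0)
      have b5 : (N + c) / N - 1 = c / N := by field_simp; ring
      rw [b5] at b4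
      nlinarith [mul_le_mul_of_nonneg_left b2 h.le, mul_le_mul_of_nonneg_left b4 h.le]
    refine le_trans ?_ (sum_le_sum fun k _ => a1 k)
    rw [sum_sub_distrib, sum_add_distrib, sum_sub_distrib, ← mul_sum, ← sum_mul, ← hs]
    have a2 : (√(g k0) - √(s * e k0)) ^ 2 ≤ ∑ k, (√(g k) - √(s * e k)) ^ 2 :=
      single_le_sum (f := fun k => (√(g k) - √(s * e k)) ^ 2) (fun k _ => sq_nonneg _)
        (mem_univ k0)
    have a3 := sq_gap (g0 k0) (mul_pos s0 (epos k0)).le e0 e1 h0 hv
    have a4 : s * (c / N) ≤ c * c / N := by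
      rw [mul_div_assoc]; exact mul_le_mul_of_nonneg_right hsc (by positivity)
    have a5 := mul_le_mul_of_nonneg_left he.2 s0.le
    linarith

lemma inv_mix {N : ℕ} {d d' : K → ℝ} (h : Inv N d) (h' : Inv N d') {b : ℝ} (b0 : 0 ≤ b)
    (b1 : b ≤ 1) : Inv N fun k => (1 - b) * d k + b * d' k := by
  refine ⟨fun k => ?_, ?_⟩
  · nlinarith [mul_le_mul_of_nonneg_left (h.1 k) (sub_nonneg.2 b1),
      mul_le_mul_of_nonneg_left (h'.1 k) b0]
  · rw [sum_add_distrib, ← mul_sum, ← mul_sum]
    nlinarith [mul_le_mul_of_nonneg_left h.2 (sub_nonneg.2 b1), mul_le_mul_of_nonneg_left h'.2 b0]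

lemma Inv.pos (hK : 0 < Fintype.card K) {N : ℕ} {d : K → ℝ} (h : Inv N d) (k : K) : 0 < d k := by
  have : (0 : ℝ) < Fintype.card K := by exact_mod_cast hK
  exact lt_of_lt_of_le (by positivity) (h.1 k)

lemma Inv.le_one (hK : 0 < Fintype.card K) {N : ℕ} {d : K → ℝ} (h : Inv N d) (k : K) :
    d k ≤ 1 :=
  (single_le_sum (fun k _ => (h.pos hK k).le) (mem_univ k)).trans h.2

/-- Demand of the allowed children after time `t`. -/
noncomputable def rem (tr : Tr n) (A : ℕ → Prop) (z te t x : ℕ) : ℝ :=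
  ∑ w ∈ Ioc t te, if A w then tr.gr A z w * tr.p w x else 0

lemma rem_nonneg {tr : Tr n} (h : tr.WF) (A : ℕ → Prop) (z te t x : ℕ) :
    0 ≤ rem tr A z te t x :=
  sum_nonneg fun w _ => by
    split_ifs
    · exact mul_nonneg (Tr.gr_nonneg h _ _ _) (Tr.p_nonneg h _ _)
    · exact le_rfl

/-- One step of the potential of one flow. -/
lemma pot_step {tr : Tr n} (h : tr.WF) (A : ℕ → Prop) {z te t : ℕ} (hz : z ≤ te) (ht : t < te)
    (F : ℕ → ℝ) {G Λ : ℝ} (G0 : 0 ≤ G) (hΛ : F (t + 1) ≤ Λ)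
    (hG : (1 - tr.be (t + 1)) * F (tr.u (t + 1)) + tr.be (t + 1) * F (tr.v (t + 1)) ≤ G) :
    ∑ x ∈ range (t + 1), rem tr A z te t x * F x + tr.gr A z (t + 1) * (F (t + 1) - G) ≤
      ∑ x ∈ range (t + 1 + 1), rem tr A z te (t + 1) x * F x +
        (if t + 1 = z then 1 else 0) * Λ := by
  have e1 : ∀ x, rem tr A z te t x = (if A (t + 1) then tr.gr A z (t + 1) else 0) *
      tr.p (t + 1) x + rem tr A z te (t + 1) x := fun x => by
    unfold rem
    rw [← sum_Ioc_consecutive _ (Nat.le_succ t) ht, Nat.Ioc_succ_singleton, sum_singleton]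
    split_ifs <;> simp
  have e2 : rem tr A z te (t + 1) (t + 1) =
      tr.gr A z (t + 1) - if t + 1 = z then 1 else 0 := by
    rw [Tr.gr_eq' tr A hz (t + 1)]
    unfold rem
    ring
  rw [sum_range_succ _ (t + 1), e2]
  simp only [e1, add_mul, sum_add_distrib, mul_assoc, ← mul_sum]
  rw [Tr.psum h (Nat.succ_pos t) le_rfl F]
  have g0 := Tr.gr_nonneg h A z (t + 1)
  have a0 := h.al0 (t + 1)
  have a1 := sub_nonneg.2 (h.al1 (t + 1))
  have k1 := mul_le_mul_of_nonneg_left hG a1
  have k2 : (1 - tr.al (t + 1)) * (1 - tr.be (t + 1)) * F (tr.u (t + 1)) +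
      (1 - tr.al (t + 1)) * tr.be (t + 1) * F (tr.v (t + 1)) ≤ G := by
    nlinarith [mul_nonneg a0 G0]
  have k3 := mul_le_mul_of_nonneg_left k2 g0
  have k4 := mul_nonneg g0 G0
  simp only [Nat.succ_eq_add_one]
  split_ifs <;> nlinarith

end DirX

open DirX in
/-- Build `ρ` and `dh` step by step (resync iff the inherited direction is not accurate), with the
invariant `1/(N+|K|) ≤ dh x k`, `∑ k, dh x k ≤ 1`. Potential
`Ξ t = ∑ x ≤ t, ∑ k, rem k t x * (-log (dh x k))`,
`rem k t x = ∑ w ∈ Ioc t te, if A k w then gr (A k) (z k) w * p w x else 0`;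
`a log (a/b) - a + b ≥ (√a - √b)^2 ≥ (a-b)^2 / (4 max a b)`. -/
theorem directions {tr : Tr n} (h : tr.WF) (hK : 0 < Fintype.card K) (A : K → ℕ → Prop)
    (z : K → ℕ) (t0 te N : ℕ) (hz : ∀ k, z k ≤ te) (ε θ : ℝ) (e0 : 0 < ε) (e1 : ε ≤ 1)
    (h0 : 0 < θ) (hN : (Fintype.card K : ℝ) ^ 2 ≤ ε * θ / 8 * N) :
    ∃ (ρ : ℕ → Option (K → Fin (N + 1))) (dh : ℕ → K → ℝ),
      (∀ w ≤ t0, dh w = fun _ => 1 / (Fintype.card K : ℝ)) ∧
      (∀ w ∈ Ioc t0 te, dh w = dnew N dh tr w (ρ w)) ∧
      (∀ w ≤ te, ∀ k, 0 ≤ dh w k ∧ dh w k ≤ 1) ∧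
      (∀ w ∈ Ioc t0 te, ∀ k, |tr.gr (A k) (z k) w - (∑ k', tr.gr (A k') (z k') w) * dh w k| ≤
        ε * tr.gr (A k) (z k) w + 2 * θ) ∧
      (((Ioc t0 te).filter fun w => ρ w ≠ none).card : ℝ) * (ε * θ / 8) ≤
        Fintype.card K * Real.log (N + Fintype.card K) := by
  set M : ℝ := N + Fintype.card K with hM
  have c0 : (0 : ℝ) < Fintype.card K := by exact_mod_cast hK
  have c1 : (1 : ℝ) ≤ Fintype.card K := by exact_mod_cast hK
  have N0 : (0 : ℝ) ≤ N := Nat.cast_nonneg N
  have M1 : 1 ≤ M := by linarith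
  have M0 : 0 < M := by linarith
  have L0 : 0 ≤ Real.log M := Real.log_nonneg M1
  have I0 : Inv N (fun _ : K => 1 / (Fintype.card K : ℝ)) := by
    refine ⟨fun _ => one_div_le_one_div_of_le c0 (by linarith), ?_⟩
    simp [c0.ne']
  have F0 : ∀ {d : K → ℝ}, Inv N d → ∀ k, 0 ≤ Real.log (d k) + Real.log M := fun hd k => by
    rw [← Real.log_mul (hd.pos hK k).ne' M0.ne']
    exact Real.log_nonneg ((div_le_iff₀ M0).1 (hd.1 k))
  have main : ∀ t, t0 ≤ t → t ≤ max t0 te →
      ∃ (ρ : ℕ → Option (K → Fin (N + 1))) (dh : ℕ → K → ℝ),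
      (∀ w ≤ t0, dh w = fun _ => 1 / (Fintype.card K : ℝ)) ∧
      (∀ w ∈ Ioc t0 t, dh w = dnew N dh tr w (ρ w)) ∧
      (∀ w ≤ t, Inv N (dh w)) ∧
      (∀ w ∈ Ioc t0 t, ∀ k, |tr.gr (A k) (z k) w - (∑ k', tr.gr (A k') (z k') w) * dh w k| ≤
        ε * tr.gr (A k) (z k) w + 2 * θ) ∧
      (((Ioc t0 t).filter fun w => ρ w ≠ none).card : ℝ) * (ε * θ / 8) ≤
        ∑ k, (∑ x ∈ range (t + 1), rem tr (A k) (z k) te t x * (Real.log (dh x k) + Real.log M)
          + (if z k ≤ t then 1 else 0) * Real.log M) := by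
    intro t ht
    induction t, ht using Nat.le_induction with
    | base =>
      intro _
      refine ⟨fun _ => none, fun _ _ => 1 / (Fintype.card K : ℝ), fun _ _ => rfl, by simp,
        fun _ _ => I0, by simp, ?_⟩
      simp only [Ioc_self, filter_empty, card_empty, Nat.cast_zero, zero_mul]
      refine sum_nonneg fun k _ => add_nonneg (sum_nonneg fun x _ =>
        mul_nonneg (rem_nonneg h _ _ _ _ _) (F0 I0 k)) (mul_nonneg (by split_ifs <;> norm_num) L0)
    | succ t ht ih =>
      intro hm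
      have hte : t < te := by omega
      obtain ⟨ρ, dh, p1, p2, p3, p4, p5⟩ := ih (by omega)
      have hu := h.u_lt (t + 1) (Nat.succ_pos t)
      have hv := h.v_lt (t + 1) (Nat.succ_pos t)
      have Iu := p3 _ (Nat.le_of_lt_succ hu)
      have Iv := p3 _ (Nat.le_of_lt_succ hv)
      have Ie : Inv N (dnew N dh tr (t + 1) none) := inv_mix Iu Iv (h.be0 _) (h.be1 _)
      have hstep : ∃ o, Inv N (dnew N dh tr (t + 1) o) ∧
          (∀ k, |tr.gr (A k) (z k) (t + 1) - (∑ k', tr.gr (A k') (z k') (t + 1)) *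
            dnew N dh tr (t + 1) o k| ≤ ε * tr.gr (A k) (z k) (t + 1) + 2 * θ) ∧
          (if o ≠ none then 1 else 0) * (ε * θ / 8) ≤ ∑ k, tr.gr (A k) (z k) (t + 1) *
            (Real.log (dnew N dh tr (t + 1) o k) - Real.log (dnew N dh tr (t + 1) none k)) := by
        by_cases hacc : ∀ k, |tr.gr (A k) (z k) (t + 1) - (∑ k', tr.gr (A k') (z k') (t + 1)) *
            dnew N dh tr (t + 1) none k| ≤ ε * tr.gr (A k) (z k) (t + 1) + 2 * θ
        · exact ⟨none, Ie, hacc, by simp⟩
        · push Not at hacc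
          obtain ⟨k0, hk0⟩ := hacc
          obtain ⟨m, m1, m2, m3⟩ := resync hK e0 e1 h0 hN
            (g := fun k => tr.gr (A k) (z k) (t + 1)) (fun k => Tr.gr_nonneg h _ _ _)
            (fun k => Tr.gr_le_one h _ _ _) Ie hk0
          exact ⟨some m, m1, m2, by rw [if_pos (by simp), one_mul]; exact m3⟩
      obtain ⟨o, o1, o2, o3⟩ := hstep
      set d := dnew N dh tr (t + 1) o with hd
      have hup : ∀ w, w ≤ t → Function.update dh (t + 1) d w = dh w := fun w hw =>
        Function.update_of_ne (by omega) _ _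
      have hdn : ∀ w, 0 < w → w ≤ t + 1 → ∀ o', dnew N (Function.update dh (t + 1) d) tr w o' =
          dnew N dh tr w o' := fun w hw hw' o' => by
        have := h.u_lt w hw
        have := h.v_lt w hw
        cases o' with
        | some m => rfl
        | none => simp only [dnew]; rw [hup _ (by omega), hup _ (by omega)]
      refine ⟨Function.update ρ (t + 1) o, Function.update dh (t + 1) d,
        fun w hw => by rw [hup w (by omega), p1 w hw], fun w hw => ?_, fun w hw => ?_,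
        fun w hw => ?_, ?_⟩
      · rw [mem_Ioc] at hw
        rw [hdn w (by omega) hw.2]
        rcases hw.2.eq_or_lt with rfl | hlt
        · rw [Function.update_self, Function.update_self]
        · rw [hup w (by omega), Function.update_of_ne (by omega)]
          exact p2 w (mem_Ioc.2 ⟨hw.1, by omega⟩)
      · rcases hw.eq_or_lt with rfl | hlt
        · rw [Function.update_self]; exact o1
        · rw [hup w (by omega)]; exact p3 w (by omega)
      · rw [mem_Ioc] at hw
        rcases hw.2.eq_or_lt with rfl | hlt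
        · rw [Function.update_self]; exact o2
        · rw [hup w (by omega)]; exact p4 w (mem_Ioc.2 ⟨hw.1, by omega⟩)
      · have ec : (((Ioc t0 (t + 1)).filter fun w => Function.update ρ (t + 1) o w ≠ none).card : ℝ)
            = ((Ioc t0 t).filter fun w => ρ w ≠ none).card + if o ≠ none then 1 else 0 := by
          rw [card_filter, card_filter, sum_Ioc_succ_top ht, Function.update_self]
          push_cast
          congr 1
          exact sum_congr rfl fun w hw => by
            rw [Function.update_of_ne (by have := (mem_Ioc.1 hw).2; omega)]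
        rw [ec, add_mul]
        refine (add_le_add p5 o3).trans ?_
        rw [← sum_add_distrib]
        refine sum_le_sum fun k _ => ?_
        have hc := (strictConcaveOn_log_Ioi.concaveOn).2 (Set.mem_Ioi.2 (Iu.pos hK k))
          (Set.mem_Ioi.2 (Iv.pos hK k)) (sub_nonneg.2 (h.be1 (t + 1))) (h.be0 (t + 1)) (by ring)
        simp only [smul_eq_mul] at hc
        have ps := pot_step h (A k) (hz k) hte
          (fun x => Real.log (Function.update dh (t + 1) d x k) + Real.log M)
          (G := Real.log (dnew N dh tr (t + 1) none k) + Real.log M) (Λ := Real.log M) (F0 Ie k)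
          (by
            rw [Function.update_self]
            have := Real.log_nonpos (o1.pos hK k).le (o1.le_one hK k)
            linarith)
          (by
            rw [hup _ (by omega), hup _ (by omega)]
            simp only [dnew]
            linarith)
        have es : ∑ x ∈ range (t + 1), rem tr (A k) (z k) te t x *
            (Real.log (Function.update dh (t + 1) d x k) + Real.log M) =
            ∑ x ∈ range (t + 1), rem tr (A k) (z k) te t x * (Real.log (dh x k) + Real.log M) :=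
          sum_congr rfl fun x hx => by rw [hup x (by have := mem_range.1 hx; omega)]
        rw [es, Function.update_self] at ps
        have ei : ((if z k ≤ t + 1 then 1 else 0 : ℝ)) =
            (if z k ≤ t then 1 else 0) + if t + 1 = z k then 1 else 0 := by
          split_ifs <;> first | omega | norm_num
        rw [ei]
        linarith
  rcases le_total te t0 with hle | hle
  · refine ⟨fun _ => none, fun _ _ => 1 / (Fintype.card K : ℝ), fun _ _ => rfl, ?_,
      fun _ _ k => ⟨(I0.pos hK k).le, I0.le_one hK k⟩, ?_, ?_⟩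
    · simp [Ioc_eq_empty (not_lt.2 hle)]
    · simp [Ioc_eq_empty (not_lt.2 hle)]
    · simp only [ne_eq, not_true_eq_false, filter_false, card_empty, Nat.cast_zero, zero_mul]
      positivity
  obtain ⟨ρ, dh, p1, p2, p3, p4, p5⟩ := main te hle (le_max_right _ _)
  refine ⟨ρ, dh, p1, p2, fun w hw k => ⟨((p3 w hw).pos hK k).le, (p3 w hw).le_one hK k⟩, p4,
    p5.trans (le_of_eq ?_)⟩
  simp [rem, hz]

end Pool.Agent.P.MP_5c258a_lc.Bin
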