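import Pool.Agent.P.MP_5c258a_lc.Bin.Dir
import Pool.Agent.P.MP_5c258a_lc.Bin.MachG

/-! The bettor of the engine (paper section 6, STEP): definitions. -/

namespace Pool.Agent.P.MP_5c258a_lc.Bin

open Finset Classical

def eN (H : ℕ) : ℕ := H ^ 70
def eB (H : ℕ) : ℕ := H ^ 83
def eJ (H : ℕ) : ℕ := 300000 * H ^ 47
def eM (H : ℕ) : ℕ := H ^ 83 * (H ^ 5 + 2)

abbrev ESt (E K : Type) := (ℕ → K → ℝ) × (E → MS)

abbrev EOp (H : ℕ) (K : Type) :=
  Option (K → Fin (eN H + 1)) × Fin (eJ H + 1) × (Bool ⊕ (K → Fin (eM H + 1)))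

noncomputable def grid (H j : ℕ) : ℝ := (H : ℝ) ^ 5 / (1 + 1 / 300000) ^ j

namespace Plan

variable {n : ℕ} {E K : Type} [Fintype E] [Fintype K]

def act (P : Plan n E K) (e : E) (w : ℕ) : Prop := w ∈ Ioc (P.lo e) (P.hi e)

noncomputable def gh (P : Plan n E K) (tr : Tr n) (w : ℕ) (d : K → ℝ) (e : E) : ℝ :=
  ∑ k, P.om e tr w k * d k

def Ok (H : ℕ) (P : Plan n E K) (tr : Tr n) (w : ℕ) (ms : E → MS) (d : K → ℝ) (j : ℕ) : Prop :=
  (∑ e, if P.act e w then pay (grid H j * P.gh tr w d e / (ms e).lam) (tr.pb w (P.col e)) else 0)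
    ≤ 1 ∧
  ∀ e, P.act e w → grid H j * P.gh tr w d e * rr (P.ty e) (tr.pb w (P.col e)) ≤ 3 * (ms e).lam

noncomputable def jref (H : ℕ) (P : Plan n E K) (tr : Tr n) (w : ℕ) (ms : E → MS) (d : K → ℝ) :
    ℕ := if h : ∃ j, P.Ok H tr w ms d j then Nat.find h else 0

/-- The stake of episode `e` for the grid index `j` (`up` says case U) and the mode `m`. -/
noncomputable def stake (H : ℕ) (P : Plan n E K) (tr : Tr n) (w : ℕ) (d : K → ℝ) (j : ℕ)
    (up : Prop) (e : E) : Bool ⊕ (K → Fin (eM H + 1)) → ℝ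
  | .inl false => if up then grid H (j + 1) * P.gh tr w d e else 0
  | .inl true => grid H j * P.gh tr w d e
  | .inr B => ∑ k, P.om e tr w k * (((B k : ℕ) : ℝ) / eB H - 1)

noncomputable def Ge (H : ℕ) (P : Plan n E K) (s : ESt E K) (tr : Tr n) (w : ℕ) (o : EOp H K)
    (e : E) (x : Bool) : ℝ :=
  let d := dnew (eN H) s.1 tr w o.1
  let up := (o.2.1 : ℕ) < P.jref H tr w s.2 d
  let Q := grid H o.2.1 * P.gh tr w d e
  let p := tr.pb w (P.col e)
  let qt := P.stake H tr w d o.2.1 up e o.2.2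
  if up then GU (qt / ((pre (P.ty e) (s.2 e) Q p).lam * den (P.ty e) (pre (P.ty e) (s.2 e) Q p))) p x
  else GD (qt / ((s.2 e).lam * den (P.ty e) (s.2 e))) (Q / (s.2 e).lam) p x

noncomputable def nxt (H : ℕ) (P : Plan n E K) (s : ESt E K) (tr : Tr n) (w : ℕ) (o : EOp H K)
    (e : E) (x : Bool) : MS :=
  let d := dnew (eN H) s.1 tr w o.1
  let up := (o.2.1 : ℕ) < P.jref H tr w s.2 d
  let Q := grid H o.2.1 * P.gh tr w d e
  let p := tr.pb w (P.col e)
  let qt := P.stake H tr w d o.2.1 up e o.2.2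
  if up then post (P.ty e) (pre (P.ty e) (s.2 e) Q p) (qt * (bR x - p))
  else post (P.ty e) (s.2 e) (qD (s.2 e) Q qt * (bR x - p))

noncomputable def w1 (H : ℕ) (K : Type) [Fintype K] : Option (K → Fin (eN H + 1)) → ℝ
  | none => 1 / 2
  | some _ => 1 / 2 / (eN H + 1 : ℝ) ^ Fintype.card K

noncomputable def w2 (jr j : ℕ) : ℝ :=
  if j ≤ jr then 1 / (((jr - j : ℕ) + 1 : ℝ) * ((jr - j : ℕ) + 2)) else 0

noncomputable def w3 (H : ℕ) (K : Type) [Fintype K] : Bool ⊕ (K → Fin (eM H + 1)) → ℝ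
  | .inl _ => 1 / 3
  | .inr _ => 1 / 3 / (eM H + 1 : ℝ) ^ Fintype.card K

noncomputable def ewt (H : ℕ) (P : Plan n E K) (s : ESt E K) (tr : Tr n) (w : ℕ) (o : EOp H K) :
    ℝ := w1 H K o.1 * w2 (P.jref H tr w s.2 (dnew (eN H) s.1 tr w o.1)) o.2.1 * w3 H K o.2.2

noncomputable def eG (H : ℕ) (P : Plan n E K) (s : ESt E K) (tr : Tr n) (w : ℕ) (o : EOp H K)
    (b : Fin n) (x : Bool) : ℝ :=
  if h : ∃ e, P.act e w ∧ P.col e = b then P.Ge H s tr w o h.choose x else 1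

noncomputable def eupd (H : ℕ) (P : Plan n E K) (s : ESt E K) (tr : Tr n) (w : ℕ) (o : EOp H K)
    (y : Fin n → Bool) : ESt E K :=
  (Function.update s.1 w (dnew (eN H) s.1 tr w o.1),
    fun e => if P.act e w then P.nxt H s tr w o e (y (P.col e)) else s.2 e)

/-- Potential of episode `e` at time `t` in the machine state `s`. -/
noncomputable def pot (P : Plan n E K) (tr : Tr n) (A : K → ℕ → Prop) (z : K → ℕ) (e : E)
    (s : MS) (t : ℕ) : ℝ :=
  Phi (P.ty e) s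
    (base (P.ty e) (P.lam e) + tr.XX (P.q tr A z e) (P.col e) (P.lo e) (min t (P.hi e)))
    (tr.QQ (P.q tr A z e) (P.col e) (P.lo e) (min t (P.hi e)))

/-- Invariant of the machine states. -/
def SInv (P : Plan n E K) (ms : E → MS) : Prop :=
  ∀ e, MInv (P.ty e) (ms e) ∧ P.lam e ≤ (ms e).lam ∧ (P.ty e = .L → (ms e).lam = P.lam e)

theorem eng_realize : True := by
  have := @stake.eq_1; have := @stake.eq_2; have := @stake.eq_3
  have := @w1.eq_1; have := @w1.eq_2; have := @w3.eq_1; have := @w3.eq_2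
  trivial

end Plan

end Pool.Agent.P.MP_5c258a_lc.Bin
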