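import Pool.Agent.P.MP_5c258a_lc.Bin.FinalA

/-! The lower bound (paper section 5). -/

namespace Pool.Agent.P.MP_5c258a_lc.Bin

open Finset Classical

lemma exp_small {H a b : ℝ} (hH : 100 ≤ H) (ha : a ≤ Real.exp (12 * H)) (hb : H ^ 2 / 2 ≤ b) :
    a * Real.exp (-b) ≤ 1 / 10 := by
  calc a * Real.exp (-b) ≤ Real.exp (12 * H) * Real.exp (-b) := by gcongr
    _ = Real.exp (-(b - 12 * H)) := by rw [← Real.exp_add]; congr 1; ring
    _ ≤ Real.exp (-9) := Real.exp_le_exp.2 (by nlinarith)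
    _ ≤ 1 / 10 := by
      rw [Real.exp_neg, one_div]
      exact inv_anti₀ (by norm_num) (by linarith [Real.add_one_le_exp (9 : ℝ)])

/-- The optimum is rarely found within `T + 1` queries. -/
theorem hit_prob : ∃ c0 : ℝ, 0 < c0 ∧ c0 ≤ 1 ∧ ∃ r0 : ℕ, ∀ r ≥ r0, ∀ {n : ℕ} (A : BAlg n)
    (T T' : ℕ), pH r ^ 200 ≤ n → Real.log n ≤ pH r →
    (T' : ℝ) ≤ c0 * pK r * pH r * pL r * Real.log r → T' ≤ r ^ 14 * pH r * pL r →
    2 * T ≤ n / 4 / (pH r * pL r) * T' → Pr A (T + 1) (hit n) ≤ 1 / 2 := by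
  obtain ⟨c0, hc, hc', r0, h0⟩ := blk_prob
  refine ⟨c0, hc, hc', max 2 r0, fun r hr n A T T' hn hlog a1 a2 hT => ?_⟩
  have hr2 : 2 ≤ r := le_trans (le_max_left _ _) hr
  have hK : 1 ≤ pK r := Nat.one_le_pow _ _ (by omega)
  have hrH : r ^ 14 ≤ pH r := by
    rw [pH_eq]; exact Nat.pow_le_pow_right (by omega) (by omega)
  have hH : 100 ≤ pH r := le_trans (le_trans (by norm_num) (Nat.pow_le_pow_left hr2 14)) hrH
  have hL : pL r = pH r ^ 80 := rfl
  have hL0 : 0 < pL r := by rw [hL]; positivity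
  have hHL : pH r * pL r = pH r ^ 81 := by rw [hL, pow_succ' _ 80]
  have hn1 : 100 * (pH r * pL r) ≤ n := by
    refine le_trans ?_ hn
    rw [hHL]
    calc 100 * pH r ^ 81 ≤ pH r * pH r ^ 81 := Nat.mul_le_mul_right _ hH
      _ = pH r ^ 82 := by ring
      _ ≤ _ := Nat.pow_le_pow_right (by omega) (by norm_num)
  have hLL : pL r ≤ pH r * pL r := Nat.le_mul_of_pos_left _ (by omega)
  have hn0 : 0 < n := by omega
  obtain ⟨Nb, hNb⟩ : ∃ Nb, Nb = n / 4 / (pH r * pL r) := ⟨_, rfl⟩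
  obtain ⟨ng, hng⟩ : ∃ ng, ng = n / (2 * pL r) := ⟨_, rfl⟩
  rw [← hNb] at hT
  have b1 : Nb * (pH r * pL r) ≤ n / 4 := hNb ▸ Nat.div_mul_le_self _ _
  have b2 : 0 < Nb := hNb ▸ Nat.div_pos (by omega) (by omega)
  have g1 : ng * (2 * pL r) ≤ n := hng ▸ Nat.div_mul_le_self _ _
  have g2 : n < 2 * pL r * (ng + 1) := hng ▸ Nat.lt_mul_div_succ _ (by omega)
  have g3 : 2 * (ng * pL r) ≤ n := by nlinarith
  have g4 : n < 2 * (ng * pL r) + 2 * pL r := by nlinarith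
  have g5 : 0 < ng := Nat.pos_of_ne_zero fun h => by subst h; omega
  have t1 : T' ≤ pH r ^ 82 := by
    refine a2.trans ?_
    rw [mul_assoc, hHL, pow_succ' _ 81]
    exact Nat.mul_le_mul_right _ hrH
  have t2 : T + 2 ≤ n ^ 2 := by
    have h1 : Nb * T' ≤ n / 4 * r ^ 14 := by
      calc Nb * T' ≤ Nb * (r ^ 14 * pH r * pL r) := Nat.mul_le_mul_left _ a2
        _ = Nb * (pH r * pL r) * r ^ 14 := by ring
        _ ≤ _ := Nat.mul_le_mul_right _ b1
    have h2 : r ^ 14 ≤ n := hrH.trans (le_trans (Nat.le_self_pow (by norm_num) _) hn)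
    have h3 : n / 4 * r ^ 14 ≤ n * n := Nat.mul_le_mul (Nat.div_le_self _ _) h2
    have h4 : 100 * n ≤ n * n := Nat.mul_le_mul_right _ (by nlinarith)
    rw [sq]; omega
  have hn' : (0 : ℝ) < n := by exact_mod_cast hn0
  have hH' : (100 : ℝ) ≤ pH r := by exact_mod_cast hH
  have e1 : (n : ℝ) ≤ Real.exp (pH r) := by rwa [← Real.log_le_iff_le_exp hn']
  have e2 : (T : ℝ) + 2 ≤ Real.exp (2 * pH r) := by
    calc (T : ℝ) + 2 ≤ n ^ 2 := by exact_mod_cast t2
      _ ≤ Real.exp (pH r) ^ 2 := by gcongr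
      _ = _ := by rw [← Real.exp_nat_mul]; norm_num
  have e3 : Real.log (T + 2) ≤ 3 * pH r := by
    have := (Real.log_le_iff_le_exp (by positivity)).2 e2
    linarith
  have e4 : (4 : ℝ) ≤ Real.exp (pH r) := by linarith [Real.add_one_le_exp (pH r : ℝ)]
  have e5 : 4 * ((T : ℝ) + 1) ^ 2 ≤ Real.exp (5 * pH r) := by
    calc 4 * ((T : ℝ) + 1) ^ 2 ≤ Real.exp (pH r) * Real.exp (2 * pH r) ^ 2 := by
          gcongr; linarith
      _ = _ := by rw [← Real.exp_nat_mul, ← Real.exp_add]; congr 1; push_cast; ring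
  set O : Finset (Fin n) := univ.filter fun b => b.val < n / 4 with hO
  have cO : n / 4 ≤ O.card := by
    have : O.map Fin.valEmbedding = range (n / 4) := by
      ext j
      simp only [hO, mem_map, mem_filter, mem_univ, true_and, Fin.valEmbedding_apply, mem_range]
      exact ⟨fun ⟨i, hi, e⟩ => e ▸ hi, fun hj => ⟨⟨j, by omega⟩, hj, rfl⟩⟩
    rw [← card_map Fin.valEmbedding, this, card_range]
  have gB : n - ng * pL r + ng * pL r ≤ n := by omega
  set Gp : Fin ng → Fin (pL r) → Fin n := fun g => colF hn0 (pL r) (n - ng * pL r) g with hGp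
  have gi : Function.Injective fun x : Fin ng × Fin (pL r) => Gp x.1 x.2 := fun x y e => by
    have := colF_inj hn0 gB x.1.2 y.1.2 e
    exact Prod.ext (Fin.ext this.1) this.2
  have gv : ∀ g l, n - ng * pL r ≤ (Gp g l).val := fun g l => by
    simp only [hGp]; rw [colF_val hn0 gB g.2]; omega
  set N : Finset (Fin n) := univ.image fun x : Fin ng × Fin (pL r) => Gp x.1 x.2 with hN
  have cN : n / 4 ≤ N.card := by
    rw [hN, card_image_of_injective _ gi, card_univ, Fintype.card_prod, Fintype.card_fin,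
      Fintype.card_fin]
    omega
  have bB : ∀ β < Nb, n / 4 + β * (pH r * pL r) + pH r * pL r ≤ n / 2 := fun β hβ => by
    have : (β + 1) * (pH r * pL r) ≤ Nb * (pH r * pL r) := Nat.mul_le_mul_right _ hβ
    rw [add_mul] at this
    omega
  have p1 := good_prob A O N T ((pH r : ℝ) ^ 83)⁻¹ (by positivity) (by
    rw [one_div]
    exact inv_anti₀ (by norm_num)
      (le_trans (by linarith) (le_self_pow₀ (by linarith) (by norm_num)))) (n / 4) cO cN
  replace p1 := p1.trans (exp_small hH' (e5.trans (Real.exp_le_exp.2 (by linarith))) (by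
    have h1 : pH r ^ 168 ≤ n / 4 := by
      rw [Nat.le_div_iff_mul_le (by norm_num)]
      calc pH r ^ 168 * 4 ≤ pH r ^ 168 * pH r := Nat.mul_le_mul_left _ (by omega)
        _ = pH r ^ 169 := by ring
        _ ≤ _ := (Nat.pow_le_pow_right (by omega) (by norm_num)).trans hn
    have h2 : (pH r : ℝ) ^ 168 ≤ (n / 4 : ℕ) := by exact_mod_cast h1
    calc (pH r : ℝ) ^ 2 / 2 = ((pH r : ℝ) ^ 83)⁻¹ ^ 2 * (pH r : ℝ) ^ 168 / 2 := by field_simp
      _ ≤ _ := by gcongr))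
  have p2 : Pr A (T + 1) (fun xs => ∃ x ∈ range Nb ×ˢ range (pH r), ∃ τ ≤ T,
      (∀ s < τ, f0 (xs.getD s fun _ => false) < n / 4 + x.1 * (pH r * pL r) + x.2 * pL r) ∧
      ¬(nrm A O xs).Typ (colF hn0 (pL r) (n / 4 + x.1 * (pH r * pL r)) x.2) N (1 / pH r) τ) ≤
      1 / 10 := by
    refine (Pr_exists A _ _ _).trans ((sum_le_card_nsmul _ _
      (4 * (T + 1) ^ 2 * (ng + 1) * Real.exp (-((1 / (pH r : ℝ)) ^ 2 * pL r / 2)))
      fun x hx => ?_).trans ?_)
    · obtain ⟨x1, x2⟩ := mem_product.1 hx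
      have h1 := bB _ (mem_range.1 x1)
      have h2 : n / 4 + x.1 * (pH r * pL r) + pH r * pL r ≤ n := by omega
      have h3 : (x.2 + 1) * pL r ≤ pH r * pL r := Nat.mul_le_mul_right _ (mem_range.1 x2)
      rw [add_mul] at h3
      refine typ_prob A O T _ _ ng hL0 g5 _ Gp
        (fun l l' e => (colF_inj hn0 h2 (mem_range.1 x2) (mem_range.1 x2) e).2) gi
        (fun l g l' e => ?_) (fun l => ?_) (fun g l => ?_) _ (by positivity)
      · have := gv g l'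
        rw [← e, colF_val hn0 h2 (mem_range.1 x2)] at this
        have := l.2
        omega
      · rw [colF_val hn0 h2 (mem_range.1 x2)]; omega
      · have := gv g l
        omega
    · rw [card_product, card_range, card_range, nsmul_eq_mul, ← mul_assoc]
      refine exp_small hH' ?_ ?_
      · have h1 : ((Nb * pH r : ℕ) : ℝ) ≤ Real.exp (pH r) := by
          refine le_trans ?_ e1
          have : Nb * pH r ≤ Nb * (pH r * pL r) :=
            Nat.mul_le_mul_left _ (Nat.le_mul_of_pos_right _ hL0)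
          exact_mod_cast (by omega : Nb * pH r ≤ n)
        have h2 : (ng : ℝ) + 1 ≤ Real.exp (pH r) := by
          refine le_trans ?_ e1
          have : ng ≤ ng * pL r := Nat.le_mul_of_pos_right _ hL0
          exact_mod_cast (by omega : ng + 1 ≤ n)
        calc _ ≤ Real.exp (pH r) * (Real.exp (5 * pH r) * Real.exp (pH r)) := by gcongr
          _ = Real.exp (7 * pH r) := by rw [← Real.exp_add, ← Real.exp_add]; congr 1; ring
          _ ≤ _ := Real.exp_le_exp.2 (by linarith)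
      · rw [hL]
        push_cast
        calc (pH r : ℝ) ^ 2 / 2 = (1 / (pH r : ℝ)) ^ 2 * (pH r : ℝ) ^ 4 / 2 := by field_simp
          _ ≤ _ := by gcongr; exacts [by linarith, by norm_num]
  have p3 := Pr_count A (T + 1) Nb b2 (fun xs => hit n xs ∧
      (nrm A O xs).Good O N ((pH r : ℝ) ^ 83)⁻¹ T ∧ ∀ β < Nb, ∀ j < pH r, ∀ τ ≤ T,
      (∀ s < τ, f0 (xs.getD s fun _ => false) < n / 4 + β * (pH r * pL r) + j * pL r) →
      (nrm A O xs).Typ (colF hn0 (pL r) (n / 4 + β * (pH r * pL r)) j) N (1 / pH r) τ)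
    (fun β xs => Blk r (nrm A O xs) O N (colF hn0 (pL r) (n / 4 + β * (pH r * pL r)))
      (fun i => tt xs (n / 4 + β * (pH r * pL r) + i * pL r)) T T') _
    (fun β _ => h0 r (by omega) A O N _ (fun xs i => tt xs (n / 4 + β * (pH r * pL r) + i * pL r))
      T T' a1 a2) fun xs hl ⟨hh, hG, hy⟩ => by
      refine (many_fast (fun β => tt xs (n / 4 + β * (pH r * pL r))) Nb T T'
        (fun β hβ => tt_mono hh (by rw [add_mul]; omega) (by
          have := bB β hβ; rw [add_mul]; omega)) (by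
          have := (tt_spec hh (show n / 4 + Nb * (pH r * pL r) ≤ n by omega)).1
          omega) hT).trans (Nat.mul_le_mul_left _ (card_le_card fun β hβ => ?_))
      obtain ⟨h1, h2⟩ := mem_filter.1 hβ
      have h3 := bB β (mem_range.1 h1)
      refine mem_filter.2 ⟨h1, blk_of hr2 hn0 A hl hh (by omega) (fun b hb => ?_)
        (card_pos.1 (by omega)) (card_pos.1 (by omega)) ?_ t1 e3 hG (hy β (mem_range.1 h1))⟩
      · have := (mem_filter.1 hb).2
        omega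
      · rwa [add_mul, one_mul, ← add_assoc] at h2
  have p4 : Real.exp (-3) ≤ 1 / 16 := by
    rw [Real.exp_neg, one_div]
    refine inv_anti₀ (by norm_num) ?_
    have h1 := Real.exp_one_gt_d9
    rw [show (3 : ℝ) = (3 : ℕ) * 1 by norm_num, Real.exp_nat_mul]
    exact le_trans (by norm_num) (pow_le_pow_left₀ (by norm_num) h1.le 3)
  refine le_trans (Pr_mono A _ fun xs _ hh => ?_) (((Pr_or A _ _ _).trans (add_le_add p1
    ((Pr_or A _ _ _).trans (add_le_add p2 p3)))).trans (by linarith))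
  refine or_iff_not_imp_left.2 fun hG => or_iff_not_imp_left.2 fun hy =>
    ⟨hh, not_not.1 hG, fun β hβ j hj τ hτ hs => ?_⟩
  by_contra h
  exact hy ⟨(β, j), mem_product.2 ⟨mem_range.2 hβ, mem_range.2 hj⟩, τ, hτ, hs, h⟩

lemma log_le_aux {r n : ℕ} (r3 : 3 ≤ r) (hn0 : 0 < n) (a3 : n < pH (r + 1) ^ 200) :
    Real.log n ≤ 4000 * 2 ^ 15 * (pK r * Real.log r) := by
  have r3' : (3 : ℝ) ≤ r := by exact_mod_cast r3
  have hn' : (0 : ℝ) < n := by exact_mod_cast hn0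
  have l0 : 0 ≤ Real.log r := Real.log_natCast_nonneg r
  have h3 : pK (r + 1) + 1 ≤ 2 ^ 14 * pK r := by
    have h : pK (r + 1) ≤ 2 ^ 13 * pK r := by
      unfold pK
      rw [← mul_pow]
      exact Nat.pow_le_pow_left (by omega) _
    have h' : 1 ≤ pK r := Nat.one_le_pow _ _ (by omega)
    omega
  have h5 : (0 : ℝ) < ((r + 1 : ℕ) : ℝ) := Nat.cast_pos.2 (by omega)
  rw [pH_eq, ← pow_mul] at a3
  generalize pK (r + 1) = K1 at a3 h3
  generalize pK r = K at h3 ⊢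
  have h1 : Real.log n ≤ Real.log (((r + 1 : ℕ) : ℝ) ^ (20 * (K1 + 1) * 200)) := by
    refine Real.log_le_log hn' ?_
    rw [← Nat.cast_pow]
    exact Nat.cast_le.2 a3.le
  clear a3
  rw [Real.log_pow] at h1
  have h2 : Real.log ((r + 1 : ℕ) : ℝ) ≤ 2 * Real.log r := by
    have := Real.log_le_log h5 (show ((r + 1 : ℕ) : ℝ) ≤ (r : ℝ) ^ 2 by
      push_cast; nlinarith)
    rwa [Real.log_pow] at this
  have h4 : ((20 * (K1 + 1) * 200 : ℕ) : ℝ) ≤ 20 * (2 ^ 14 * K) * 200 := by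
    exact_mod_cast Nat.mul_le_mul_right _ (Nat.mul_le_mul_left _ h3)
  have h6 : 0 ≤ Real.log ((r + 1 : ℕ) : ℝ) := Real.log_natCast_nonneg _
  calc _ ≤ _ := h1
    _ ≤ 20 * (2 ^ 14 * K) * 200 * (2 * Real.log r) :=
        mul_le_mul h4 h2 h6 (by positivity)
    _ = _ := by ring

lemma pick_r (r1 n : ℕ) (hn : pH r1 ^ 200 ≤ n) :
    ∃ r, r1 ≤ r ∧ pH r ^ 200 ≤ n ∧ n < pH (r + 1) ^ 200 := by
  have hle : ∀ r, r ≤ pH r ^ 200 := fun r => by
    rw [pH_eq, ← pow_mul]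
    exact Nat.le_self_pow (by omega) r
  generalize hf : (fun r => pH r ^ 200) = f
  have e : ∀ r, pH r ^ 200 = f r := fun r => congrFun hf r
  simp only [e] at hle hn ⊢
  refine ⟨Nat.findGreatest (fun r => f r ≤ n) n, Nat.le_findGreatest ((hle r1).trans hn) hn,
    Nat.findGreatest_spec (P := fun r => f r ≤ n) ((hle r1).trans hn) hn, ?_⟩
  by_contra h
  have := Nat.le_findGreatest (P := fun r => f r ≤ n) ((hle _).trans (not_lt.1 h)) (not_lt.1 h)
  omega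

lemma log_le_H {r : ℕ} {y : ℝ} (r3 : 3 ≤ r) (l3 : y ≤ 4000 * 2 ^ 15 * (pK r * Real.log r)) :
    y ≤ pH r := by
  have r3' : (3 : ℝ) ≤ r := by exact_mod_cast r3
  have l0 : 0 ≤ Real.log r := Real.log_natCast_nonneg r
  have l2 : Real.log r ≤ r := (Real.log_le_sub_one_of_pos (by linarith)).trans (by linarith)
  have hK : (pK r : ℝ) = (r : ℝ) ^ 13 := by simp [pK]
  have h1 : r ^ 40 ≤ pH r := by
    have : 1 ≤ pK r := Nat.one_le_pow _ _ (by omega)
    rw [pH_eq]; exact Nat.pow_le_pow_right (by omega) (by omega)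
  have h2 : (4000 * 2 ^ 15 : ℝ) ≤ (r : ℝ) ^ 26 :=
    le_trans (by norm_num) (pow_le_pow_left₀ (by norm_num) r3' 26)
  generalize pH r = H at h1 ⊢
  calc _ ≤ _ := l3
    _ ≤ (r : ℝ) ^ 26 * ((r : ℝ) ^ 13 * r) := by rw [hK]; gcongr
    _ = (r : ℝ) ^ 40 := by ring
    _ ≤ _ := by exact_mod_cast h1

lemma blocks_aux {H L n : ℕ} (hH : 6 ≤ H) (hL : L = H ^ 80) (a2 : H ^ 200 ≤ n) :
    n ≤ 8 * (n / 4 / (H * L) * (H * L)) := by
  have h3 : 0 < H * L := Nat.mul_pos (by omega) (hL ▸ Nat.one_le_pow _ _ (by omega))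
  have h1 : n / 4 < H * L * (n / 4 / (H * L) + 1) := Nat.lt_mul_div_succ _ h3
  have h2 : 36 * (H * L) ≤ n := by
    refine le_trans ?_ a2
    calc 36 * (H * L) ≤ H ^ 2 * (H * L) := Nat.mul_le_mul_right _ (Nat.pow_le_pow_left hH 2)
      _ = H ^ 83 := by rw [hL]; ring
      _ ≤ _ := Nat.pow_le_pow_right (by omega) (by norm_num)
  rw [mul_add, mul_comm _ (n / 4 / (H * L)), mul_one] at h1
  generalize n / 4 / (H * L) * (H * L) = X at h1 ⊢
  generalize H * L = Y at h1 h2 h3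
  omega

theorem lower : ∃ c : ℝ, 0 < c ∧ ∃ n₀ : ℕ, ∀ n ≥ n₀, ∀ (A : BAlg n) (z : Fin n → Bool)
    (σ : Equiv.Perm (Fin n)), ENNReal.ofReal (c * (n * Real.log n)) ≤ btime A (LO z σ) := by
  obtain ⟨c0, hc, hc', r0, h0⟩ := hit_prob
  obtain ⟨r1, hr1⟩ : ∃ r1, r1 = max (max 3 r0) ⌈4 / c0⌉₊ := ⟨_, rfl⟩
  refine ⟨c0 / 64 / (4000 * 2 ^ 15), by positivity, pH r1 ^ 200, fun n hn A z σ => ?_⟩
  obtain ⟨r, a1, a2, a3⟩ := pick_r r1 n hn
  have a4 : 3 ≤ r ∧ r0 ≤ r ∧ ⌈4 / c0⌉₊ ≤ r := by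
    clear a2 a3 hn h0
    omega
  obtain ⟨r3, a5, a6⟩ := a4
  have r3' : (3 : ℝ) ≤ r := by exact_mod_cast r3
  have l1 : 1 ≤ Real.log r := by
    rw [Real.le_log_iff_exp_le (by linarith)]
    linarith [Real.exp_one_lt_d9]
  have l2 : Real.log r ≤ r := (Real.log_le_sub_one_of_pos (by linarith)).trans (by linarith)
  have hH : 6 ≤ pH r := six_le_pH (le_trans (by norm_num) r3)
  have hH0 : 0 < pH r := lt_of_lt_of_le (by norm_num) hH
  have hn0 : 0 < n := lt_of_lt_of_le (pow_pos hH0 200) a2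
  have l3 := log_le_aux r3 hn0 a3
  have l4 := log_le_H r3 l3
  have b1 := blocks_aux (L := pL r) hH rfl a2
  have hL : 1 ≤ pL r := Nat.one_le_pow _ _ hH0
  have hK : (pK r : ℝ) = (r : ℝ) ^ 13 := by simp [pK]
  have h00 := fun T x => h0 r a5 A T x a2 l4
  clear h0 a2 a3 hn l4
  generalize pH r = H at *
  generalize pL r = L at *
  generalize pK r = K at *
  obtain ⟨x, hx⟩ : ∃ x : ℝ, x = c0 * K * H * L * Real.log r := ⟨_, rfl⟩
  have hHL : (1 : ℝ) ≤ (H : ℝ) * L := by exact_mod_cast Nat.mul_pos hH0 hL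
  have x0 : 4 ≤ x := by
    have h1 : 4 / c0 ≤ r := (Nat.le_ceil _).trans (by exact_mod_cast a6)
    rw [div_le_iff₀' hc] at h1
    have h2 : (r : ℝ) ≤ K := by rw [hK]; exact le_self_pow₀ (by linarith) (by norm_num)
    calc (4 : ℝ) ≤ c0 * r * 1 * 1 := by linarith
      _ ≤ c0 * K * (H * L) * Real.log r := by gcongr
      _ = x := by rw [hx]; ring
  have x1 : (⌊x⌋₊ : ℝ) ≤ x := Nat.floor_le (by linarith)
  have x2 : ⌊x⌋₊ ≤ r ^ 14 * H * L := by
    have : x ≤ (r : ℝ) ^ 14 * H * L := by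
      calc x ≤ 1 * (r : ℝ) ^ 13 * H * L * r := by rw [hx, hK]; gcongr
        _ = _ := by ring
    exact_mod_cast x1.trans this
  have x3 : x / 2 ≤ ⌊x⌋₊ := by linarith [Nat.lt_floor_add_one x]
  obtain ⟨Nb, hNb⟩ : ∃ Nb, Nb = n / 4 / (H * L) := ⟨_, rfl⟩
  rw [← hNb] at b1
  refine le_trans (ENNReal.ofReal_le_ofReal ?_) (btime_ge A z σ (Nb * ⌊x⌋₊ / 2)
    (h00 _ ⌊x⌋₊ (hx ▸ x1) x2 (hNb ▸ Nat.mul_div_le _ _)))
  have b2 : (n : ℝ) ≤ 8 * (Nb * (H * L)) := by exact_mod_cast b1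
  have b3 : (Nb : ℝ) * ⌊x⌋₊ ≤ 2 * ((Nb * ⌊x⌋₊ / 2 : ℕ) + 2) := by
    exact_mod_cast (by omega : Nb * ⌊x⌋₊ ≤ 2 * (Nb * ⌊x⌋₊ / 2 + 2))
  calc c0 / 64 / (4000 * 2 ^ 15) * (n * Real.log n)
      ≤ c0 / 64 / (4000 * 2 ^ 15) * (8 * (Nb * (H * L)) *
        (4000 * 2 ^ 15 * (K * Real.log r))) := by
        gcongr
    _ = Nb * (x / 2) / 4 := by rw [hx]; ring
    _ ≤ Nb * ⌊x⌋₊ / 4 := by gcongr
    _ ≤ _ := by linarith

end Pool.Agent.P.MP_5c258a_lc.Bin
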