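import Pool.Agent.P.MP_5c258a_lc.Bin.Par
import Pool.Agent.P.MP_5c258a_lc.Bin.Geo

/-! Task LOCK: if the lock fails at some scale, a plan of a small family wins (section 4, LOCK). -/

namespace Pool.Agent.P.MP_5c258a_lc.Bin

open Finset Classical

variable {n : ℕ}

/-- The rise of a column which is right at the end lies in the unit interval. -/
lemma lock_rise {tr : Tr n} (h : tr.WF) {s a : ℕ} (hs : s ≤ a) {b : Fin n}
    (hb : tr.c a b = true) : 0 ≤ rise tr s a b ∧ rise tr s a b ≤ 1 := by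
  have h1 := Tr.evolve h (le_refl s) hs a b
  have h2 := Tr.kill_le h (t := a) (le_refl s) a b
  have h3 := Tr.mass h s a b
  have h4 := Tr.x1_nonneg h s a b
  have h5 := Tr.x0_nonneg h s a b
  have h6 : tr.x1 a a b = 1 := by rw [Tr.x1_top tr (le_refl a)]; simp [Tr.bt, hb]
  have h7 : ∑ w ∈ Ioc s a, tr.pi s a w * (tr.xi w b + tr.al w * tr.kb w b)
      = rise tr s a b + ∑ w ∈ Ioc s a, tr.pi s a w * (tr.al w * tr.kb w b) := by
    unfold rise Tr.XX
    rw [← sum_add_distrib]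
    exact sum_congr rfl fun w _ => by ring
  constructor <;> linarith [h2.1, h2.2]

/-- Each particle runs all its slots as type L or all as type H. -/
lemma lock_pick {S : ℕ} (y Q : Fin S → ℝ) {lam : ℝ} (hlam : 1 ≤ lam) (hy : ∀ s, y s ≤ 1) :
    ∃ β : Bool, cA * (∑ s, y s) / lam - 2 * S / (cH * lam ^ 2) ≤
      ∑ s, gainOf (if β then .L else .H) (if β then lam else 1) (y s) (Q s) := by
  have hH : 0 < cH := by unfold cH; positivity
  have hl : 0 < lam := by linarith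
  by_cases hQ : ∑ s, Q s ≤ 2 * S / cH
  · refine ⟨true, ?_⟩
    simp only [if_true, gainOf]
    rw [sum_sub_distrib, ← sum_div, ← sum_div, ← mul_sum]
    have : (∑ s, Q s) / lam ^ 2 ≤ 2 * S / (cH * lam ^ 2) := by
      rw [← div_div]
      exact div_le_div_of_nonneg_right hQ (by positivity)
    linarith
  · refine ⟨false, ?_⟩
    simp only [Bool.false_eq_true, if_false, gainOf]
    rw [sum_sub_distrib, ← mul_sum]
    simp only [sum_const, card_univ, Fintype.card_fin, nsmul_eq_mul, mul_one]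
    have h1 : 2 * (S : ℝ) < cH * ∑ s, Q s := by
      have := (div_lt_iff₀ hH).1 (not_le.1 hQ)
      linarith
    have h2 : ∑ s, y s ≤ S := by
      have := sum_le_sum (s := univ) fun s _ => hy s
      simpa using this
    have h3 : cA * (∑ s, y s) / lam ≤ S := by
      rw [div_le_iff₀ hl]
      have h4 : (S : ℝ) * 1 ≤ S * lam := mul_le_mul_of_nonneg_left hlam (Nat.cast_nonneg S)
      have h5 : (0 : ℝ) ≤ S := Nat.cast_nonneg S
      unfold cA
      linarith
    have h4 : 0 ≤ 2 * (S : ℝ) / (cH * lam ^ 2) := by positivity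
    linarith

lemma lock_sum_mul (S h : ℕ) (g : ℕ → ℝ) :
    ∑ x ∈ range (S * h), g x = ∑ s ∈ range S, ∑ ρ ∈ range h, g (s * h + ρ) := by
  induction S with
  | zero => simp
  | succ S ih => rw [Nat.succ_mul, sum_range_add, ih, sum_range_succ]

lemma lock_ph_le {r k : ℕ} (hr : 2 ≤ r) (hk : 1 ≤ k) : 0 < ph r k ∧ ph r k ≤ pR r ^ k := by
  have h1 : 0 < pS r := by unfold pS; positivity
  have h2 : 0 < ph r k := by unfold ph pR; positivity
  refine ⟨h2, ?_⟩
  rw [← pS_mul_ph hk]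
  exact Nat.le_mul_of_pos_left _ h1

/-- A residue class of distances with many particles that are not locked. -/
lemma lock_rho {r : ℕ} {tr : Tr n} {col : ℕ → Fin (pL r) → Fin n} {t : ℕ → ℕ} {k : ℕ}
    (hk : 1 ≤ k) (hL : ¬LockOK r tr col t k) :
    ∃ ρ < ph r k, (pJ r : ℝ) * pL r * pS r / r ≤ ∑ j : Fin (pJ r), ∑ s : Fin (pS r),
      (nbad tr (col j) (t (j + (pR r ^ k + ρ) + s * ph r k))
        (t (j + (pR r ^ k + ρ) + s * ph r k + ph r k)) : ℝ) := by
  unfold LockOK at hL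
  push_cast at hL
  have hR : pR r ^ k = pS r * ph r k := (pS_mul_ph hk).symm
  have h1 : ∀ j, ∑ d ∈ Ico (pR r ^ k) (2 * pR r ^ k),
      (nbad tr (col j) (t (j + d)) (t (j + d + ph r k)) : ℝ)
      = ∑ ρ ∈ range (ph r k), ∑ s ∈ range (pS r),
        (nbad tr (col j) (t (j + (pR r ^ k + ρ) + s * ph r k))
          (t (j + (pR r ^ k + ρ) + s * ph r k + ph r k)) : ℝ) := by
    intro j
    rw [sum_Ico_eq_sum_range, show 2 * pR r ^ k - pR r ^ k = pS r * ph r k by omega,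
      lock_sum_mul, sum_comm]
    refine sum_congr rfl fun ρ _ => sum_congr rfl fun s _ => ?_
    rw [show j + (pR r ^ k + (s * ph r k + ρ)) = j + (pR r ^ k + ρ) + s * ph r k by ring]
  simp only [h1] at hL
  rw [sum_comm] at hL
  have h2 : ∑ _ρ ∈ range (ph r k), (pJ r : ℝ) * pL r * pS r / r
      = (pJ r : ℝ) * pL r * (pR r : ℝ) ^ k / r := by
    have : (pR r : ℝ) ^ k = pS r * ph r k := by exact_mod_cast hR
    rw [this]
    simp only [sum_const, card_range, nsmul_eq_mul]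
    ring
  rw [← h2] at hL
  obtain ⟨ρ, hρ, h3⟩ := exists_lt_of_sum_lt (not_le.1 hL)
  refine ⟨ρ, mem_range.1 hρ, h3.le.trans (le_of_eq ?_)⟩
  rw [sum_range]
  exact sum_congr rfl fun j _ => sum_range _

/-- The plans of the family. -/
noncomputable def lockPlan (r : ℕ) (col : ℕ → Fin (pL r) → Fin n) (t : ℕ → ℕ) (o h : ℕ)
    (β : Fin (pJ r) × Fin (pL r) → Bool) :
    Plan n ((Fin (pJ r) × Fin (pL r)) × Fin (pS r)) (Fin (pH r + 1)) where
  t0 := t 0
  te := t (pH r)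
  col e := col e.1.1 e.1.2
  ty e := if β e.1 then .L else .H
  lam e := if β e.1 then (r : ℝ) ^ 2 else 1
  lo e := t (e.1.1 + o + e.2 * h)
  hi e := t (e.1.1 + o + e.2 * h + h)
  om e _ _ κ := if (κ : ℕ) = e.1.1 + o + e.2 * h then 1 else 0

lemma lockPlan_congr {r : ℕ} (col : ℕ → Fin (pL r) → Fin n) {t t' : ℕ → ℕ} {o h : ℕ}
    (β : Fin (pJ r) × Fin (pL r) → Bool) (ht : ∀ m ≤ pH r, t' m = t m)
    (hm : ∀ (j : Fin (pJ r)) (s : Fin (pS r)), j + o + s * h + h ≤ pH r) :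
    lockPlan r col t' o h β = lockPlan r col t o h β := by
  unfold lockPlan
  congr 1
  · exact ht 0 (Nat.zero_le _)
  · exact ht _ le_rfl
  · funext e
    exact ht _ (le_trans (Nat.le_add_right _ _) (hm e.1.1 e.2))
  · funext e
    exact ht _ (hm e.1.1 e.2)

lemma lockPlan_q {r : ℕ} (col : ℕ → Fin (pL r) → Fin n) (t : ℕ → ℕ) {o h : ℕ}
    (β : Fin (pJ r) × Fin (pL r) → Bool) (tr : Tr n)
    (hm : ∀ (j : Fin (pJ r)) (s : Fin (pS r)), j + o + s * h + h ≤ pH r)
    (e : (Fin (pJ r) × Fin (pL r)) × Fin (pS r)) :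
    (lockPlan r col t o h β).q tr (fun κ w => t κ < w) (fun κ => t (min (κ + h) (pH r))) e
      = tr.pi (t (e.1.1 + o + e.2 * h)) (t (e.1.1 + o + e.2 * h + h)) := by
  funext w
  have h1 := hm e.1.1 e.2
  unfold Plan.q
  rw [sum_eq_single (⟨e.1.1 + o + e.2 * h, by omega⟩ : Fin (pH r + 1))]
  · simp only [lockPlan, if_true, one_mul]
    rw [min_eq_left h1]
    rfl
  · intro κ _ hκ
    have : (κ : ℕ) ≠ e.1.1 + o + e.2 * h := fun hc => hκ (Fin.ext hc)
    simp only [lockPlan, this, if_false, zero_mul]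
  · intro hc
    exact absurd (mem_univ _) hc

lemma lock_one_le_pH {r : ℕ} (hr : 2 ≤ r) : 1 ≤ pH r := by
  rw [pH_eq]; exact Nat.one_le_pow _ _ (by omega)

lemma lockPlan_valid {r : ℕ} (hr : 2 ≤ r) {tr : Tr n} {O N : Finset (Fin n)}
    {col : ℕ → Fin (pL r) → Fin n} {t : ℕ → ℕ} {T T' : ℕ} (B : Blk r tr O N col t T T') {o h : ℕ}
    (β : Fin (pJ r) × Fin (pL r) → Bool)
    (hm : ∀ (j : Fin (pJ r)) (s : Fin (pS r)), j + o + s * h + h ≤ pH r) :
    (lockPlan r col t o h β).Valid (pH r) tr (fun κ w => t κ < w)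
      (fun κ => t (min (κ + h) (pH r))) := by
  have hH := lock_one_le_pH hr
  have hJ : pJ r ≤ pH r := Nat.div_le_self _ _
  have hr1 : (1 : ℝ) ≤ (r : ℝ) ^ 2 := one_le_pow₀ (by exact_mod_cast (by omega : 1 ≤ r))
  refine
    { t0_le := B.mono _ _ (Nat.zero_le _) le_rfl
      lo_ge := fun e => B.mono _ _ (Nat.zero_le _) (le_trans (Nat.le_add_right _ _) (hm e.1.1 e.2))
      lo_le := fun e => B.mono _ _ (Nat.le_add_right _ _) (hm e.1.1 e.2)
      hi_le := fun e => B.mono _ _ (hm e.1.1 e.2) le_rfl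
      z_le := fun κ => B.mono _ _ (min_le_right _ _) le_rfl
      cols := ?_
      disj := ?_
      lam_ge := ?_
      om0 := ?_
      om1 := ?_
      cond := ?_ }
  · have h1 : univ.image (lockPlan r col t o h β).col ⊆
        univ.image fun p : Fin (pJ r) × Fin (pL r) => col p.1 p.2 := by
      intro b hb
      obtain ⟨e, -, rfl⟩ := mem_image.1 hb
      exact mem_image.2 ⟨e.1, mem_univ _, rfl⟩
    refine (card_le_card h1).trans (card_image_le.trans ?_)
    simp only [card_univ, Fintype.card_prod, Fintype.card_fin]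
    rw [show pH r ^ 81 = pH r * pL r by rw [pL]; ring]
    exact Nat.mul_le_mul_right _ hJ
  · rintro ⟨⟨j, l⟩, s⟩ ⟨⟨j', l'⟩, s'⟩ hne hc w hw hw'
    obtain ⟨e1, e2⟩ := B.inj j (lt_of_lt_of_le j.2 hJ) j' (lt_of_lt_of_le j'.2 hJ) l l' hc
    obtain rfl : j = j' := Fin.ext e1
    subst e2
    have hs : (s : ℕ) ≠ s' := fun hs => hne (by rw [Fin.ext hs])
    simp only [lockPlan, mem_Ioc] at hw hw'
    rcases lt_or_gt_of_ne hs with h1 | h1
    · have h2 : (s + 1) * h ≤ s' * h := Nat.mul_le_mul_right _ h1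
      have h3 := B.mono (j + o + s * h + h) (j + o + s' * h) (by rw [Nat.succ_mul] at h2; omega)
        (le_trans (Nat.le_add_right _ _) (hm j s'))
      omega
    · have h2 : (s' + 1) * h ≤ s * h := Nat.mul_le_mul_right _ h1
      have h3 := B.mono (j + o + s' * h + h) (j + o + s * h) (by rw [Nat.succ_mul] at h2; omega)
        (le_trans (Nat.le_add_right _ _) (hm j s))
      omega
  · intro e
    have h1 : 1 / (pH r : ℝ) ≤ 1 := by
      rw [div_le_one (by exact_mod_cast hH)]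
      exact_mod_cast hH
    simp only [lockPlan]
    split_ifs <;> linarith
  · intro e w _ κ
    simp only [lockPlan]
    split_ifs <;> norm_num
  · intro e w _
    have h1 := hm e.1.1 e.2
    rw [sum_eq_single (⟨e.1.1 + o + e.2 * h, by omega⟩ : Fin (pH r + 1))]
    · simp only [lockPlan, if_true, le_refl]
    · intro κ _ hκ
      have : (κ : ℕ) ≠ e.1.1 + o + e.2 * h := fun hc => hκ (Fin.ext hc)
      simp only [lockPlan, this, if_false]
    · intro hc
      exact absurd (mem_univ _) hc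
  · intro e
    rw [lockPlan_q col t β tr hm e]
    simp only [lockPlan]
    split_ifs
    · intro w _
      exact (Tr.gr_le_one B.wf _ _ _).trans hr1
    · exact Tr.condH B.wf le_rfl _ _ _

/-- The total gain of the best plan with given offset and step. -/
lemma lockPlan_gain {r : ℕ} (hr : 2 ≤ r) {tr : Tr n} {O N : Finset (Fin n)}
    {col : ℕ → Fin (pL r) → Fin n} {t : ℕ → ℕ} {T T' : ℕ} (B : Blk r tr O N col t T T') {o h : ℕ}
    (hh : 0 < h) (hm : ∀ (j : Fin (pJ r)) (s : Fin (pS r)), j + o + s * h + h ≤ pH r)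
    (hb : (pJ r : ℝ) * pL r * pS r / r ≤ ∑ j : Fin (pJ r), ∑ s : Fin (pS r),
      (nbad tr (col j) (t (j + o + s * h)) (t (j + o + s * h + h)) : ℝ)) :
    ∃ β, (pJ r : ℝ) * pL r * (r : ℝ) ^ 14 * (cA * r / 100 - 2 / cH) ≤
      ∑ e, (lockPlan r col t o h β).gain tr (fun κ w => t κ < w)
        (fun κ => t (min (κ + h) (pH r))) e := by
  have hr0 : (0 : ℝ) < r := by exact_mod_cast (by omega : 0 < r)
  have hr1 : (1 : ℝ) ≤ (r : ℝ) ^ 2 := one_le_pow₀ (by exact_mod_cast (by omega : 1 ≤ r))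
  have hA : 0 < cA := by unfold cA; norm_num
  have hH : 0 < cH := by unfold cH; positivity
  have hy : ∀ (p : Fin (pJ r) × Fin (pL r)) (s : Fin (pS r)),
      0 ≤ rise tr (t (p.1 + o + s * h)) (t (p.1 + o + s * h + h)) (col p.1 p.2) ∧
        rise tr (t (p.1 + o + s * h)) (t (p.1 + o + s * h + h)) (col p.1 p.2) ≤ 1 := fun p s =>
    lock_rise B.wf (B.mono _ _ (Nat.le_add_right _ _) (hm p.1 s))
      (B.rightW _ (hm p.1 s) _ (by omega) _)
  choose β hβ using fun p : Fin (pJ r) × Fin (pL r) => lock_pick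
    (fun s : Fin (pS r) => rise tr (t (p.1 + o + s * h)) (t (p.1 + o + s * h + h)) (col p.1 p.2))
    (fun s : Fin (pS r) => tr.QQ (tr.pi (t (p.1 + o + s * h)) (t (p.1 + o + s * h + h)))
      (col p.1 p.2) (t (p.1 + o + s * h)) (t (p.1 + o + s * h + h))) hr1 fun s => (hy p s).2
  refine ⟨β, ?_⟩
  rw [Fintype.sum_prod_type]
  refine le_trans ?_ ((sum_le_sum (s := univ) fun p _ => hβ p).trans (le_of_eq ?_))
  swap
  · refine sum_congr rfl fun p _ => sum_congr rfl fun s _ => ?_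
    unfold Plan.gain
    rw [lockPlan_q col t β tr hm (p, s)]
    rfl
  have h1 : ∑ j : Fin (pJ r), ∑ s : Fin (pS r),
      (nbad tr (col j) (t (j + o + s * h)) (t (j + o + s * h + h)) : ℝ) ≤
      100 * ∑ p : Fin (pJ r) × Fin (pL r), ∑ s : Fin (pS r),
        rise tr (t (p.1 + o + s * h)) (t (p.1 + o + s * h + h)) (col p.1 p.2) := by
    rw [Fintype.sum_prod_type, mul_sum]
    refine sum_le_sum fun j _ => ?_
    rw [sum_comm, mul_sum]
    refine sum_le_sum fun s _ => ?_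
    unfold nbad
    rw [card_filter, mul_sum]
    push_cast
    refine sum_le_sum fun l _ => ?_
    have := (hy (j, l) s).1
    split_ifs with hc
    · linarith
    · linarith
  rw [sum_sub_distrib, ← sum_div, ← mul_sum]
  simp only [sum_const, card_univ, Fintype.card_prod, Fintype.card_fin, nsmul_eq_mul]
  push_cast
  generalize (∑ p : Fin (pJ r) × Fin (pL r), ∑ s : Fin (pS r),
    rise tr (t (p.1 + o + s * h)) (t (p.1 + o + s * h + h)) (col p.1 p.2)) = Y at h1
  have hS : (pS r : ℝ) = (r : ℝ) ^ 18 := by rw [pS]; push_cast; rfl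
  have h2 : (pJ r : ℝ) * pL r * (r : ℝ) ^ 18 / r / 100 ≤ Y := by
    rw [← hS]; linarith
  have h3 := div_le_div_of_nonneg_right (mul_le_mul_of_nonneg_left h2 hA.le)
    (show (0 : ℝ) ≤ (r : ℝ) ^ 2 by positivity)
  refine le_trans (le_of_eq ?_) (sub_le_sub_right h3 _)
  rw [hS]
  field_simp

/-- The cost of the union over the family. -/
lemma lock_cost {r T : ℕ} (hr : 2 ≤ r) (hT : Real.log (T + 2) ≤ 3 * pH r) :
    Real.log (Fintype.card ((Fin (pH r + 1) → Fin (T + 1)) × Fin (pH r + 1) × Fin (pH r + 1) ×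
      (Fin (pJ r) × Fin (pL r) → Bool))) ≤ 9 * (pH r * pL r : ℝ) := by
  have hH : (1 : ℝ) ≤ pH r := by exact_mod_cast lock_one_le_pH hr
  have hJ : (pJ r : ℝ) ≤ pH r := by exact_mod_cast (Nat.div_le_self _ _ : pJ r ≤ pH r)
  have hL : (pH r : ℝ) ≤ pL r := by
    rw [pL]; push_cast
    exact le_self_pow₀ hH (by norm_num)
  simp only [Fintype.card_prod, Fintype.card_fun, Fintype.card_fin, Fintype.card_bool]
  push_cast
  rw [Real.log_mul (by positivity) (by positivity), Real.log_mul (by positivity) (by positivity),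
    Real.log_mul (by positivity) (by positivity), Real.log_pow, Real.log_pow]
  push_cast
  have h1 : Real.log (T + 1) ≤ 3 * pH r :=
    (Real.log_le_log (by positivity) (by linarith)).trans hT
  have h2 : Real.log (pH r + 1) ≤ pH r := by
    have := Real.log_le_sub_one_of_pos (show (0 : ℝ) < pH r + 1 by positivity)
    linarith
  have h3 : Real.log 2 ≤ 1 := by
    have := Real.log_le_sub_one_of_pos (show (0 : ℝ) < 2 by norm_num)
    linarith
  have h4 := mul_le_mul_of_nonneg_left h1 (show (0 : ℝ) ≤ pH r + 1 by positivity)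
  have h5 := mul_le_mul_of_nonneg_left h3 (show (0 : ℝ) ≤ pJ r * pL r by positivity)
  have h6 := mul_le_mul_of_nonneg_right hJ (show (0 : ℝ) ≤ pL r by positivity)
  have h7 := mul_le_mul_of_nonneg_left hL (show (0 : ℝ) ≤ pH r by positivity)
  have h8 := mul_le_mul_of_nonneg_left hH (show (0 : ℝ) ≤ pH r by positivity)
  linarith

/-- Suggested: `I = (Fin (H+1) → Fin (T+1)) × Fin (K+1) × Fin H × (Fin J × Fin L → Bool)` with the
uniform weight, `E = (Fin J × Fin L) × Fin (pS r)`, `K = Fin (H+1)` (slot `i`: flow from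
`t (i + ph r k)` through `(t i, ∞)`), `t0 = t 0`, `te = t H`. -/
theorem lock_family (A0 : ℝ) : ∃ r0 : ℕ, ∀ r ≥ r0, ∀ (n T : ℕ)
    (col : ℕ → Fin (pL r) → Fin n),
    ∃ (I E K : Type) (_ : Fintype I) (_ : Fintype E) (_ : Fintype K)
      (P : I → Plan n E K) (wt : I → ℝ),
      0 < Fintype.card K ∧ Fintype.card K ≤ pH r ^ 5 ∧ (∀ i, 0 < wt i) ∧ ∑ i, wt i ≤ 1 ∧
      ∀ (tr : Tr n) (O N : Finset (Fin n)) (t : ℕ → ℕ) (T' k : ℕ), Blk r tr O N col t T T' →
        T' ≤ r ^ 14 * pH r * pL r → 1 ≤ k → k ≤ pK r → ¬LockOK r tr col t k →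
        ∃ i, (P i).Win A0 (pH r) T tr (3 - Real.log (wt i)) := by
  obtain ⟨r0, hr0⟩ := exists_nat_ge ((6 * (13 + |A0|) + 2 / cH) * 100 / cA)
  refine ⟨max r0 2, fun r hr n T col => ?_⟩
  have hr2 : 2 ≤ r := le_trans (le_max_right _ _) hr
  have hH2 : 2 ≤ pH r := by
    rw [pH_eq]
    exact hr2.trans (Nat.le_self_pow (by omega) r)
  refine ⟨(Fin (pH r + 1) → Fin (T + 1)) × Fin (pH r + 1) × Fin (pH r + 1) ×
      (Fin (pJ r) × Fin (pL r) → Bool), (Fin (pJ r) × Fin (pL r)) × Fin (pS r), Fin (pH r + 1),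
    inferInstance, inferInstance, inferInstance,
    fun i => lockPlan r col (fun m => i.1 ⟨min m (pH r), by omega⟩) i.2.1 i.2.2.1 i.2.2.2,
    fun _ => (Fintype.card ((Fin (pH r + 1) → Fin (T + 1)) × Fin (pH r + 1) × Fin (pH r + 1) ×
      (Fin (pJ r) × Fin (pL r) → Bool)) : ℝ)⁻¹, by simp, ?_, fun _ => ?_, ?_, ?_⟩
  · rw [Fintype.card_fin]
    have h1 : 2 ^ 4 ≤ pH r ^ 4 := Nat.pow_le_pow_left hH2 4
    have h2 : pH r * 2 ^ 4 ≤ pH r * pH r ^ 4 := Nat.mul_le_mul_left _ h1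
    rw [show pH r ^ 5 = pH r * pH r ^ 4 by ring]
    omega
  · exact inv_pos.2 (Nat.cast_pos.2 Fintype.card_pos)
  · rw [sum_const, card_univ, nsmul_eq_mul, mul_inv_cancel₀ (Nat.cast_pos.2 Fintype.card_pos).ne']
  intro tr O N t T' k B hT' hk1 hkK hL
  obtain ⟨ρ, hρ, hb⟩ := lock_rho hk1 hL
  obtain ⟨hh0, hh1⟩ := lock_ph_le hr2 hk1
  have hJ := pJ_add hr2 hkK
  have hm : ∀ (j : Fin (pJ r)) (s : Fin (pS r)),
      j + (pR r ^ k + ρ) + s * ph r k + ph r k ≤ pH r := by
    intro j s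
    have h1 : (s + 1) * ph r k ≤ pS r * ph r k := Nat.mul_le_mul_right _ s.2
    rw [pS_mul_ph hk1, Nat.succ_mul] at h1
    have := j.2
    omega
  obtain ⟨β, hβ⟩ := lockPlan_gain hr2 B hh0 hm hb
  refine ⟨(fun m => ⟨t m, Nat.lt_succ_of_le ((B.mono _ _ (Nat.le_of_lt_succ m.2) le_rfl).trans
    B.top)⟩, ⟨pR r ^ k + ρ, by omega⟩, ⟨ph r k, by omega⟩, β), ?_⟩
  simp only
  rw [lockPlan_congr col (t := t) β (fun m hm => by rw [min_eq_left hm]) hm]
  refine ⟨B.top, _, _, lockPlan_valid hr2 B β hm, le_trans ?_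
    (div_le_div_of_nonneg_right hβ (by norm_num))⟩
  rw [Real.log_inv]
  have c1 := lock_cost hr2 B.logT
  have hA : 0 < cA := by unfold cA; norm_num
  have hH : (1 : ℝ) ≤ pH r := by exact_mod_cast lock_one_le_pH hr2
  have hLe : (pH r : ℝ) ^ 80 = pL r := by rw [pL]; push_cast; rfl
  have hL1 : (1 : ℝ) ≤ pL r := by rw [← hLe]; exact one_le_pow₀ hH
  have hr14 : (1 : ℝ) ≤ (r : ℝ) ^ 14 := one_le_pow₀ (by exact_mod_cast (by omega : 1 ≤ r))
  have hJ3 : (pH r : ℝ) ≤ 3 * pJ r := by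
    have : pH r ≤ 3 * pJ r := by unfold pJ; omega
    exact_mod_cast this
  have c2 : A0 * ((t (pH r) : ℝ) - t 0) ≤ |A0| * ((r : ℝ) ^ 14 * pH r * pL r) := by
    have a1 : (t 0 : ℝ) ≤ t (pH r) := by exact_mod_cast B.mono _ _ (Nat.zero_le _) le_rfl
    have a2 : (t (pH r) : ℝ) ≤ t 0 + T' := by exact_mod_cast B.fast
    have a3 : (T' : ℝ) ≤ (r : ℝ) ^ 14 * pH r * pL r := by exact_mod_cast hT'
    exact (mul_le_mul_of_nonneg_right (le_abs_self A0) (by linarith)).trans
      (mul_le_mul_of_nonneg_left (by linarith) (abs_nonneg A0))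
  have c3 : 6 * (13 + |A0|) ≤ cA * r / 100 - 2 / cH := by
    have a1 : (r0 : ℝ) ≤ r := by exact_mod_cast le_trans (le_max_left _ _) hr
    have a2 := (div_le_iff₀ hA).1 (hr0.trans a1)
    linarith
  have c4 := mul_le_mul_of_nonneg_left c3
    (show (0 : ℝ) ≤ (pJ r : ℝ) * pL r * (r : ℝ) ^ 14 by positivity)
  have c5 := mul_le_mul_of_nonneg_left hJ3
    (show (0 : ℝ) ≤ (13 + |A0|) * (pL r * (r : ℝ) ^ 14) by positivity)
  have c6 := mul_le_mul_of_nonneg_left hr14 (show (0 : ℝ) ≤ pH r * pL r by positivity)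
  have c7 := mul_le_mul_of_nonneg_left hH (show (0 : ℝ) ≤ pL r by positivity)
  change 3 - -Real.log _ + A0 * ((t (pH r) : ℝ) - t 0) + (pH r : ℝ) ^ 80 ≤ _
  rw [hLe]
  linarith

end Pool.Agent.P.MP_5c258a_lc.Bin
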