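import Pool.Agent.P.MP_5c258a_lc.Bin.MainA

/-! The main family of plans: validity and gains. -/

namespace Pool.Agent.P.MP_5c258a_lc.Bin

open Finset Classical

variable {n r : ℕ} {tr : Tr n} {N : Finset (Fin n)}

lemma Ctx.lo_lLo {W : Fin (pL r) → Fin n} {τ a k : ℕ} {Tm : ℕ → ℕ} (h : Ctx r tr N W τ a k Tm)
    (κ : Fin 5) (i : ℕ) : τ ≤ lLo τ Tm κ i := by
  fin_cases κ
  exacts [h.lo _, h.lo _, h.lo _, le_rfl, le_rfl]

lemma Ctx.lLo_lHi {W : Fin (pL r) → Fin n} {τ a k : ℕ} {Tm : ℕ → ℕ} (h : Ctx r tr N W τ a k Tm)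
    (κ : Fin 5) (i : ℕ) : lLo τ Tm κ i ≤ lHi Tm κ i := by
  fin_cases κ
  exacts [h.anti (Nat.sub_le i 1), h.anti (Nat.le_succ i), h.anti (Nat.le_succ i), h.lo _, h.lo _]

lemma Ctx.lHi_le {W : Fin (pL r) → Fin n} {τ a k : ℕ} {Tm : ℕ → ℕ} (h : Ctx r tr N W τ a k Tm)
    (κ : Fin 5) (i : ℕ) : lHi Tm κ i ≤ Tm 0 := by
  fin_cases κ <;> exact h.anti (Nat.zero_le _)

section

variable {col : ℕ → Fin (pL r) → Fin n} {t0 te : ℕ} {τ : Fin (pJ r) → ℕ}
  {Tm : Fin (pJ r) → Fin (pK r + 1) → ℕ → ℕ} {a : Fin (pJ r) → Fin (pK r + 1) → ℕ}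
  {smp : Fin (pJ r) → Fin (pK r + 1) → ℕ → Fin (pN r) → Option (ℕ × ℕ)}
  {lab : Fin (pJ r) → Fin (pK r + 1) → Fin (pL r) → Option (Fin 5 × ℕ)}
  {sch : ME r → MLab r} {w0 : Fin (pJ r) × Fin (pK r + 1) × Fin (pK r + 1) → Fin 5 → ℕ}

lemma mk_q (h : tr.WF) {e : ME r} {x : Fin 5 × Fin (pK r + 1)} (he : sch e = some x)
    (hs : ∀ j y, smp e.1.1 e.2 x.2 j = some y → y.2 ≤ τ e.1.1) {w : ℕ} (hw : τ e.1.1 < w) :
    (mkPlan r N col t0 te τ Tm (fun y j => (smp y.1 y.2.1 y.2.2 j).map Prod.snd) sch).q tr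
      (fun kk => flA r tr N (τ kk.1.1) (Tm kk.1.1 kk.1.2.1) kk.1.2.2 kk.2)
      (fun kk => flZ (smp kk.1.1 kk.1.2.1 kk.1.2.2) (w0 kk.1) kk.2) e w =
    lQ r tr N (τ e.1.1) (Tm e.1.1 e.2) (smp e.1.1 e.2 x.2) (w0 (e.1.1, e.2, x.2) x.1) x.1 x.2
      (col e.1.1 e.1.2) w := by
  rw [← omK_dot r h N _ _ _ _ hs (w0 (e.1.1, e.2, x.2)) hw]
  simp only [Plan.q, mkPlan, he, Option.elim]
  rw [Fintype.sum_prod_type, sum_eq_single (e.1.1, e.2, x.2)]
  · simp
  · intro y _ hy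
    simp [hy]
  · simp

theorem mk_valid (hr : 0 < r) (h : tr.WF) (h0 : t0 ≤ te) (hτ : ∀ j, t0 ≤ τ j)
    (ha : ∀ j k, a j k ≤ te) (hz : ∀ j k i jj, sz (smp j k i jj) ≤ te) (hw : ∀ y κ, w0 y κ ≤ te)
    (hl : ∀ e x, sch e = some x → Ctx r tr N (col e.1.1) (τ e.1.1) (a e.1.1 e.2) e.2 (Tm e.1.1 e.2)
      ∧ Loc r tr N (col e.1.1) (τ e.1.1) (a e.1.1 e.2) e.2 (Tm e.1.1 e.2) (smp e.1.1 e.2)
        (lab e.1.1 e.2) ∧ lab e.1.1 e.2 e.1.2 = some (x.1, (x.2 : ℕ)))
    (inj : ∀ b b' : Fin (pJ r) × Fin (pL r), col b.1 b.2 = col b'.1 b'.2 → b = b')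
    (hd : ∀ b k k' x x', k' < k → sch (b, k) = some x → sch (b, k') = some x' →
      lHi (Tm b.1 k') x'.1 x'.2 ≤ lLo (τ b.1) (Tm b.1 k) x.1 x.2) :
    (mkPlan r N col t0 te τ Tm (fun y j => (smp y.1 y.2.1 y.2.2 j).map Prod.snd) sch).Valid
      (pH r) tr (fun kk => flA r tr N (τ kk.1.1) (Tm kk.1.1 kk.1.2.1) kk.1.2.2 kk.2)
      (fun kk => flZ (smp kk.1.1 kk.1.2.1 kk.1.2.2) (w0 kk.1) kk.2) ∧
    ∀ e, (mkPlan r N col t0 te τ Tm (fun y j => (smp y.1 y.2.1 y.2.2 j).map Prod.snd) sch).gain tr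
      (fun kk => flA r tr N (τ kk.1.1) (Tm kk.1.1 kk.1.2.1) kk.1.2.2 kk.2)
      (fun kk => flZ (smp kk.1.1 kk.1.2.1 kk.1.2.2) (w0 kk.1) kk.2) e =
      (sch e).elim 0 fun x => lGain r tr N (τ e.1.1) (Tm e.1.1 e.2) (smp e.1.1 e.2 x.2)
        (w0 (e.1.1, e.2, x.2) x.1) x.1 x.2 (col e.1.1 e.1.2) := by
  have hH : 1 ≤ pH r := Nat.one_le_iff_ne_zero.2 (by unfold pH pR; positivity)
  have hq : ∀ e x, sch e = some x → ∀ w ∈ Ioc (lLo (τ e.1.1) (Tm e.1.1 e.2) x.1 x.2)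
      (lHi (Tm e.1.1 e.2) x.1 x.2), _ = _ := fun e x he w hw =>
    mk_q (N := N) (col := col) (t0 := t0) (te := te) (Tm := Tm) (smp := smp) (w0 := w0) h he
      (fun j y hy => ((hl e x he).2.1.le _ j y hy).2)
      (lt_of_le_of_lt ((hl e x he).1.lo_lLo x.1 x.2) (mem_Ioc.1 hw).1)
  refine ⟨⟨h0, fun e => ?_, fun e => ?_, fun e => ?_, fun kk => ?_, ?_, ?_, fun e => ?_,
    fun e w _ kk => ?_, fun e w _ => ?_, fun e => ?_⟩, fun e => ?_⟩
  · cases he : sch e with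
    | none => simp [mkPlan, he]
    | some x => simpa [mkPlan, he] using (hτ _).trans ((hl e x he).1.lo_lLo x.1 x.2)
  · cases he : sch e with
    | none => simp [mkPlan, he]
    | some x => simpa [mkPlan, he] using (hl e x he).1.lLo_lHi x.1 x.2
  · cases he : sch e with
    | none => simpa [mkPlan, he] using h0
    | some x =>
      simpa [mkPlan, he] using ((hl e x he).1.lHi_le x.1 x.2).trans ((hl e x he).1.top.trans (ha _ _))
  · rcases kk with ⟨y, x | κ⟩
    · exact hz _ _ _ _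
    · exact hw _ _
  · refine le_trans (card_le_card (t := univ.image fun b : Fin (pJ r) × Fin (pL r) => col b.1 b.2)
      fun c hc => ?_) (card_image_le.trans ?_)
    · obtain ⟨e, -, rfl⟩ := mem_image.1 hc
      exact mem_image.2 ⟨e.1, mem_univ _, rfl⟩
    · rw [card_univ, Fintype.card_prod, Fintype.card_fin, Fintype.card_fin, pL,
        pow_succ' _ 80, pJ]
      exact Nat.mul_le_mul_right _ (Nat.div_le_self _ _)
  · rintro ⟨b, k⟩ ⟨b', k'⟩ hne hc w hw hw'
    obtain rfl : b = b' := inj b b' hc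
    cases he : sch (b, k) with
    | none => simp [mkPlan, he] at hw
    | some x =>
      cases he' : sch (b, k') with
      | none => simp [mkPlan, he'] at hw'
      | some x' =>
        simp only [mkPlan, he, he', Option.elim, mem_Ioc] at hw hw'
        rcases lt_trichotomy k' k with hk | hk | hk
        · have := hd b k k' x x' hk he he'
          omega
        · exact hne (by rw [hk])
        · have := hd b k' k x' x hk he' he
          omega
  · cases he : sch e with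
    | none =>
      simp only [mkPlan, he, Option.elim]
      exact div_le_one_of_le₀ (by exact_mod_cast hH) (Nat.cast_nonneg _)
    | some x => simpa [mkPlan, he] using ((hl e x he).2.1.lev _ _ _ (hl e x he).2.2).2.1
  · cases he : sch e with
    | none => simp [mkPlan, he]
    | some x =>
      simp only [mkPlan, he, Option.elim]
      split_ifs
      · exact omK_nonneg _ _ _ _ _ _ _ _ _ _
      · exact le_rfl
  · cases he : sch e with
    | none => simp [mkPlan, he]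
    | some x =>
      simp only [mkPlan, he, Option.elim]
      rw [Fintype.sum_prod_type, sum_eq_single (e.1.1, e.2, x.2)]
      · simpa using omK_sum _ _ _ _ _ _ _ _ _
      · intro y _ hy
        simp [hy]
      · simp
  · cases he : sch e with
    | none =>
      simp only [mkPlan, he, Option.elim]
      intro w hw
      simp at hw
    | some x =>
      have := Cond_congr tr _ _ _ (hq e x he) ((hl e x he).2.1.cond _ _ _ _ (hl e x he).2.2)
      simpa only [mkPlan, he, Option.elim] using this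
  · cases he : sch e with
    | none => simp [Plan.gain, mkPlan, he, gainOf, Tr.XX, Tr.QQ]
    | some x =>
      have h1 := XX_congr tr (col e.1.1 e.1.2) le_rfl (hq e x he)
      have h2 := QQ_congr tr (col e.1.1 e.1.2) (hq e x he)
      simp only [Option.elim, lGain, ← h1, ← h2]
      simp only [Plan.gain, mkPlan, he, Option.elim]

end

end Pool.Agent.P.MP_5c258a_lc.Bin
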