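import Pool.Agent.P.MP_5c258a_lc.Bin.DLoc
import Pool.Agent.P.MP_5c258a_lc.Bin.Avg
import Pool.Agent.P.MP_5c258a_lc.Bin.MainB

/-! If all locks hold, a plan of the main family wins (paper section 4, GREEDY). -/

namespace Pool.Agent.P.MP_5c258a_lc.Bin

open Finset Classical

lemma sum_elim {L X : Type} [Fintype L] [Fintype X] [DecidableEq X] (s : L → Option X)
    (f : L → X → ℝ) :
    ∑ l, (s l).elim 0 (f l) = ∑ x, ∑ l ∈ univ.filter fun l => s l = some x, f l x := by
  simp only [sum_filter]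
  rw [sum_comm]
  refine sum_congr rfl fun l _ => ?_
  cases s l <;> simp

lemma lev_congr {r : ℕ} (hr : 2 ≤ r) {t t' : ℕ → ℕ} (h : ∀ i ≤ pH r, t' i = t i) {j k d : ℕ}
    (hj : j < pJ r) (hk : k ≤ pK r) (hd : d < 2 * pR r ^ k) : lev r t' j k d = lev r t j k d := by
  funext i
  have h1 := pJ_add hr hk
  have h2 : pR r ^ (k - 4 ^ i) ≤ pR r ^ k :=
    Nat.pow_le_pow_right (by unfold pR; positivity) (Nat.sub_le _ _)
  unfold lev
  rw [h (j + d) (by omega), h j (by omega), h (j + 2 * pR r ^ (k - 4 ^ i)) (by omega)]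

lemma lev_disj {r : ℕ} (hr : 2 ≤ r) {t : ℕ → ℕ} (hm : ∀ i j, i ≤ j → j ≤ pH r → t i ≤ t j)
    {j k k' d d' : ℕ} (hj : j < pJ r) (hk : k ≤ pK r) (k1 : 1 ≤ k') (hd : d' < 2 * pR r ^ k')
    {κ : Fin 5} {i : ℕ} (hi : κ = 0 → 1 ≤ i) (hl : k' + lLen k κ i ≤ k) :
    lev r t j k' d' 0 ≤ lLo (t j) (lev r t j k d) κ i := by
  have h1 := pJ_add hr hk
  have key : ∀ i, 1 ≤ i → k' + 4 ^ i ≤ k → lev r t j k' d' 0 ≤ lev r t j k d i := fun i i1 h => by
    have h2 : pR r ^ (k - 4 ^ i) ≤ pR r ^ k :=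
      Nat.pow_le_pow_right (by unfold pR; positivity) (Nat.sub_le _ _)
    have h3 : pR r ^ k' ≤ pR r ^ (k - 4 ^ i) :=
      Nat.pow_le_pow_right (by unfold pR; positivity) (by omega)
    unfold lev
    rw [if_pos rfl, if_neg (by omega), if_neg (by omega)]
    exact hm _ _ (by omega) (by omega)
  fin_cases κ
  · exact key i (hi rfl) hl
  · exact key (i + 1) (by omega) hl
  · exact key (i + 1) (by omega) hl
  · exact absurd hl (by change ¬k' + k ≤ k; omega)
  · exact absurd hl (by change ¬k' + k ≤ k; omega)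

lemma one_le_lLen {k : ℕ} (hk : 1 ≤ k) (κ : Fin 5) (i : ℕ) : 1 ≤ lLen k κ i := by
  fin_cases κ
  exacts [Nat.one_le_pow _ _ (by norm_num), Nat.one_le_pow _ _ (by norm_num),
    Nat.one_le_pow _ _ (by norm_num), hk, hk]

lemma K_sq_le {r : ℕ} (hr : 2 ≤ r) : (pK r + 1) ^ 2 ≤ pH r := by
  rw [pH_eq]
  calc (pK r + 1) ^ 2 ≤ (r ^ (pK r + 1)) ^ 2 :=
        Nat.pow_le_pow_left (Nat.lt_pow_self (by omega)).le 2
    _ ≤ _ := by rw [← pow_mul]; exact Nat.pow_le_pow_right (by omega) (by omega)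

lemma six_le_pH {r : ℕ} (hr : 2 ≤ r) : 6 ≤ pH r := by
  have h1 := pJ_add hr (Nat.zero_le (pK r))
  have h2 : 1 ≤ pK r := Nat.one_le_pow _ _ (by omega)
  have h3 := pJ_add hr h2
  have h4 : 2 ≤ pR r := le_trans hr (Nat.le_self_pow (by norm_num) r)
  simp only [pow_one] at h3
  omega

/-- The schedule: labels, greedy choice and harvest nodes. -/
theorem main_core : ∃ r0 : ℕ, ∀ r ≥ r0, 2 ≤ r ∧ ∀ {n : ℕ} {tr : Tr n} {O N : Finset (Fin n)}
    {col : ℕ → Fin (pL r) → Fin n} {t : ℕ → ℕ} {T T' : ℕ}, Blk r tr O N col t T T' →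
    (∀ k, 1 ≤ k → k ≤ pK r → LockOK r tr col t k) →
    ∃ (d : ℕ → ℕ → ℕ) (smp : ℕ → ℕ → ℕ → Fin (pN r) → Option (ℕ × ℕ)) (sch : ME r → MLab r),
      (∀ j k, d j k < 2 * pR r ^ k) ∧
      (∀ j < pJ r, ∀ k ≤ pK r, ∀ i jj x, smp j k i jj = some x → x.2 ≤ T) ∧
      ∃ A z, (mkPlan r N col (t 0) (t (pH r)) (fun j => t j) (fun j k => lev r t j k (d j k))
          (fun y jj => (smp y.1 y.2.1 y.2.2 jj).map Prod.snd) sch).Valid (pH r) tr A z ∧
        cA / 16 * Real.log r * (31 / 100 * pJ r * pK r * pL r) -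
          pJ r * pL r * (pK r + 1) * Real.log 2 ≤
        (∑ e, (mkPlan r N col (t 0) (t (pH r)) (fun j => t j) (fun j k => lev r t j k (d j k))
          (fun y jj => (smp y.1 y.2.1 y.2.2 jj).map Prod.snd) sch).gain tr A z e) / 2 +
          ∑ e, Real.log (labW r (sch e)) := by
  obtain ⟨r1, h1⟩ := local_exists
  obtain ⟨r2, h2⟩ := choose_d
  refine ⟨max 2 (max r1 r2), fun r hr => ?_⟩
  have hr2 : 2 ≤ r := le_trans (le_max_left _ _) hr
  refine ⟨hr2, fun {n tr O N col t T T'} hB hL => ?_⟩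
  obtain ⟨d, hd, hbad⟩ := h2 r (by omega) hB hL
  set ok : ℕ → ℕ → Prop := fun j k => j < pJ r ∧ 1 ≤ k ∧ k ≤ pK r ∧
    BudOK r tr N (t j) (t (j + d j k + ph r k)) (lev r t j k (d j k)) with hok
  have hctx : ∀ j k, ok j k →
      Ctx r tr N (col j) (t j) (t (j + d j k + ph r k)) k (lev r t j k (d j k)) :=
    fun j k h => ctx_of_blk hr2 hB h.1 h.2.1 h.2.2.1 (hd j k).1 (hd j k).2 h.2.2.2
  have hex : ∀ j k, ∃ s lab, (ok j k → Loc r tr N (col j) (t j) (t (j + d j k + ph r k)) k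
      (lev r t j k (d j k)) s lab) ∧ (¬ok j k → (∀ l, lab l = none) ∧ ∀ i jj, s i jj = none) := by
    intro j k
    by_cases h : ok j k
    · obtain ⟨s, lab, hs⟩ := h1 r (by omega) (hctx j k h)
      exact ⟨s, lab, fun _ => hs, fun h' => absurd h h'⟩
    · exact ⟨fun _ _ => none, fun _ => none, fun h' => absurd h' h, fun _ => ⟨fun _ => rfl, fun _ _ => rfl⟩⟩
  choose smp lab hloc hno using hex
  have hlab : ∀ j k l x, lab j k l = some x → ok j k := fun j k l x h => by
    by_contra h'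
    rw [(hno j k h').1 l] at h
    cases h
  have hph : ∀ k, 1 ≤ k → ph r k ≤ pR r ^ k := fun k hk => by
    rw [← pS_mul_ph hk]
    exact Nat.le_mul_of_pos_left _ (by unfold pS; positivity)
  have hle : ∀ j < pJ r, ∀ k ≤ pK r, 1 ≤ k → j + d j k + ph r k ≤ pH r := fun j hj k hk k1 => by
    have := pJ_add hr2 hk
    have := hph k k1
    have := (hd j k).2
    omega
  have hgr : ∀ b : Fin (pJ r) × Fin (pL r), _ := fun b =>
    greedy ((Icc 1 (pK r)).filter fun k => lab b.1 k b.2 ≠ none)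
      (fun k => (lab b.1 k b.2).elim 1 fun x => lLen k x.1 x.2) fun k hk => by
        cases lab b.1 k b.2 with
        | none => exact le_rfl
        | some x => exact one_le_lLen (mem_Icc.1 (mem_filter.1 hk).1).1 _ _
  choose S hS hS1 hS2 using hgr
  set sch : ME r → MLab r := fun e => if (e.2 : ℕ) ∈ S e.1 then
    (lab e.1.1 e.2 e.1.2).bind fun x => if h : x.2 < pK r + 1 then some (x.1, ⟨x.2, h⟩) else none
    else none with hsch
  have s1 : ∀ e x, sch e = some x →
      (e.2 : ℕ) ∈ S e.1 ∧ lab e.1.1 e.2 e.1.2 = some (x.1, (x.2 : ℕ)) := fun e x h => by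
    simp only [hsch] at h
    split_ifs at h with h'
    refine ⟨h', ?_⟩
    cases hy : lab e.1.1 e.2 e.1.2 with
    | none => simp [hy] at h
    | some y =>
      simp only [hy, Option.bind_some] at h
      split_ifs at h
      cases h
      rfl
  have s2 : ∀ e : ME r, ((sch e).elim 0 fun x => (lLen e.2 x.1 x.2 : ℝ)) = if (e.2 : ℕ) ∈ S e.1 then
      (((lab e.1.1 e.2 e.1.2).elim 1 fun x => lLen e.2 x.1 x.2 : ℕ) : ℝ) else 0 := fun e => by
    simp only [hsch]
    split_ifs with h'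
    · cases hy : lab e.1.1 e.2 e.1.2 with
      | none => exact absurd hy (mem_filter.1 (hS _ h')).2
      | some y =>
        have := ((hloc _ _ (hlab _ _ _ _ hy)).lev _ y.1 y.2 hy).1
        simp [this]
    · rfl
  clear hsch
  clear_value sch
  have hw : ∀ (y : Fin (pJ r) × Fin (pK r + 1) × Fin (pK r + 1)) (κ : Fin 5), ∃ w0 ≤ t (pH r),
      ∑ l ∈ univ.filter fun l => sch ((y.1, l), y.2.1) = some (κ, y.2.2), lTarget r y.2.1 κ y.2.2 ≤
      ∑ l ∈ univ.filter fun l => sch ((y.1, l), y.2.1) = some (κ, y.2.2),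
        lGain r tr N (t y.1) (lev r t y.1 y.2.1 (d y.1 y.2.1)) (smp y.1 y.2.1 y.2.2) w0 κ y.2.2
          (col y.1 l) := fun y κ => by
    by_cases h : ok y.1 y.2.1
    · obtain ⟨w0, h3, h4⟩ := (hloc _ _ h).gain κ y.2.2
        (univ.filter fun l => sch ((y.1, l), y.2.1) = some (κ, y.2.2))
        fun l hl => (s1 _ _ (mem_filter.1 hl).2).2
      refine ⟨w0, h3.trans (hB.mono _ _ (hle _ h.1 _ h.2.2.1 h.2.1) le_rfl), ?_⟩
      rwa [sum_const, nsmul_eq_mul]
    · have : (univ.filter fun l => sch ((y.1, l), y.2.1) = some (κ, y.2.2)) = ∅ :=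
        filter_eq_empty_iff.2 fun l _ hl => h (hlab _ _ _ _ (s1 _ _ hl).2)
      exact ⟨0, Nat.zero_le _, by simp [this]⟩
  choose w0 hw0 hw1 using hw
  have hJ : ∀ j < pJ r, j ≤ pH r := fun j hj => by have := pJ_add hr2 (Nat.zero_le _); omega
  obtain ⟨hV, hG⟩ := mk_valid (N := N) (col := col) (t0 := t 0) (te := t (pH r))
    (τ := fun j => t j) (Tm := fun j k => lev r t j k (d j k))
    (a := fun j k => if ok j k then t (j + d j k + ph r k) else 0) (smp := fun j k => smp j k)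
    (lab := fun j k => lab j k) (sch := sch) (w0 := w0) (by omega) hB.wf
    (hB.mono _ _ (Nat.zero_le _) le_rfl) (fun j => hB.mono _ _ (Nat.zero_le _) (hJ j j.2))
    (fun j k => by
      split_ifs with h
      · exact hB.mono _ _ (hle _ h.1 _ h.2.2.1 h.2.1) le_rfl
      · exact Nat.zero_le _)
    (fun j k i jj => by
      cases hx : smp j k i jj with
      | none => exact Nat.zero_le _
      | some x =>
        by_cases h : ok j k
        · exact ((hloc _ _ h).le _ _ _ hx).1.trans (hB.mono _ _ (hle _ h.1 _ h.2.2.1 h.2.1) le_rfl)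
        · rw [(hno _ _ h).2] at hx; cases hx) hw0
    (fun e x he => by
      have h := hlab _ _ _ _ (s1 e x he).2
      simp only [if_pos h]
      exact ⟨hctx _ _ h, hloc _ _ h, (s1 e x he).2⟩)
    (fun b b' h => by
      have := hB.inj _ (lt_of_lt_of_le b.1.2 (Nat.div_le_self _ _)) _
        (lt_of_lt_of_le b'.1.2 (Nat.div_le_self _ _)) _ _ h
      exact Prod.ext (Fin.ext this.1) this.2)
    (fun b k k' x x' hk he he' => by
      have h := hlab _ _ _ _ (s1 _ _ he).2
      have h' := hlab _ _ _ _ (s1 _ _ he').2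
      have h3 := hS1 b _ (s1 _ _ he).1 _ (s1 _ _ he').1 hk
      rw [(s1 _ _ he).2] at h3
      exact ((hctx _ _ h').lHi_le _ _).trans (lev_disj hr2 hB.mono h.1 h.2.2.1 h'.2.1 (hd _ _).2
        ((hloc _ _ h).lev _ _ _ (s1 _ _ he).2).2.2 h3))
  refine ⟨d, smp, sch, fun j k => (hd j k).2, fun j hj k hk i jj x hx => ?_, _, _, hV, ?_⟩
  · by_cases h : ok j k
    · exact ((hloc _ _ h).le _ _ _ hx).2.trans ((hB.mono _ _ (hJ j hj) le_rfl).trans hB.top)
    · rw [(hno _ _ h).2] at hx; cases hx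
  simp only [hG]
  have g1 : ∑ e : ME r, ((sch e).elim 0 fun x => lTarget r e.2 x.1 x.2) ≤
      ∑ e : ME r, (sch e).elim 0 fun x => lGain r tr N (t e.1.1) (lev r t e.1.1 e.2 (d e.1.1 e.2))
        (smp e.1.1 e.2 x.2) (w0 (e.1.1, e.2, x.2) x.1) x.1 x.2 (col e.1.1 e.1.2) := by
    simp only [Fintype.sum_prod_type]
    refine sum_le_sum fun j _ => ?_
    rw [sum_comm, sum_comm (s := (univ : Finset (Fin (pL r))))]
    refine sum_le_sum fun k _ => ?_
    rw [sum_elim fun l => sch ((j, l), k), sum_elim fun l => sch ((j, l), k)]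
    exact sum_le_sum fun x _ => hw1 (j, k, x.2) x.1
  have hlog : 0 ≤ Real.log r := Real.log_natCast_nonneg r
  have g2 : ∀ e : ME r, cA / 16 * Real.log r * ((sch e).elim 0 fun x => (lLen e.2 x.1 x.2 : ℝ))
      - Real.log 2 ≤ ((sch e).elim 0 fun x => lTarget r e.2 x.1 x.2) / 2 +
        Real.log (labW r (sch e)) := fun e => by
    cases sch e with
    | none => simp [labW]
    | some x =>
      have := labW_log r x
      have := Real.log_nonneg (by norm_num : (1 : ℝ) ≤ 2)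
      simp only [Option.elim, lTarget]
      linarith
  have g3 : 31 / 100 * (pJ r : ℝ) * pK r * pL r ≤
      ∑ e : ME r, (sch e).elim 0 fun x => (lLen e.2 x.1 x.2 : ℝ) := by
    have a1 : ∀ b : Fin (pJ r) × Fin (pL r),
        ∑ k ∈ Icc 1 (pK r), (if lab b.1 k b.2 = none then (0 : ℝ) else 1) ≤
        ∑ k : Fin (pK r + 1), (sch (b, k)).elim 0 fun x => (lLen k x.1 x.2 : ℝ) := fun b => by
      simp only [s2]
      rw [Fin.sum_univ_eq_sum_range (fun k => if k ∈ S b then
        (((lab b.1 k b.2).elim 1 fun x => lLen k x.1 x.2 : ℕ) : ℝ) else 0), ← sum_filter,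
        filter_mem_eq_inter, inter_eq_right.2 fun k hk => mem_range.2
          (Nat.lt_succ_of_le (mem_Icc.1 (mem_filter.1 (hS b hk)).1).2), ← Nat.cast_sum]
      refine le_trans (le_of_eq ?_) (Nat.cast_le.2 (hS2 b))
      rw [card_filter]
      push_cast
      refine sum_congr rfl fun k _ => ?_
      by_cases hk : lab b.1 k b.2 = none
      · rw [if_pos hk, if_neg (not_not.2 hk)]
      · rw [if_neg hk, if_pos hk]
    have a2 : ∀ j ∈ range (pJ r), ∀ k ∈ Icc 1 (pK r), 32 / 100 * (pL r : ℝ) -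
        (if BudOK r tr N (t j) (t (j + d j k + ph r k)) (lev r t j k (d j k))
          then (nbad tr (col j) (t (j + d j k)) (t (j + d j k + ph r k)) : ℝ) else pL r) ≤
        ∑ l, (if lab j k l = none then (0 : ℝ) else 1) := fun j hj k hk => by
      split_ifs with h
      · have h3 := (hloc j k ⟨mem_range.1 hj, (mem_Icc.1 hk).1, (mem_Icc.1 hk).2, h⟩).few
        rw [card_filter] at h3
        have h4 : ∑ l, (if lab j k l = none then (0 : ℝ) else 1) =
            pL r - ∑ l, (if lab j k l = none then (1 : ℝ) else 0) := by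
          rw [eq_sub_iff_add_eq, ← sum_add_distrib]
          refine (sum_congr rfl fun l _ => (?_ : _ = (1 : ℝ))).trans (by simp)
          split_ifs <;> simp
        push_cast at h3
        have h5 : lev r t j k (d j k) 0 = t (j + d j k) := rfl
        rw [h5] at h3
        linarith
      · have : 0 ≤ ∑ l, (if lab j k l = none then (0 : ℝ) else 1) :=
          sum_nonneg fun l _ => by split_ifs <;> norm_num
        have : (0 : ℝ) ≤ pL r := Nat.cast_nonneg _
        linarith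
    rw [Fintype.sum_prod_type]
    refine le_trans ?_ (sum_le_sum fun b _ => a1 b)
    rw [Fintype.sum_prod_type, Fin.sum_univ_eq_sum_range fun j =>
      ∑ l, ∑ k ∈ Icc 1 (pK r), (if lab j k l = none then (0 : ℝ) else 1)]
    refine le_trans ?_ (sum_le_sum fun j hj => (sum_le_sum (a2 j hj)).trans (sum_comm).le)
    simp only [sum_sub_distrib, sum_const, card_range, Nat.card_Icc, nsmul_eq_mul,
      Nat.add_sub_cancel]
    linarith
  have g4 := sum_le_sum fun e (_ : e ∈ (univ : Finset (ME r))) => g2 e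
  rw [sum_sub_distrib, ← mul_sum, sum_add_distrib, ← sum_div, sum_const, card_univ] at g4
  simp only [Fintype.card_prod, Fintype.card_fin, nsmul_eq_mul] at g4
  push_cast at g4
  have := mul_le_mul_of_nonneg_left g3 (show 0 ≤ cA / 16 * Real.log r by unfold cA; positivity)
  linarith

abbrev MG (r T : ℕ) := (Fin (pH r + 1) → Fin (T + 1)) × (Fin (pJ r) × Fin (pK r + 1) → Fin (pH r)) ×
  (Fin (pJ r) × Fin (pK r + 1) × Fin (pK r + 1) → Fin (pN r) → Option (Fin (T + 1)))

def tf {r T : ℕ} (g : MG r T) (i : ℕ) : ℕ := if h : i < pH r + 1 then g.1 ⟨i, h⟩ else 0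

lemma log_MG {r T : ℕ} (hr : 2 ≤ r) (hT : Real.log (T + 2) ≤ 3 * pH r) :
    Real.log (Fintype.card (MG r T)) ≤ pL r := by
  have h6 : (6 : ℝ) ≤ pH r := by exact_mod_cast six_le_pH hr
  have hK : ((pK r : ℝ) + 1) ^ 2 ≤ pH r := by exact_mod_cast K_sq_le hr
  have hJ : (pJ r : ℝ) ≤ pH r := by exact_mod_cast Nat.div_le_self _ _
  have h1 : Real.log (T + 1) ≤ 3 * pH r :=
    le_trans (Real.log_le_log (by positivity) (by linarith)) hT
  have h2 : Real.log (pH r) ≤ pH r := (Real.log_le_sub_one_of_pos (by linarith)).trans (by linarith)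
  simp only [Fintype.card_prod, Fintype.card_fun, Fintype.card_fin, Fintype.card_option]
  simp only [pL, pN]
  push_cast
  rw [Real.log_mul (by positivity) (by positivity), Real.log_mul (by positivity) (by positivity),
    Real.log_pow, Real.log_pow, Real.log_pow, Real.log_pow, add_assoc (T : ℝ), one_add_one_eq_two]
  push_cast
  generalize (pH r : ℝ) = H at *
  have k0 : (0 : ℝ) ≤ pK r := Nat.cast_nonneg _
  have j0 : (0 : ℝ) ≤ pJ r := Nat.cast_nonneg _
  have k1 : (pK r : ℝ) + 1 ≤ H := by nlinarith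
  have l0 : 0 ≤ Real.log (T + 2) := Real.log_nonneg (by linarith [Nat.cast_nonneg (α := ℝ) T])
  have l1 : 0 ≤ Real.log H := Real.log_nonneg (by linarith)
  have a1 : (H + 1) * Real.log (T + 1) ≤ (H * H) * (H * H) := by
    calc _ ≤ (H + 1) * (3 * H) := by gcongr
      _ ≤ _ := by gcongr <;> nlinarith
  have a2 : pJ r * (pK r + 1) * Real.log H ≤ H * H * (H * H) := by
    calc _ ≤ H * H * H := by gcongr
      _ ≤ _ := by gcongr; nlinarith
  have a3 : pJ r * ((pK r + 1) * (pK r + 1)) * (H ^ 2 * Real.log (T + 2)) ≤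
      H * H * (H ^ 2 * (H * H)) := by
    gcongr
    · nlinarith
    · nlinarith
  have a4 : H * H * (H * H) ≤ H ^ 6 := by
    calc _ = H ^ 4 := by ring
      _ ≤ _ := pow_le_pow_right₀ (by linarith) (by norm_num)
  have a5 : 3 * H ^ 6 ≤ H ^ 80 := by
    calc _ ≤ H * H ^ 6 := by gcongr; linarith
      _ = H ^ 7 := by ring
      _ ≤ _ := pow_le_pow_right₀ (by linarith) (by norm_num)
  have a6 : H * H * (H ^ 2 * (H * H)) = H ^ 6 := by ring
  linarith

theorem main_family (A0 : ℝ) (hA : 0 < A0) : ∃ c0 : ℝ, 0 < c0 ∧ c0 ≤ 1 ∧ ∃ r0 : ℕ, ∀ r ≥ r0,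
    ∀ (n T : ℕ) (N : Finset (Fin n)) (col : ℕ → Fin (pL r) → Fin n),
    ∃ (I E K : Type) (_ : Fintype I) (_ : Fintype E) (_ : Fintype K)
      (P : I → Plan n E K) (wt : I → ℝ),
      0 < Fintype.card K ∧ Fintype.card K ≤ pH r ^ 5 ∧ (∀ i, 0 < wt i) ∧ ∑ i, wt i ≤ 1 ∧
      ∀ (tr : Tr n) (O : Finset (Fin n)) (t : ℕ → ℕ) (T' : ℕ), Blk r tr O N col t T T' →
        (T' : ℝ) ≤ c0 * pK r * pH r * pL r * Real.log r →
        (∀ k, 1 ≤ k → k ≤ pK r → LockOK r tr col t k) →
        ∃ i, (P i).Win A0 (pH r) T tr (3 - Real.log (wt i)) := by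
  obtain ⟨r1, h1⟩ := main_core
  have hc : 0 < cA := by unfold cA; norm_num
  refine ⟨min 1 (cA / (500 * A0)), lt_min one_pos (by positivity), min_le_left _ _,
    max r1 ⌈Real.exp (1000 / cA)⌉₊, fun r hr n T N col => ?_⟩
  obtain ⟨hr2, h2⟩ := h1 r (le_trans (le_max_left _ _) hr)
  have h6 := six_le_pH hr2
  have hJ : 3 ≤ pJ r := by unfold pJ; omega
  have : Nonempty (Fin (pH r)) := ⟨⟨0, by omega⟩⟩
  have hG : (0 : ℝ) < Fintype.card (MG r T) := by exact_mod_cast Fintype.card_pos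
  refine ⟨MG r T × (ME r → MLab r), ME r, MK r, inferInstance, inferInstance, inferInstance,
    fun i => mkPlan r N col (tf i.1 0) (tf i.1 (pH r)) (fun j => tf i.1 j)
      (fun j k => lev r (tf i.1) j k (i.1.2.1 (j, k)))
      (fun y jj => (i.1.2.2 y jj).map Fin.val) i.2,
    fun i => 1 / Fintype.card (MG r T) * ∏ e, labW r (i.2 e), ?_, ?_, fun i => ?_, ?_, ?_⟩
  · simp only [Fintype.card_prod, Fintype.card_sum, Fintype.card_fin]
    positivity
  · simp only [Fintype.card_prod, Fintype.card_sum, Fintype.card_fin, Fintype.card_bool]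
    rw [pN]
    have a1 := K_sq_le hr2
    have a2 : pJ r ≤ pH r := Nat.div_le_self _ _
    have a3 : pH r ^ 2 * 2 + 5 ≤ pH r ^ 3 := by
      have : 6 * pH r ^ 2 ≤ pH r ^ 3 := by rw [pow_succ' _ 2]; exact Nat.mul_le_mul_right _ h6
      have : 2 ≤ pH r ^ 2 := le_trans (by omega) (Nat.le_self_pow (by norm_num) _)
      omega
    calc _ ≤ pH r * pH r * pH r ^ 3 := by
          rw [← sq (pK r + 1)]
          exact Nat.mul_le_mul (Nat.mul_le_mul a2 a1) a3
      _ = _ := by ring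
  · exact mul_pos (by positivity) (prod_pos fun e _ => labW_pos r _)
  · rw [Fintype.sum_prod_type]
    simp only [← mul_sum]
    rw [sum_const, card_univ, nsmul_eq_mul, ← mul_assoc, one_div_mul_cancel hG.ne', one_mul,
      ← Fintype.piFinset_univ, ← prod_univ_sum fun (_ : ME r) => (univ : Finset (MLab r))]
    exact prod_le_one (fun e _ => sum_nonneg fun x _ => (labW_pos r x).le) fun e _ => labW_sum r
  intro tr O t T' hB hT hL
  obtain ⟨d, smp, sch, hd, hs, A, z, hV, hW⟩ := h2 hB hL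
  have hdH : ∀ (j : ℕ) (k : Fin (pK r + 1)), d j k < pH r := fun j k => by
    have := pJ_add hr2 (Nat.le_of_lt_succ k.2)
    have := hd j k
    omega
  set g : MG r T := (fun i => ⟨t i, Nat.lt_succ_of_le
      ((hB.mono _ _ (Nat.le_of_lt_succ i.2) le_rfl).trans hB.top)⟩,
    fun y => ⟨d y.1 y.2, hdH _ _⟩,
    fun y jj => (smp y.1 y.2.1 y.2.2 jj).bind fun x =>
      if h : x.2 < T + 1 then some ⟨x.2, h⟩ else none) with hg
  have e1 : ∀ i ≤ pH r, tf g i = t i := fun i hi => by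
    unfold tf
    rw [dif_pos (Nat.lt_succ_of_le hi)]
  have e2 : (fun j : Fin (pJ r) => tf g j) = fun j : Fin (pJ r) => t j :=
    funext fun j => e1 _ (j.2.le.trans (Nat.div_le_self _ _))
  have e3 : (fun (j : Fin (pJ r)) (k : Fin (pK r + 1)) => lev r (tf g) j k (g.2.1 (j, k))) =
      fun (j : Fin (pJ r)) (k : Fin (pK r + 1)) => lev r t j k (d j k) :=
    funext fun j => funext fun k => lev_congr hr2 e1 j.2 (Nat.le_of_lt_succ k.2) (hd j k)
  have e4 : (fun y jj => (g.2.2 y jj).map Fin.val) =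
      fun (y : Fin (pJ r) × Fin (pK r + 1) × Fin (pK r + 1)) jj =>
        (smp y.1 y.2.1 y.2.2 jj).map Prod.snd := by
    funext y jj
    cases hx : smp y.1 y.2.1 y.2.2 jj with
    | none => simp [hg, hx]
    | some x => simp [hg, hx, hs _ y.1.2 _ (Nat.le_of_lt_succ y.2.1.2) _ _ _ hx]
  refine ⟨(g, sch), ?_⟩
  simp only [e1 0 (Nat.zero_le _), e1 _ le_rfl, e2, e3, e4]
  refine ⟨hB.top, A, z, hV, ?_⟩
  rw [Real.log_mul (by positivity) (prod_pos fun e _ => labW_pos r _).ne',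
    Real.log_prod fun e _ => (labW_pos r _).ne', one_div, Real.log_inv]
  have l1 := log_MG hr2 hB.logT
  have l2 : 1000 / cA ≤ Real.log r := by
    rw [Real.le_log_iff_exp_le (by positivity)]
    exact (Nat.le_ceil _).trans (by exact_mod_cast le_trans (le_max_right _ _) hr)
  have l3 : (1000 : ℝ) ≤ cA * Real.log r := by rwa [div_le_iff₀' hc] at l2
  have l4 : ((t (pH r) : ℝ) - t 0) ≤ T' := by
    have : (t (pH r) : ℝ) ≤ t 0 + T' := by exact_mod_cast hB.fast
    linarith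
  have l5 : (pH r : ℝ) ≤ 3 * pJ r := by
    have : pH r ≤ 3 * pJ r := by unfold pJ; omega
    exact_mod_cast this
  have l6 : (pL r : ℝ) = (pH r : ℝ) ^ 80 := by simp [pL]
  have l7 : (1 : ℝ) ≤ pK r := by exact_mod_cast Nat.one_le_pow _ _ (by omega)
  have l8 : (3 : ℝ) ≤ pL r := by
    exact_mod_cast le_trans (by omega : 3 ≤ pH r) (Nat.le_self_pow (by norm_num) _)
  have l9 : (3 : ℝ) ≤ pJ r := by exact_mod_cast hJ
  have m0 : 0 ≤ Real.log r := Real.log_natCast_nonneg r
  have m1 : A0 * T' ≤ cA * Real.log r * (6 / 1000 * (pJ r * pK r * pL r)) := by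
    calc A0 * T' ≤ A0 * (cA / (500 * A0) * pK r * (3 * pJ r) * pL r * Real.log r) := by
          refine mul_le_mul_of_nonneg_left (hT.trans ?_) hA.le
          gcongr
          exact min_le_right _ _
      _ = _ := by field_simp; ring
  have m2 := Real.log_two_lt_d9
  have m3 : (3 : ℝ) * pL r ≤ pJ r * pK r * pL r := by gcongr; nlinarith
  have m4 : (pJ r : ℝ) * pL r * (pK r + 1) * Real.log 2 ≤ 2 * (pJ r * pK r * pL r) := by
    calc _ ≤ (pJ r : ℝ) * pL r * (2 * pK r) * 1 := by gcongr <;> linarith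
      _ = _ := by ring
  have m5 : 1000 * ((pJ r : ℝ) * pK r * pL r) ≤ cA * Real.log r * (pJ r * pK r * pL r) := by gcongr
  have m6 := mul_le_mul_of_nonneg_left l4 hA.le
  change _ + A0 * ((t (pH r) : ℝ) - t 0) + _ ≤ _
  rw [← l6]
  linarith

end Pool.Agent.P.MP_5c258a_lc.Bin
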