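import Pool.Agent.P.MP_5c258a_lc.Bin.Hyp

/-! Task TYP: typicality of a window by symmetrisation (paper section 1). -/

namespace Pool.Agent.P.MP_5c258a_lc.Bin

open Finset Classical

variable {n : ℕ}

/-- All queries before number `F` have fitness below `m`, and query `F` exists. -/
def TyLow (m F : ℕ) (xs : List (Fin n → Bool)) : Prop :=
  F < xs.length ∧ ∀ s < F, f0 (xs.getD s fun _ => false) < m

/-- A function of the queries `f, f'`, cut off outside `TyLow`. -/
noncomputable def tyE (m F f f' : ℕ) (g : (Fin n → Bool) → (Fin n → Bool) → ℝ)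
    (xs : List (Fin n → Bool)) : ℝ :=
  if TyLow m F xs then g (xs.getD f fun _ => false) (xs.getD f' fun _ => false) else 0

lemma ty_getD_append (ls zs : List (Fin n → Bool)) {s : ℕ} (h : s < ls.length) :
    (ls ++ zs).getD s (fun _ => false) = ls.getD s fun _ => false :=
  List.getD_append _ _ _ _ h

lemma ty_getD_map (τ : (Fin n → Bool) → Fin n → Bool) (ls : List (Fin n → Bool)) {s : ℕ}
    (h : s < ls.length) :
    (ls.map τ).getD s (fun _ => false) = τ (ls.getD s fun _ => false) := by
  rw [List.getD_eq_getElem _ _ (by simpa using h), List.getD_eq_getElem _ _ h]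
  simp

lemma tyE_sym (A : BAlg n) (t m F f f' : ℕ) (hf : f ≤ F) (hf' : f' ≤ F)
    (π : Equiv.Perm (Fin n)) (w : Fin n → Bool) (hτ : Function.Involutive (sp π w))
    (hfix : ∀ x (j : Fin n), j.val < m → sp π w x j = x j)
    (g : (Fin n → Bool) → (Fin n → Bool) → ℝ) :
    Ex (bstep A f0) t [] (tyE m F f f' fun x y => g (sp π w x) (sp π w y)) =
      Ex (bstep A f0) t [] (tyE m F f f' g) := by
  have hlt : ∀ x, f0 (sp π w x) < m ↔ f0 x < m := fun x => by
    have := le_f0_congr (i := m) (x := x) (x' := sp π w x) (hfix x)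
    omega
  have key := Ex_couple (bstep_sum A f0) f0 (sp π w) hτ
    (fun xs y h => bstep_sp A f0 f0 π w xs y h) (tyE m F f f' g) (fun ls hl zs => by
      obtain ⟨l, hl, hne⟩ := hl
      have hm : ¬f0 l < m := fun h => hne (f0_congr (hfix l) h)
      obtain ⟨i, hi, rfl⟩ := List.getElem_of_mem hl
      by_cases hF : F < ls.length
      · have e : TyLow m F (ls ++ zs) ↔ TyLow m F ls := by
          unfold TyLow
          refine and_congr (by simp only [List.length_append]; omega) ?_
          refine forall_congr' fun s => forall_congr' fun hs => ?_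
          rw [ty_getD_append ls zs (hs.trans hF)]
        unfold tyE
        rw [ty_getD_append ls zs (hf.trans_lt hF), ty_getD_append ls zs (hf'.trans_lt hF)]
        simp only [e]
      · have e1 : ¬TyLow m F ls := fun h => hF h.1
        have e2 : ¬TyLow m F (ls ++ zs) := fun h => by
          have := h.2 i (by omega)
          rw [ty_getD_append ls zs hi, List.getD_eq_getElem _ _ hi] at this
          exact hm this
        unfold tyE
        rw [if_neg e1, if_neg e2]) t []
  rw [List.map_nil] at key
  rw [← key]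
  congr 1
  funext zs
  have e : TyLow m F (zs.map (sp π w)) ↔ TyLow m F zs := by
    unfold TyLow
    rw [List.length_map]
    refine and_congr_right fun hF => ?_
    refine forall_congr' fun s => forall_congr' fun hs => ?_
    rw [ty_getD_map _ zs (hs.trans hF), hlt]
  unfold tyE
  by_cases h : TyLow m F zs
  · rw [if_pos h, if_pos (e.2 h), ty_getD_map _ zs (hf.trans_lt h.1),
      ty_getD_map _ zs (hf'.trans_lt h.1)]
  · rw [if_neg h, if_neg fun h' => h (e.1 h')]

lemma tyE_mgf (A : BAlg n) (t m F f f' L : ℕ) (hf : f ≤ F) (hf' : f' ≤ F)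
    (π : Fin L → Equiv.Perm (Fin n)) (w : Fin L → Fin n → Bool)
    (hτ : ∀ l, Function.Involutive (sp (π l) (w l)))
    (hfix : ∀ l x (j : Fin n), j.val < m → sp (π l) (w l) x j = x j)
    (a : Fin L → (Fin n → Bool) → (Fin n → Bool) → ℝ)
    (ha1 : ∀ l x y, a l (sp (π l) (w l) x) (sp (π l) (w l) y) = -a l x y)
    (ha2 : ∀ l l' x y, l' ≠ l → a l' (sp (π l) (w l) x) (sp (π l) (w l) y) = a l' x y)
    (S : Finset (Fin L)) :
    Ex (bstep A f0) t [] (tyE m F f f' fun x y => ∏ l, Real.exp (a l x y)) =
      Ex (bstep A f0) t [] (tyE m F f f' fun x y =>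
        ∏ l, if l ∈ S then Real.cosh (a l x y) else Real.exp (a l x y)) := by
  induction S using Finset.induction_on with
  | empty => simp
  | insert l S hl ih =>
    rw [ih]
    have h := tyE_sym A t m F f f' hf hf' (π l) (w l) (hτ l) (hfix l) fun x y =>
        ∏ l', if l' ∈ S then Real.cosh (a l' x y) else Real.exp (a l' x y)
    have e : (tyE m F f f' fun x y =>
        ∏ l', if l' ∈ insert l S then Real.cosh (a l' x y) else Real.exp (a l' x y)) =
        (1 / 2 : ℝ) • ((tyE m F f f' fun x y =>
          ∏ l', if l' ∈ S then Real.cosh (a l' x y) else Real.exp (a l' x y)) +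
          tyE m F f f' fun x y => ∏ l', if l' ∈ S then
            Real.cosh (a l' (sp (π l) (w l) x) (sp (π l) (w l) y))
            else Real.exp (a l' (sp (π l) (w l) x) (sp (π l) (w l) y))) := by
      funext xs
      simp only [tyE, Pi.smul_apply, Pi.add_apply, smul_eq_mul]
      split_ifs
      · generalize xs.getD f (fun _ => false) = x
        generalize xs.getD f' (fun _ => false) = y
        rw [← mul_prod_erase univ _ (mem_univ l), ← mul_prod_erase univ _ (mem_univ l),
          ← mul_prod_erase univ _ (mem_univ l)]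
        have p1 : ∏ l' ∈ univ.erase l, (if l' ∈ insert l S then Real.cosh (a l' x y)
            else Real.exp (a l' x y)) = ∏ l' ∈ univ.erase l,
            (if l' ∈ S then Real.cosh (a l' x y) else Real.exp (a l' x y)) :=
          prod_congr rfl fun l' h' => by simp only [mem_insert, (mem_erase.1 h').1, false_or]
        have p2 : ∏ l' ∈ univ.erase l, (if l' ∈ S then
            Real.cosh (a l' (sp (π l) (w l) x) (sp (π l) (w l) y))
            else Real.exp (a l' (sp (π l) (w l) x) (sp (π l) (w l) y))) = ∏ l' ∈ univ.erase l,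
            (if l' ∈ S then Real.cosh (a l' x y) else Real.exp (a l' x y)) :=
          prod_congr rfl fun l' h' => by rw [ha2 l l' x y (mem_erase.1 h').1]
        rw [p1, p2, if_pos (mem_insert_self l S), if_neg hl, if_neg hl, ha1, Real.cosh_eq]
        ring
      · simp
    rw [e, map_smul, map_add, h, smul_eq_mul]
    ring

lemma ty_tail (A : BAlg n) (t m F f f' L : ℕ) (hf : f ≤ F) (hf' : f' ≤ F)
    (π : Fin L → Equiv.Perm (Fin n)) (w : Fin L → Fin n → Bool)
    (hτ : ∀ l, Function.Involutive (sp (π l) (w l)))
    (hfix : ∀ l x (j : Fin n), j.val < m → sp (π l) (w l) x j = x j)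
    (a : Fin L → (Fin n → Bool) → (Fin n → Bool) → ℝ) (ha0 : ∀ l x y, |a l x y| ≤ 1)
    (ha1 : ∀ l x y, a l (sp (π l) (w l) x) (sp (π l) (w l) y) = -a l x y)
    (ha2 : ∀ l l' x y, l' ≠ l → a l' (sp (π l) (w l) x) (sp (π l) (w l) y) = a l' x y)
    (ε : ℝ) (hε : 0 ≤ ε) :
    Pr A t (fun xs => TyLow m F xs ∧
      ε * L ≤ ∑ l, a l (xs.getD f fun _ => false) (xs.getD f' fun _ => false)) ≤
      Real.exp (-(ε ^ 2 * L / 2)) := by
  have h := tyE_mgf A t m F f f' L hf hf' π w hτ hfix (fun l x y => ε * a l x y)
    (fun l x y => by rw [ha1]; ring) (fun l l' x y h => by rw [ha2 l l' x y h]) univ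
  have h1 : Ex (bstep A f0) t [] (tyE m F f f' fun x y =>
      ∏ l, if l ∈ univ then Real.cosh (ε * a l x y) else Real.exp (ε * a l x y)) ≤
      Real.exp (ε ^ 2 * L / 2) := by
    rw [← Ex_const (bstep_sum A f0) t [] (Real.exp (ε ^ 2 * L / 2))]
    refine Ex_mono (bstep_nonneg A f0) t [] _ _ fun zs => ?_
    unfold tyE
    split_ifs
    · generalize zs.getD f (fun _ => false) = x
      generalize zs.getD f' (fun _ => false) = y
      beta_reduce
      calc ∏ l, Real.cosh (ε * a l x y) ≤ ∏ _l : Fin L, Real.exp (ε ^ 2 / 2) := by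
            refine prod_le_prod (fun l _ => (Real.cosh_pos _).le) fun l _ => ?_
            refine (Real.cosh_le_exp_half_sq _).trans (Real.exp_le_exp.2 ?_)
            have h2 : a l x y ^ 2 ≤ 1 := by
              have := abs_le.1 (ha0 l x y)
              nlinarith
            have h3 : 0 ≤ ε ^ 2 := sq_nonneg ε
            nlinarith
        _ = _ := by
            rw [prod_const, card_univ, Fintype.card_fin, ← Real.exp_nat_mul]
            congr 1
            ring
    · exact (Real.exp_pos _).le
  rw [← h] at h1
  unfold Pr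
  calc _ ≤ Ex (bstep A f0) t [] (Real.exp (-(ε ^ 2 * L)) •
        tyE m F f f' fun x y => ∏ l, Real.exp (ε * a l x y)) := by
        refine Ex_mono (bstep_nonneg A f0) t [] _ _ fun zs => ?_
        simp only [Pi.smul_apply, smul_eq_mul, tyE]
        by_cases h2 : TyLow m F zs
        · rw [if_pos h2]
          split_ifs with h3
          · rw [← Real.exp_sum, ← Real.exp_add, ← mul_sum]
            refine Real.one_le_exp ?_
            have := mul_le_mul_of_nonneg_left h3.2 hε
            nlinarith
          · exact mul_nonneg (Real.exp_pos _).le (prod_nonneg fun l _ => (Real.exp_pos _).le)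
        · rw [if_neg h2, if_neg fun h3 => h2 h3.1, mul_zero]
    _ ≤ Real.exp (-(ε ^ 2 * L)) * Real.exp (ε ^ 2 * L / 2) := by
        rw [map_smul, smul_eq_mul]
        exact mul_le_mul_of_nonneg_left h1 (Real.exp_pos _).le
    _ = _ := by rw [← Real.exp_add]; congr 1; ring

/-- the sign of a bit -/
def tySg (b : Bool) : ℝ := if b = true then 1 else -1

/-- the indicator that two bits differ -/
def tyD (b b' : Bool) : ℝ := if b = b' then 0 else 1

/-- the summands of the statistics -/
def tyA {L ng : ℕ} (W : Fin L → Fin n) (Gp : Fin ng → Fin L → Fin n) (o : Option (Fin ng))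
    (s : Bool) (l : Fin L) (x y : Fin n → Bool) : ℝ :=
  tySg s * o.elim (tySg (x (W l))) fun g =>
    tyD (x (W l)) (y (W l)) - tyD (x (Gp g l)) (y (Gp g l))

lemma ty_tail' (A : BAlg n) (t m f f' L ng : ℕ)
    (W : Fin L → Fin n) (Gp : Fin ng → Fin L → Fin n) (hW : Function.Injective W)
    (hG : Function.Injective fun x : Fin ng × Fin L => Gp x.1 x.2)
    (hWG : ∀ l g l', W l ≠ Gp g l') (hm : ∀ l, m ≤ (W l).val) (hm' : ∀ g l, m ≤ (Gp g l).val)
    (ε : ℝ) (hε : 0 ≤ ε) (o : Option (Fin ng)) (s : Bool) :
    Pr A t (fun xs => TyLow m (max f f') xs ∧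
      ε * L ≤ ∑ l, tyA W Gp o s l (xs.getD f fun _ => false) (xs.getD f' fun _ => false)) ≤
      Real.exp (-(ε ^ 2 * L / 2)) := by
  cases o with
  | none =>
    refine ty_tail A t m _ f f' L (le_max_left _ _) (le_max_right _ _) (fun _ => 1)
      (fun l j => decide (j = W l)) (fun l x => ?_) (fun l x j hj => ?_) _ (fun l x y => ?_)
      (fun l x y => ?_) (fun l l' x y h => ?_) ε hε
    · funext j
      by_cases h : j = W l <;> simp [sp, h]
    · have : j ≠ W l := fun h => by have := hm l; rw [← h] at this; omega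
      simp [sp, this]
    · simp only [tyA, Option.elim, tySg]
      split_ifs <;> simp
    · simp only [tyA, Option.elim, tySg, sp]
      cases s <;> cases h : x (W l) <;> simp [h]
    · have : W l' ≠ W l := fun e => h (hW e)
      simp [tyA, sp, this]
  | some g =>
    refine ty_tail A t m _ f f' L (le_max_left _ _) (le_max_right _ _)
      (fun l => Equiv.swap (W l) (Gp g l)) (fun _ _ => false) (fun l x => ?_)
      (fun l x j hj => ?_) _ (fun l x y => ?_) (fun l x y => ?_) (fun l l' x y h => ?_) ε hε
    · funext j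
      simp [sp]
    · have h1 : j ≠ W l := fun h => by have := hm l; rw [← h] at this; omega
      have h2 : j ≠ Gp g l := fun h => by have := hm' g l; rw [← h] at this; omega
      simp [sp, Equiv.swap_apply_of_ne_of_ne h1 h2]
    · simp only [tyA, Option.elim, tySg, tyD]
      split_ifs <;> simp
    · simp only [tyA, Option.elim, sp, Equiv.swap_apply_left, Equiv.swap_apply_right,
        Bool.xor_false]
      ring
    · have h1 : W l' ≠ W l := fun e => h (hW e)
      have h2 : W l' ≠ Gp g l := hWG _ _ _
      have h3 : Gp g l' ≠ W l := (hWG _ _ _).symm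
      have h4 : Gp g l' ≠ Gp g l := fun e =>
        h (congrArg Prod.snd (hG (a₁ := (g, l')) (a₂ := (g, l)) e))
      simp only [tyA, Option.elim, sp, Equiv.swap_apply_of_ne_of_ne h1 h2,
        Equiv.swap_apply_of_ne_of_ne h3 h4, Bool.xor_false]

/-- `W` is the window, `Gp g` are the groups that make up `N`; all these columns are different
and at least `m`. Flips of `W l` and swaps `W l ↔ Gp g l` are maps `sp π w` that do not change
fitness values below `m` (`f0_congr`, `bstep_sp`, `Ex_couple`); Hoeffding for fair signs;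
`nc_cases` transfers the two-sided bounds to the normalised strings. -/
theorem typ_prob (A : BAlg n) (O : Finset (Fin n)) (T m L ng : ℕ) (hL : 0 < L) (hg : 0 < ng)
    (W : Fin L → Fin n) (Gp : Fin ng → Fin L → Fin n) (hW : Function.Injective W)
    (hG : Function.Injective fun x : Fin ng × Fin L => Gp x.1 x.2)
    (hWG : ∀ l g l', W l ≠ Gp g l') (hm : ∀ l, m ≤ (W l).val) (hm' : ∀ g l, m ≤ (Gp g l).val)
    (ε : ℝ) (hε : 0 ≤ ε) :
    Pr A (T + 1) (fun xs => ∃ τ ≤ T, (∀ s < τ, f0 (xs.getD s fun _ => false) < m) ∧
      ¬(nrm A O xs).Typ W (univ.image fun x : Fin ng × Fin L => Gp x.1 x.2) ε τ) ≤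
      4 * (T + 1) ^ 2 * (ng + 1) * Real.exp (-(ε ^ 2 * L / 2)) := by
  have hL' : (0 : ℝ) < L := by exact_mod_cast hL
  have hg' : (0 : ℝ) < ng := by exact_mod_cast hg
  refine le_trans (Pr_mono A (T + 1) (q := fun xs =>
    ∃ i ∈ (univ : Finset (Fin (T + 1) × Fin (T + 1) × Option (Fin ng) × Bool)),
      TyLow m (max i.1.val i.2.1.val) xs ∧ ε * L ≤ ∑ l, tyA W Gp i.2.2.1 i.2.2.2 l
        (xs.getD i.1.val fun _ => false) (xs.getD i.2.1.val fun _ => false))
    fun xs hlen h => ?_) ?_
  · obtain ⟨τ, hτ, hlow, hT⟩ := h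
    have low : ∀ f ≤ τ, ∀ f' ≤ τ, TyLow m (max f f') xs := fun f hf f' hf' =>
      ⟨by omega, fun s hs => hlow s (by omega)⟩
    by_contra hc
    have hc' : ∀ f ≤ τ, ∀ f' ≤ τ, ∀ o s, ∑ l, tyA W Gp o s l
        (xs.getD f fun _ => false) (xs.getD f' fun _ => false) < ε * L := fun f hf f' hf' o s => by
      by_contra h
      exact hc ⟨(⟨f, by omega⟩, ⟨f', by omega⟩, o, s), mem_univ _, low f hf f' hf', not_lt.1 h⟩
    refine hT ⟨fun f hf => ?_, fun f hf f' hf' => ?_⟩
    · obtain ⟨s, hs⟩ : ∃ s, ∀ l, (nrm A O xs).bt f (W l) = (1 + tyA W Gp none s l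
          (xs.getD f fun _ => false) (xs.getD f fun _ => false)) / 2 := by
        rcases nc_cases A O xs f with e | e
        · refine ⟨true, fun l => ?_⟩
          simp only [Tr.bt, nrm, e, tyA, tySg, Option.elim]
          split_ifs <;> norm_num
        · refine ⟨false, fun l => ?_⟩
          simp only [Tr.bt, nrm, e, tyA, tySg, Option.elim, cpl]
          cases xs.getD f (fun _ => false) (W l) <;> norm_num
      have h1 := hc' f hf f hf none s
      simp only [hs]
      rw [← sum_div, sum_add_distrib, sum_const, card_univ, Fintype.card_fin]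
      have : 0 ≤ ε * L := by positivity
      simp only [nsmul_eq_mul, mul_one]
      linarith
    · obtain ⟨s, hs⟩ : ∃ s, ∀ g l, (nrm A O xs).df f f' (W l) - (nrm A O xs).df f f' (Gp g l) =
          tyA W Gp (some g) s l (xs.getD f fun _ => false) (xs.getD f' fun _ => false) := by
        rcases nc_cases A O xs f with e | e <;> rcases nc_cases A O xs f' with e' | e'
        · refine ⟨true, fun g l => ?_⟩
          simp only [Tr.df, nrm, e, e', tyA, tySg, tyD, Option.elim]
          norm_num
        · refine ⟨false, fun g l => ?_⟩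
          simp only [Tr.df, nrm, e, e', tyA, tySg, tyD, Option.elim, cpl]
          cases xs.getD f (fun _ => false) (W l) <;> cases xs.getD f' (fun _ => false) (W l) <;>
            cases xs.getD f (fun _ => false) (Gp g l) <;>
            cases xs.getD f' (fun _ => false) (Gp g l) <;> norm_num
        · refine ⟨false, fun g l => ?_⟩
          simp only [Tr.df, nrm, e, e', tyA, tySg, tyD, Option.elim, cpl]
          cases xs.getD f (fun _ => false) (W l) <;> cases xs.getD f' (fun _ => false) (W l) <;>
            cases xs.getD f (fun _ => false) (Gp g l) <;>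
            cases xs.getD f' (fun _ => false) (Gp g l) <;> norm_num
        · refine ⟨true, fun g l => ?_⟩
          simp only [Tr.df, nrm, e, e', tyA, tySg, tyD, Option.elim, cpl]
          cases xs.getD f (fun _ => false) (W l) <;> cases xs.getD f' (fun _ => false) (W l) <;>
            cases xs.getD f (fun _ => false) (Gp g l) <;>
            cases xs.getD f' (fun _ => false) (Gp g l) <;> norm_num
      have h1 : ∀ g, ∑ l, (nrm A O xs).df f f' (W l) ≤
          ∑ l, (nrm A O xs).df f f' (Gp g l) + ε * L := fun g => by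
        have := hc' f hf f' hf' (some g) s
        simp only [← hs, sum_sub_distrib] at this
        linarith
      have h2 := sum_le_sum fun g (_ : g ∈ (univ : Finset (Fin ng))) => h1 g
      rw [sum_add_distrib, sum_const, sum_const, card_univ, Fintype.card_fin] at h2
      simp only [nsmul_eq_mul] at h2
      rw [sum_image fun x _ y _ h => hG h, card_image_of_injective _ hG, card_univ,
        Fintype.card_prod, Fintype.card_fin, Fintype.card_fin, Fintype.sum_prod_type]
      push_cast
      refine le_of_mul_le_mul_left (h2.trans (le_of_eq ?_)) hg'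
      field_simp
  · refine (Pr_exists A (T + 1) univ _).trans ?_
    refine (sum_le_sum fun i _ => ty_tail' A (T + 1) m i.1.val i.2.1.val L ng W Gp hW hG hWG hm
      hm' ε hε i.2.2.1 i.2.2.2).trans ?_
    rw [sum_const, card_univ, nsmul_eq_mul]
    refine mul_le_mul_of_nonneg_right ?_ (Real.exp_pos _).le
    simp only [Fintype.card_prod, Fintype.card_fin, Fintype.card_option, Fintype.card_bool]
    push_cast
    have : (0 : ℝ) ≤ (T + 1) ^ 2 * (ng + 1) := by positivity
    nlinarith

end Pool.Agent.P.MP_5c258a_lc.Bin
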