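import Pool.Agent.P.MP_5c258a_lc.Bin.Run
import Pool.Agent.P.MP_5c258a_lc.Bin.TypP
import Pool.Agent.P.MP_5c258a_lc.Bin.Lock
import Pool.Agent.P.MP_5c258a_lc.Bin.Main

/-! From histories to blocks (paper section 5). -/

namespace Pool.Agent.P.MP_5c258a_lc.Bin

open Finset Classical

variable {n : ℕ}

lemma bmiss_eq (A : BAlg n) (z : Fin n → Bool) (σ : Equiv.Perm (Fin n)) :
    ∀ (t : ℕ) (xs : List (Fin n → Bool)),
      bmiss A (LO z σ) t xs = bmiss A f0 t (xs.map (sp σ fun j => !z (σ j)))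
  | 0, _ => rfl
  | t + 1, xs => by
    have hb := sp_bijective σ (fun j => !z (σ j))
    simp only [bmiss]
    refine Eq.trans ?_ (hb.sum_comp _)
    refine sum_congr rfl fun y _ => ?_
    rw [bstep_sp A (LO z σ) f0 σ _ xs y fun l _ => LO_eq z σ l, bmiss_eq A z σ t]
    have : (∀ x, LO z σ x ≤ LO z σ y) ↔
        ∀ x : Fin n → Bool, f0 x ≤ f0 (sp σ (fun j => !z (σ j)) y) := by
      symm
      rw [hb.2.forall]
      simp only [LO_eq]
    simp only [this, List.map_append, List.map_cons, List.map_nil]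

lemma bmiss_ge (A : BAlg n) (s : ℕ) : ∀ (t : ℕ) (xs : List (Fin n → Bool)),
    1 - Ex (bstep A f0) (t + s) xs (fun zs => if hit n zs then 1 else 0) ≤ bmiss A f0 t xs
  | 0, xs => by
    have := Ex_mono (bstep_nonneg A f0) (0 + s) xs (fun _ => 0)
      (fun zs => if hit n zs then 1 else 0) fun zs => by split_ifs <;> norm_num
    rw [Ex_const (bstep_sum A f0)] at this
    simp only [bmiss]
    linarith
  | t + 1, xs => by
    rw [Nat.add_right_comm, Ex_succ, bmiss]
    refine le_trans (le_of_eq ?_) (sum_le_sum (f := fun y => bstep A f0 xs y *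
      (1 - Ex (bstep A f0) (t + s) (xs ++ [y]) (fun zs => if hit n zs then 1 else 0))) fun y _ => ?_)
    · simp only [mul_sub, sum_sub_distrib, mul_one, bstep_sum]
    refine mul_le_mul_of_nonneg_left ?_ (bstep_nonneg _ _ _ _)
    split_ifs with h
    · have hy : n ≤ f0 y := le_trans ((le_f0 le_rfl fun _ => true).2 fun _ _ => rfl) (h _)
      rw [Ex_frozen (bstep_sum A f0) _ _ _ 1 fun zs => by simp [hy]]
      simp
    · exact bmiss_ge A s t _

lemma btime_ge (A : BAlg n) (z : Fin n → Bool) (σ : Equiv.Perm (Fin n)) (T : ℕ)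
    (h : Pr A (T + 1) (hit n) ≤ 1 / 2) : ENNReal.ofReal ((T + 2) / 2) ≤ btime A (LO z σ) := by
  refine le_trans ?_ (ENNReal.sum_le_tsum (range (T + 2)))
  refine le_trans (le_of_eq ?_) (sum_le_sum (f := fun _ => ENNReal.ofReal (1 / 2)) fun t ht => ?_)
  · rw [← ENNReal.ofReal_sum_of_nonneg fun _ _ => by norm_num]
    simp [div_eq_mul_inv]
  · refine ENNReal.ofReal_le_ofReal ?_
    rw [bmiss_eq, List.map_nil]
    refine le_trans ?_ (bmiss_ge A (T + 1 - t) t [])
    rw [Nat.add_sub_cancel' (Nat.le_of_lt_succ (mem_range.1 ht))]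
    unfold Pr at h
    linarith

lemma Pr_count (A : BAlg n) (t N : ℕ) (hN : 0 < N) (p : List (Fin n → Bool) → Prop)
    (q : ℕ → List (Fin n → Bool) → Prop) (ε : ℝ) (hq : ∀ β < N, Pr A t (q β) ≤ ε)
    (h : ∀ xs, xs.length = t → p xs → N ≤ 2 * ((range N).filter fun β => q β xs).card) :
    Pr A t p ≤ 2 * ε := by
  have hN' : (0 : ℝ) < N := by exact_mod_cast hN
  have h1 : Pr A t p ≤ 2 / N * ∑ β ∈ range N, Pr A t (q β) := by
    unfold Pr
    rw [← map_sum, ← smul_eq_mul, ← map_smul]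
    refine Ex_mono' (bstep_nonneg A f0) t [] _ _ fun zs hz => ?_
    simp only [List.nil_append, Pi.smul_apply, Finset.sum_apply, smul_eq_mul, sum_boole]
    split_ifs with hp
    · rw [div_mul_eq_mul_div, le_div_iff₀ hN', one_mul]
      exact_mod_cast h zs hz hp
    · positivity
  refine h1.trans ?_
  refine (mul_le_mul_of_nonneg_left (sum_le_sum fun β hβ => hq β (mem_range.1 hβ))
    (by positivity)).trans (le_of_eq ?_)
  rw [sum_const, card_range, nsmul_eq_mul]
  field_simp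

lemma many_fast (u : ℕ → ℕ) (N T T' : ℕ) (hu : ∀ β < N, u β ≤ u (β + 1)) (hT : u N ≤ T)
    (h : 2 * T ≤ N * T') : N ≤ 2 * ((range N).filter fun β => u (β + 1) ≤ u β + T').card := by
  have h1 : ∀ M ≤ N, ((range M).filter fun β => ¬u (β + 1) ≤ u β + T').card * (T' + 1) ≤ u M := by
    intro M
    induction M with
    | zero => simp
    | succ M ih =>
      intro hM
      have := ih (by omega)
      have := hu M (by omega)
      rw [range_add_one, filter_insert]
      split_ifs with h'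
      · omega
      · rw [card_insert_of_notMem (by simp), add_mul]
        omega
  have h2 := h1 N le_rfl
  have h3 := card_filter_add_card_filter_not (s := range N) fun β => u (β + 1) ≤ u β + T'
  rw [card_range] at h3
  generalize ((range N).filter fun β => ¬u (β + 1) ≤ u β + T').card = s at *
  by_contra h4
  have h5 : N + 1 ≤ 2 * s := by omega
  have h6 := Nat.mul_le_mul_right (T' + 1) h5
  nlinarith

/-- First time at which the fitness reaches `m`. -/
noncomputable def tt (xs : List (Fin n → Bool)) (m : ℕ) : ℕ :=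
  if h : ∃ s, s < xs.length ∧ m ≤ f0 (xs.getD s fun _ => false) then Nat.find h else 0

lemma tt_spec {xs : List (Fin n → Bool)} (h : hit n xs) {m : ℕ} (hm : m ≤ n) :
    tt xs m < xs.length ∧ m ≤ f0 (xs.getD (tt xs m) fun _ => false) ∧
      ∀ s < tt xs m, f0 (xs.getD s fun _ => false) < m := by
  have h' : ∃ s, s < xs.length ∧ m ≤ f0 (xs.getD s fun _ => false) := by
    obtain ⟨y, hy, hy'⟩ := h
    obtain ⟨s, hs, rfl⟩ := List.getElem_of_mem hy
    exact ⟨s, hs, by rw [List.getD_eq_getElem _ _ hs]; exact hm.trans hy'⟩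
  unfold tt
  rw [dif_pos h']
  refine ⟨(Nat.find_spec h').1, (Nat.find_spec h').2, fun s hs => ?_⟩
  have := Nat.find_min h' hs
  have h2 := (Nat.find_spec h').1
  by_contra h3
  exact this ⟨by omega, by omega⟩

lemma tt_mono {xs : List (Fin n → Bool)} (h : hit n xs) {m m' : ℕ} (h1 : m ≤ m') (hm : m' ≤ n) :
    tt xs m ≤ tt xs m' := by
  by_contra h2
  have := (tt_spec h (h1.trans hm)).2.2 _ (not_le.1 h2)
  have := (tt_spec h hm).2.1
  omega

lemma nc_raw (A : BAlg n) {O N : Finset (Fin n)} (xs : List (Fin n → Bool)) {δ : ℝ} {T w : ℕ}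
    (hO : O.Nonempty) (hG : (nrm A O xs).Good O N δ T) (hδ : δ < 1 / 2) (hw : w ≤ T)
    (h : ∀ b ∈ O, xs.getD w (fun _ => false) b = true) :
    (nrm A O xs).c w = xs.getD w fun _ => false := by
  refine (nc_cases A O xs w).resolve_right fun h' => ?_
  have h0 : ∑ b ∈ O, (nrm A O xs).bt w b = 0 := sum_eq_zero fun b hb => by
    have : (nrm A O xs).c w b = false := by
      change nc A O xs w b = false
      rw [h', cpl, h b hb]; rfl
    simp [Tr.bt, this]
  have hc : (0 : ℝ) < O.card := by exact_mod_cast hO.card_pos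
  rcases Nat.eq_zero_or_pos w with rfl | hw0
  · have := (nrm_Norm A O xs).n0
    linarith
  · have h1 := (nrm_Norm A O xs).nw w hw0
    have h2 := (abs_le.1 (hG.gO w hw0 hw)).1
    simp only [Tr.xi, sum_sub_distrib, h0] at h2
    nlinarith

def colF (hn : 0 < n) (L B : ℕ) (j : ℕ) (l : Fin L) : Fin n :=
  if h : B + j * L + l < n then ⟨B + j * L + l, h⟩ else ⟨0, hn⟩

lemma colF_val (hn : 0 < n) {L B H j : ℕ} (h : B + H * L ≤ n) (hj : j < H) (l : Fin L) :
    (colF hn L B j l : ℕ) = B + j * L + l := by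
  have h1 : (j + 1) * L ≤ H * L := Nat.mul_le_mul_right _ hj
  have := l.2
  unfold colF
  rw [dif_pos (by rw [add_mul] at h1; omega)]

lemma colF_inj (hn : 0 < n) {L B H j j' : ℕ} (h : B + H * L ≤ n) (hj : j < H) (hj' : j' < H)
    {l l' : Fin L} (e : colF hn L B j l = colF hn L B j' l') : j = j' ∧ l = l' := by
  have e' := congrArg Fin.val e
  rw [colF_val hn h hj, colF_val hn h hj'] at e'
  have h1 : j * L + l = j' * L + l' := by omega
  have h2 := congrArg (· / L) h1
  have hL : 0 < L := l.pos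
  simp only [mul_comm _ L, Nat.mul_add_div hL, Nat.div_eq_of_lt l.2, Nat.div_eq_of_lt l'.2,
    add_zero] at h2
  subst h2
  exact ⟨rfl, Fin.ext (by omega)⟩

lemma blk_of {r : ℕ} (hr : 2 ≤ r) (hn : 0 < n) (A : BAlg n) {O N : Finset (Fin n)} {B T T' : ℕ}
    {xs : List (Fin n → Bool)} (hl : xs.length = T + 1) (hh : hit n xs)
    (hB : B + pH r * pL r ≤ n) (hOB : ∀ b ∈ O, b.val < B) (hO : O.Nonempty) (hN : N.Nonempty)
    (hf : tt xs (B + pH r * pL r) ≤ tt xs B + T') (h1 : T' ≤ pH r ^ 82)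
    (h2 : Real.log (T + 2) ≤ 3 * pH r) (hG : (nrm A O xs).Good O N ((pH r : ℝ) ^ 83)⁻¹ T)
    (hT : ∀ j < pH r, ∀ τ ≤ T, (∀ s < τ, f0 (xs.getD s fun _ => false) < B + j * pL r) →
      (nrm A O xs).Typ (colF hn (pL r) B j) N (1 / pH r) τ) :
    Blk r (nrm A O xs) O N (colF hn (pL r) B) (fun i => tt xs (B + i * pL r)) T T' := by
  have hm : ∀ i ≤ pH r, B + i * pL r ≤ n := fun i hi =>
    le_trans (Nat.add_le_add_left (Nat.mul_le_mul_right _ hi) _) hB
  have ht : ∀ i ≤ pH r, tt xs (B + i * pL r) ≤ T := fun i hi => by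
    have := (tt_spec hh (hm i hi)).1
    omega
  have hδ : ((pH r : ℝ) ^ 83)⁻¹ < 1 / 2 := by
    have : (6 : ℝ) ≤ pH r := by exact_mod_cast six_le_pH hr
    rw [one_div]
    exact inv_strictAnti₀ (by norm_num)
      (lt_of_lt_of_le (by linarith) (le_self_pow₀ (by linarith) (by norm_num)))
  have hO' : ∀ i ≤ pH r, ∀ b ∈ O, xs.getD (tt xs (B + i * pL r)) (fun _ => false) b = true :=
    fun i hi b hb => f0_true (tt_spec hh (hm i hi)).2.1 b (by have := hOB b hb; omega)
  refine ⟨nrm_WF A O xs, fun i j hij hj => tt_mono hh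
    (Nat.add_le_add_left (Nat.mul_le_mul_right _ hij) _) (hm j hj), ht _ le_rfl, by simpa using hf,
    h1, h2, hG, nrm_Norm A O xs, hO, hN,
    fun j hj => hT j hj _ (ht j hj.le) (tt_spec hh (hm j hj.le)).2.2, fun i hi b hb => ?_,
    fun i hi j hj l => ?_, fun j hj j' hj' l l' e => colF_inj hn hB hj hj' e⟩
  · rw [nc_raw A xs hO hG hδ (ht i hi) (hO' i hi)]
    exact hO' i hi b hb
  · rw [nc_raw A xs hO hG hδ (ht i hi) (hO' i hi)]
    refine f0_true (tt_spec hh (hm i hi)).2.1 _ ?_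
    rw [colF_val hn hB (lt_of_lt_of_le hj hi)]
    have h1 : (j + 1) * pL r ≤ i * pL r := Nat.mul_le_mul_right _ hj
    have := l.2
    rw [add_mul] at h1
    omega

/-- A block is fast with small probability. -/
theorem blk_prob : ∃ c0 : ℝ, 0 < c0 ∧ c0 ≤ 1 ∧ ∃ r0 : ℕ, ∀ r ≥ r0, ∀ {n : ℕ} (A : BAlg n)
    (O N : Finset (Fin n)) (col : ℕ → Fin (pL r) → Fin n) (t : List (Fin n → Bool) → ℕ → ℕ)
    (T T' : ℕ), (T' : ℝ) ≤ c0 * pK r * pH r * pL r * Real.log r → T' ≤ r ^ 14 * pH r * pL r →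
    Pr A (T + 1) (fun xs => Blk r (nrm A O xs) O N col (t xs) T T') ≤ 2 * Real.exp (-3) := by
  obtain ⟨A0, hA, H0, h0⟩ := family_prob
  obtain ⟨r1, h1⟩ := lock_family A0
  obtain ⟨c0, hc, hc', r2, h2⟩ := main_family A0 hA
  refine ⟨c0, hc, hc', max (max 2 H0) (max r1 r2), fun r hr n A O N col t T T' a1 a2 => ?_⟩
  have hH : H0 ≤ pH r := by
    rw [pH_eq]
    exact le_trans (by omega) (Nat.le_self_pow (by omega) r)
  obtain ⟨I, E, K, _, _, _, P, wt, b1, b2, b3, b4, b5⟩ := h1 r (by omega) n T col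
  obtain ⟨I', E', K', _, _, _, P', wt', c1, c2, c3, c4, c5⟩ := h2 r (by omega) n T N col
  have e1 := h0 _ hH P wt b1 b2 b3 b4 A O T 3
  have e2 := h0 _ hH P' wt' c1 c2 c3 c4 A O T 3
  refine le_trans (Pr_mono A _ fun xs _ hB => ?_) ((Pr_or A _ _ _).trans
    ((add_le_add e1 e2).trans (by linarith)))
  by_cases h : ∀ k, 1 ≤ k → k ≤ pK r → LockOK r (nrm A O xs) col (t xs) k
  · exact Or.inr (c5 _ O _ _ hB a1 h)
  · push Not at h
    obtain ⟨k, k1, k2, k3⟩ := h
    exact Or.inl (b5 _ O N _ _ k hB a2 k1 k2 k3)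

end Pool.Agent.P.MP_5c258a_lc.Bin
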