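import Pool.Agent.P.MP_5c258a_lc.Bin.Tr

/-! Task FLOW: algebra of backward flows (paper section 2, first paragraph). -/

namespace Pool.Agent.P.MP_5c258a_lc.Bin

open Finset Classical

namespace Tr

variable {n : ℕ} {tr : Tr n}

lemma bt_nonneg (tr : Tr n) (w : ℕ) (b : Fin n) : 0 ≤ tr.bt w b := by
  unfold bt; split_ifs <;> norm_num

lemma bt_le_one (tr : Tr n) (w : ℕ) (b : Fin n) : tr.bt w b ≤ 1 := by
  unfold bt; split_ifs <;> norm_num

lemma bt_mul_one_sub (tr : Tr n) (w : ℕ) (b : Fin n) : tr.bt w b * (1 - tr.bt w b) = 0 := by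
  unfold bt; split_ifs <;> norm_num

lemma kb_nonneg (h : tr.WF) (w : ℕ) (b : Fin n) : 0 ≤ tr.kb w b := by
  have := h.be0 w
  have := sub_nonneg.2 (h.be1 w)
  have := sub_nonneg.2 (tr.bt_le_one (tr.u w) b)
  have := sub_nonneg.2 (tr.bt_le_one (tr.v w) b)
  unfold kb; positivity

lemma kb_le_one (h : tr.WF) (w : ℕ) (b : Fin n) : tr.kb w b ≤ 1 := by
  have h1 := mul_nonneg (h.be0 w) (tr.bt_nonneg (tr.u w) b)
  have h2 := mul_nonneg (sub_nonneg.2 (h.be1 w)) (tr.bt_nonneg (tr.v w) b)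
  unfold kb; nlinarith

lemma pb_nonneg (h : tr.WF) (w : ℕ) (b : Fin n) : 0 ≤ tr.pb w b := by
  have := h.be0 w
  have := h.al0 w
  have := sub_nonneg.2 (h.be1 w)
  have := sub_nonneg.2 (h.al1 w)
  have := tr.bt_nonneg (tr.u w) b
  have := tr.bt_nonneg (tr.v w) b
  have := kb_nonneg h w b
  unfold pb; positivity

lemma pb_le_one (h : tr.WF) (w : ℕ) (b : Fin n) : tr.pb w b ≤ 1 := by
  have h0 := sub_nonneg.2 (h.al1 w)
  have h1 := mul_nonneg (mul_nonneg h0 (sub_nonneg.2 (h.be1 w)))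
    (sub_nonneg.2 (tr.bt_le_one (tr.u w) b))
  have h2 := mul_nonneg (mul_nonneg h0 (h.be0 w)) (sub_nonneg.2 (tr.bt_le_one (tr.v w) b))
  have h3 := mul_nonneg (h.al0 w) (sub_nonneg.2 (kb_le_one h w b))
  unfold pb; nlinarith

lemma abs_xi_le (h : tr.WF) (w : ℕ) (b : Fin n) : |tr.xi w b| ≤ 1 := by
  have := tr.bt_nonneg w b
  have := tr.bt_le_one w b
  have := pb_nonneg h w b
  have := pb_le_one h w b
  unfold xi; rw [abs_le]; constructor <;> linarith

lemma vr_nonneg (h : tr.WF) (w : ℕ) (b : Fin n) : 0 ≤ tr.vr w b := 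
  mul_nonneg (pb_nonneg h w b) (sub_nonneg.2 (pb_le_one h w b))

lemma VV_nonneg (h : tr.WF) (N : Finset (Fin n)) (w : ℕ) : 0 ≤ tr.VV N w := 
  div_nonneg (sum_nonneg fun b _ => vr_nonneg h w b) (Nat.cast_nonneg _)

lemma p_nonneg (h : tr.WF) (w x : ℕ) : 0 ≤ tr.p w x := by
  have := h.be0 w
  have := sub_nonneg.2 (h.be1 w)
  have := sub_nonneg.2 (h.al1 w)
  unfold p; split_ifs <;> positivity

lemma p_eq_zero (h : tr.WF) {w x : ℕ} (hw : 0 < w) (hx : w ≤ x) : tr.p w x = 0 := by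
  have h1 := h.u_lt w hw
  have h2 := h.v_lt w hw
  unfold p; rw [if_neg (by omega), if_neg (by omega), add_zero]

lemma psum (h : tr.WF) {w m : ℕ} (hw : 0 < w) (hm : w ≤ m) (F : ℕ → ℝ) :
    ∑ x ∈ range m, tr.p w x * F x =
      (1 - tr.al w) * (1 - tr.be w) * F (tr.u w) + (1 - tr.al w) * tr.be w * F (tr.v w) := by
  have h1 : tr.u w ∈ range m := mem_range.2 ((h.u_lt w hw).trans_le hm)
  have h2 : tr.v w ∈ range m := mem_range.2 ((h.v_lt w hw).trans_le hm)
  simp only [p, add_mul, ite_mul, zero_mul, sum_add_distrib, sum_ite_eq, if_pos h1, if_pos h2]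

lemma down_ind (z : ℕ) {P : ℕ → Prop} (h : ∀ x, (∀ w, x < w → w ≤ z → P w) → P x) (x : ℕ) :
    P x := by
  induction hk : z - x using Nat.strong_induction_on generalizing x with
  | h k ih => exact h x fun w h1 h2 => ih (z - w) (by omega) w rfl

lemma gr_nonneg (h : tr.WF) (A : ℕ → Prop) (z x : ℕ) : 0 ≤ tr.gr A z x := by
  induction x using down_ind z with
  | h x ih =>
    rw [gr_eq]
    refine add_nonneg (by split_ifs <;> norm_num) (sum_nonneg fun w hw => ?_)
    split_ifs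
    · exact mul_nonneg (ih w (mem_Ioc.1 hw).1 (mem_Ioc.1 hw).2) (p_nonneg h w x)
    · exact le_rfl

lemma gr_of_lt (tr : Tr n) (A : ℕ → Prop) {z x : ℕ} (hx : z < x) : tr.gr A z x = 0 := by
  rw [gr_eq, if_neg hx.ne', Ioc_eq_empty (by omega), sum_empty, add_zero]

lemma gr_self (tr : Tr n) (A : ℕ → Prop) (z : ℕ) : tr.gr A z z = 1 := by
  rw [gr_eq, if_pos rfl, Ioc_self, sum_empty, add_zero]

/-- The recursion with any horizon `m ≥ z`. -/
lemma gr_eq' (tr : Tr n) (A : ℕ → Prop) {z m : ℕ} (hm : z ≤ m) (x : ℕ) : tr.gr A z x =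
    (if x = z then 1 else 0) + ∑ w ∈ Ioc x m, if A w then tr.gr A z w * tr.p w x else 0 := by
  rw [gr_eq]
  congr 1
  refine sum_subset (Ioc_subset_Ioc_right hm) fun w h1 h2 => ?_
  rw [mem_Ioc] at h1 h2
  rw [gr_of_lt tr A (show z < w by omega), zero_mul, ite_self]

lemma gr_mono (h : tr.WF) {A A' : ℕ → Prop} (hA : ∀ w, A w → A' w) (z x : ℕ) :
    tr.gr A z x ≤ tr.gr A' z x := by
  induction x using down_ind z with
  | h x ih =>
    rw [gr_eq tr A, gr_eq tr A']
    refine add_le_add le_rfl (sum_le_sum fun w hw => ?_)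
    by_cases h1 : A w
    · rw [if_pos h1, if_pos (hA w h1)]
      exact mul_le_mul_of_nonneg_right (ih w (mem_Ioc.1 hw).1 (mem_Ioc.1 hw).2) (p_nonneg h w x)
    · rw [if_neg h1]
      split_ifs
      · exact mul_nonneg (gr_nonneg h _ _ _) (p_nonneg h w x)
      · exact le_rfl

lemma gr_congr (tr : Tr n) {A A' : ℕ → Prop} {t : ℕ} (hA : ∀ w, t < w → (A w ↔ A' w)) (z : ℕ)
    {x : ℕ} (hx : t ≤ x) : tr.gr A z x = tr.gr A' z x := by
  induction x using down_ind z with
  | h x ih =>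
    rw [gr_eq tr A, gr_eq tr A']
    congr 1
    refine sum_congr rfl fun w hw => ?_
    rw [mem_Ioc] at hw
    rw [ih w hw.1 hw.2 (by omega)]
    exact if_congr (hA w (by omega)) rfl rfl

lemma pi_congr (tr : Tr n) {τ t : ℕ} (ht : τ ≤ t) (z : ℕ) {x : ℕ} (hx : t ≤ x) :
    tr.pi τ z x = tr.pi t z x := 
  gr_congr tr (t := t) (fun _ hw => ⟨fun _ => hw, fun _ => ht.trans_lt hw⟩) z hx

lemma st_nonneg (h : tr.WF) (A : ℕ → Prop) (z x : ℕ) : 0 ≤ tr.st A z x := by
  unfold st; split_ifs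
  · exact le_rfl
  · exact gr_nonneg h A z x

/-- (I1). -/
lemma flow_id (h : tr.WF) {A : ℕ → Prop} (h0 : ¬A 0) (z : ℕ) (F : ℕ → ℝ) :
    F z = ∑ x ∈ range (z + 1), tr.st A z x * F x + ∑ w ∈ range (z + 1),
      if A w then tr.gr A z w * (F w - ((1 - tr.al w) * (1 - tr.be w) * F (tr.u w)
        + (1 - tr.al w) * tr.be w * F (tr.v w))) else 0 := by
  have e1 : ∀ x, (if x = z then 1 else 0) * F x = tr.gr A z x * F x -
      ∑ w ∈ range (z + 1), if A w then tr.gr A z w * (tr.p w x * F x) else 0 := by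
    intro x
    have : ∑ w ∈ Ioc x z, (if A w then tr.gr A z w * tr.p w x else 0) =
        ∑ w ∈ range (z + 1), if A w then tr.gr A z w * tr.p w x else 0 := by
      refine sum_subset (fun w hw => mem_range.2 (by have := mem_Ioc.1 hw; omega))
        fun w h1 h2 => ?_
      rw [mem_range] at h1
      rw [mem_Ioc] at h2
      split_ifs with h3
      · rw [p_eq_zero h (Nat.pos_of_ne_zero (by rintro rfl; exact h0 h3)) (by omega), mul_zero]
      · rfl
    rw [gr_eq tr A z x, this, add_mul, sum_mul]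
    simp only [ite_mul, zero_mul, mul_assoc, add_sub_cancel_right]
  have e2 : F z = ∑ x ∈ range (z + 1), (if x = z then 1 else 0) * F x := by simp
  rw [e2, sum_congr rfl fun x _ => e1 x, sum_sub_distrib, sum_comm, ← sum_add_distrib,
    ← sum_sub_distrib]
  refine sum_congr rfl fun w hw => ?_
  by_cases h1 : A w
  · simp only [st, if_pos h1, ← mul_sum]
    rw [psum h (Nat.pos_of_ne_zero (by rintro rfl; exact h0 h1)) (mem_range.1 hw).le]
    ring
  · simp [st, h1]

lemma st_sum_le (h : tr.WF) {A : ℕ → Prop} (h0 : ¬A 0) (z : ℕ) :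
    ∑ x ∈ range (z + 1), tr.st A z x ≤ 1 := by
  have h1 := flow_id h h0 z fun _ => 1
  have h2 : 0 ≤ ∑ w ∈ range (z + 1), if A w then tr.gr A z w * (1 - ((1 - tr.al w) *
      (1 - tr.be w) * 1 + (1 - tr.al w) * tr.be w * 1)) else 0 := by
    refine sum_nonneg fun w _ => ?_
    split_ifs
    · exact mul_nonneg (gr_nonneg h A z w) (by have := h.al0 w; linarith)
    · exact le_rfl
  simp only [mul_one] at h1 h2
  linarith

/-- Use `gr_congr` to make `x` a stopping node, then (I1) with `F = 1`. -/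
lemma gr_le_one (h : tr.WF) (A : ℕ → Prop) (z x : ℕ) : tr.gr A z x ≤ 1 := by
  rcases lt_or_ge z x with hx | hx
  · rw [gr_of_lt tr A hx]; exact zero_le_one
  have h1 : tr.gr A z x = tr.st (fun w => A w ∧ x < w) z x := by
    rw [st, if_neg (by simp)]
    exact gr_congr tr (t := x) (fun w hw => by simp [hw]) z le_rfl
  rw [h1]
  exact (single_le_sum (fun y _ => st_nonneg h _ z y) (mem_range.2 (by omega))).trans
    (st_sum_le h (by simp) z)

lemma st_of_lt (tr : Tr n) (A : ℕ → Prop) {z x : ℕ} (hx : z < x) : tr.st A z x = 0 := by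
  rw [st, gr_of_lt tr A hx, ite_self]

/-- (COMP). Downward induction on `x`. -/
lemma gr_comp (_h : tr.WF) {A A' : ℕ → Prop} (hA : ∀ w, A w → A' w) (a x : ℕ) :
    tr.gr A' a x = (if A x then tr.gr A a x else 0) +
      ∑ z ∈ range (a + 1), tr.st A a z * tr.gr A' z x := by
  induction x using down_ind a with
  | h x ih =>
    have e1 : ∑ z ∈ range (a + 1), tr.st A a z * tr.gr A' z x = tr.st A a x +
        ∑ w ∈ Ioc x a, if A' w then (∑ z ∈ range (a + 1), tr.st A a z * tr.gr A' z w) * tr.p w x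
          else 0 := by
      rw [sum_congr rfl fun z hz => by
        rw [gr_eq' tr A' (m := a) (by have := mem_range.1 hz; omega) x, mul_add, mul_sum],
        sum_add_distrib, sum_comm]
      congr 1
      · simp only [mul_ite, mul_one, mul_zero, sum_ite_eq, mem_range]
        split_ifs with h1
        · rfl
        · rw [st_of_lt tr A (by omega)]
      · refine sum_congr rfl fun w _ => ?_
        split_ifs
        · simp only [sum_mul, mul_assoc]
        · simp
    have e2 : (if A x then tr.gr A a x else 0) + tr.st A a x = tr.gr A a x := by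
      unfold st; split_ifs <;> simp
    rw [e1, ← add_assoc, e2, gr_eq tr A', gr_eq tr A, add_assoc, ← sum_add_distrib]
    congr 1
    refine sum_congr rfl fun w hw => ?_
    rw [ih w (mem_Ioc.1 hw).1 (mem_Ioc.1 hw).2]
    by_cases h1 : A w
    · simp only [if_pos h1, if_pos (hA w h1)]; ring
    · simp only [if_neg h1, zero_add]

lemma st_comp (h : tr.WF) {A A' : ℕ → Prop} (hA : ∀ w, A w → A' w) (a x : ℕ) :
    tr.st A' a x = ∑ z ∈ range (a + 1), tr.st A a z * tr.st A' z x := by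
  by_cases h1 : A' x
  · simp [st, h1]
  · have h2 := gr_comp h hA a x
    rw [if_neg (fun h3 => h1 (hA x h3)), zero_add] at h2
    simp only [st, if_neg h1] at h2 ⊢
    exact h2

lemma x1_nonneg (h : tr.WF) (t z : ℕ) (b : Fin n) : 0 ≤ tr.x1 t z b := 
  sum_nonneg fun x _ => mul_nonneg (st_nonneg h _ z x) (tr.bt_nonneg x b)

lemma x0_nonneg (h : tr.WF) (t z : ℕ) (b : Fin n) : 0 ≤ tr.x0 t z b := 
  sum_nonneg fun x _ => mul_nonneg (st_nonneg h _ z x) (sub_nonneg.2 (tr.bt_le_one x b))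

lemma kap_nonneg (h : tr.WF) (τ z : ℕ) : 0 ≤ tr.kap τ z := 
  sum_nonneg fun w _ => mul_nonneg (gr_nonneg h _ z w) (h.al0 w)

lemma pi_nonneg (h : tr.WF) (τ z x : ℕ) : 0 ≤ tr.pi τ z x := gr_nonneg h _ z x

lemma pi_of_lt (tr : Tr n) (τ : ℕ) {z x : ℕ} (hx : z < x) : tr.pi τ z x = 0 := gr_of_lt tr _ hx

/-- (I1) with the sum over an interval with any horizon. -/
lemma flow_Ioc (h : tr.WF) {A : ℕ → Prop} {τ z m : ℕ} (hA : ∀ w, A w → τ < w) (hm : z ≤ m)
    (F : ℕ → ℝ) : F z = ∑ x ∈ range (z + 1), tr.st A z x * F x + ∑ w ∈ Ioc τ m,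
      (if A w then tr.gr A z w else 0) * (F w - ((1 - tr.al w) * (1 - tr.be w) * F (tr.u w)
        + (1 - tr.al w) * tr.be w * F (tr.v w))) := by
  refine (flow_id h (fun h0 => absurd (hA 0 h0) (Nat.not_lt_zero _)) z F).trans ?_
  congr 1
  simp only [ite_mul, zero_mul]
  refine (sum_subset (s₂ := range (m + 1)) (range_subset_range.2 (by omega))
    fun w _ h2 => ?_).trans (sum_subset (fun w hw => mem_range.2 (by
      have := mem_Ioc.1 hw; omega)) fun w h1 h2 => ?_).symm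
  · rw [gr_of_lt tr A (by rw [mem_range] at h2; omega), zero_mul, ite_self]
  · rw [mem_range] at h1
    rw [mem_Ioc] at h2
    exact if_neg fun h3 => by have := hA w h3; omega

lemma flow_full (h : tr.WF) {τ t z m : ℕ} (ht : τ ≤ t) (hm : z ≤ m) (F : ℕ → ℝ) :
    F z = ∑ x ∈ range (z + 1), tr.st (fun w => t < w) z x * F x + ∑ w ∈ Ioc t m,
      tr.pi τ z w * (F w - ((1 - tr.al w) * (1 - tr.be w) * F (tr.u w)
        + (1 - tr.al w) * tr.be w * F (tr.v w))) := by
  refine (flow_Ioc h (A := fun w => t < w) (τ := t) (fun _ h => h) hm F).trans ?_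
  congr 1
  refine sum_congr rfl fun w hw => ?_
  rw [if_pos (mem_Ioc.1 hw).1, pi_congr tr ht z (mem_Ioc.1 hw).1.le, pi]

lemma bt_sub (tr : Tr n) (w : ℕ) (b : Fin n) : tr.bt w b - ((1 - tr.al w) * (1 - tr.be w) *
    tr.bt (tr.u w) b + (1 - tr.al w) * tr.be w * tr.bt (tr.v w) b) =
      tr.xi w b + tr.al w * tr.kb w b := by
  unfold xi pb; ring

lemma flow_bt (h : tr.WF) {τ t z m : ℕ} (ht : τ ≤ t) (hm : z ≤ m) (b : Fin n) :
    tr.bt z b = tr.x1 t z b + ∑ w ∈ Ioc t m, tr.pi τ z w * (tr.xi w b + tr.al w * tr.kb w b) := by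
  have := flow_full h ht hm fun x => tr.bt x b
  simp only [bt_sub] at this
  exact this

lemma kap_eq (tr : Tr n) (τ : ℕ) {z m : ℕ} (hm : z ≤ m) :
    tr.kap τ z = ∑ w ∈ Ioc τ m, tr.pi τ z w * tr.al w := by
  refine sum_subset (Ioc_subset_Ioc_right hm) fun w h1 h2 => ?_
  rw [mem_Ioc] at h1 h2
  rw [pi_of_lt tr τ (show z < w by omega), zero_mul]

lemma le_kap (h : tr.WF) {τ t1 : ℕ} (h1 : τ ≤ t1) (t z : ℕ) :
    ∑ w ∈ Ioc t1 t, tr.pi τ z w * tr.al w ≤ tr.kap τ z := by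
  rw [kap_eq tr τ (le_max_left z t)]
  exact sum_le_sum_of_subset_of_nonneg (Ioc_subset_Ioc h1 (le_max_right _ _))
    fun w _ _ => mul_nonneg (pi_nonneg h _ _ _) (h.al0 w)

lemma mass (h : tr.WF) (τ z : ℕ) (b : Fin n) : tr.x1 τ z b + tr.x0 τ z b + tr.kap τ z = 1 := by
  have h1 := flow_full h le_rfl (le_refl z) (τ := τ) fun _ => 1
  have h2 : tr.x1 τ z b + tr.x0 τ z b = ∑ x ∈ range (z + 1), tr.st (fun w => τ < w) z x * 1 := by
    rw [x1, x0, ← sum_add_distrib]
    exact sum_congr rfl fun x _ => by ring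
  refine Eq.trans ?_ h1.symm
  rw [h2, kap]
  congr 1
  exact sum_congr rfl fun w _ => by ring

lemma st_top (tr : Tr n) {t z : ℕ} (hz : z ≤ t) (x : ℕ) :
    tr.st (fun w => t < w) z x = if x = z then 1 else 0 := by
  rcases lt_or_ge z x with hx | hx
  · rw [st_of_lt tr _ hx, if_neg hx.ne']
  · rw [st, if_neg (by omega), gr_eq, sum_eq_zero, add_zero]
    exact fun w hw => if_neg (by have := mem_Ioc.1 hw; omega)

lemma x1_top (tr : Tr n) {t z : ℕ} (hz : z ≤ t) (b : Fin n) : tr.x1 t z b = tr.bt z b := by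
  simp [x1, st_top tr hz]

lemma x0_top (tr : Tr n) {t z : ℕ} (hz : z ≤ t) (b : Fin n) : tr.x0 t z b = 1 - tr.bt z b := by
  simp [x0, st_top tr hz]

lemma kap_anti (h : tr.WF) {τ t : ℕ} (ht : τ ≤ t) (z : ℕ) : tr.kap t z ≤ tr.kap τ z := by
  refine le_trans (le_of_eq (sum_congr rfl fun w hw => ?_)) (le_kap h ht z z)
  rw [pi_congr tr ht z (mem_Ioc.1 hw).1.le]

/-- (I1) for the allowed sets `(t1, ∞)` and `(t, ∞)`, subtracted. -/
lemma evolve (h : tr.WF) {τ t1 t : ℕ} (h1 : τ ≤ t1) (h2 : t1 ≤ t) (z : ℕ) (b : Fin n) :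
    tr.x1 t z b = tr.x1 t1 z b +
      ∑ w ∈ Ioc t1 t, tr.pi τ z w * (tr.xi w b + tr.al w * tr.kb w b) := by
  have e1 := flow_bt h h1 (le_max_left z t) b
  have e2 := flow_bt h (h1.trans h2) (le_max_left z t) b
  rw [← sum_Ioc_consecutive _ h2 (le_max_right z t)] at e1
  linarith

/-- The killed part between two times is at most `kap`. -/
lemma kill_le (h : tr.WF) {τ t1 t : ℕ} (h1 : τ ≤ t1) (z : ℕ) (b : Fin n) :
    0 ≤ ∑ w ∈ Ioc t1 t, tr.pi τ z w * (tr.al w * tr.kb w b) ∧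
      ∑ w ∈ Ioc t1 t, tr.pi τ z w * (tr.al w * tr.kb w b) ≤ tr.kap τ z := by
  refine ⟨sum_nonneg fun w _ => mul_nonneg (pi_nonneg h _ _ _)
    (mul_nonneg (h.al0 w) (kb_nonneg h w b)), le_trans (sum_le_sum fun w _ => ?_) (le_kap h h1 t z)⟩
  exact mul_le_mul_of_nonneg_left (mul_le_of_le_one_right (h.al0 w) (kb_le_one h w b))
    (pi_nonneg h _ _ _)

lemma pre_bound (h : tr.WF) {τ w : ℕ} (hw : τ < w) (z : ℕ) (b : Fin n) :
    tr.pi τ z w * (tr.pb w b - tr.al w * tr.kb w b) ≤ tr.x1 (w - 1) z b := by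
  rcases lt_or_ge z w with hz | hz
  · rw [pi_of_lt tr τ hz, zero_mul]; exact x1_nonneg h _ _ _
  have e : tr.pb w b - tr.al w * tr.kb w b = ∑ x ∈ range (z + 1), tr.p w x * tr.bt x b := by
    rw [psum h (by omega) (by omega) fun x => tr.bt x b, pb]; ring
  rw [e, mul_sum, x1]
  refine sum_le_sum fun x _ => ?_
  rw [← mul_assoc]
  refine mul_le_mul_of_nonneg_right ?_ (tr.bt_nonneg x b)
  rcases lt_or_ge x w with hx | hx
  swap
  · rw [p_eq_zero h (by omega) hx, mul_zero]; exact st_nonneg h _ _ _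
  rw [st, if_neg (by omega), gr_eq, pi_congr tr (show τ ≤ w - 1 by omega) z (by omega), pi]
  refine le_add_of_nonneg_of_le (by split_ifs <;> norm_num) (le_trans (le_of_eq ?_)
    (single_le_sum (a := w) (fun y _ => ?_) (mem_Ioc.2 ⟨hx, hz⟩)))
  · rw [if_pos (by omega)]
  · split_ifs
    · exact mul_nonneg (gr_nonneg h _ _ _) (p_nonneg h _ _)
    · exact le_rfl

/-- The condition of an episode of type A for one flow. -/
lemma condA_one (h : tr.WF) {τ lo w : ℕ} (h1 : τ ≤ lo) (hw : lo < w) (z : ℕ) (b : Fin n) :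
    tr.pi τ z w * tr.pb w b ≤
      tr.x1 lo z b + tr.kap τ z + tr.XX (tr.pi τ z) b lo (w - 1) := by
  obtain ⟨w, rfl⟩ : ∃ k, w = k + 1 := ⟨w - 1, by omega⟩
  have e1 := pre_bound h (h1.trans_lt hw) z b
  have e2 := evolve h h1 (show lo ≤ w by omega) z b
  have e3 := (kill_le h (t := w + 1) h1 z b).2
  rw [sum_Ioc_succ_top (by omega)] at e3
  simp only [mul_add, sum_add_distrib] at e2
  simp only [Nat.add_sub_cancel, XX] at e1 ⊢
  linarith

/-- The end value of an episode of type A for one flow. -/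
lemma endA_one (h : tr.WF) {τ lo hi : ℕ} (h1 : τ ≤ lo) (h2 : lo ≤ hi) (z : ℕ) (b : Fin n) :
    tr.x1 hi z b ≤ tr.x1 lo z b + tr.kap τ z + tr.XX (tr.pi τ z) b lo hi := by
  have e2 := evolve h h1 h2 z b
  have e3 := (kill_le h (t := hi) h1 z b).2
  simp only [mul_add, sum_add_distrib] at e2
  simp only [XX]
  linarith

lemma x1_le_one (h : tr.WF) (t z : ℕ) (b : Fin n) : tr.x1 t z b ≤ 1 := by
  linarith [mass h t z b, x0_nonneg h t z b, kap_nonneg h t z]

lemma kap_le_one (h : tr.WF) (t z : ℕ) (b : Fin n) : tr.kap t z ≤ 1 := by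
  linarith [mass h t z b, x0_nonneg h t z b, x1_nonneg h t z b]

lemma condH (h : tr.WF) {τ lo : ℕ} (h1 : τ ≤ lo) (hi z : ℕ) (b : Fin n) :
    Cond tr (tr.pi τ z) b lo hi 1 .H := by
  refine ⟨rfl, fun w hw => ⟨gr_le_one h _ _ _, ?_⟩⟩
  have e2 := evolve h h1 (mem_Ioc.1 hw).1.le z b
  have e3 := kill_le h (t := w) h1 z b
  have e4 := x1_nonneg h w z b
  have e5 := x1_nonneg h lo z b
  have e6 := x1_le_one h w z b
  have e7 := x1_le_one h lo z b
  have e8 := kap_le_one h τ z b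
  simp only [mul_add, sum_add_distrib] at e2
  simp only [XX]
  constructor <;> linarith [e3.1, e3.2]

lemma x1_comp (h : tr.WF) {A : ℕ → Prop} {τ : ℕ} (hA : ∀ w, A w → τ < w) (a : ℕ) (b : Fin n) :
    ∑ z ∈ range (a + 1), tr.st A a z * tr.x1 τ z b = tr.x1 τ a b := by
  have e : ∀ z ∈ range (a + 1), tr.x1 τ z b =
      ∑ x ∈ range (a + 1), tr.st (fun w => τ < w) z x * tr.bt x b := fun z hz =>
    sum_subset (range_subset_range.2 (mem_range.1 hz)) fun x _ h2 => by
      rw [st_of_lt tr _ (by rw [mem_range] at h2; omega), zero_mul]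
  rw [sum_congr rfl fun z hz => by rw [e z hz, mul_sum], sum_comm, x1]
  refine sum_congr rfl fun x _ => ?_
  rw [st_comp h hA a x, sum_mul]
  exact sum_congr rfl fun z _ => by ring

lemma pi_comp (h : tr.WF) {A : ℕ → Prop} {τ : ℕ} (hA : ∀ w, A w → τ < w) (a w : ℕ) :
    ∑ z ∈ range (a + 1), tr.st A a z * tr.pi τ z w ≤ tr.pi τ a w := by
  refine le_trans (le_add_of_nonneg_left ?_) (gr_comp h hA a w).ge
  split_ifs
  · exact gr_nonneg h _ _ _
  · exact le_rfl

lemma kap_comp (h : tr.WF) {A : ℕ → Prop} {τ : ℕ} (hA : ∀ w, A w → τ < w) (a : ℕ) :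
    ∑ z ∈ range (a + 1), tr.st A a z * tr.kap τ z ≤ tr.kap τ a := by
  rw [sum_congr rfl fun z hz => by
    rw [kap_eq tr τ (m := a) (by have := mem_range.1 hz; omega), mul_sum], sum_comm, kap]
  refine sum_le_sum fun w _ => le_trans (le_of_eq ?_)
    (mul_le_mul_of_nonneg_right (pi_comp h hA a w) (h.al0 w))
  rw [sum_mul]
  exact sum_congr rfl fun z _ => by ring

/-- (I1) twice: above `T` the flows through `A` and through `(T, ∞)` agree. -/
lemma pair_id (h : tr.WF) {A : ℕ → Prop} {τ T : ℕ} (hT : τ ≤ T) (hA : ∀ w, A w → τ < w)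
    (hA' : ∀ w, T < w → A w) (z : ℕ) (b : Fin n) :
    tr.x1 T z b ≤ ∑ x ∈ range (z + 1), tr.st A z x * tr.bt x b +
      tr.XX (fun w => if A w then tr.gr A z w else 0) b τ T + tr.kap τ z := by
  have e1 := flow_Ioc h hA (le_max_left z T) fun x => tr.bt x b
  have e2 := flow_bt h (le_refl T) (le_max_left z T) b
  simp only [bt_sub] at e1
  rw [← sum_Ioc_consecutive _ hT (le_max_right z T)] at e1
  have e3 : ∑ w ∈ Ioc T (max z T), (if A w then tr.gr A z w else 0) *
      (tr.xi w b + tr.al w * tr.kb w b) =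
      ∑ w ∈ Ioc T (max z T), tr.pi T z w * (tr.xi w b + tr.al w * tr.kb w b) := by
    refine sum_congr rfl fun w hw => ?_
    have h1 := (mem_Ioc.1 hw).1
    rw [if_pos (hA' w h1), pi,
      gr_congr tr (A' := fun w => T < w) (t := T) (fun y hy => ⟨fun _ => hy, hA' y⟩) z h1.le]
  have e4 : ∑ w ∈ Ioc τ T, (if A w then tr.gr A z w else 0) * (tr.al w * tr.kb w b) ≤
      tr.kap τ z := by
    refine le_trans (sum_le_sum fun w _ => mul_le_mul_of_nonneg_right ?_
      (mul_nonneg (h.al0 w) (kb_nonneg h w b))) (kill_le h (t := T) (le_refl τ) z b).2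
    split_ifs
    · exact gr_mono h hA z w
    · exact pi_nonneg h _ _ _
  rw [e3] at e1
  simp only [mul_add, sum_add_distrib] at e1 e2
  simp only [XX]
  linarith

/-- The full flow is superharmonic (input of the meeting lemma). -/
lemma pi_super (h : tr.WF) {τ x : ℕ} (hx : τ ≤ x) (z t : ℕ) :
    ∑ w ∈ Ioc x t, tr.pi τ z w * tr.p w x ≤ tr.pi τ z x := by
  conv_rhs => rw [pi, gr_eq' tr _ (le_max_left z t) x]
  refine le_add_of_nonneg_of_le (by split_ifs <;> norm_num) (le_trans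
    (sum_le_sum_of_subset_of_nonneg (Ioc_subset_Ioc_right (le_max_right z t)) fun w _ _ =>
      mul_nonneg (pi_nonneg h _ _ _) (p_nonneg h _ _)) (le_of_eq (sum_congr rfl fun w hw => ?_)))
  rw [if_pos (hx.trans_lt (mem_Ioc.1 hw).1), pi]

lemma cut_WF (h : tr.WF) (w : ℕ) : (tr.cut w).WF := by
  constructor <;> intro i <;> simp only [cut] <;> split_ifs <;>
    first | exact h.u_lt i | exact h.v_lt i | exact id | exact h.al0 i | exact h.al1 i
          | exact h.be0 i | exact h.be1 i | norm_num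

lemma cut_bt (tr : Tr n) {w f : ℕ} (hf : f < w) (b : Fin n) : (tr.cut w).bt f b = tr.bt f b := by
  simp only [bt, cut, if_pos hf]

lemma cut_pb (h : tr.WF) {w w' : ℕ} (h0 : 0 < w') (hw : w' ≤ w) (b : Fin n) :
    (tr.cut w).pb w' b = tr.pb w' b := by
  have h1 := cut_bt tr ((h.u_lt w' h0).trans_le hw) b
  have h2 := cut_bt tr ((h.v_lt w' h0).trans_le hw) b
  have e1 : (tr.cut w).u w' = tr.u w' := if_pos hw
  have e2 : (tr.cut w).v w' = tr.v w' := if_pos hw
  have e3 : (tr.cut w).al w' = tr.al w' := if_pos hw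
  have e4 : (tr.cut w).be w' = tr.be w' := if_pos hw
  simp only [pb, kb, e1, e2, e3, e4, h1, h2]

lemma cut_p (tr : Tr n) {w w' : ℕ} (hw : w' ≤ w) (x : ℕ) : (tr.cut w).p w' x = tr.p w' x := by
  simp only [p, cut, if_pos hw]

lemma cut_gr (tr : Tr n) (A : ℕ → Prop) {w z : ℕ} (hz : z ≤ w) (x : ℕ) :
    (tr.cut w).gr A z x = tr.gr A z x := by
  induction x using down_ind z with
  | h x ih =>
    rw [gr_eq, gr_eq tr]
    congr 1
    refine sum_congr rfl fun y hy => ?_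
    rw [mem_Ioc] at hy
    rw [ih y hy.1 hy.2, cut_p tr (hy.2.trans hz)]

lemma cut_vv (h : tr.WF) (N : Finset (Fin n)) (τ w : ℕ) :
    (tr.cut w).vv N τ w = tr.vv N τ w := by
  refine sum_congr rfl fun y hy => ?_
  rw [mem_Ioc] at hy
  rw [pi, pi, cut_gr tr _ le_rfl]
  simp only [VV, vr, cut_pb h (show 0 < y by omega) hy.2]

end Tr

end Pool.Agent.P.MP_5c258a_lc.Bin
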