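import Mathlib

/-! Negative association under swap-invariant weights (Lemma H in abstract form). -/

namespace Pool.Agent.P.MP_5c258a_lc.Bin

open Finset

variable {ι κ : Type} [Fintype ι] [DecidableEq ι] [DecidableEq κ]

/-- The mass of the patterns with value `x` on all of `B`. -/
noncomputable def massB (μ : (ι → Bool) → ℝ) (x : Bool) (B : Finset ι) : ℝ :=
  ∑ F, μ F * if ∀ j ∈ B, F j = x then 1 else 0

omit [DecidableEq κ] in
lemma massB_swap {part : ι → κ} {μ : (ι → Bool) → ℝ}
    (hs : ∀ b b', part b = part b' → ∀ F, μ (F ∘ Equiv.swap b b') = μ F) (x : Bool)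
    {B : Finset ι} {b b' : ι} (hp : part b = part b') (hb : b ∉ B) (hb' : b' ∉ B) :
    massB μ x (insert b' B) = massB μ x (insert b B) := by
  unfold massB
  have hinv : Function.Involutive (fun F : ι → Bool => F ∘ Equiv.swap b b') := fun F => by
    funext j; simp
  rw [← Equiv.sum_comp hinv.toPerm]
  refine sum_congr rfl fun F _ => ?_
  simp only [Function.Involutive.coe_toPerm, hs b b' hp, forall_mem_insert, Function.comp,
    Equiv.swap_apply_right]
  congr 1
  refine if_congr (and_congr Iff.rfl (forall₂_congr fun j hj => ?_)) rfl rfl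
  rw [Equiv.swap_apply_of_ne_of_ne (ne_of_mem_of_not_mem hj hb) (ne_of_mem_of_not_mem hj hb')]

lemma massB_insert {part : ι → κ} {μ : (ι → Bool) → ℝ} (h0 : ∀ F, 0 ≤ μ F)
    (hs : ∀ b b', part b = part b' → ∀ F, μ (F ∘ Equiv.swap b b') = μ F) (x : Bool) (r : ι → ℝ)
    (hr : ∀ b, r b ≤ 1)
    (hc : ∀ F, μ F ≠ 0 → ∀ b, ((univ.filter fun j => part j = part b ∧ F j = x).card : ℝ) =
      r b * (univ.filter fun j => part j = part b).card)
    {B : Finset ι} {b : ι} (hb : b ∉ B) : massB μ x (insert b B) ≤ r b * massB μ x B := by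
  set P := univ.filter fun j => part j = part b with hP
  have hbP : b ∈ P \ B := by simp [hP, hb]
  have hpos : (0 : ℝ) < (P \ B).card := by exact_mod_cast card_pos.2 ⟨b, hbP⟩
  have h1 : ∑ b' ∈ P \ B, massB μ x (insert b' B) = (P \ B).card * massB μ x (insert b B) := by
    rw [sum_congr rfl (g := fun _ => massB μ x (insert b B)) fun b' hb' => ?_]
    · simp
    · have := mem_sdiff.1 hb'
      exact massB_swap hs x (by simpa [hP, eq_comm] using this.1) hb this.2
  have h2 : ∑ b' ∈ P \ B, massB μ x (insert b' B) ≤ (P \ B).card * (r b * massB μ x B) := by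
    unfold massB
    rw [sum_comm, mul_sum, mul_sum]
    refine sum_le_sum fun F _ => ?_
    by_cases hF : μ F = 0
    · simp [hF]
    by_cases hB : ∀ j ∈ B, F j = x
    · simp only [forall_mem_insert, eq_true hB, and_true, if_true, mul_one]
      rw [← mul_sum, sum_boole]
      have e1 : ((univ.filter fun j => part j = part b ∧ F j = x).card : ℝ) =
          ((P \ B).filter fun j => F j = x).card + (P ∩ B).card := by
        rw [← Nat.cast_add, ← card_union_of_disjoint]
        · congr 2
          ext j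
          simp only [hP, mem_filter, mem_univ, true_and, mem_union, mem_sdiff, mem_inter]
          by_cases hj : j ∈ B
          · simp [hj, hB j hj]
          · simp [hj]
        · exact disjoint_left.2 fun j hj hj' =>
            (mem_sdiff.1 (mem_filter.1 hj).1).2 (mem_inter.1 hj').2
      have e2 : (P.card : ℝ) = (P \ B).card + (P ∩ B).card := by
        exact_mod_cast (card_sdiff_add_card_inter P B).symm
      have e3 := hc F hF b
      rw [e1, ← hP, e2] at e3
      have e4 : r b * (P ∩ B).card ≤ (P ∩ B).card := by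
        have : (0 : ℝ) ≤ (P ∩ B).card := by positivity
        nlinarith [hr b]
      have e5 : (((P \ B).filter fun j => F j = x).card : ℝ) ≤ (P \ B).card * r b := by linarith
      nlinarith [mul_le_mul_of_nonneg_left e5 (h0 F)]
    · simp [hB]
  rw [h1] at h2
  exact le_of_mul_le_mul_left h2 hpos

lemma massB_le {part : ι → κ} {μ : (ι → Bool) → ℝ} (h0 : ∀ F, 0 ≤ μ F)
    (hs : ∀ b b', part b = part b' → ∀ F, μ (F ∘ Equiv.swap b b') = μ F) (x : Bool) (r : ι → ℝ)
    (hr0 : ∀ b, 0 ≤ r b) (hr : ∀ b, r b ≤ 1)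
    (hc : ∀ F, μ F ≠ 0 → ∀ b, ((univ.filter fun j => part j = part b ∧ F j = x).card : ℝ) =
      r b * (univ.filter fun j => part j = part b).card) (B : Finset ι) :
    massB μ x B ≤ (∏ j ∈ B, r j) * ∑ F, μ F := by
  induction B using Finset.induction_on with
  | empty => simp [massB]
  | insert b B hb ih =>
    rw [prod_insert hb, mul_assoc]
    exact (massB_insert h0 hs x r hr hc hb).trans (mul_le_mul_of_nonneg_left ih (hr0 b))

lemma prod_mono_le {part : ι → κ} {μ : (ι → Bool) → ℝ} (h0 : ∀ F, 0 ≤ μ F)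
    (hs : ∀ b b', part b = part b' → ∀ F, μ (F ∘ Equiv.swap b b') = μ F) (x : Bool) (r : ι → ℝ)
    (hr0 : ∀ b, 0 ≤ r b) (hr : ∀ b, r b ≤ 1)
    (hc : ∀ F, μ F ≠ 0 → ∀ b, ((univ.filter fun j => part j = part b ∧ F j = x).card : ℝ) =
      r b * (univ.filter fun j => part j = part b).card) (G : ι → Bool → ℝ) (I : Finset ι)
    (hG : ∀ b y, 0 ≤ G b y) (hI : ∀ b ∈ I, G b (!x) ≤ G b x)
    (hf : ∀ b, r b * G b x + (1 - r b) * G b (!x) ≤ 1) :
    ∑ F, μ F * ∏ b ∈ I, G b (F b) ≤ ∑ F, μ F := by
  have e : ∀ F : ι → Bool, ∏ b ∈ I, G b (F b) = ∑ B ∈ I.powerset,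
      ((∏ b ∈ B, (G b x - G b (!x))) * ∏ b ∈ I \ B, G b (!x)) *
        if ∀ j ∈ B, F j = x then 1 else 0 := fun F => by
    rw [prod_congr rfl (g := fun b => (G b x - G b (!x)) * (if F b = x then 1 else 0) + G b (!x))
      fun b _ => by cases x <;> cases F b <;> simp, prod_add]
    refine sum_congr rfl fun B _ => ?_
    rw [prod_mul_distrib, prod_boole, mul_right_comm]
    congr
  have hM : 0 ≤ ∑ F, μ F := sum_nonneg fun F _ => h0 F
  calc ∑ F, μ F * ∏ b ∈ I, G b (F b)
      = ∑ B ∈ I.powerset, ((∏ b ∈ B, (G b x - G b (!x))) * ∏ b ∈ I \ B, G b (!x)) *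
          massB μ x B := by
        simp only [e, mul_sum, massB]
        rw [sum_comm]
        exact sum_congr rfl fun B _ => sum_congr rfl fun F _ => by ring
    _ ≤ ∑ B ∈ I.powerset, ((∏ b ∈ B, (G b x - G b (!x)) * r b) * ∏ b ∈ I \ B, G b (!x)) *
          ∑ F, μ F := by
        refine sum_le_sum fun B hB => ?_
        have h1 : 0 ≤ (∏ b ∈ B, (G b x - G b (!x))) * ∏ b ∈ I \ B, G b (!x) :=
          mul_nonneg (prod_nonneg fun b hb => sub_nonneg.2 (hI b (mem_powerset.1 hB hb)))
            (prod_nonneg fun b _ => hG _ _)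
        refine (mul_le_mul_of_nonneg_left (massB_le h0 hs x r hr0 hr hc B) h1).trans (le_of_eq ?_)
        rw [prod_mul_distrib]
        ring
    _ = (∏ b ∈ I, ((G b x - G b (!x)) * r b + G b (!x))) * ∑ F, μ F := by
        rw [prod_add, sum_mul]
    _ ≤ 1 * ∑ F, μ F := by
        refine mul_le_mul_of_nonneg_right (prod_le_one (fun b hb => ?_) fun b _ => ?_) hM
        · exact add_nonneg (mul_nonneg (sub_nonneg.2 (hI b hb)) (hr0 b)) (hG _ _)
        · linarith [hf b]
    _ = _ := one_mul _

/-- The fraction of `true` in the part of `b`. -/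
noncomputable def rt (part : ι → κ) (F : ι → Bool) (b : ι) : ℝ :=
  ((univ.filter fun j => part j = part b ∧ F j = true).card : ℝ) /
    (univ.filter fun j => part j = part b).card

omit [DecidableEq ι] in
lemma part_pos (part : ι → κ) (b : ι) :
    (0 : ℝ) < (univ.filter fun j => part j = part b).card := by
  exact_mod_cast card_pos.2 ⟨b, by simp⟩

omit [DecidableEq ι] in
lemma rt_nonneg (part : ι → κ) (F : ι → Bool) (b : ι) : 0 ≤ rt part F b := by
  unfold rt; positivity

omit [DecidableEq ι] in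
lemma rt_le (part : ι → κ) (F : ι → Bool) (b : ι) : rt part F b ≤ 1 := by
  unfold rt
  rw [div_le_one (part_pos part b)]
  exact_mod_cast card_le_card fun j hj => by simp at hj ⊢; exact hj.1

lemma cnt_swap (part : ι → κ) {b b' : ι} (h : part b = part b') (F : ι → Bool) (s : κ) :
    (univ.filter fun j => part j = s ∧ (F ∘ Equiv.swap b b') j = true).card =
      (univ.filter fun j => part j = s ∧ F j = true).card := by
  refine card_bij (fun j _ => Equiv.swap b b' j) (fun j hj => ?_) (fun _ _ _ _ e => by simpa using e)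
    fun j hj => ⟨Equiv.swap b b' j, ?_, by simp⟩
  all_goals
    have hp : ∀ j, part (Equiv.swap b b' j) = part j := fun j => by
      rw [Equiv.swap_apply_def]; split_ifs with h1 h2 <;> simp [*]
    simpa [hp] using hj

lemma lemH_fix {part : ι → κ} {μ : (ι → Bool) → ℝ} (h0 : ∀ F, 0 ≤ μ F)
    (hs : ∀ b b', part b = part b' → ∀ F, μ (F ∘ Equiv.swap b b') = μ F) (r : ι → ℝ)
    (hr0 : ∀ b, 0 ≤ r b) (hr : ∀ b, r b ≤ 1) (hc : ∀ F, μ F ≠ 0 → rt part F = r)
    (G : ι → Bool → ℝ) (hG : ∀ b y, 0 ≤ G b y)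
    (hf : ∀ b, r b * G b true + (1 - r b) * G b false ≤ 1) :
    ∑ F, μ F * √(∏ b, G b (F b)) ≤ ∑ F, μ F := by
  have c1 : ∀ F, μ F ≠ 0 → ∀ b, ((univ.filter fun j => part j = part b ∧ F j = true).card : ℝ) =
      r b * (univ.filter fun j => part j = part b).card := fun F hF b => by
    rw [← hc F hF, rt, div_mul_cancel₀ _ (part_pos part b).ne']
  have c2 : ∀ F, μ F ≠ 0 → ∀ b, ((univ.filter fun j => part j = part b ∧ F j = false).card : ℝ) =
      (1 - r b) * (univ.filter fun j => part j = part b).card := fun F hF b => by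
    have := card_filter_add_card_filter_not (s := univ.filter fun j => part j = part b)
      (fun j => F j = true)
    rw [filter_filter, filter_filter] at this
    simp only [Bool.not_eq_true] at this
    have h3 := congrArg (Nat.cast : ℕ → ℝ) this
    rw [Nat.cast_add, c1 F hF b] at h3
    linarith
  set I := univ.filter fun b => G b false ≤ G b true with hI
  have h1 := prod_mono_le h0 hs true r hr0 hr c1 G I hG (fun b hb => by simpa [hI] using hb) hf
  have h2 := prod_mono_le h0 hs false (fun b => 1 - r b) (fun b => by linarith [hr b])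
    (fun b => by linarith [hr0 b]) c2 G Iᶜ hG
    (fun b hb => by have : G b true < G b false := by simpa [hI] using hb
                    exact this.le) (fun b => by simpa [add_comm] using hf b)
  have h3 : ∀ F : ι → Bool, √(∏ b, G b (F b)) ≤
      (∏ b ∈ I, G b (F b) + ∏ b ∈ Iᶜ, G b (F b)) / 2 := fun F => by
    have a1 : 0 ≤ ∏ b ∈ I, G b (F b) := prod_nonneg fun b _ => hG _ _
    have a2 : 0 ≤ ∏ b ∈ Iᶜ, G b (F b) := prod_nonneg fun b _ => hG _ _
    rw [← prod_mul_prod_compl I]
    refine Real.sqrt_le_iff.2 ⟨by positivity, ?_⟩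
    nlinarith [sq_nonneg (∏ b ∈ I, G b (F b) - ∏ b ∈ Iᶜ, G b (F b))]
  refine (sum_le_sum fun F _ => mul_le_mul_of_nonneg_left (h3 F) (h0 F)).trans ?_
  simp only [← mul_div_assoc, mul_add, add_div, sum_add_distrib, ← sum_div]
  linarith

end Pool.Agent.P.MP_5c258a_lc.Bin
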