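import Pool.Agent.P.MP_5c258a_lc.Bin.Nrm
import Pool.Agent.P.MP_5c258a_lc.Bin.HypA

/-! Task HYP: Lemma H on an orbit, and invariance of operators on orbits (paper section 1). -/

namespace Pool.Agent.P.MP_5c258a_lc.Bin

open Finset Classical

variable {n : ℕ}

/-- Bitwise sum. -/
def xr (u F : Fin n → Bool) : Fin n → Bool := fun b => xor (F b) (u b)

lemma xr_inv (u : Fin n → Bool) : Function.Involutive (xr u) := fun F => by
  funext b; simp [xr]

lemma ca_xr (u v F : Fin n → Bool) :
    ca u v (xr u F) = (univ.filter fun j => xr u v j = false ∧ F j = true).card := by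
  unfold ca
  congr 1
  ext b
  simp only [xr, mem_filter, mem_univ, true_and]
  cases u b <;> cases v b <;> cases F b <;> simp

lemma cb_xr (u v F : Fin n → Bool) :
    cb u v (xr u F) = (univ.filter fun j => xr u v j = true ∧ F j = true).card := by
  unfold cb
  congr 1
  ext b
  simp only [xr, mem_filter, mem_univ, true_and]
  cases u b <;> cases v b <;> cases F b <;> simp

lemma rt_xr (u v F : Fin n → Bool) (b : Fin n) :
    rt (xr u v) F b = if u b = v b then alf u v (xr u F) else bet u v (xr u F) := by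
  unfold rt alf bet
  rw [ca_xr, cb_xr]
  split_ifs with h
  · have : xr u v b = false := by simp [xr, h]
    rw [this]
    congr 3
    ext j
    simp only [xr, mem_filter, mem_univ, true_and]
    cases u j <;> cases v j <;> simp
  · have : xr u v b = true := by
      revert h; unfold xr; cases u b <;> cases v b <;> simp
    rw [this]
    congr 3
    ext j
    simp only [xr, mem_filter, mem_univ, true_and]
    cases u j <;> cases v j <;> simp

lemma mem_orb {u v y y' : Fin n → Bool} :
    y' ∈ orb u v y ↔ ca u v y' = ca u v y ∧ cb u v y' = cb u v y := by simp [orb]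

lemma alf_orb {u v y y' : Fin n → Bool} (h : y' ∈ orb u v y) : alf u v y' = alf u v y := by
  rw [alf, alf, (mem_orb.1 h).1]

lemma bet_orb {u v y y' : Fin n → Bool} (h : y' ∈ orb u v y) : bet u v y' = bet u v y := by
  rw [bet, bet, (mem_orb.1 h).2]

/-- Lemma H. -/
theorem lemmaH (u v y0 : Fin n → Bool) (G : Fin n → Bool → ℝ) (h0 : ∀ b x, 0 ≤ G b x)
    (h1 : ∀ b, pbf u v (alf u v y0) (bet u v y0) b * G b true +
      (1 - pbf u v (alf u v y0) (bet u v y0) b) * G b false ≤ 1) :
    ∑ y ∈ orb u v y0, √(∏ b, G b (y b)) ≤ (orb u v y0).card := by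
  have key := lemH_fix (part := xr u v)
    (μ := fun F => if xr u F ∈ orb u v y0 then 1 else 0)
    (fun F => by split_ifs <;> norm_num)
    (fun b b' h F => by simp only [mem_orb, ca_xr, cb_xr, cnt_swap _ h])
    (rt (xr u v) (xr u y0)) (rt_nonneg _ _) (rt_le _ _)
    (fun F hF => by
      have h : xr u F ∈ orb u v y0 := by by_contra h; simp [h] at hF
      funext b
      rw [rt_xr, rt_xr, xr_inv u y0, alf_orb h, bet_orb h])
    (fun b x => G b (xor x (u b))) (fun b x => h0 _ _)
    (fun b => by
      have := h1 b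
      rw [rt_xr, xr_inv u y0]
      revert this
      unfold pbf
      cases u b <;> cases v b <;> simp <;> exact fun h => by linarith)
  have e : ∀ φ : (Fin n → Bool) → ℝ, ∑ y ∈ orb u v y0, φ y =
      ∑ F, (if xr u F ∈ orb u v y0 then 1 else 0) * φ (xr u F) := fun φ => by
    rw [← Equiv.sum_comp (xr_inv u).toPerm]
    simp [xr_inv u _]
  rw [card_eq_sum_ones, Nat.cast_sum, e, e]
  simpa [xr] using key

lemma xr_const {x u : Fin n → Bool} (h : u = x ∨ u = cpl x) : ∃ s, ∀ j, x j = xor (u j) s := by
  rcases h with rfl | rfl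
  · exact ⟨false, by simp⟩
  · exact ⟨true, by simp [cpl]⟩

/-- An unbiased operator applied to `x 0, x 1` is constant on the orbits of `u, v`, where `u`, `v`
are `x 0`, `x 1` or their complements. -/
theorem op_orb (D : Op n 2) (x : Fin 2 → Fin n → Bool) (u v : Fin n → Bool)
    (hu : u = x 0 ∨ u = cpl (x 0)) (hv : v = x 1 ∨ v = cpl (x 1)) (y y' : Fin n → Bool)
    (h : y' ∈ orb u v y) : D.p x y' = D.p x y := by
  obtain ⟨F, rfl⟩ := (xr_inv u).surjective y
  obtain ⟨F', rfl⟩ := (xr_inv u).surjective y'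
  rw [mem_orb, ca_xr, ca_xr, cb_xr, cb_xr] at h
  have c1 : ∀ s, (univ.filter fun j => xr u v j = s ∧ F j = true).card =
      (univ.filter fun j => xr u v j = s ∧ F' j = true).card := fun s => by
    cases s
    exacts [h.1.symm, h.2.symm]
  have c2 : ∀ (s : Bool) (F : Fin n → Bool), (univ.filter fun j => xr u v j = s ∧ F j = true).card +
      (univ.filter fun j => xr u v j = s ∧ F j = false).card =
      (univ.filter fun j => xr u v j = s).card := fun s F => by
    simpa [filter_filter] using card_filter_add_card_filter_not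
      (s := univ.filter fun j => xr u v j = s) (fun j => F j = true)
  have c3 : ∀ c : Bool × Bool, Fintype.card {j // (xr u v j, F j) = c} =
      Fintype.card {j // (xr u v j, F' j) = c} := fun ⟨s, t⟩ => by
    rw [Fintype.card_subtype, Fintype.card_subtype]
    simp only [Prod.mk.injEq]
    cases t
    · have := c1 s
      have := c2 s F
      have := c2 s F'
      omega
    · exact c1 s
  let π : Equiv.Perm (Fin n) := Equiv.ofFiberEquiv fun c => Fintype.equivOfCardEq (c3 c)
  have hπ : ∀ j, (xr u v (π j), F' (π j)) = (xr u v j, F j) := fun j =>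
    Equiv.ofFiberEquiv_map (fun c => Fintype.equivOfCardEq (c3 c)) j
  obtain ⟨s, hs⟩ := xr_const hu
  obtain ⟨t, ht⟩ := xr_const hv
  rw [← op_sp D π (fun j => xor (u (π j)) (u j)) x]
  congr 1
  · funext i j
    have := (Prod.mk.inj (hπ j)).1
    revert this
    fin_cases i
    · simp only [sp, Fin.zero_eta, hs]
      cases u (π j) <;> cases u j <;> cases s <;> simp
    · simp only [sp, Fin.mk_one, ht, xr]
      cases u (π j) <;> cases u j <;> cases v (π j) <;> cases v j <;> cases t <;> simp
  · funext j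
    simp only [sp, xr, (Prod.mk.inj (hπ j)).2]
    cases u (π j) <;> cases u j <;> cases F j <;> rfl

lemma cpl_inv : Function.Involutive (cpl (n := n)) := fun y => by
  funext b; simp [cpl]

lemma ca_cpl (u v y : Fin n → Bool) :
    ca u v (cpl y) + ca u v y = (univ.filter fun b => u b = v b).card := by
  rw [← card_filter_add_card_filter_not (fun b => y b = u b), filter_filter, filter_filter, ca, ca]
  congr 2
  ext b
  simp only [cpl, mem_filter, mem_univ, true_and]
  cases y b <;> cases u b <;> simp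

lemma cb_cpl (u v y : Fin n → Bool) :
    cb u v (cpl y) + cb u v y = (univ.filter fun b => u b ≠ v b).card := by
  rw [← card_filter_add_card_filter_not (fun b => y b = u b), filter_filter, filter_filter, cb, cb]
  congr 2
  ext b
  simp only [cpl, mem_filter, mem_univ, true_and]
  cases y b <;> cases u b <;> simp

lemma sum_orb_cpl (u v y0 : Fin n → Bool) (φ : (Fin n → Bool) → ℝ) :
    ∑ y ∈ orb u v y0, φ (cpl y) = ∑ y ∈ orb u v (cpl y0), φ y := by
  refine sum_bijective cpl cpl_inv.bijective (fun y => ?_) fun _ _ => rfl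
  have := ca_cpl u v y
  have := ca_cpl u v y0
  have := cb_cpl u v y
  have := cb_cpl u v y0
  rw [mem_orb, mem_orb]
  omega

/-- One step: orbit averages at most `M` give expectation at most `M` after normalising. -/
theorem step_le (D : Op n 2) (x : Fin 2 → Fin n → Bool) (O : Finset (Fin n)) (u v : Fin n → Bool)
    (hu : u = x 0 ∨ u = cpl (x 0)) (hv : v = x 1 ∨ v = cpl (x 1)) (Ψ : (Fin n → Bool) → ℝ) (M : ℝ)
    (h : ∀ y0, ∑ y ∈ orb u v y0, Ψ y ≤ (orb u v y0).card * M) :
    ∑ y, D.p x y * Ψ (nz O u v y) ≤ M := by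
  have hm : ∀ y ∈ (univ : Finset (Fin n → Bool)), (ca u v y, cb u v y) ∈
      univ.image fun y => (ca u v y, cb u v y) := fun y _ => mem_image_of_mem _ (mem_univ _)
  have e : M = ∑ y, D.p x y * M := by rw [← sum_mul, D.sum_one, one_mul]
  rw [e, ← sum_fiberwise_of_maps_to hm, ← sum_fiberwise_of_maps_to hm fun y => D.p x y * M]
  refine sum_le_sum fun c hc => ?_
  obtain ⟨y0, -, rfl⟩ := mem_image.1 hc
  have ho : (univ.filter fun y => (ca u v y, cb u v y) = (ca u v y0, cb u v y0)) = orb u v y0 := by
    ext y; simp [orb]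
  have hp : ∀ φ : (Fin n → Bool) → ℝ, ∑ y ∈ orb u v y0, D.p x y * φ y =
      D.p x y0 * ∑ y ∈ orb u v y0, φ y := fun φ => by
    rw [mul_sum]
    exact sum_congr rfl fun y hy => by rw [op_orb D x u v hu hv y0 y hy]
  rw [ho, hp, hp]
  refine mul_le_mul_of_nonneg_left ?_ (D.nonneg _ _)
  by_cases hc : (O.card : ℝ) / 2 ≤ ∑ b ∈ O, pbf u v (alf u v y0) (bet u v y0) b
  · rw [sum_congr rfl (g := Ψ) fun y hy => by rw [nz, alf_orb hy, bet_orb hy, if_pos hc]]
    simpa using h y0
  · rw [sum_congr rfl (g := fun y => Ψ (cpl y)) fun y hy => by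
      rw [nz, alf_orb hy, bet_orb hy, if_neg hc], sum_orb_cpl, sum_orb_cpl u v y0 fun _ => M]
    simpa using h (cpl y0)

lemma alf_nonneg (u v y : Fin n → Bool) : 0 ≤ alf u v y := by unfold alf; positivity

lemma alf_le_one (u v y : Fin n → Bool) : alf u v y ≤ 1 := by
  exact div_le_one_of_le₀ (Nat.cast_le.2 ((Nat.le_add_left _ _).trans (ca_cpl u v y).le))
    (by positivity)

lemma bet_nonneg (u v y : Fin n → Bool) : 0 ≤ bet u v y := by unfold bet; positivity

lemma bet_le_one (u v y : Fin n → Bool) : bet u v y ≤ 1 := by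
  exact div_le_one_of_le₀ (Nat.cast_le.2 ((Nat.le_add_left _ _).trans (cb_cpl u v y).le))
    (by positivity)

lemma pbf_cpl (u v y : Fin n → Bool) (b : Fin n) :
    pbf u v (alf u v (cpl y)) (bet u v (cpl y)) b = 1 - pbf u v (alf u v y) (bet u v y) b := by
  unfold pbf
  by_cases h : u b = v b
  · have hp : (0 : ℝ) < (univ.filter fun b => u b = v b).card := by
      exact_mod_cast card_pos.2 ⟨b, by simp [h]⟩
    have : alf u v (cpl y) = 1 - alf u v y := by
      rw [alf, alf, eq_sub_iff_add_eq, ← add_div, div_eq_one_iff_eq hp.ne']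
      exact_mod_cast ca_cpl u v y
    rw [if_pos h, if_pos h, this]
    split_ifs <;> ring
  · have hp : (0 : ℝ) < (univ.filter fun b => u b ≠ v b).card := by
      exact_mod_cast card_pos.2 ⟨b, by simp [h]⟩
    have : bet u v (cpl y) = 1 - bet u v y := by
      rw [bet, bet, eq_sub_iff_add_eq, ← add_div, div_eq_one_iff_eq hp.ne']
      exact_mod_cast cb_cpl u v y
    rw [if_neg h, if_neg h, this]
    split_ifs <;> ring

theorem nrm_WF (A : BAlg n) (O : Finset (Fin n)) (xs : List (Fin n → Bool)) :
    (nrm A O xs).WF where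
  u_lt w hw := lt_of_le_of_lt (min_le_right _ _) (by omega)
  v_lt w hw := lt_of_le_of_lt (min_le_right _ _) (by omega)
  al0 _ := alf_nonneg _ _ _
  al1 _ := alf_le_one _ _ _
  be0 _ := bet_nonneg _ _ _
  be1 _ := bet_le_one _ _ _

lemma half_le {O : Finset (Fin n)} {a a' : Fin n → ℝ} (h : ¬(O.card : ℝ) / 2 ≤ ∑ b ∈ O, a b)
    (e : ∀ b, a' b = 1 - a b) : (O.card : ℝ) / 2 ≤ ∑ b ∈ O, a' b := by
  simp only [e, sum_sub_distrib, sum_const, nsmul_eq_mul, mul_one]
  linarith [not_le.1 h]

theorem nrm_Norm (A : BAlg n) (O : Finset (Fin n)) (xs : List (Fin n → Bool)) :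
    (nrm A O xs).Norm O where
  n0 := by
    simp only [Tr.bt, nrm, nc_zero, nz0]
    by_cases h : (O.card : ℝ) / 2 ≤
        ∑ b ∈ O, (if xs.getD 0 (fun _ => false) b = true then 1 else 0)
    · rwa [if_pos h]
    · rw [if_neg h]
      refine half_le h fun b => ?_
      generalize xs.getD 0 (fun _ => false) = y
      by_cases hb : y b = true <;> simp [cpl, hb]
  nw w hw := by
    obtain ⟨w, rfl⟩ := Nat.exists_eq_succ_of_ne_zero hw.ne'
    simp only [pb_eq_pbf, nrm, Nat.succ_eq_add_one, nc_succ, nz]
    split_ifs with h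
    · exact h
    · exact half_le h (pbf_cpl _ _ _)

theorem nc_cases (A : BAlg n) (O : Finset (Fin n)) (xs : List (Fin n → Bool)) (w : ℕ) :
    nc A O xs w = xs.getD w (fun _ => false) ∨ nc A O xs w = cpl (xs.getD w fun _ => false) := by
  cases w
  · rw [nc_zero, nz0]; split_ifs <;> simp
  · rw [nc_succ, nz]; split_ifs <;> simp

end Pool.Agent.P.MP_5c258a_lc.Bin
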