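import Pool.Agent.P.MP_5c258a_lc.Bin.Tr

/-! The three machines (paper section 6, MACHINES): definitions. `c = 10000`. -/

namespace Pool.Agent.P.MP_5c258a_lc.Bin

/-- State of a machine: estimate `x` and scale `lam`. -/
structure MS where
  x : ℝ
  lam : ℝ

noncomputable def bR (x : Bool) : ℝ := if x = true then 1 else 0

noncomputable def psi (a : ℝ) : ℝ := a ^ 2 / (1 + |a|)

/-- Factor of case U; `vt` is the normalised stake, `p` the probability of a one. -/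
noncomputable def GU (vt p : ℝ) (x : Bool) : ℝ :=
  if -1 / 2 ≤ vt * (1 - p) ∧ -1 / 2 ≤ vt * (0 - p) then
    (1 + vt * (bR x - p) / 2 - psi (vt * (bR x - p)) / 16) *
      (1 + (p * psi (vt * (1 - p)) + (1 - p) * psi (vt * (0 - p))) / 16)
  else 1

/-- Factor of case D. -/
noncomputable def GD (vt F p : ℝ) (x : Bool) : ℝ :=
  if F ≤ 6 then
    if |vt| ≤ 1 / 2 then
      (1 + vt * (bR x - p) / 2) * (1 + 8 * F ^ 2 * (bR x - p) ^ 2) / (1 + 10 * F ^ 2 * (p * (1 - p)))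
    else 1
  else (1 + bR x * F) / (1 + p * F)

noncomputable def den : Ty → MS → ℝ
  | .A, s => 9999 + s.x / s.lam
  | .H, s => 10000 + s.x
  | .L, _ => 10000

noncomputable def rr : Ty → ℝ → ℝ
  | .A, p => p
  | .H, _ => 1 / 2
  | .L, _ => 1 / 2

noncomputable def pre : Ty → MS → ℝ → ℝ → MS
  | .A, s, Q, p => ⟨s.x, max s.lam (Q * p / 3)⟩
  | .H, s, _, _ => s
  | .L, s, _, _ => s

noncomputable def post : Ty → MS → ℝ → MS
  | .A, s, d => ⟨s.x + d, max s.lam |s.x + d|⟩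
  | .H, s, d => ⟨max (-1) (min 4 (s.x + d)), s.lam⟩
  | .L, s, _ => s

noncomputable def ini : Ty → ℝ → MS
  | .A, lam => ⟨lam, lam⟩
  | .H, lam => ⟨2, lam⟩
  | .L, lam => ⟨0, lam⟩

/-- The shift between the partial sum and the true value `X`. -/
noncomputable def base : Ty → ℝ → ℝ
  | .A, lam => lam
  | .H, _ => 2
  | .L, _ => 0

noncomputable def Phi : Ty → MS → ℝ → ℝ → ℝ
  | .A, s, X, _ => (Real.log (9999 + s.x / s.lam) + Real.log s.lam / 10000) / 2 +
      Real.log (1 + (max 0 ((X - s.x) / s.lam)) ^ 2) / 256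
  | .H, s, X, Q => Real.log (10000 + s.x) / 2 + (s.x - X) ^ 2 / 1000 + cH * Q
  | .L, s, X, Q => cA * X / s.lam - Q / s.lam ^ 2

def MInv : Ty → MS → Prop
  | .A, s => 0 < s.lam ∧ |s.x| ≤ s.lam
  | .H, s => s.lam = 1 ∧ -1 ≤ s.x ∧ s.x ≤ 4
  | .L, s => 0 < s.lam

/-- What is true about the step: `X` before, weight `q`, probability `p`, outcome `x`. -/
def TOK : Ty → MS → ℝ → ℝ → ℝ → Bool → Prop
  | .A, _, X, q, p, _ => q * p ≤ X
  | .H, _, X, q, p, x => q ≤ 1 ∧ 0 ≤ X ∧ X ≤ 3 ∧ 0 ≤ X + q * (bR x - p) ∧ X + q * (bR x - p) ≤ 3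
  | .L, s, _, q, _, _ => q ≤ s.lam

noncomputable def pay (F p : ℝ) : ℝ := p * (1 - p) * (F * min F 6)

/-- Log factor minus potential after the step, case U, stake `qt`, upper grid value `Q`. -/
noncomputable def valU (ty : Ty) (s : MS) (Q p X QV q qt : ℝ) (x : Bool) : ℝ :=
  Real.log (GU (qt / ((pre ty s Q p).lam * den ty (pre ty s Q p))) p x) -
    Phi ty (post ty (pre ty s Q p) (qt * (bR x - p))) (X + q * (bR x - p))
      (QV + q ^ 2 * ((bR x - p) ^ 2 + p * (1 - p)))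

/-- The stake actually used in case D. -/
noncomputable def qD (s : MS) (Q qt : ℝ) : ℝ := if Q / s.lam ≤ 6 then qt else 0

noncomputable def valD (ty : Ty) (s : MS) (Q p X QV q qt : ℝ) (x : Bool) : ℝ :=
  Real.log (GD (qt / (s.lam * den ty s)) (Q / s.lam) p x) -
    Phi ty (post ty s (qD s Q qt * (bR x - p))) (X + q * (bR x - p))
      (QV + q ^ 2 * ((bR x - p) ^ 2 + p * (1 - p)))

/-- Three modes with probabilities `π` and stakes `qt` around the true weight `q`: error at most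
`D`, bias at most `θ'`. -/
structure Modes (π qt : Fin 3 → ℝ) (q D θ' : ℝ) : Prop where
  nn : ∀ m, 0 ≤ π m
  one : ∑ m, π m = 1
  near : ∀ m, |qt m - q| ≤ D
  bias : |∑ m, π m * qt m - q| ≤ θ'

/-- Common hypotheses of a step. -/
structure Sit (ty : Ty) (s : MS) (Q p X q θ θ' : ℝ) (x : Bool) : Prop where
  inv : MInv ty s
  p0 : 0 ≤ p
  p1 : p ≤ 1
  Q0 : 0 ≤ Q
  q0 : 0 ≤ q
  t0 : 0 ≤ θ
  t1 : θ ≤ s.lam / 1000
  t2 : 0 ≤ θ'
  tok : TOK ty s X q p x

/-- The inequality (U). -/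
def StepU (ty : Ty) : Prop :=
  ∀ (s : MS) (Q p X QV q θ θ' : ℝ) (x : Bool) (π qt : Fin 3 → ℝ), Sit ty s Q p X q θ θ' x →
    Modes π qt q (Q / 100000 + θ) θ' → |Q - q| ≤ Q / 100000 + θ →
    1 / 2 ≤ π 0 + π 1 → Q / 2 ≤ qt 0 → Q / 2 ≤ qt 1 →
    1 / 10 ^ 12 * (pay (Q / (pre ty s Q p).lam) p + Real.log ((pre ty s Q p).lam / s.lam))
      - 10 * (θ / s.lam) ^ 2 - 10 * (θ' / s.lam) ≤
      ∑ m, π m * valU ty s Q p X QV q (qt m) x + Phi ty s X QV

/-- The inequality (D). -/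
def StepD (ty : Ty) : Prop :=
  ∀ (s : MS) (Q p X QV q θ θ' : ℝ) (x : Bool) (π qt : Fin 3 → ℝ), Sit ty s Q p X q θ θ' x →
    Modes π qt q (2 * Q + θ) θ' → q ≤ 2 * Q + θ → Q * rr ty p ≤ 3 * s.lam →
    -11 * pay (Q / s.lam) p - 10 * (θ / s.lam) ^ 2 - 10 * (θ' / s.lam) ≤
      ∑ m, π m * valD ty s Q p X QV q (qt m) x + Phi ty s X QV

theorem mach_realize : True := by
  have := @den.eq_1; have := @den.eq_2; have := @den.eq_3
  have := @rr.eq_1; have := @rr.eq_2; have := @rr.eq_3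
  have := @pre.eq_1; have := @pre.eq_2; have := @pre.eq_3
  have := @post.eq_1; have := @post.eq_2; have := @post.eq_3
  have := @ini.eq_1; have := @ini.eq_2; have := @ini.eq_3
  have := @base.eq_1; have := @base.eq_2; have := @base.eq_3
  have := @Phi.eq_1; have := @Phi.eq_2; have := @Phi.eq_3
  have := @MInv.eq_1; have := @MInv.eq_2; have := @MInv.eq_3
  have := @TOK.eq_1; have := @TOK.eq_2; have := @TOK.eq_3
  trivial

end Pool.Agent.P.MP_5c258a_lc.Bin
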