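import Pool.Agent.P.MP_5c258a_lc.Bin.MachAA

/-! Task MACHA: the machine of type A (paper section 6: h, RAISE, (U), (D)). -/

namespace Pool.Agent.P.MP_5c258a_lc.Bin

open Real

namespace MA

theorem sq_bound {a b e c : ℝ} (he : |e| ≤ 1) (hc : 2 * a ^ 2 ≤ c ^ 2) :
    log (1 + ((a + b) * |e|) ^ 2) ≤ log (1 + (c * e) ^ 2) + 2 * b ^ 2 := by
  have e1 : e ^ 2 ≤ 1 := by rw [← sq_abs]; nlinarith [abs_nonneg e]
  have h1 : ((a + b) * |e|) ^ 2 ≤ (c * e) ^ 2 + 2 * b ^ 2 := by
    rw [mul_pow, mul_pow, sq_abs]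
    have : (a + b) ^ 2 ≤ c ^ 2 + 2 * b ^ 2 := by nlinarith [sq_nonneg (a - b)]
    nlinarith [sq_nonneg e, sq_nonneg b, mul_le_mul_of_nonneg_right this (sq_nonneg e)]
  refine le_trans (log_le_log (by positivity) (by linarith)) (log_add_le (sq_nonneg _) (by positivity))

theorem lin_bound {w qt : Fin 3 → ℝ} {q D θ' k e l l1 : ℝ} (hm : Modes w qt q D θ') (hk : |k| ≤ 1)
    (he : |e| ≤ 1) (hl : 0 < l) (hl1 : l ≤ l1) :
    ∑ m, w m * (k * ((q - qt m) * e / l1)) ≤ θ' / l := by
  have e1 : ∑ m, w m * (k * ((q - qt m) * e / l1)) = -(k * e) * (∑ m, w m * qt m - q) / l1 := by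
    have := hm.one
    simp only [Fin.sum_univ_three] at this ⊢
    have h2 : w 2 = 1 - w 0 - w 1 := by linarith
    rw [h2]; ring
  have t0 : 0 ≤ θ' := (abs_nonneg _).trans hm.bias
  have h1 : -(k * e) * (∑ m, w m * qt m - q) ≤ θ' := by
    refine (le_abs_self _).trans ?_
    rw [abs_mul, abs_neg, abs_mul]
    have := mul_le_mul (mul_le_mul hk he (abs_nonneg _) zero_le_one) hm.bias (abs_nonneg _) (by norm_num)
    linarith
  rw [e1]
  exact (div_le_div_of_nonneg_right h1 (by linarith)).trans (div_le_div_of_nonneg_left t0 hl hl1)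

theorem near_d {q qt D e l : ℝ} (h : |qt - q| ≤ D) (hl : 0 < l) :
    |(q - qt) * e / l| ≤ D / l * |e| := by
  rw [abs_div, abs_mul, abs_of_pos hl, abs_sub_comm, div_mul_eq_mul_div]
  exact div_le_div_of_nonneg_right (mul_le_mul_of_nonneg_right h (abs_nonneg e)) hl.le

theorem pay_le {F v : ℝ} (hF : 0 ≤ F) (hv : F / 20000 ≤ v) :
    F * min F 6 / (4 * 10 ^ 8) ≤ |v| * min |v| 1 := by
  have v0 : 0 ≤ v := le_trans (by positivity) hv
  rw [abs_of_nonneg v0]
  have h1 : min F 6 / 20000 ≤ min v 1 := by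
    refine le_min (le_trans ?_ hv) ?_
    · linarith [min_le_left F 6]
    · linarith [min_le_right F 6]
  have h0 : 0 ≤ min F 6 := le_min hF (by norm_num)
  have := mul_le_mul hv h1 (by positivity) v0
  linarith

end MA

open MA

theorem stepU_A : StepU .A := by
  rintro ⟨x, l⟩ Q p X QV q θ θ' c w qt hs hm hQ hw01 h0 h1
  obtain ⟨⟨hl, hx⟩, p0, p1, Q0, q0, t0, t1, t2, tok⟩ := hs
  simp only [TOK] at tok
  simp only at hl hx t1
  simp only [valU, pre, post, den, phi_eq]
  set l1 := max l (Q * p / 3) with hl1d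
  have hl1 : l ≤ l1 := le_max_left _ _
  have hQp : Q * p ≤ 3 * l1 := by linarith [le_max_right l (Q * p / 3)]
  have l1p : 0 < l1 := by linarith
  have hx1 := abs_le.1 hx
  have hQ1 := abs_le.1 hQ
  have he := xi_abs p0 p1 c
  set e := bR c - p with hed
  have hr : 1 ≤ l1 / l := by rw [le_div_iff₀ hl]; linarith
  have lr := log_nonneg hr
  have s0 : PA x l1 X ≤ PA x l X - log (l1 / l) / 512 := by
    rcases le_total (Q * p / 3) l with h | h
    · have : l1 = l := max_eq_left h
      rw [this, div_self hl.ne', log_one]; linarith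
    · have e1 : l1 = Q * p / 3 := max_eq_right h
      have e2 : l1 / l * l = l1 := by field_simp
      have := raise_lag (x := x) (X := X) hl hr (by linarith) (by rw [e2]; nlinarith)
      rwa [e2] at this
  have hu : -1 ≤ x / l1 := by rw [le_div_iff₀ l1p]; linarith
  have hu' : x / l1 ≤ 1 := by rw [div_le_iff₀ l1p]; linarith
  set dn := 9999 + x / l1 with hdn
  have d0 : 9998 ≤ dn := by linarith
  have d1 : dn ≤ 10000 := by linarith
  have ld : 0 < l1 * dn := by positivity
  set F := Q / l1 with hF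
  have F0 : 0 ≤ F := by positivity
  have hlow : ∀ m, ∀ c', -4 * l1 ≤ qt m * (bR c' - p) := by
    intro m c'
    have := abs_le.1 (hm.near m)
    cases c' <;> simp only [bR] <;> norm_num <;> nlinarith
  have hhalf : ∀ m, ∀ c', -1 / 2 ≤ qt m / (l1 * dn) * (bR c' - p) := by
    intro m c'
    rw [div_mul_eq_mul_div, le_div_iff₀ ld]
    nlinarith [hlow m c']
  obtain ⟨k, hk, hkk⟩ := hh_step ((X - x) / l1) ((Q / 100000 + θ) / l1 * |e|)
  set W := log (1 + (F / 20000 * e) ^ 2) / 64 + p * (1 - p) * (F * min F 6 / (4 * 10 ^ 8)) / 64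
    with hW
  have var0 : 0 ≤ p * (1 - p) := mul_nonneg p0 (by linarith)
  set R := log (1 + ((Q / 100000 + θ) / l1 * |e|) ^ 2) with hR
  set g : Fin 3 → ℝ := fun m => log (1 + (qt m / (l1 * dn) * e) ^ 2) / 64 +
    p * (1 - p) * (|qt m / (l1 * dn)| * min |qt m / (l1 * dn)| 1) / 64 with hg
  have g0 : ∀ m, 0 ≤ g m := by
    intro m
    have := log_nonneg (show 1 ≤ 1 + (qt m / (l1 * dn) * e) ^ 2 by nlinarith [sq_nonneg (qt m / (l1 * dn) * e)])
    have h2 : 0 ≤ min |qt m / (l1 * dn)| 1 := le_min (abs_nonneg _) zero_le_one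
    simp only [hg]; positivity
  have gW : ∀ m, Q / 2 ≤ qt m → W ≤ g m := by
    intro m h
    have hv : F / 20000 ≤ qt m / (l1 * dn) := by
      rw [le_div_iff₀ ld]
      have : F * l1 = Q := by rw [hF]; field_simp
      nlinarith
    have a1 := mul_le_mul_of_nonneg_left (pay_le F0 hv) var0
    have a2 : log (1 + (F / 20000 * e) ^ 2) ≤ log (1 + (qt m / (l1 * dn) * e) ^ 2) := by
      refine log_le_log (by positivity) ?_
      rw [mul_pow, mul_pow]
      have := pow_le_pow_left₀ (by positivity) hv 2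
      nlinarith [sq_nonneg e]
    simp only [hg, hW]; linarith
  have key : ∀ m, g m - PA x l1 X - (k * ((q - qt m) * e / l1) + 2 * R) / 256 ≤
      log (GU (qt m / (l1 * dn)) p c) -
        PA (x + qt m * e) (max l1 |x + qt m * e|) (X + q * e) := by
    intro m
    have a1 := log_GU p0 p1 (by simpa [bR] using hhalf m true) (by simpa [bR] using hhalf m false) c
    have a2 := PA_move (x := x) (X := X) (q := q) (qt := qt m) (e := e) l1p (by linarith)
      (after_nonneg q0 tok c) (by linarith [hlow m c])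
    have a3 := hkk _ (near_d (e := e) (hm.near m) l1p)
    simp only [hg]
    rw [← hed] at a1
    rw [← hdn] at a2
    linarith
  have hRb : R ≤ log (1 + (F / 20000 * e) ^ 2) + 2 * (θ / l) ^ 2 := by
    have e1 : (Q / 100000 + θ) / l1 = F / 100000 + θ / l1 := by rw [hF]; ring
    have a1 := sq_bound (a := F / 100000) (b := θ / l1) (c := F / 20000) he (by nlinarith [sq_nonneg F])
    have a2 : (θ / l1) ^ 2 ≤ (θ / l) ^ 2 :=
      pow_le_pow_left₀ (by positivity) (div_le_div_of_nonneg_left t0 hl hl1) 2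
    rw [hR, e1]; linarith
  have lin := lin_bound hm hk he hl hl1
  have W0 : 0 ≤ W := by
    have := log_nonneg (show 1 ≤ 1 + (F / 20000 * e) ^ 2 by nlinarith [sq_nonneg (F / 20000 * e)])
    have h2 : 0 ≤ min F 6 := le_min F0 (by norm_num)
    simp only [hW]; positivity
  have sW : W / 2 ≤ ∑ m, w m * g m := by
    simp only [Fin.sum_univ_three]
    nlinarith [mul_le_mul_of_nonneg_left (gW 0 h0) (hm.nn 0), mul_le_mul_of_nonneg_left (gW 1 h1) (hm.nn 1),
      mul_nonneg (hm.nn 2) (g0 2)]
  have tot := Finset.sum_le_sum fun m (_ : m ∈ Finset.univ) => mul_le_mul_of_nonneg_left (key m) (hm.nn m)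
  have e3 : ∑ m, w m * (g m - PA x l1 X - (k * ((q - qt m) * e / l1) + 2 * R) / 256) =
      ∑ m, w m * g m - PA x l1 X - (∑ m, w m * (k * ((q - qt m) * e / l1)) + 2 * R) / 256 := by
    have := hm.one
    simp only [Fin.sum_univ_three] at this ⊢
    have h2 : w 2 = 1 - w 0 - w 1 := by linarith
    rw [h2]; ring
  rw [e3] at tot
  have pay0 : 0 ≤ p * (1 - p) * (F * min F 6) := by
    have h2 : 0 ≤ min F 6 := le_min F0 (by norm_num)
    positivity
  have th0 : 0 ≤ θ' / l := by positivity
  simp only [pay]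
  nlinarith [sq_nonneg (θ / l)]

theorem stepD_A : StepD .A := by
  rintro ⟨x, l⟩ Q p X QV q θ θ' c w qt hs hm hQ hcap
  obtain ⟨⟨hl, hx⟩, p0, p1, Q0, q0, t0, t1, t2, tok⟩ := hs
  simp only [TOK] at tok
  simp only [rr] at hl hx t1 hcap
  simp only [valD, post, den, qD, phi_eq]
  have hx1 := abs_le.1 hx
  have he := xi_abs p0 p1 c
  have hX' := after_nonneg q0 tok c
  set F := Q / l with hF
  have F0 : 0 ≤ F := by positivity
  have hFl : F * l = Q := by rw [hF]; field_simp
  have var0 : 0 ≤ p * (1 - p) := mul_nonneg p0 (by linarith)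
  have th0 : 0 ≤ θ' / l := by positivity
  have hu : -1 ≤ x / l := by rw [le_div_iff₀ hl]; linarith
  set dn := 9999 + x / l with hdn
  have d0 : 9998 ≤ dn := by linarith
  have ld : 0 < l * dn := by positivity
  by_cases h6 : F ≤ 6
  · simp only [if_pos h6]
    set e := bR c - p with hed
    have hab : ∀ m, |qt m| ≤ 25 * l := by
      intro m
      have := abs_le.1 (hm.near m)
      rw [abs_le]; constructor <;> nlinarith
    obtain ⟨k, hk, hkk⟩ := hh_step ((X - x) / l) ((2 * Q + θ) / l * |e|)
    set R := log (1 + ((2 * Q + θ) / l * |e|) ^ 2) with hR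
    set S := log (1 + 8 * F ^ 2 * e ^ 2) with hS
    have S0 : 0 ≤ S := log_nonneg (by nlinarith [mul_nonneg (sq_nonneg F) (sq_nonneg e)])
    have key : ∀ m, S - 10 * F ^ 2 * (p * (1 - p)) - PA x l X - (k * ((q - qt m) * e / l) + 2 * R) / 256 ≤
        log (GD (qt m / (l * dn)) F p c) -
          PA (x + qt m * e) (max l |x + qt m * e|) (X + q * e) := by
      intro m
      have hv : |qt m / (l * dn)| ≤ 1 / 2 := by
        rw [abs_div, abs_of_pos ld, div_le_iff₀ ld]; nlinarith [hab m]
      have a1 := log_GD_small p0 p1 h6 hv c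
      have hlow : -29 * l ≤ qt m * e := by
        have := mul_le_mul (hab m) he (abs_nonneg _) (by positivity)
        rw [← abs_mul] at this
        linarith [neg_abs_le (qt m * e)]
      have a2 := PA_move (x := x) (X := X) (q := q) (qt := qt m) (e := e) hl hx hX' hlow
      have a3 := hkk _ (near_d (e := e) (hm.near m) hl)
      rw [← hed] at a1
      rw [← hdn] at a2
      linarith
    have hRb : R ≤ S + 2 * (θ / l) ^ 2 := by
      have e1 : (2 * Q + θ) / l = 2 * F + θ / l := by rw [hF]; ring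
      have a1 := sq_bound (a := 2 * F) (b := θ / l) (c := √8 * F) he
        (by rw [mul_pow √8, sq_sqrt (by norm_num)]; nlinarith)
      have e2 : (√8 * F * e) ^ 2 = 8 * F ^ 2 * e ^ 2 := by
        rw [mul_pow, mul_pow, sq_sqrt (by norm_num)]
      rw [e2] at a1
      rw [hR, e1]; exact a1
    have lin := lin_bound hm hk he hl le_rfl
    have tot := Finset.sum_le_sum fun m (_ : m ∈ Finset.univ) => mul_le_mul_of_nonneg_left (key m) (hm.nn m)
    have e3 : ∑ m, w m * (S - 10 * F ^ 2 * (p * (1 - p)) - PA x l X -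
          (k * ((q - qt m) * e / l) + 2 * R) / 256) =
        S - 10 * F ^ 2 * (p * (1 - p)) - PA x l X -
          (∑ m, w m * (k * ((q - qt m) * e / l)) + 2 * R) / 256 := by
      have := hm.one
      simp only [Fin.sum_univ_three] at this ⊢
      have h2 : w 2 = 1 - w 0 - w 1 := by linarith
      rw [h2]; ring
    rw [e3] at tot
    simp only [pay, min_eq_left h6]
    nlinarith [sq_nonneg (θ / l), mul_nonneg (sq_nonneg F) var0]
  · simp only [if_neg h6]
    replace h6 : 6 < F := lt_of_not_ge h6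
    have hpF : p * F ≤ 3 := by
      have : p * F * l ≤ 3 * l := by nlinarith
      exact le_of_mul_le_mul_right this hl
    have hp2 : p ≤ 1 / 2 := by nlinarith
    have a2 := raise_post (x := x + 0 * (bR c - p)) (X := X + q * (bR c - p)) hl (by linarith) hX'
    have a3 : PA (x + 0 * (bR c - p)) l (X + q * (bR c - p)) ≤ PA x l X + log (1 + bR c * F) := by
      simp only [zero_mul, add_zero, PA]
      have e2 : (X + q * (bR c - p) - x) / l = (X - x) / l + q * (bR c - p) / l := by ring
      rw [e2]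
      cases c
      · have : q * (bR false - p) / l ≤ 0 :=
          div_nonpos_of_nonpos_of_nonneg (by simp only [bR]; norm_num; positivity) hl.le
        have := hh_mono (show (X - x) / l + q * (bR false - p) / l ≤ (X - x) / l by linarith)
        simp only [bR] at this ⊢
        norm_num at this ⊢
        linarith
      · have b1 : q * (bR true - p) / l ≤ 2 * F + 1 := by
          rw [div_le_iff₀ hl]; simp only [bR]; norm_num; nlinarith [mul_nonneg q0 p0]
        have b2 := hh_big (e := (X - x) / l) b1 (by linarith)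
        have b3 : log (1 + (2 * F + 1) ^ 2) ≤ 4 * log (1 + F) := by
          have : 1 + (2 * F + 1) ^ 2 ≤ (1 + F) ^ 4 := by nlinarith [pow_pos (show 0 < F by linarith) 3, pow_pos (show 0 < F by linarith) 4]
          have := log_le_log (by positivity) this
          rw [log_pow] at this
          exact_mod_cast this
        have b4 := log_nonneg (show 1 ≤ 1 + F by linarith)
        have e4 : bR true * F = F := by simp [bR]
        rw [e4]
        linarith
    have key : ∀ m, -(p * F) - PA x l X ≤ log (GD (qt m / (l * dn)) F p c) -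
        PA (x + 0 * (bR c - p)) (max l |x + 0 * (bR c - p)|) (X + q * (bR c - p)) := by
      intro m
      have := log_GD_big (qt m / (l * dn)) p0 p1 h6 c
      linarith
    have tot := Finset.sum_le_sum fun m (_ : m ∈ Finset.univ) => mul_le_mul_of_nonneg_left (key m) (hm.nn m)
    rw [← Finset.sum_mul, hm.one, one_mul] at tot
    simp only [pay, min_eq_right h6.le]
    nlinarith [sq_nonneg (θ / l), mul_nonneg p0 F0]

end Pool.Agent.P.MP_5c258a_lc.Bin
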