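import Pool.Agent.P.MP_5c258a_lc.Bin.MachG

/-! Task MACHA, auxiliary file: the lag function and the raises of the scale. -/

namespace Pool.Agent.P.MP_5c258a_lc.Bin.MA

open Real

noncomputable def cc : ℝ := 10000

noncomputable def hh (e : ℝ) : ℝ := log (1 + (max e 0) ^ 2)

noncomputable def PA (x l X : ℝ) : ℝ :=
  (log (cc - 1 + x / l) + log l / cc) / 2 + hh ((X - x) / l) / 256

theorem phi_eq (x l X Q : ℝ) : Phi .A ⟨x, l⟩ X Q = PA x l X := by
  simp only [Phi, PA, hh, cc, max_comm]
  norm_num

theorem log_ge_div {t : ℝ} (ht : -1 < t) : t / (1 + t) ≤ log (1 + t) := by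
  have h : 0 < 1 + t := by linarith
  have := Real.one_sub_inv_le_log_of_pos h
  have e : t / (1 + t) = 1 - (1 + t)⁻¹ := by field_simp; ring
  linarith

theorem log_ge_half {t : ℝ} (h0 : 0 ≤ t) (h1 : t ≤ 1) : t / 2 ≤ log (1 + t) := by
  have := log_ge_div (t := t) (by linarith)
  have h2 : t / 2 ≤ t / (1 + t) := div_le_div_of_nonneg_left h0 (by linarith) (by linarith)
  linarith

theorem log_le_self {t : ℝ} (ht : -1 < t) : log (1 + t) ≤ t := by
  have := Real.log_le_sub_one_of_pos (x := 1 + t) (by linarith)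
  linarith

theorem log_add_le {s t : ℝ} (hs : 0 ≤ s) (ht : 0 ≤ t) : log (1 + (s + t)) ≤ log (1 + s) + t := by
  have h1 : log (1 + (s + t)) ≤ log ((1 + s) * (1 + t)) :=
    log_le_log (by linarith) (by nlinarith [mul_nonneg hs ht])
  rw [log_mul (by linarith) (by linarith)] at h1
  have := log_le_self (t := t) (by linarith)
  linarith

theorem log_bern (n : ℕ) {a : ℝ} (ha : 0 ≤ a) : log (1 + n * a) ≤ n * log (1 + a) := by
  have b := one_add_mul_le_pow (a := a) (by linarith) n
  have := log_le_log (by positivity) b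
  rwa [log_pow] at this

theorem hh_mono {e e' : ℝ} (h : e ≤ e') : hh e ≤ hh e' := by
  unfold hh
  refine log_le_log (by positivity) ?_
  have := pow_le_pow_left₀ (le_max_right e 0) (max_le_max_right 0 h) 2
  linarith

theorem hh_nonneg (e : ℝ) : 0 ≤ hh e := log_nonneg (by nlinarith [sq_nonneg (max e 0)])

theorem hh_big {e d D : ℝ} (hd : d ≤ D) (hD : 1 ≤ D) : hh (e + d) ≤ hh e + 2 * log (1 + D ^ 2) := by
  unfold hh
  set t := max e 0 with ht
  have t0 : 0 ≤ t := le_max_right _ _
  have h1 : max (e + d) 0 ≤ t + D := max_le (by linarith [le_max_left e 0]) (by linarith)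
  have h2 := pow_le_pow_left₀ (le_max_right (e + d) 0) h1 2
  have h3 : 1 + (t + D) ^ 2 ≤ (1 + t ^ 2) * (1 + D ^ 2) ^ 2 := by
    have a1 : (t + D) ^ 2 ≤ (1 + t ^ 2) * (1 + D ^ 2) := by nlinarith [sq_nonneg (1 - t * D)]
    have a2 : 1 ≤ (1 + t ^ 2) * (1 + D ^ 2) := by nlinarith [sq_nonneg t, sq_nonneg D, mul_nonneg (sq_nonneg t) (sq_nonneg D)]
    have a3 : 2 ≤ 1 + D ^ 2 := by nlinarith
    nlinarith
  have h4 := log_le_log (by positivity) (show 1 + (max (e + d) 0) ^ 2 ≤ (1 + t ^ 2) * (1 + D ^ 2) ^ 2 by linarith)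
  rw [log_mul (by positivity) (by positivity), log_pow] at h4
  exact_mod_cast h4

theorem hh_step (e D : ℝ) : ∃ k : ℝ, |k| ≤ 1 ∧ ∀ d, |d| ≤ D →
    hh (e + d) ≤ hh e + k * d + 2 * log (1 + D ^ 2) := by
  by_cases hD : D ≤ 1
  · set t := max e 0 with ht
    have t0 : 0 ≤ t := le_max_right _ _
    refine ⟨2 * t / (1 + t ^ 2), ?_, fun d hd => ?_⟩
    · rw [abs_of_nonneg (by positivity), div_le_one (by positivity)]; nlinarith [sq_nonneg (1 - t)]
    · have D0 : 0 ≤ D := (abs_nonneg d).trans hd
      have h1 : (max (e + d) 0) ^ 2 ≤ (t + d) ^ 2 := by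
        rcases le_total (e + d) 0 with h | h
        · rw [max_eq_right h]; nlinarith [sq_nonneg (t + d)]
        · rw [max_eq_left h]; exact pow_le_pow_left₀ h (by linarith [le_max_left e 0]) 2
      have h2 : hh (e + d) - hh e ≤ (2 * t * d + d ^ 2) / (1 + t ^ 2) := by
        unfold hh
        rw [← ht, ← log_div (by positivity) (by positivity)]
        refine (Real.log_le_sub_one_of_pos (by positivity)).trans ?_
        rw [div_sub_one (by positivity)]
        exact div_le_div_of_nonneg_right (by nlinarith) (by positivity)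
      have h3 : d ^ 2 / (1 + t ^ 2) ≤ d ^ 2 := div_le_self (sq_nonneg d) (by nlinarith [sq_nonneg t])
      have h4 : d ^ 2 ≤ D ^ 2 := by rw [← sq_abs d]; exact pow_le_pow_left₀ (abs_nonneg d) hd 2
      have h5 := log_ge_half (t := D ^ 2) (sq_nonneg D) (by nlinarith)
      have e1 : (2 * t * d + d ^ 2) / (1 + t ^ 2) = 2 * t / (1 + t ^ 2) * d + d ^ 2 / (1 + t ^ 2) := by ring
      linarith
  · refine ⟨0, by simp, fun d hd => ?_⟩
    have := hh_big (e := e) ((le_abs_self d).trans hd) (le_of_not_ge hD)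
    linarith

theorem raise_up {x l X : ℝ} (hl : 0 < l) (hx : l ≤ x) :
    PA x x X ≤ PA x l X := by
  have x0 : 0 < x := by linarith
  simp only [PA]
  have h1 : hh ((X - x) / x) ≤ hh ((X - x) / l) := by
    rcases le_total (X - x) 0 with h | h
    · have : hh ((X - x) / x) = 0 := by
        unfold hh; rw [max_eq_right (div_nonpos_of_nonpos_of_nonneg h x0.le)]; simp
      rw [this]; exact hh_nonneg _
    · exact hh_mono (div_le_div_of_nonneg_left h hl hx)
  set u := x / l with hu
  have u1 : 1 ≤ u := by rw [hu, le_div_iff₀ hl]; linarith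
  have h2 : log x = log u + log l := by rw [hu, log_div x0.ne' hl.ne']; ring
  have h3 : log u ≤ 10000 * log (1 + (u - 1) / 10000) := by
    have b := log_bern 10000 (a := (u - 1) / 10000) (by linarith)
    have e : (1 + ((10000 : ℕ) : ℝ) * ((u - 1) / 10000)) = u := by push_cast; ring
    rw [e] at b
    exact_mod_cast b
  have h4 : log (cc - 1 + u) = log cc + log (1 + (u - 1) / 10000) := by
    rw [← log_mul (by unfold cc; norm_num) (by linarith)]; unfold cc; congr 1; ring
  rw [div_self x0.ne', h2, h4, show cc - 1 + 1 = cc by ring]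
  unfold cc at *
  linarith

theorem raise_lag {x l X r : ℝ} (hl : 0 < l) (hr : 1 ≤ r) (hx : |x| ≤ 30 * l)
    (hlag : r * l ≤ X - x) : PA x (r * l) X ≤ PA x l X - log r / 512 := by
  simp only [PA]
  have r0 : 0 < r := by linarith
  set u := x / l with hu
  set t := (X - x) / l with ht
  have e1 : x / (r * l) = u / r := by rw [hu]; field_simp
  have e2 : (X - x) / (r * l) = t / r := by rw [ht]; field_simp
  have hu30 : |u| ≤ 30 := by rw [hu, abs_div, abs_of_pos hl, div_le_iff₀ hl]; exact hx
  have htr : r ≤ t := by rw [ht, le_div_iff₀ hl]; exact hlag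
  have lr : 0 ≤ log r := log_nonneg hr
  have h1 : hh (t / r) ≤ hh t - log r := by
    unfold hh
    set s := t / r with hs
    have s1 : 1 ≤ s := by rw [hs, le_div_iff₀ r0]; linarith
    have e : t = r * s := by rw [hs]; field_simp
    rw [max_eq_left (by linarith), max_eq_left (by linarith), e]
    have : r * (1 + s ^ 2) ≤ 1 + (r * s) ^ 2 := by
      have : 0 ≤ (r - 1) * (r * s ^ 2 - 1) := mul_nonneg (by linarith) (by nlinarith)
      nlinarith
    have := log_le_log (by positivity) this
    rw [log_mul r0.ne' (by positivity)] at this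
    linarith
  have h2 : log (cc - 1 + u / r) ≤ log (cc - 1 + u) + 30 / 9969 * log r := by
    have a1 : 1 - r⁻¹ ≤ log r := Real.one_sub_inv_le_log_of_pos r0
    have a0 : 0 ≤ 1 - r⁻¹ := by have := inv_le_one_of_one_le₀ hr; linarith
    have a2 : u / r ≤ u + 30 * log r := by
      have := (abs_le.1 hu30).1
      rw [div_eq_mul_inv]; nlinarith
    have d0 : 9969 ≤ cc - 1 + u := by unfold cc; linarith [(abs_le.1 hu30).1]
    have a3 : 0 < cc - 1 + u / r := by
      have : |u / r| ≤ 30 := by
        rw [abs_div, abs_of_pos r0]; exact (div_le_self (abs_nonneg u) hr).trans hu30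
      unfold cc; linarith [(abs_le.1 this).1]
    have a4 : cc - 1 + u / r ≤ (cc - 1 + u) * (1 + 30 / 9969 * log r) := by nlinarith
    have := log_le_log a3 a4
    rw [log_mul (by linarith) (by positivity)] at this
    have := log_le_self (t := 30 / 9969 * log r) (by linarith [mul_nonneg (show (0:ℝ) ≤ 30 / 9969 by norm_num) lr])
    linarith
  rw [e1, e2, log_mul r0.ne' hl.ne']
  unfold cc at *
  linarith

theorem raise_post {x l X : ℝ} (hl : 0 < l) (hx : -30 * l ≤ x) (hX : 0 ≤ X) :
    PA x (max l |x|) X ≤ PA x l X := by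
  rcases le_total |x| l with h | h
  · rw [max_eq_left h]
  · rw [max_eq_right h]
    rcases abs_cases x with h1 | h1
    · rw [h1.1] at h ⊢; exact raise_up hl h
    · have e : |x| = (|x| / l) * l := by field_simp
      have r1 : 1 ≤ |x| / l := by rw [le_div_iff₀ hl]; linarith
      have := raise_lag (x := x) (X := X) hl r1 (by linarith [h1.1]) (by linarith [h1.1])
      rw [← e] at this
      linarith [log_nonneg r1]

theorem PA_move {x l X q qt e : ℝ} (hl : 0 < l) (hx : |x| ≤ l) (hX : 0 ≤ X + q * e)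
    (hlow : -29 * l ≤ qt * e) :
    PA (x + qt * e) (max l |x + qt * e|) (X + q * e) ≤
      PA x l X + log (1 + qt / (l * (9999 + x / l)) * e) / 2 +
        (hh ((X - x) / l + (q - qt) * e / l) - hh ((X - x) / l)) / 256 := by
  have hx1 := abs_le.1 hx
  refine (raise_post hl (by linarith) hX).trans (le_of_eq ?_)
  have hu : -1 ≤ x / l := by rw [le_div_iff₀ hl]; linarith
  have hv : -29 ≤ qt * e / l := by rw [le_div_iff₀ hl]; linarith
  have d0 : 0 < 9999 + x / l := by linarith
  have e1 : cc - 1 + (x + qt * e) / l = (9999 + x / l) * (1 + qt / (l * (9999 + x / l)) * e) := by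
    have : (9999 + x / l) * (qt / (l * (9999 + x / l)) * e) = qt * e / l := by
      generalize 9999 + x / l = D at d0
      field_simp
    rw [mul_add, this]; unfold cc; ring
  have e0 : cc - 1 + x / l = 9999 + x / l := by unfold cc; ring
  have p1 : 0 < 1 + qt / (l * (9999 + x / l)) * e := by
    have : 0 < cc - 1 + (x + qt * e) / l := by rw [add_div]; unfold cc; linarith
    rw [e1] at this
    exact (pos_iff_pos_of_mul_pos this).1 d0
  have e2 : (X + q * e - (x + qt * e)) / l = (X - x) / l + (q - qt) * e / l := by ring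
  simp only [PA]
  rw [e1, e2, e0, log_mul d0.ne' p1.ne']
  ring

theorem xi_abs {p : ℝ} (h0 : 0 ≤ p) (h1 : p ≤ 1) (x : Bool) : |bR x - p| ≤ 1 := by
  cases x <;> simp only [bR] <;> rw [abs_le] <;> constructor <;> norm_num <;> linarith

theorem after_nonneg {p q X : ℝ} (q0 : 0 ≤ q) (h : q * p ≤ X) (x : Bool) :
    0 ≤ X + q * (bR x - p) := by
  cases x <;> simp only [bR] <;> norm_num <;> nlinarith

end Pool.Agent.P.MP_5c258a_lc.Bin.MA
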