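import Pool.Agent.P.MP_5c258a_lc.Bin.MachG

/-! Task MACHH: the machine of type H (paper section 6). -/

namespace Pool.Agent.P.MP_5c258a_lc.Bin

lemma H_clamp {y Z : ℝ} (hy : -20 ≤ y) (h0 : 0 ≤ Z) (h3 : Z ≤ 3) :
    Real.log (10000 + max (-1) (min 4 y)) / 2 + (max (-1) (min 4 y) - Z) ^ 2 / 1000 ≤
      Real.log (10000 + y) / 2 + (y - Z) ^ 2 / 1000 := by
  rcases le_total y (-1) with h | h
  · have e : max (-1 : ℝ) (min 4 y) = -1 := by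
      rw [min_eq_right (by linarith), max_eq_left h]
    rw [e]
    have hp : 0 < 10000 + y := by linarith
    have h1 : Real.log ((10000 + -1) / (10000 + y)) ≤ (10000 + -1) / (10000 + y) - 1 :=
      Real.log_le_sub_one_of_pos (by positivity)
    rw [Real.log_div (by norm_num) hp.ne'] at h1
    have h2 : (10000 + -1) / (10000 + y) ≤ 1 + (-1 - y) / 1000 := by
      rw [div_le_iff₀ hp]
      nlinarith [mul_nonneg (sub_nonneg.2 h) (sub_nonneg.2 hy)]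
    nlinarith [mul_nonneg (sub_nonneg.2 h) h0, sq_nonneg (y + 1)]
  · rcases le_total y 4 with h' | h'
    · rw [min_eq_right h', max_eq_right h]
    · have e : max (-1 : ℝ) (min 4 y) = 4 := by
        rw [min_eq_left h', max_eq_right (by norm_num)]
      rw [e]
      have h1 : Real.log (10000 + 4) ≤ Real.log (10000 + y) :=
        Real.log_le_log (by norm_num) (by linarith)
      have h2 : (4 - Z) ^ 2 ≤ (y - Z) ^ 2 := pow_le_pow_left₀ (by linarith) (by linarith) 2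
      exact add_le_add (div_le_div_of_nonneg_right h1 (by norm_num))
        (div_le_div_of_nonneg_right h2 (by norm_num))

/-- The change of the potential in one step. -/
lemma H_core {s : MS} (hs : MInv .H s) {X QV q qt ξ w : ℝ} (h0 : 0 ≤ X + q * ξ)
    (h3 : X + q * ξ ≤ 3) (hd : -19 ≤ qt * ξ) :
    Phi .H (post .H s (qt * ξ)) (X + q * ξ) (QV + w) ≤
      Phi .H s X QV + Real.log (1 + qt / (s.lam * den .H s) * ξ) / 2 +
        (2 * ((s.x - X) * ξ) * (qt - q) + (qt - q) ^ 2 * ξ ^ 2) / 1000 + cH * w := by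
  obtain ⟨hl, h1, h4⟩ := hs
  have hc := H_clamp (y := s.x + qt * ξ) (by linarith) h0 h3
  have hp : 0 < 10000 + s.x := by linarith
  have e : 1 + qt / (s.lam * den .H s) * ξ = (10000 + (s.x + qt * ξ)) / (10000 + s.x) := by
    simp only [den, hl]
    field_simp
    ring
  rw [e, Real.log_div (by linarith) hp.ne']
  simp only [Phi, post]
  linarith [hc]

lemma H_xi_abs {p : ℝ} (h0 : 0 ≤ p) (h1 : p ≤ 1) (x : Bool) : |bR x - p| ≤ 1 := by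
  rw [abs_le]
  cases x <;> simp [bR] <;> constructor <;> linarith

lemma H_log_ge {t B : ℝ} (h0 : 0 ≤ t) (hB : t ≤ B) : t / (1 + B) ≤ Real.log (1 + t) := by
  have h := Real.one_sub_inv_le_log_of_pos (x := 1 + t) (by linarith)
  have e : 1 - (1 + t)⁻¹ = t / (1 + t) := by
    field_simp
    ring
  rw [e] at h
  exact le_trans (div_le_div_of_nonneg_left h0 (by linarith) (by linarith)) h

lemma H_bias {π qt : Fin 3 → ℝ} {q D θ' c : ℝ} (hM : Modes π qt q D θ') (hc : |c| ≤ 4) :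
    ∑ m, π m * (c * (qt m - q)) ≤ 4 * θ' := by
  have e : ∑ m, π m * (c * (qt m - q)) = c * (∑ m, π m * qt m - q) := by
    have := hM.one
    simp only [Fin.sum_univ_three] at this ⊢
    linear_combination (-(c * q)) * this
  rw [e]
  refine (le_abs_self _).trans ?_
  rw [abs_mul]
  exact mul_le_mul hc hM.bias (abs_nonneg _) (by norm_num)

lemma H_c {x X ξ : ℝ} (h1 : -1 ≤ x) (h4 : x ≤ 4) (h0 : 0 ≤ X) (h3 : X ≤ 3) (hξ : |ξ| ≤ 1) :
    |(x - X) * ξ| ≤ 4 := by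
  rw [abs_mul]
  have : |x - X| ≤ 4 := abs_le.2 ⟨by linarith, by linarith⟩
  nlinarith [abs_nonneg ξ, abs_nonneg (x - X)]

lemma H_sq1 {ξ : ℝ} (h : |ξ| ≤ 1) : ξ ^ 2 ≤ 1 := (sq_le_one_iff_abs_le_one ξ).2 h

lemma H_var1 {p : ℝ} : p * (1 - p) ≤ 1 := by nlinarith [sq_nonneg (p - 1 / 2)]

lemma H_low {a ξ : ℝ} (ha : |a| ≤ 15) (hξ : |ξ| ≤ 1) : -19 ≤ a * ξ := by
  have : |a * ξ| ≤ 15 * 1 := by
    rw [abs_mul]
    exact mul_le_mul ha hξ (abs_nonneg _) (by norm_num)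
  linarith [(abs_le.1 this).1]

lemma H_half {v c : ℝ} (hv : |v| ≤ 1 / 2) (hc : |c| ≤ 1) : -1 / 2 ≤ v * c := by
  have : |v * c| ≤ 1 / 2 * 1 := by
    rw [abs_mul]
    exact mul_le_mul hv hc (abs_nonneg _) (by norm_num)
  linarith [(abs_le.1 this).1]

lemma H_sq_add {a b c : ℝ} (h : |c| ≤ a + b) : c ^ 2 ≤ 2 * a ^ 2 + 2 * b ^ 2 := by
  have : c ^ 2 ≤ (a + b) ^ 2 := by
    rw [← sq_abs]
    exact pow_le_pow_left₀ (abs_nonneg _) h 2
  nlinarith [sq_nonneg (a - b)]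

lemma H_quarter {Q a : ℝ} (h0 : 0 ≤ Q) (h : Q / 2 ≤ a) : Q ^ 2 / 4 ≤ a ^ 2 := by
  have : (Q / 2) ^ 2 ≤ a ^ 2 := pow_le_pow_left₀ (by linarith) h 2
  linarith

/-- One mode of case U. -/
lemma H_modeU {s : MS} {Q p X QV q θ θ' : ℝ} {x : Bool} (h : Sit .H s Q p X q θ θ' x) {qt : ℝ}
    (hQ : |Q - q| ≤ Q / 100000 + θ) (hn : |qt - q| ≤ Q / 100000 + θ) :
    qt ^ 2 * ((bR x - p) ^ 2 + p * (1 - p)) / (13 * 10 ^ 9)
      - 2 / 1000 * ((s.x - X) * (bR x - p) * (qt - q))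
      - (5 / 10 ^ 13 * (Q ^ 2 * ((bR x - p) ^ 2 + p * (1 - p))) + θ ^ 2) ≤
      valU .H s Q p X QV q qt x + Phi .H s X QV := by
  obtain ⟨hl, h1, h4⟩ := h.inv
  obtain ⟨hq1, -, -, hX0, hX3⟩ := h.tok
  have hξ := H_xi_abs h.p0 h.p1 x
  have hθ : θ ≤ 1 / 1000 := by simpa [hl] using h.t1
  have t0 := h.t0
  have Q0 := h.Q0
  have q0 := h.q0
  have p0 := h.p0
  have p1 := h.p1
  obtain ⟨hQa, hQb⟩ := abs_le.1 hQ
  obtain ⟨hna, hnb⟩ := abs_le.1 hn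
  have hQ2 : Q ≤ 2 := by linarith
  have hqt : |qt| ≤ 2 := abs_le.2 ⟨by linarith, by linarith⟩
  set ξ := bR x - p with hξd
  set vt := qt / (s.lam * den .H s) with hvt
  have hden : s.lam * den .H s = 10000 + s.x := by simp [den, hl]
  have hp : 0 < 10000 + s.x := by linarith
  have hv : |vt| ≤ 1 / 2 := by
    rw [hvt, hden, abs_div, abs_of_pos hp, div_le_iff₀ hp]
    linarith
  have hG := log_GU (vt := vt) p0 p1 (H_half hv (abs_le.2 ⟨by linarith, by linarith⟩))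
    (H_half hv (abs_le.2 ⟨by linarith, by linarith⟩)) x
  have hd : -19 ≤ qt * ξ := H_low (by linarith) hξ
  have hC := H_core (QV := QV) (w := q ^ 2 * (ξ ^ 2 + p * (1 - p))) h.inv hX0 hX3 hd
  rw [min_eq_left (by linarith), ← sq, sq_abs] at hG
  have hξ2 : ξ ^ 2 ≤ 1 := H_sq1 hξ
  have hvar : 0 ≤ p * (1 - p) := mul_nonneg p0 (by linarith)
  have hvar1 : p * (1 - p) ≤ 1 := H_var1
  have hv2 : vt ^ 2 ≤ 1 := H_sq1 (by linarith)
  have hL := H_log_ge (t := (vt * ξ) ^ 2) (B := 1) (sq_nonneg _) (by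
    rw [mul_pow]
    exact mul_le_one₀ hv2 (sq_nonneg _) hξ2)
  have hvq : qt ^ 2 / (101 * 10 ^ 6) ≤ vt ^ 2 := by
    rw [hvt, hden, div_pow]
    refine div_le_div_of_nonneg_left (sq_nonneg _) (by positivity) ?_
    have : (10000 + s.x) ^ 2 ≤ (10004 : ℝ) ^ 2 := pow_le_pow_left₀ hp.le (by linarith) 2
    linarith
  have a1 : qt ^ 2 / (101 * 10 ^ 6) * ξ ^ 2 ≤ (vt * ξ) ^ 2 := by
    rw [mul_pow]
    exact mul_le_mul_of_nonneg_right hvq (sq_nonneg _)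
  have a2 : p * (1 - p) * (qt ^ 2 / (101 * 10 ^ 6)) ≤ p * (1 - p) * vt ^ 2 :=
    mul_le_mul_of_nonneg_left hvq hvar
  have a3 : (qt - q) ^ 2 ≤ 2 * Q ^ 2 / 10 ^ 10 + 2 * θ ^ 2 := by
    linarith [H_sq_add hn]
  have a4 : q ^ 2 ≤ 3 * Q ^ 2 + 2 * θ ^ 2 := by
    have := H_sq_add (a := Q + Q / 100000) (b := θ) (c := q) (by rw [abs_of_nonneg q0]; linarith)
    linarith [sq_nonneg Q]
  have a5 : (qt - q) ^ 2 * ξ ^ 2 ≤ (2 * Q ^ 2 / 10 ^ 10 + 2 * θ ^ 2) * ξ ^ 2 :=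
    mul_le_mul_of_nonneg_right a3 (sq_nonneg _)
  have a6 : q ^ 2 * (ξ ^ 2 + p * (1 - p)) ≤ (3 * Q ^ 2 + 2 * θ ^ 2) * (ξ ^ 2 + p * (1 - p)) :=
    mul_le_mul_of_nonneg_right a4 (by positivity)
  have a7 : θ ^ 2 * ξ ^ 2 ≤ θ ^ 2 := mul_le_of_le_one_right (sq_nonneg _) hξ2
  have a8 : θ ^ 2 * (p * (1 - p)) ≤ θ ^ 2 := mul_le_of_le_one_right (sq_nonneg _) hvar1
  have a9 : 0 ≤ Q ^ 2 * (p * (1 - p)) := by positivity
  have a10 : 0 ≤ qt ^ 2 * (p * (1 - p)) := by positivity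
  have a11 : 0 ≤ qt ^ 2 * ξ ^ 2 := by positivity
  have a12 : 0 ≤ θ ^ 2 := sq_nonneg _
  unfold valU
  simp only [pre]
  rw [← hξd, ← hvt]
  rw [← hvt] at hC
  rw [← hξd] at hG
  unfold cH at hC
  linarith [hC, hG, hL, a1, a2, a5, a6, a7, a8, a9, a10, a11, a12]

theorem stepU_H : StepU .H := by
  intro s Q p X QV q θ θ' x π qt h hM hQ hπ h0 h1
  obtain ⟨hl, hx1, hx4⟩ := h.inv
  obtain ⟨hq1, hX0, hX3, -, -⟩ := h.tok
  have hξ := H_xi_abs h.p0 h.p1 x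
  have hθ : θ ≤ 1 / 1000 := by simpa [hl] using h.t1
  have hb := H_bias hM (H_c hx1 hx4 hX0 hX3 hξ)
  have m0 := mul_le_mul_of_nonneg_left (H_modeU (QV := QV) h hQ (hM.near 0)) (hM.nn 0)
  have m1 := mul_le_mul_of_nonneg_left (H_modeU (QV := QV) h hQ (hM.near 1)) (hM.nn 1)
  have m2 := mul_le_mul_of_nonneg_left (H_modeU (QV := QV) h hQ (hM.near 2)) (hM.nn 2)
  have hone := hM.one
  have Q0 := h.Q0
  have hQ2 : Q ≤ 6 := by linarith [(abs_le.1 hQ).2, h.t0]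
  have hvar : 0 ≤ p * (1 - p) := mul_nonneg h.p0 (by linarith [h.p1])
  simp only [Fin.sum_univ_three] at hone hb ⊢
  simp only [pre, hl, div_one, Real.log_one, add_zero, pay, min_eq_left hQ2]
  set W := (bR x - p) ^ 2 + p * (1 - p) with hW
  have hW0 : 0 ≤ W := by positivity
  have b0 : π 0 * (Q ^ 2 / 4 * W) ≤ π 0 * (qt 0 ^ 2 * W) :=
    mul_le_mul_of_nonneg_left (mul_le_mul_of_nonneg_right (H_quarter Q0 h0) hW0) (hM.nn 0)
  have b1 : π 1 * (Q ^ 2 / 4 * W) ≤ π 1 * (qt 1 ^ 2 * W) :=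
    mul_le_mul_of_nonneg_left (mul_le_mul_of_nonneg_right (H_quarter Q0 h1) hW0) (hM.nn 1)
  have b2 : 0 ≤ π 2 * (qt 2 ^ 2 * W) := mul_nonneg (hM.nn 2) (by positivity)
  have b3 : 1 / 2 * (Q ^ 2 / 4 * W) ≤ (π 0 + π 1) * (Q ^ 2 / 4 * W) :=
    mul_le_mul_of_nonneg_right hπ (by positivity)
  have b4 : p * (1 - p) * (Q * Q) ≤ Q ^ 2 * W := by
    rw [hW]
    linarith [mul_nonneg (sq_nonneg Q) (sq_nonneg (bR x - p))]
  have b5 : 0 ≤ Q ^ 2 * W := by positivity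
  have e1 : (π 0 + π 1 + π 2) * Phi .H s X QV = Phi .H s X QV := by rw [hone, one_mul]
  have e2 : (π 0 + π 1 + π 2) * (5 / 10 ^ 13 * (Q ^ 2 * W) + θ ^ 2) =
      5 / 10 ^ 13 * (Q ^ 2 * W) + θ ^ 2 := by rw [hone, one_mul]
  have t2 := h.t2
  have t3 := sq_nonneg θ
  linarith [m0, m1, m2, hb, b0, b1, b2, b3, b4, b5, e1, e2, t2, t3]

/-- One mode of case D. -/
lemma H_modeD {s : MS} {Q p X QV q θ θ' : ℝ} {x : Bool} (h : Sit .H s Q p X q θ θ' x) {qt : ℝ}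
    (hQ : q ≤ 2 * Q + θ) (hn : |qt - q| ≤ 2 * Q + θ) (h6 : Q ≤ 6) :
    - 2 / 1000 * ((s.x - X) * (bR x - p) * (qt - q))
      - (11 * (p * (1 - p) * (Q * Q)) + θ ^ 2) ≤
      valD .H s Q p X QV q qt x + Phi .H s X QV := by
  obtain ⟨hl, h1, h4⟩ := h.inv
  obtain ⟨hq1, -, -, hX0, hX3⟩ := h.tok
  have hξ := H_xi_abs h.p0 h.p1 x
  have hθ : θ ≤ 1 / 1000 := by simpa [hl] using h.t1
  have t0 := h.t0
  have Q0 := h.Q0
  have q0 := h.q0
  have p0 := h.p0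
  have p1 := h.p1
  obtain ⟨hna, hnb⟩ := abs_le.1 hn
  have hqt : |qt| ≤ 15 := abs_le.2 ⟨by linarith, by linarith⟩
  set ξ := bR x - p with hξd
  set vt := qt / (s.lam * den .H s) with hvt
  have hden : s.lam * den .H s = 10000 + s.x := by simp [den, hl]
  have hp : 0 < 10000 + s.x := by linarith
  have hv : |vt| ≤ 1 / 2 := by
    rw [hvt, hden, abs_div, abs_of_pos hp, div_le_iff₀ hp]
    linarith
  have hG := log_GD_small (vt := vt) p0 p1 h6 hv x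
  have hd : -19 ≤ qt * ξ := H_low hqt hξ
  have hC := H_core (QV := QV) (w := q ^ 2 * (ξ ^ 2 + p * (1 - p))) h.inv hX0 hX3 hd
  have hξ2 : ξ ^ 2 ≤ 1 := H_sq1 hξ
  have hvar : 0 ≤ p * (1 - p) := mul_nonneg p0 (by linarith)
  have hvar1 : p * (1 - p) ≤ 1 := H_var1
  have hL := H_log_ge (t := 8 * Q ^ 2 * ξ ^ 2) (B := 288) (by positivity) (by
    have h36 : Q ^ 2 ≤ 6 ^ 2 := pow_le_pow_left₀ Q0 h6 2
    have := mul_le_of_le_one_right (sq_nonneg Q) hξ2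
    linarith)
  have a3 : (qt - q) ^ 2 ≤ 8 * Q ^ 2 + 2 * θ ^ 2 := by
    linarith [H_sq_add hn]
  have a4 : q ^ 2 ≤ 8 * Q ^ 2 + 2 * θ ^ 2 := by
    linarith [H_sq_add (c := q) (by rw [abs_of_nonneg q0]; exact hQ)]
  have a5 : (qt - q) ^ 2 * ξ ^ 2 ≤ (8 * Q ^ 2 + 2 * θ ^ 2) * ξ ^ 2 :=
    mul_le_mul_of_nonneg_right a3 (sq_nonneg _)
  have a6 : q ^ 2 * (ξ ^ 2 + p * (1 - p)) ≤ (8 * Q ^ 2 + 2 * θ ^ 2) * (ξ ^ 2 + p * (1 - p)) :=
    mul_le_mul_of_nonneg_right a4 (by positivity)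
  have a7 : θ ^ 2 * ξ ^ 2 ≤ θ ^ 2 := mul_le_of_le_one_right (sq_nonneg _) hξ2
  have a8 : θ ^ 2 * (p * (1 - p)) ≤ θ ^ 2 := mul_le_of_le_one_right (sq_nonneg _) hvar1
  have a9 : 0 ≤ Q ^ 2 * (p * (1 - p)) := by positivity
  have a11 : 0 ≤ Q ^ 2 * ξ ^ 2 := by positivity
  have a12 : 0 ≤ θ ^ 2 := sq_nonneg _
  have eQ : Q / s.lam = Q := by rw [hl, div_one]
  have eD : qD s Q qt = qt := by simp [qD, eQ, h6]
  unfold valD
  rw [eQ, eD, ← hξd, ← hvt]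
  rw [← hvt] at hC
  rw [← hξd] at hG
  unfold cH at hC
  linarith [hC, hG, hL, a5, a6, a7, a8, a9, a11, a12]

theorem stepD_H : StepD .H := by
  intro s Q p X QV q θ θ' x π qt h hM hQ hc
  obtain ⟨hl, hx1, hx4⟩ := h.inv
  obtain ⟨hq1, hX0, hX3, -, -⟩ := h.tok
  have hξ := H_xi_abs h.p0 h.p1 x
  have hb := H_bias hM (H_c hx1 hx4 hX0 hX3 hξ)
  have h6 : Q ≤ 6 := by
    simp only [rr, hl] at hc
    linarith
  have m0 := mul_le_mul_of_nonneg_left (H_modeD (QV := QV) h hQ (hM.near 0) h6) (hM.nn 0)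
  have m1 := mul_le_mul_of_nonneg_left (H_modeD (QV := QV) h hQ (hM.near 1) h6) (hM.nn 1)
  have m2 := mul_le_mul_of_nonneg_left (H_modeD (QV := QV) h hQ (hM.near 2) h6) (hM.nn 2)
  have hone := hM.one
  simp only [Fin.sum_univ_three] at hone hb ⊢
  simp only [hl, div_one, pay, min_eq_left h6]
  have e1 : (π 0 + π 1 + π 2) * Phi .H s X QV = Phi .H s X QV := by rw [hone, one_mul]
  have e2 : (π 0 + π 1 + π 2) * (11 * (p * (1 - p) * (Q * Q)) + θ ^ 2) =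
      11 * (p * (1 - p) * (Q * Q)) + θ ^ 2 := by rw [hone, one_mul]
  have t2 := h.t2
  have t3 := sq_nonneg θ
  linarith [m0, m1, m2, hb, e1, e2, t2, t3]

end Pool.Agent.P.MP_5c258a_lc.Bin
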