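import Pool.Agent.P.MP_5c258a_lc.Bin.Par

/-! The main family of plans: definitions, weights, the true weights of its episodes. -/

namespace Pool.Agent.P.MP_5c258a_lc.Bin

open Finset Classical

variable {n : ℕ}

abbrev ME (r : ℕ) := (Fin (pJ r) × Fin (pL r)) × Fin (pK r + 1)
abbrev MK (r : ℕ) := (Fin (pJ r) × Fin (pK r + 1) × Fin (pK r + 1)) × (Fin (pN r) × Bool ⊕ Fin 5)
abbrev MLab (r : ℕ) := Option (Fin 5 × Fin (pK r + 1))

noncomputable def swf (tr : Tr n) (b : Fin n) : Option ℕ → ℝ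
  | none => 0
  | some f => 1 - tr.bt f b

noncomputable def omA {m : ℕ} (tr : Tr n) (b : Fin n) (f : Fin m → Option ℕ) (side : Bool)
    (c : Prop) : Fin m × Bool ⊕ Fin 5 → ℝ
  | .inl x => if x.2 = side ∧ c then swf tr b (f x.1) / m else 0
  | .inr _ => 0

noncomputable def omH {m : ℕ} (κ : Fin 5) : Fin m × Bool ⊕ Fin 5 → ℝ
  | .inl _ => 0
  | .inr κ' => if κ' = κ then 1 else 0

noncomputable def omK {m : ℕ} (r : ℕ) (tr : Tr n) (N : Finset (Fin n)) (τ : ℕ) (b : Fin n)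
    (f : Fin m → Option ℕ) (w : ℕ) (κ : Fin 5) (i : ℕ) : Fin m × Bool ⊕ Fin 5 → ℝ :=
  ![omA tr b f false True, omA tr b f true (rp r (3 * 4 ^ i) < tr.vv N τ w), omH 2,
    omA tr b f true (rp r (3 * 4 ^ i) < tr.vv N τ w), omH 4] κ

noncomputable def mkPlan (r : ℕ) (N : Finset (Fin n)) (col : ℕ → Fin (pL r) → Fin n) (t0 te : ℕ)
    (τ : Fin (pJ r) → ℕ) (Tm : Fin (pJ r) → Fin (pK r + 1) → ℕ → ℕ)
    (ff : Fin (pJ r) × Fin (pK r + 1) × Fin (pK r + 1) → Fin (pN r) → Option ℕ)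
    (sch : ME r → MLab r) : Plan n (ME r) (MK r) where
  t0 := t0
  te := te
  col := fun e => col e.1.1 e.1.2
  ty := fun e => (sch e).elim .L fun x => lTy x.1
  lam := fun e => (sch e).elim 1 fun x => lLam r x.1 x.2
  lo := fun e => (sch e).elim t0 fun x => lLo (τ e.1.1) (Tm e.1.1 e.2) x.1 x.2
  hi := fun e => (sch e).elim t0 fun x => lHi (Tm e.1.1 e.2) x.1 x.2
  om := fun e tr w kk => (sch e).elim 0 fun x => if kk.1 = (e.1.1, e.2, x.2) then
    omK r tr N (τ e.1.1) (col e.1.1 e.1.2) (ff kk.1) w x.1 x.2 kk.2 else 0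

/-- Allowed sets and sources of the flows. -/
def flA {m : ℕ} (r : ℕ) (tr : Tr n) (N : Finset (Fin n)) (τ : ℕ) (Tm : ℕ → ℕ) (i : ℕ) :
    Fin m × Bool ⊕ Fin 5 → ℕ → Prop
  | .inl x => if x.2 = true then AA r tr N τ Tm i else fun w => τ < w
  | .inr _ => fun w => τ < w

def flZ {m : ℕ} (s : Fin m → Option (ℕ × ℕ)) (w0 : Fin 5 → ℕ) : Fin m × Bool ⊕ Fin 5 → ℕ
  | .inl x => sz (s x.1)
  | .inr κ => w0 κ

lemma swf_nonneg (tr : Tr n) (b : Fin n) (o : Option ℕ) : 0 ≤ swf tr b o := by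
  cases o with
  | none => exact le_rfl
  | some f => exact sub_nonneg.2 (tr.bt_le_one f b)

lemma swf_le (tr : Tr n) (b : Fin n) (o : Option ℕ) : swf tr b o ≤ 1 := by
  cases o with
  | none => exact zero_le_one
  | some f => exact sub_le_self _ (tr.bt_nonneg f b)

lemma omA_nonneg {m : ℕ} (tr : Tr n) (b : Fin n) (f : Fin m → Option ℕ) (side : Bool) (c : Prop)
    (x : Fin m × Bool ⊕ Fin 5) : 0 ≤ omA tr b f side c x := by
  rcases x with x | x
  · simp only [omA]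
    split_ifs
    · exact div_nonneg (swf_nonneg _ _ _) (Nat.cast_nonneg _)
    · exact le_rfl
  · exact le_rfl

lemma omH_nonneg {m : ℕ} (κ : Fin 5) (x : Fin m × Bool ⊕ Fin 5) : 0 ≤ omH κ x := by
  rcases x with x | x
  · exact le_rfl
  · simp only [omH]; split_ifs <;> norm_num

lemma omK_nonneg {m : ℕ} (r : ℕ) (tr : Tr n) (N : Finset (Fin n)) (τ : ℕ) (b : Fin n)
    (f : Fin m → Option ℕ) (w : ℕ) (κ : Fin 5) (i : ℕ) (x : Fin m × Bool ⊕ Fin 5) :
    0 ≤ omK r tr N τ b f w κ i x := by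
  fin_cases κ <;> simp only [omK] <;> first | exact omA_nonneg _ _ _ _ _ _ | exact omH_nonneg _ _

lemma omA_dot {m : ℕ} (tr : Tr n) (b : Fin n) (f : Fin m → Option ℕ) (side : Bool) (c : Prop)
    (F : Fin m × Bool ⊕ Fin 5 → ℝ) : ∑ x, omA tr b f side c x * F x =
      (∑ j, swf tr b (f j) * if c then F (.inl (j, side)) else 0) / m := by
  rw [Fintype.sum_sum_type, Fintype.sum_prod_type, sum_div]
  simp only [omA, zero_mul, sum_const_zero, add_zero]
  refine sum_congr rfl fun j _ => ?_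
  by_cases hc : c <;> cases side <;> simp [hc] <;> ring

lemma omH_dot {m : ℕ} (κ : Fin 5) (F : Fin m × Bool ⊕ Fin 5 → ℝ) :
    ∑ x, omH κ x * F x = F (.inr κ) := by
  rw [Fintype.sum_sum_type]
  simp [omH]

lemma omK_sum {m : ℕ} (r : ℕ) (tr : Tr n) (N : Finset (Fin n)) (τ : ℕ) (b : Fin n)
    (f : Fin m → Option ℕ) (w : ℕ) (κ : Fin 5) (i : ℕ) : ∑ x, omK r tr N τ b f w κ i x ≤ 1 := by
  have hA : ∀ side c, ∑ x, omA tr b f side c x ≤ 1 := fun side c => by
    have := omA_dot tr b f side c fun _ => 1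
    simp only [mul_one] at this
    rw [this]
    refine div_le_one_of_le₀ ?_ (Nat.cast_nonneg _)
    refine le_trans (sum_le_sum (g := fun _ => (1 : ℝ)) fun j _ => ?_) (by simp)
    split_ifs
    · simpa using swf_le tr b _
    · simp
  have hH : ∀ κ, ∑ x : Fin m × Bool ⊕ Fin 5, omH κ x ≤ 1 := fun κ => by
    have := omH_dot (m := m) κ fun _ => 1
    simp only [mul_one] at this
    exact this.le
  fin_cases κ <;> simp only [omK] <;> first | exact hA _ _ | exact hH _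

lemma omK_dot {m : ℕ} (r : ℕ) {tr : Tr n} (h : tr.WF) (N : Finset (Fin n)) (τ : ℕ) (Tm : ℕ → ℕ)
    (b : Fin n) (s : Fin m → Option (ℕ × ℕ)) (hs : ∀ j x, s j = some x → x.2 ≤ τ) (w0 : Fin 5 → ℕ)
    {w : ℕ} (hw : τ < w) (κ : Fin 5) (i : ℕ) :
    ∑ x, omK r (tr.cut w) N τ b (fun j => (s j).map Prod.snd) w κ i x *
      tr.gr (flA r tr N τ Tm i x) (flZ s w0 x) w = lQ r tr N τ Tm s (w0 κ) κ i b w := by
  have e : ∀ j, swf (tr.cut w) b ((s j).map Prod.snd) = sw tr b (s j) := fun j => by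
    cases hj : s j with
    | none => rfl
    | some x =>
      simp only [Option.map_some, swf, sw]
      rw [Tr.cut_bt tr (lt_of_le_of_lt (hs j x hj) hw)]
  have hA : ∑ x, omA (tr.cut w) b (fun j => (s j).map Prod.snd) false True x *
      tr.gr (flA r tr N τ Tm i x) (flZ s w0 x) w = qA tr τ s b w := by
    rw [omA_dot]
    simp only [e, if_true]
    rfl
  have hL : ∑ x, omA (tr.cut w) b (fun j => (s j).map Prod.snd) true
      (rp r (3 * 4 ^ i) < (tr.cut w).vv N τ w) x *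
      tr.gr (flA r tr N τ Tm i x) (flZ s w0 x) w = qL r tr N τ Tm i s b w := by
    rw [omA_dot]
    simp only [e, Tr.cut_vv h]
    rfl
  have hH : ∀ κ, ∑ x, omH κ x * tr.gr (flA r tr N τ Tm i x) (flZ s w0 x) w = tr.pi τ (w0 κ) w :=
    fun κ => by rw [omH_dot]; rfl
  fin_cases κ
  exacts [hA, hL, hH 2, hL, hH 4]

lemma XX_congr (tr : Tr n) {q q' : ℕ → ℝ} (b : Fin n) {lo hi t : ℕ} (ht : t ≤ hi)
    (h : ∀ w ∈ Ioc lo hi, q w = q' w) : tr.XX q b lo t = tr.XX q' b lo t :=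
  sum_congr rfl fun w hw => by rw [h w (Ioc_subset_Ioc_right ht hw)]

lemma QQ_congr (tr : Tr n) {q q' : ℕ → ℝ} (b : Fin n) {lo hi : ℕ}
    (h : ∀ w ∈ Ioc lo hi, q w = q' w) : tr.QQ q b lo hi = tr.QQ q' b lo hi :=
  sum_congr rfl fun w hw => by rw [h w hw]

lemma Cond_congr (tr : Tr n) {q q' : ℕ → ℝ} (b : Fin n) {lo hi : ℕ} (lam : ℝ) (ty : Ty)
    (h : ∀ w ∈ Ioc lo hi, q w = q' w) (hc : Cond tr q' b lo hi lam ty) :
    Cond tr q b lo hi lam ty := by
  cases ty with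
  | A =>
    intro w hw
    rw [h w hw, XX_congr tr b (by have := mem_Ioc.1 hw; omega) h]
    exact hc w hw
  | H =>
    refine ⟨hc.1, fun w hw => ?_⟩
    rw [h w hw, XX_congr tr b (mem_Ioc.1 hw).2 h]
    exact hc.2 w hw
  | L =>
    intro w hw
    rw [h w hw]
    exact hc w hw

noncomputable def labW (r : ℕ) : MLab r → ℝ
  | none => 1 / 2
  | some x => 1 / 10 * (1 / 2) ^ ((x.2 : ℕ) + 1)

lemma labW_pos (r : ℕ) (x : MLab r) : 0 < labW r x := by
  cases x <;> simp only [labW] <;> positivity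

lemma labW_sum (r : ℕ) : ∑ x, labW r x ≤ 1 := by
  rw [Fintype.sum_option, Fintype.sum_prod_type]
  simp only [labW, sum_const, card_univ, Fintype.card_fin, nsmul_eq_mul]
  rw [← mul_sum, Fin.sum_univ_eq_sum_range (fun i => (1 / 2 : ℝ) ^ (i + 1))]
  have : ∀ m : ℕ, ∑ i ∈ range m, (1 / 2 : ℝ) ^ (i + 1) = 1 - (1 / 2) ^ m := fun m => by
    induction m with
    | zero => simp
    | succ m ih => rw [sum_range_succ, ih]; ring
  rw [this]
  have : (0 : ℝ) ≤ (1 / 2) ^ (pK r + 1) := by positivity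
  push_cast
  linarith

lemma labW_log (r : ℕ) (x : Fin 5 × Fin (pK r + 1)) :
    -(((x.2 : ℕ) : ℝ) + 4) ≤ Real.log (labW r (some x)) := by
  simp only [labW]
  rw [Real.log_mul (by norm_num) (by positivity), Real.log_pow, one_div, one_div, Real.log_inv,
    Real.log_inv]
  have h2 := Real.log_two_lt_d9
  have h10 : Real.log 10 ≤ 4 * Real.log 2 := by
    have := Real.log_le_log (by norm_num : (0 : ℝ) < 10) (by norm_num : (10 : ℝ) ≤ 2 ^ 4)
    rw [Real.log_pow] at this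
    exact_mod_cast this
  have : (0 : ℝ) ≤ (x.2 : ℕ) := Nat.cast_nonneg _
  push_cast
  nlinarith

end Pool.Agent.P.MP_5c258a_lc.Bin
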