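import Pool.Agent.P.MP_5c258a_lc.Bin.Defs
import Pool.Agent.P.MP_5c258a_lc.Bin.Flow
import Pool.Agent.P.MP_5c258a_lc.Sym

/-! Orbits, flip rates, normalised trajectory of a list of queries (paper section 1). -/

namespace Pool.Agent.P.MP_5c258a_lc.Bin

open Finset Classical

variable {n : ℕ}

/-- Number of flips (relative to `u`) on the agree set and on the differ set of `u, v`. -/
noncomputable def ca (u v y : Fin n → Bool) : ℕ := (univ.filter fun b => u b = v b ∧ y b ≠ u b).card
noncomputable def cb (u v y : Fin n → Bool) : ℕ := (univ.filter fun b => u b ≠ v b ∧ y b ≠ u b).card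

noncomputable def alf (u v y : Fin n → Bool) : ℝ :=
  ca u v y / (univ.filter fun b => u b = v b).card
noncomputable def bet (u v y : Fin n → Bool) : ℝ :=
  cb u v y / (univ.filter fun b => u b ≠ v b).card

noncomputable def orb (u v y : Fin n → Bool) : Finset (Fin n → Bool) :=
  univ.filter fun y' => ca u v y' = ca u v y ∧ cb u v y' = cb u v y

/-- The probability of a one at `b` on the orbit with rates `α, β`. -/
noncomputable def pbf (u v : Fin n → Bool) (α β : ℝ) (b : Fin n) : ℝ :=
  if u b = v b then (if u b = true then 1 - α else α) else (if v b = true then β else 1 - β)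

lemma pb_eq_pbf (tr : Tr n) (w : ℕ) (b : Fin n) :
    tr.pb w b = pbf (tr.c (tr.u w)) (tr.c (tr.v w)) (tr.al w) (tr.be w) b := by
  unfold Tr.pb Tr.kb Tr.bt pbf
  cases tr.c (tr.u w) b <;> cases tr.c (tr.v w) b <;> simp <;> ring

def cpl (y : Fin n → Bool) : Fin n → Bool := fun b => !y b

noncomputable def nz0 (O : Finset (Fin n)) (y : Fin n → Bool) : Fin n → Bool :=
  if (O.card : ℝ) / 2 ≤ ∑ b ∈ O, (if y b = true then 1 else 0) then y else cpl y

noncomputable def nz (O : Finset (Fin n)) (u v y : Fin n → Bool) : Fin n → Bool :=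
  if (O.card : ℝ) / 2 ≤ ∑ b ∈ O, pbf u v (alf u v y) (bet u v y) b then y else cpl y

/-- Parent number `i` of query `w`. -/
def parW (A : BAlg n) (xs : List (Fin n → Bool)) (i : Fin 2) (w : ℕ) : ℕ :=
  min (A.par ((xs.take w).map f0) i) (w - 1)

/-- Normalised strings. Use `nc_zero`, `nc_succ`, never unfold. -/
noncomputable def nc (A : BAlg n) (O : Finset (Fin n)) (xs : List (Fin n → Bool)) :
    ℕ → Fin n → Bool
  | 0 => nz0 O (xs.getD 0 fun _ => false)
  | w + 1 => nz O (nc A O xs (parW A xs 0 (w + 1))) (nc A O xs (parW A xs 1 (w + 1)))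
      (xs.getD (w + 1) fun _ => false)
decreasing_by all_goals (unfold parW; omega)

theorem nc_zero (A : BAlg n) (O : Finset (Fin n)) (xs : List (Fin n → Bool)) :
    nc A O xs 0 = nz0 O (xs.getD 0 fun _ => false) := by rw [nc]

theorem nc_succ (A : BAlg n) (O : Finset (Fin n)) (xs : List (Fin n → Bool)) (w : ℕ) :
    nc A O xs (w + 1) = nz O (nc A O xs (parW A xs 0 (w + 1))) (nc A O xs (parW A xs 1 (w + 1)))
      (xs.getD (w + 1) fun _ => false) := by rw [nc]

/-- The normalised trajectory of the queries `xs`. -/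
noncomputable def nrm (A : BAlg n) (O : Finset (Fin n)) (xs : List (Fin n → Bool)) : Tr n where
  c := nc A O xs
  u := parW A xs 0
  v := parW A xs 1
  al := fun w => alf (nc A O xs (parW A xs 0 w)) (nc A O xs (parW A xs 1 w)) (nc A O xs w)
  be := fun w => bet (nc A O xs (parW A xs 0 w)) (nc A O xs (parW A xs 1 w)) (nc A O xs w)

/-- Probability of an event after `t` queries on the classical LeadingOnes function. -/
noncomputable def Pr (A : BAlg n) (t : ℕ) (p : List (Fin n → Bool) → Prop) : ℝ :=
  Ex (bstep A f0) t [] fun xs => if p xs then 1 else 0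

lemma bstep_nonneg (A : BAlg n) (f : (Fin n → Bool) → ℕ) (xs : List (Fin n → Bool))
    (y : Fin n → Bool) : 0 ≤ bstep A f xs y := by
  unfold bstep
  split_ifs
  · positivity
  · exact Op.nonneg _ _ _

lemma bstep_sum (A : BAlg n) (f : (Fin n → Bool) → ℕ) (xs : List (Fin n → Bool)) :
    ∑ y, bstep A f xs y = 1 := by
  unfold bstep
  split_ifs
  · simp
  · exact Op.sum_one _ _

lemma bstep_sp (A : BAlg n) (f f' : (Fin n → Bool) → ℕ) (π : Equiv.Perm (Fin n))
    (w : Fin n → Bool) (xs : List (Fin n → Bool)) (y : Fin n → Bool)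
    (h : ∀ l ∈ xs, f' (sp π w l) = f l) :
    bstep A f' (xs.map (sp π w)) (sp π w y) = bstep A f xs y := by
  have hm : (xs.map (sp π w)).map f' = xs.map f := by
    rw [List.map_map]
    exact List.map_congr_left h
  unfold bstep
  by_cases hx : xs = []
  · simp [hx]
  · rw [if_neg hx, if_neg (by simpa using hx), hm, ← op_sp _ π w _ y]
    congr 1
    funext i
    have : A.par (xs.map f) i < xs.length := by
      simpa using A.par_lt (xs.map f) i (by simpa using hx)
    rw [List.getD_eq_getElem _ _ (by simpa using this), List.getD_eq_getElem _ _ this]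
    simp

lemma Pr_mono (A : BAlg n) (t : ℕ) {p q : List (Fin n → Bool) → Prop}
    (h : ∀ xs, xs.length = t → p xs → q xs) : Pr A t p ≤ Pr A t q := by
  refine Ex_mono' (bstep_nonneg A f0) t [] _ _ fun zs hz => ?_
  simp only [List.nil_append]
  by_cases hp : p zs
  · simp [hp, h zs hz hp]
  · simp only [hp, if_false]; split_ifs <;> norm_num

lemma Pr_exists {I : Type} (A : BAlg n) (t : ℕ) (s : Finset I)
    (p : I → List (Fin n → Bool) → Prop) :
    Pr A t (fun xs => ∃ i ∈ s, p i xs) ≤ ∑ i ∈ s, Pr A t (p i) := by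
  unfold Pr
  rw [← map_sum]
  refine Ex_mono (bstep_nonneg A f0) t [] _ _ fun zs => ?_
  rw [Finset.sum_apply]
  have h0 : ∀ i ∈ s, (0 : ℝ) ≤ if p i zs then 1 else 0 := fun i _ => by split_ifs <;> norm_num
  split_ifs with h
  · obtain ⟨i, hi, hp⟩ := h
    exact le_trans (by simp [hp]) (single_le_sum h0 hi)
  · exact sum_nonneg h0

lemma Pr_or (A : BAlg n) (t : ℕ) (p q : List (Fin n → Bool) → Prop) :
    Pr A t (fun xs => p xs ∨ q xs) ≤ Pr A t p + Pr A t q := by
  unfold Pr
  rw [← map_add]
  refine Ex_mono (bstep_nonneg A f0) t [] _ _ fun zs => ?_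
  rw [Pi.add_apply]
  by_cases hp : p zs <;> by_cases hq : q zs <;> simp [hp, hq]

end Pool.Agent.P.MP_5c258a_lc.Bin
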