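import Pool.Agent.P.MP_5c258a_lc.Bin.Flow

/-! Parameters, blocks, levels, labels (paper sections 0 and 4): definitions and small facts. -/

namespace Pool.Agent.P.MP_5c258a_lc.Bin

open Finset Classical

def pK (r : ℕ) : ℕ := r ^ 13
def pR (r : ℕ) : ℕ := r ^ 20
def pH (r : ℕ) : ℕ := pR r ^ (pK r + 1)
def pL (r : ℕ) : ℕ := pH r ^ 80
def pN (r : ℕ) : ℕ := pH r ^ 2
def pS (r : ℕ) : ℕ := r ^ 18
def ph (r k : ℕ) : ℕ := pR r ^ (k - 1) * r ^ 2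
def pJ (r : ℕ) : ℕ := pH r / 2
/-- `r ^ (-m)`. -/
noncomputable def rp (r m : ℕ) : ℝ := ((r : ℝ) ^ m)⁻¹

lemma pH_eq (r : ℕ) : pH r = r ^ (20 * (pK r + 1)) := by rw [pH, pR, ← pow_mul]

lemma rp_pos {r : ℕ} (hr : 0 < r) (m : ℕ) : 0 < rp r m := by unfold rp; positivity

lemma rp_add (r a b : ℕ) : rp r (a + b) = rp r a * rp r b := by
  unfold rp; rw [pow_add, mul_inv]

lemma rp_anti {r a b : ℕ} (hr : 0 < r) (h : a ≤ b) : rp r b ≤ rp r a := by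
  unfold rp
  have : (1 : ℝ) ≤ r := by exact_mod_cast hr
  exact inv_anti₀ (by positivity) (pow_le_pow_right₀ this h)

lemma rp_mul_pow {r : ℕ} (hr : 0 < r) (m : ℕ) : rp r m * (r : ℝ) ^ m = 1 := by
  unfold rp
  have : (0 : ℝ) < r := by exact_mod_cast hr
  field_simp

lemma inv_pH (r : ℕ) : 1 / (pH r : ℝ) = rp r (20 * (pK r + 1)) := by
  rw [pH_eq, rp, one_div]; push_cast; rfl

lemma pS_mul_ph {r k : ℕ} (hk : 1 ≤ k) : pS r * ph r k = pR r ^ k := by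
  obtain ⟨k, rfl⟩ : ∃ j, k = j + 1 := ⟨k - 1, by omega⟩
  simp only [pS, ph, pR, Nat.add_sub_cancel]; ring

lemma pJ_add {r k : ℕ} (hr : 2 ≤ r) (hk : k ≤ pK r) : pJ r + 3 * pR r ^ k ≤ pH r := by
  have h1 : 6 ≤ pR r := le_trans (by norm_num) (Nat.pow_le_pow_left hr 20)
  have h2 : pR r ^ k ≤ pR r ^ pK r := Nat.pow_le_pow_right (by omega) hk
  have h3 : 6 * pR r ^ pK r ≤ pH r := by
    rw [pH, pow_succ, mul_comm]; exact Nat.mul_le_mul_left _ h1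
  unfold pJ; omega

variable {n : ℕ}

/-- A fast block: `col j` are the columns of window `j`, `t i` is the time at which the windows
below `i` are passed. -/
structure Blk (r : ℕ) (tr : Tr n) (O N : Finset (Fin n)) (col : ℕ → Fin (pL r) → Fin n)
    (t : ℕ → ℕ) (T T' : ℕ) : Prop where
  wf : tr.WF
  mono : ∀ i j, i ≤ j → j ≤ pH r → t i ≤ t j
  top : t (pH r) ≤ T
  fast : t (pH r) ≤ t 0 + T'
  T'_le : T' ≤ pH r ^ 82
  logT : Real.log (T + 2) ≤ 3 * pH r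
  good : tr.Good O N ((pH r : ℝ) ^ 83)⁻¹ T
  norm : tr.Norm O
  One : O.Nonempty
  Nne : N.Nonempty
  typ : ∀ j < pH r, tr.Typ (col j) N (1 / pH r) (t j)
  rightO : ∀ i ≤ pH r, ∀ b ∈ O, tr.c (t i) b = true
  rightW : ∀ i ≤ pH r, ∀ j < i, ∀ l, tr.c (t i) (col j l) = true
  inj : ∀ j < pH r, ∀ j' < pH r, ∀ l l', col j l = col j' l' → j = j' ∧ l = l'

/-- The rise of column `b` between the time `s` and the node `a`. -/
noncomputable def rise (tr : Tr n) (s a : ℕ) (b : Fin n) : ℝ := tr.XX (tr.pi s a) b s a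

/-- Number of particles of a window that are not locked. -/
noncomputable def nbad {L : ℕ} (tr : Tr n) (W : Fin L → Fin n) (s a : ℕ) : ℕ :=
  (univ.filter fun l => 1 / 100 < rise tr s a (W l)).card

def LockOK (r : ℕ) (tr : Tr n) (col : ℕ → Fin (pL r) → Fin n) (t : ℕ → ℕ) (k : ℕ) : Prop :=
  ((∑ j ∈ range (pJ r), ∑ d ∈ Ico (pR r ^ k) (2 * pR r ^ k),
    nbad tr (col j) (t (j + d)) (t (j + d + ph r k)) : ℕ) : ℝ) ≤ pJ r * pL r * pR r ^ k / r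

/-- The level times `T_i`. -/
def lev (r : ℕ) (t : ℕ → ℕ) (j k d i : ℕ) : ℕ :=
  if i = 0 then t (j + d) else if k ≤ 4 ^ i then t j else t (j + 2 * pR r ^ (k - 4 ^ i))

def BudOK (r : ℕ) (tr : Tr n) (N : Finset (Fin n)) (τ a : ℕ) (Tm : ℕ → ℕ) : Prop :=
  ∀ i, ∑ w ∈ Ioc τ (Tm i), tr.pi τ a w ^ 2 * tr.VV N w ≤ rp r (12 * 4 ^ i)

/-- Everything the dichotomy needs about one window, one scale `k` and one target `a`. -/
structure Ctx (r : ℕ) (tr : Tr n) (N : Finset (Fin n)) (W : Fin (pL r) → Fin n) (τ a k : ℕ)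
    (Tm : ℕ → ℕ) : Prop where
  wf : tr.WF
  k1 : 1 ≤ k
  kK : k ≤ pK r
  anti : Antitone Tm
  lo : ∀ i, τ ≤ Tm i
  top : Tm 0 ≤ a
  triv : ∀ i, 1 ≤ i → k ≤ 4 ^ i → Tm i = τ
  kill : tr.kap τ a ≤ 4 / pH r
  g2 : ∀ z ≤ a, tr.vv N τ z ≤ 2
  g3 : ∀ z ≤ a, (∑ b ∈ N, tr.x0 τ z b * tr.x1 τ z b) / N.card ≤
    tr.vv N τ z + 10 / pH r + 2 * tr.kap τ z
  bud : BudOK r tr N τ a Tm
  typ : tr.Typ W N (1 / pH r) τ
  right : ∀ l, tr.c a (W l) = true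

/-- The allowed set of level `i`. -/
def AA (r : ℕ) (tr : Tr n) (N : Finset (Fin n)) (τ : ℕ) (Tm : ℕ → ℕ) (i w : ℕ) : Prop :=
  τ < w ∧ (Tm i < w ∨ rp r (3 * 4 ^ i) < tr.vv N τ w)

/-- The measure `Z_i`. -/
noncomputable def ZZ (r : ℕ) (tr : Tr n) (N : Finset (Fin n)) (τ a : ℕ) (Tm : ℕ → ℕ) :
    ℕ → ℕ → ℝ
  | 0, z => if z = a then 1 else 0
  | i + 1, z => tr.st (AA r tr N τ Tm i) a z

/-- Node, presence and weight of a sampled pair `(z, f)`. -/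
def sz : Option (ℕ × ℕ) → ℕ
  | none => 0
  | some x => x.1

noncomputable def so : Option (ℕ × ℕ) → ℝ
  | none => 0
  | some _ => 1

noncomputable def sw (tr : Tr n) (b : Fin n) : Option (ℕ × ℕ) → ℝ
  | none => 0
  | some x => 1 - tr.bt x.2 b

variable {m : ℕ}

noncomputable def qA (tr : Tr n) (τ : ℕ) (s : Fin m → Option (ℕ × ℕ)) (b : Fin n) (w : ℕ) : ℝ :=
  (∑ j, sw tr b (s j) * tr.pi τ (sz (s j)) w) / m

noncomputable def qL (r : ℕ) (tr : Tr n) (N : Finset (Fin n)) (τ : ℕ) (Tm : ℕ → ℕ) (i : ℕ)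
    (s : Fin m → Option (ℕ × ℕ)) (b : Fin n) (w : ℕ) : ℝ :=
  (∑ j, sw tr b (s j) * if rp r (3 * 4 ^ i) < tr.vv N τ w
    then tr.gr (AA r tr N τ Tm i) (sz (s j)) w else 0) / m

noncomputable def pih (tr : Tr n) (τ : ℕ) (s : Fin m → Option (ℕ × ℕ)) (w : ℕ) : ℝ :=
  (∑ j, so (s j) * tr.pi τ (sz (s j)) w) / m

noncomputable def kh (tr : Tr n) (τ : ℕ) (s : Fin m → Option (ℕ × ℕ)) : ℝ :=
  (∑ j, so (s j) * tr.kap τ (sz (s j))) / m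

/-- `hat (1 - c f) x^z_t`. -/
noncomputable def Yh (tr : Tr n) (t : ℕ) (s : Fin m → Option (ℕ × ℕ)) (b : Fin n) : ℝ :=
  (∑ j, sw tr b (s j) * tr.x1 t (sz (s j)) b) / m

noncomputable def Gz (tr : Tr n) (A : ℕ → Prop) (z : ℕ) (b : Fin n) : ℝ :=
  ∑ x ∈ range (z + 1), tr.st A z x * tr.bt x b

noncomputable def Gh (tr : Tr n) (A : ℕ → Prop) (s : Fin m → Option (ℕ × ℕ)) (b : Fin n) : ℝ :=
  (∑ j, sw tr b (s j) * Gz tr A (sz (s j)) b) / m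

/-- `∑ Z_i(z) x0^z F(z)`: the mean of `(1 - c f) F z` over pairs of level `i`. -/
noncomputable def EZ (r : ℕ) (tr : Tr n) (N : Finset (Fin n)) (τ a : ℕ) (Tm : ℕ → ℕ) (i : ℕ)
    (b : Fin n) (F : ℕ → ℝ) : ℝ :=
  ∑ z ∈ range (a + 1), ZZ r tr N τ a Tm i z * tr.x0 τ z b * F z

/-- Squared sampling deviation of the column `b` at level `i`. -/
noncomputable def dev (r : ℕ) (tr : Tr n) (N : Finset (Fin n)) (τ a : ℕ) (Tm : ℕ → ℕ) (i : ℕ)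
    (s : Fin m → Option (ℕ × ℕ)) (b : Fin n) : ℝ :=
  (Yh tr (Tm (i - 1)) s b - EZ r tr N τ a Tm i b fun z => tr.x1 (Tm (i - 1)) z b) ^ 2 +
    (Gh tr (AA r tr N τ Tm i) s b - EZ r tr N τ a Tm i b fun z => Gz tr (AA r tr N τ Tm i) z b) ^ 2

/-- Properties of the samples of all levels. -/
structure Smp (r : ℕ) (tr : Tr n) (N : Finset (Fin n)) (W : Fin (pL r) → Fin n) (τ a : ℕ)
    (Tm : ℕ → ℕ) (s : ℕ → Fin (pN r) → Option (ℕ × ℕ)) : Prop where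
  le : ∀ i j x, s i j = some x → x.1 ≤ a ∧ x.2 ≤ τ
  bud1 : ∀ i, ∑ w ∈ Ioc τ (Tm i), pih tr τ (s i) w ^ 2 * tr.VV N w ≤
    4 * (rp r (12 * 4 ^ i) + 2 / pN r)
  bud2 : ∀ i, ∑ w ∈ Ioc τ (Tm (i + 1)), pih tr τ (s i) w ^ 2 * tr.VV N w ≤
    4 * (rp r (12 * 4 ^ (i + 1)) + 2 / pN r)
  kill : ∀ i, kh tr τ (s i) ≤ 16 / pH r
  dev : ∀ i, ∑ l, dev r tr N τ a Tm i (s i) (W l) ≤ 8 * pL r / pN r

/-- A good particle. -/
structure GoodP (r : ℕ) (tr : Tr n) (N : Finset (Fin n)) (τ a : ℕ) (Tm : ℕ → ℕ)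
    (s : ℕ → Fin (pN r) → Option (ℕ × ℕ)) (b : Fin n) : Prop where
  lock : rise tr (Tm 0) a b ≤ 1 / 100
  start : tr.x1 τ a b ≤ 3 / 4
  tau : ∀ i, 4 ^ i ≤ pK r →
    (EZ r tr N τ a Tm (i + 1) b fun z => tr.x1 τ z b) ≤ rp r (2 * 4 ^ i) / 4
  dev : ∀ i ≤ pK r, dev r tr N τ a Tm i (s i) b ≤ (rp r (2 * pK r) / 16) ^ 2

/-- Kinds of episodes: 0 alpha, 1 late linear, 2 late harvest, 3 early linear, 4 early harvest. -/
def lTy (κ : Fin 5) : Ty := ![.A, .L, .H, .L, .H] κ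
def lLo (τ : ℕ) (Tm : ℕ → ℕ) (κ : Fin 5) (i : ℕ) : ℕ := ![Tm i, Tm (i + 1), Tm (i + 1), τ, τ] κ
def lHi (Tm : ℕ → ℕ) (κ : Fin 5) (i : ℕ) : ℕ :=
  ![Tm (i - 1), Tm i, Tm i, Tm (i + 1), Tm (i + 1)] κ
noncomputable def lLam (r : ℕ) (κ : Fin 5) (i : ℕ) : ℝ :=
  ![2 * rp r (2 * 4 ^ (i - 1)), rp r (2 * 4 ^ i), 1, rp r (15 * 4 ^ i), 1] κ
def lLen (k : ℕ) (κ : Fin 5) (i : ℕ) : ℕ := ![4 ^ i, 4 ^ (i + 1), 4 ^ (i + 1), k, k] κ
/-- The gain an episode must reach. -/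
noncomputable def lTarget (r k : ℕ) (κ : Fin 5) (i : ℕ) : ℝ :=
  cA / 8 * lLen k κ i * Real.log r + 2 * (i + 4)

/-- The weight function of an episode; `w0` is only used by the kinds 2 and 4. -/
noncomputable def lQ (r : ℕ) (tr : Tr n) (N : Finset (Fin n)) (τ : ℕ) (Tm : ℕ → ℕ)
    (s : Fin m → Option (ℕ × ℕ)) (w0 : ℕ) (κ : Fin 5) (i : ℕ) (b : Fin n) : ℕ → ℝ :=
  ![qA tr τ s b, qL r tr N τ Tm i s b, tr.pi τ w0, qL r tr N τ Tm i s b, tr.pi τ w0] κ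

noncomputable def lGain (r : ℕ) (tr : Tr n) (N : Finset (Fin n)) (τ : ℕ) (Tm : ℕ → ℕ)
    (s : Fin m → Option (ℕ × ℕ)) (w0 : ℕ) (κ : Fin 5) (i : ℕ) (b : Fin n) : ℝ :=
  gainOf (lTy κ) (lLam r κ i)
    (tr.XX (lQ r tr N τ Tm s w0 κ i b) b (lLo τ Tm κ i) (lHi Tm κ i))
    (tr.QQ (lQ r tr N τ Tm s w0 κ i b) b (lLo τ Tm κ i) (lHi Tm κ i))

/-- The output of the dichotomy for one window and one scale. -/
structure Loc (r : ℕ) (tr : Tr n) (N : Finset (Fin n)) (W : Fin (pL r) → Fin n) (τ a k : ℕ)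
    (Tm : ℕ → ℕ) (s : ℕ → Fin (pN r) → Option (ℕ × ℕ)) (lab : Fin (pL r) → Option (Fin 5 × ℕ)) :
    Prop where
  le : ∀ i j x, s i j = some x → x.1 ≤ a ∧ x.2 ≤ τ
  few : ((univ.filter fun l => lab l = none).card : ℝ) ≤ 68 / 100 * pL r + nbad tr W (Tm 0) a
  lev : ∀ l κ i, lab l = some (κ, i) → i ≤ pK r ∧ 1 / (pH r : ℝ) ≤ lLam r κ i ∧ (κ = 0 → 1 ≤ i)
  cond : ∀ l κ i w0, lab l = some (κ, i) → Cond tr (lQ r tr N τ Tm (s i) w0 κ i (W l)) (W l)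
    (lLo τ Tm κ i) (lHi Tm κ i) (lLam r κ i) (lTy κ)
  gain : ∀ κ i (C : Finset (Fin (pL r))), (∀ l ∈ C, lab l = some (κ, i)) →
    ∃ w0 ≤ a, C.card * lTarget r k κ i ≤ ∑ l ∈ C, lGain r tr N τ Tm (s i) w0 κ i (W l)

/-- The three alternatives for a good particle at level `i`. -/
def Alt (r : ℕ) (tr : Tr n) (N : Finset (Fin n)) (τ k : ℕ) (Tm : ℕ → ℕ)
    (s : Fin m → Option (ℕ × ℕ)) (i : ℕ) (b : Fin n) : Prop :=
  (1 ≤ i ∧ 4 ^ (i - 1) ≤ pK r ∧ Yh tr (Tm i) s b + kh tr τ s ≤ 2 * rp r (2 * 4 ^ (i - 1)) ∧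
    rp r (4 ^ (i - 1)) / 2 ≤ Yh tr (Tm (i - 1)) s b) ∨
  (4 ^ i ≤ pK r ∧ rp r (4 ^ i) ≤ tr.XX (qL r tr N τ Tm i s b) b (Tm (i + 1)) (Tm i)) ∨
  (4 ^ (i + 1) < k ∧ rp r (4 ^ i) ≤ tr.XX (qL r tr N τ Tm i s b) b τ (Tm (i + 1)))

theorem par_realize : True := by
  have := @ZZ.eq_1
  have := @ZZ.eq_2
  have := @sz.eq_1
  have := @sz.eq_2
  have := @so.eq_1
  have := @so.eq_2
  have := @sw.eq_1
  have := @sw.eq_2
  trivial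

end Pool.Agent.P.MP_5c258a_lc.Bin
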