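import Pool.Agent.P.MP_5c258a_lc.Bin.Step
import Pool.Agent.P.MP_5c258a_lc.Bin.Bet

/-! Task RUN: the engine (paper section 3). -/

namespace Pool.Agent.P.MP_5c258a_lc.Bin

open Finset Classical

namespace RunX

variable {n H : ℕ} {E K : Type} [Fintype E] [Fintype K]

lemma w1_pos (x : Option (K → Fin (eN H + 1))) : 0 < Plan.w1 H K x := by
  cases x <;> simp only [Plan.w1] <;> positivity

lemma w2_nonneg (a j : ℕ) : 0 ≤ Plan.w2 a j := by
  unfold Plan.w2; split_ifs <;> positivity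

lemma w3_pos (x : Bool ⊕ (K → Fin (eM H + 1))) : 0 < Plan.w3 H K x := by
  cases x <;> simp only [Plan.w3] <;> positivity

lemma w1_sum : ∑ x, Plan.w1 H K x = 1 := by
  rw [Fintype.sum_option]
  simp only [Plan.w1, sum_const, card_univ, Fintype.card_fun, Fintype.card_fin, nsmul_eq_mul]
  push_cast
  field_simp
  norm_num

lemma w3_sum : ∑ x, Plan.w3 H K x = 1 := by
  rw [Fintype.sum_sum_type]
  simp only [Plan.w3, sum_const, card_univ, Fintype.card_fun, Fintype.card_fin, nsmul_eq_mul,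
    Fintype.card_bool]
  push_cast
  field_simp
  norm_num

lemma w2_sum (a m : ℕ) : ∑ j : Fin m, Plan.w2 a j ≤ 1 := by
  have h1 : ∀ k : ℕ, ∑ i ∈ range k, 1 / (((i : ℝ) + 1) * (i + 2)) = 1 - 1 / (k + 1) := fun k => by
    induction k with
    | zero => simp
    | succ k ih => rw [sum_range_succ, ih]; push_cast; field_simp; ring
  rw [Fin.sum_univ_eq_sum_range (Plan.w2 a) m]
  calc ∑ j ∈ range m, Plan.w2 a j
      = ∑ j ∈ (range m).filter (· ≤ a), Plan.w2 a j :=
        (sum_filter_of_ne fun j _ hj => by by_contra h; exact hj (if_neg h)).symm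
    _ ≤ ∑ j ∈ range (a + 1), Plan.w2 a j :=
        sum_le_sum_of_subset_of_nonneg
          (fun j hj => mem_range.2 (Nat.lt_succ_of_le (mem_filter.1 hj).2))
          fun j _ _ => w2_nonneg a j
    _ = ∑ i ∈ range (a + 1), 1 / (((i : ℝ) + 1) * (i + 2)) := by
        rw [← sum_range_reflect (fun i => 1 / (((i : ℝ) + 1) * (i + 2)))]
        exact sum_congr rfl fun j hj => if_pos (Nat.le_of_lt_succ (mem_range.1 hj))
    _ ≤ 1 := by
        rw [h1]
        exact sub_le_self _ (by positivity)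

omit [Fintype E] in
lemma log_w1 (x : Option (K → Fin (eN H + 1))) :
    -1 - (if x ≠ none then Fintype.card K * Real.log (eN H + 1 : ℝ) else 0) ≤
      Real.log (Plan.w1 H K x) := by
  have : -1 ≤ Real.log (1 / 2) := by
    linarith [Real.one_sub_inv_le_log_of_pos (x := 1 / 2) (by norm_num)]
  cases x
  · simpa [Plan.w1] using this
  · simp only [Plan.w1, ne_eq, reduceCtorEq, not_false_eq_true, if_true]
    rw [Real.log_div (x := 1 / 2) (by norm_num) (by positivity), Real.log_pow]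
    linarith

lemma Ge_pos (P : Plan n E K) (s : ESt E K) (tr : Tr n) (w : ℕ) (o : EOp H K) (e : E) (x : Bool)
    (h0 : 0 ≤ tr.pb w (P.col e)) (h1 : tr.pb w (P.col e) ≤ 1) : 0 < P.Ge H s tr w o e x := by
  simp only [Plan.Ge]
  split_ifs
  exacts [GU_pos _ h0 h1 _, GD_pos _ _ h0 h1 _]

lemma eG_pos (P : Plan n E K) (s : ESt E K) (tr : Tr n) (w : ℕ) (o : EOp H K) (b : Fin n)
    (x : Bool) (h0 : 0 ≤ tr.pb w b) (h1 : tr.pb w b ≤ 1) : 0 < P.eG H s tr w o b x := by
  unfold Plan.eG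
  split_ifs with h
  · exact Ge_pos P s tr w o _ x (h.choose_spec.2.symm ▸ h0) (h.choose_spec.2.symm ▸ h1)
  · exact one_pos

lemma run_congr {St Opt : Type} [Fintype Opt] (B : Bettor n St Opt) (tr : Tr n) (t0 : ℕ)
    {o o' : ℕ → Opt} : ∀ m, (∀ r < m, o r = o' r) → B.run tr t0 o m = B.run tr t0 o' m
  | 0, _ => rfl
  | m + 1, h => by
    rw [Bettor.run_succ, Bettor.run_succ, run_congr B tr t0 m fun r hr => h r (by omega),
      h m (by omega)]

variable {P : Plan n E K} {tr : Tr n} {A : K → ℕ → Prop} {z : K → ℕ}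

lemma log_eG (hV : P.Valid H tr A z) (s : ESt E K) (tr' : Tr n) (w : ℕ) (o : EOp H K)
    (y : Fin n → Bool) : ∑ b, Real.log (P.eG H s tr' w o b (y b)) =
      ∑ e, if P.act e w then Real.log (P.Ge H s tr' w o e (y (P.col e))) else 0 := by
  have inj : ∀ e e', P.act e w → P.act e' w → P.col e = P.col e' → e = e' := fun e e' h h' hc => by
    by_contra hne
    exact hV.disj e e' hne hc w h h'
  rw [← sum_filter, ← sum_subset (subset_univ ((univ.filter fun e => P.act e w).image P.col)),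
    sum_image fun e he e' he' => inj e e' (mem_filter.1 he).2 (mem_filter.1 he').2]
  · refine sum_congr rfl fun e he => ?_
    have h : ∃ e', P.act e' w ∧ P.col e' = P.col e := ⟨e, (mem_filter.1 he).2, rfl⟩
    rw [Plan.eG, dif_pos h, inj _ e h.choose_spec.1 (mem_filter.1 he).2 h.choose_spec.2]
  · intro b _ hb
    rw [Plan.eG, dif_neg (by simpa using hb), Real.log_one]

lemma sinv_upd {s : ESt E K} (hs : P.SInv s.2) (tr' : Tr n) (w : ℕ) (o : EOp H K)
    (y : Fin n → Bool) : P.SInv (P.eupd H s tr' w o y).2 := fun e => by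
  obtain ⟨h1, h2, h3⟩ := hs e
  simp only [Plan.eupd, Plan.nxt]
  split_ifs
  · refine ⟨inv_post (inv_pre h1 _ _) _, h2.trans ((lam_pre _ _ _ _).trans (lam_post _ _ _)),
      fun h => ?_⟩
    rw [h, lam_post_L, lam_pre_L, h3 h]
  · refine ⟨inv_post h1 _, h2.trans (lam_post _ _ _), fun h => ?_⟩
    rw [h, lam_post_L, h3 h]
  · exact ⟨h1, h2, h3⟩

lemma lam_pos' (hH : 0 < H) (hV : P.Valid H tr A z) (e : E) : 0 < P.lam e :=
  lt_of_lt_of_le (by positivity) (hV.lam_ge e)

lemma sinv_ini (hH : 0 < H) (hV : P.Valid H tr A z) : P.SInv fun e => ini (P.ty e) (P.lam e) :=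
  fun e => ⟨inv_ini _ (lam_pos' hH hV e) fun h => by
    have := hV.cond e
    rw [h] at this
    exact this.1, (ini_lam _ _).ge, fun _ => ini_lam _ _⟩

lemma gain_le (hH : 0 < H) (h : tr.WF) (hV : P.Valid H tr A z) {ms : E → MS} (hs : P.SInv ms)
    (e : E) : P.gain tr A z e ≤
      P.pot tr A z e (ms e) P.te - P.pot tr A z e (ini (P.ty e) (P.lam e)) P.t0 := by
  have h0 : Ioc (P.lo e) (min P.t0 (P.hi e)) = ∅ :=
    Ioc_eq_empty (not_lt.2 ((min_le_left _ _).trans (hV.lo_ge e)))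
  have := phi_end (P.ty e) (lam_pos' hH hV e) (hs e).1 (hs e).2.1 (hs e).2.2
    (tr.XX (P.q tr A z e) (P.col e) (P.lo e) (P.hi e))
    (tr.QQ (P.q tr A z e) (P.col e) (P.lo e) (P.hi e)) fun hA => by
      rcases (hV.lo_le e).lt_or_eq with hl | hl
      · have hc := hV.cond e
        rw [hA] at hc
        have hw : P.hi e ∈ Ioc (P.lo e) (P.hi e) := mem_Ioc.2 ⟨hl, le_rfl⟩
        have a1 := hc _ hw
        have a2 : 0 ≤ P.q tr A z e (P.hi e) :=
          sum_nonneg fun k _ => mul_nonneg (hV.om0 e _ hw k) (Tr.gr_nonneg h _ _ _)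
        obtain ⟨v, hv⟩ : ∃ v, P.hi e = v + 1 := ⟨P.hi e - 1, by omega⟩
        rw [hv] at a1 a2 ⊢
        rw [Tr.XX, sum_Ioc_succ_top (by omega), Tr.xi]
        rw [Nat.add_sub_cancel, Tr.XX] at a1
        nlinarith [mul_nonneg a2 (tr.bt_nonneg (v + 1) (P.col e))]
      · simpa [Tr.XX, hl] using (lam_pos' hH hV e).le
  rw [Plan.pot, Plan.pot, min_eq_right (hV.hi_le e)]
  simpa only [Tr.XX, Tr.QQ, h0, sum_empty, add_zero, Plan.gain] using this

lemma resync_cost (hH : 40 ≤ H) {k c : ℕ} (hk : k ≤ H ^ 5) (k0 : 0 < k)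
    (hc : (c : ℝ) * (1 / 300000 / (H : ℝ) ^ 6 * (1 / (H : ℝ) ^ 50) / 8) ≤
      k * Real.log (eN H + k : ℝ)) : c * (k * Real.log (eN H + 1 : ℝ)) ≤ (H : ℝ) ^ 80 := by
  have h1 : (40 : ℝ) ≤ H := by exact_mod_cast hH
  have h0 : (0 : ℝ) < H := by linarith
  have k1 : (k : ℝ) ≤ (H : ℝ) ^ 5 := by exact_mod_cast hk
  have k2 : (1 : ℝ) ≤ k := by exact_mod_cast k0
  have e1 : (eN H : ℝ) = (H : ℝ) ^ 70 := by simp [eN]
  have l1 : Real.log (eN H + k : ℝ) ≤ 71 * H := by
    have a1 : (H : ℝ) ^ 5 ≤ (H : ℝ) ^ 70 := pow_le_pow_right₀ (by linarith) (by norm_num)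
    have a2 := mul_le_mul_of_nonneg_left h1 (pow_pos h0 70).le
    have := Real.log_le_log (by rw [e1]; positivity)
      (show (eN H + k : ℝ) ≤ (H : ℝ) ^ 71 by rw [e1, pow_succ _ 70]; linarith [pow_pos h0 70])
    rw [Real.log_pow] at this
    push_cast at this
    linarith [Real.log_le_sub_one_of_pos h0]
  have l2 : Real.log (eN H + 1 : ℝ) ≤ 71 * H :=
    (Real.log_le_log (by positivity) (by linarith)).trans l1
  have l3 : ∀ x : ℝ, x ≤ 71 * H → k * x ≤ 71 * (H : ℝ) ^ 6 := fun x hx =>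
    (mul_le_mul_of_nonneg_left hx (by linarith)).trans
      ((mul_le_mul_of_nonneg_right k1 (by linarith)).trans (le_of_eq (by ring)))
  have c1 : (c : ℝ) ≤ 2400000 * 71 * (H : ℝ) ^ 62 := by
    have := hc.trans (l3 _ l1)
    rw [show (1 / 300000 / (H : ℝ) ^ 6 * (1 / (H : ℝ) ^ 50) / 8) = 1 / (2400000 * (H : ℝ) ^ 56) by
      field_simp; norm_num, mul_one_div, div_le_iff₀ (by positivity)] at this
    exact this.trans (le_of_eq (by ring))
  refine (mul_le_mul c1 (l3 _ l2) (mul_nonneg (by linarith) (Real.log_nonneg (by simp)))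
    (by positivity)).trans ?_
  have a3 := mul_le_mul_of_nonneg_right (pow_le_pow_left₀ (by norm_num) h1 12) (pow_pos h0 68).le
  rw [show (H : ℝ) ^ 80 = (H : ℝ) ^ 12 * (H : ℝ) ^ 68 by ring,
    show 2400000 * 71 * (H : ℝ) ^ 62 * (71 * (H : ℝ) ^ 6) = 2400000 * 71 * 71 * (H : ℝ) ^ 68 by ring]
  linarith [pow_pos h0 68]

end RunX

open RunX

/-- The bettor of a plan. -/
noncomputable def engine {n : ℕ} {E K : Type} [Fintype E] [Fintype K] (H : ℕ) (P : Plan n E K) :
    Bettor n (ESt E K) (EOp H K) where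
  init := (fun _ _ => 1 / (Fintype.card K : ℝ), fun e => ini (P.ty e) (P.lam e))
  wt := P.ewt H
  G := P.eG H
  upd := P.eupd H
  wt0 s tr w o := mul_nonneg (mul_nonneg (w1_pos _).le (w2_nonneg _ _)) (w3_pos _).le
  wt1 s tr w := by
    simp only [Plan.ewt, Fintype.sum_prod_type, ← mul_sum, w3_sum, mul_one]
    exact (sum_le_sum fun x _ => mul_le_of_le_one_right (w1_pos x).le (w2_sum _ _)).trans w1_sum.le
  G0 s tr w o b x h0 h1 := (eG_pos P s tr w o b x h0 h1).le
  G1 s tr w o b h0 h1 := by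
    unfold Plan.eG
    split_ifs with h
    · simp only [Plan.Ge, h.choose_spec.2]
      split_ifs
      exacts [GU_mean _ h0 h1, GD_mean _ _ h0 h1]
    · exact le_of_eq (by ring)

theorem engine_wins : ∃ A0 : ℝ, 0 < A0 ∧ ∃ H0 : ℕ, ∀ H ≥ H0, ∀ {n : ℕ} {E K : Type} [Fintype E]
    [Fintype K] (P : Plan n E K) (tr : Tr n) (T : ℕ) (g : ℝ), tr.WF → 0 < Fintype.card K →
    Fintype.card K ≤ H ^ 5 → P.Win A0 H T tr g →
    ∃ o, Real.exp g ≤ (engine H P).wealth tr P.t0 o (P.te - P.t0) := by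
  obtain ⟨A1, hA1, H0, hstep⟩ := step_exists
  refine ⟨A1 + 1, by linarith, max H0 40, fun H hH n E K _ _ P tr T g h k0 hK hW => ?_⟩
  obtain ⟨-, A, z, hV, hg⟩ := hW
  have h40 : 40 ≤ H := le_of_max_le_right hH
  have h1 : (40 : ℝ) ≤ H := by exact_mod_cast h40
  have h0 : (0 : ℝ) < H := by linarith
  obtain ⟨ρ, dh, d0, d1, d2, d3, d4⟩ := directions h k0 A z P.t0 P.te (eN H) hV.z_le
    (1 / 300000 / (H : ℝ) ^ 6) (1 / (H : ℝ) ^ 50) (by positivity)
    (by
      rw [div_le_one (by positivity)]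
      linarith [one_le_pow₀ (n := 6) (show (1 : ℝ) ≤ H by linarith)])
    (by positivity)
    (by
      have a1 : (Fintype.card K : ℝ) ≤ (H : ℝ) ^ 5 := by exact_mod_cast hK
      have a2 := mul_le_mul_of_nonneg_right (pow_le_pow_left₀ (by norm_num) h1 4) (pow_pos h0 10).le
      refine (pow_le_pow_left₀ (by positivity) a1 2).trans ?_
      rw [eN, Nat.cast_pow, show 1 / 300000 / (H : ℝ) ^ 6 * (1 / (H : ℝ) ^ 50) / 8 * (H : ℝ) ^ 70 =
        (H : ℝ) ^ 4 * (H : ℝ) ^ 10 / 2400000 by field_simp; norm_num, ← pow_mul]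
      linarith [pow_pos h0 10])
  have key : ∀ m, P.t0 + m ≤ P.te → ∃ o : ℕ → EOp H K,
      (∀ x ≤ P.t0 + m, ((engine H P).run tr P.t0 o m).1 x = dh x) ∧
      P.SInv ((engine H P).run tr P.t0 o m).2 ∧ 0 < (engine H P).wealth tr P.t0 o m ∧
      ∑ w ∈ Ioc P.t0 (P.t0 + m), (Real.log (Plan.w1 H K (ρ w)) - A1) +
        (∑ e, (P.pot tr A z e (((engine H P).run tr P.t0 o m).2 e) (P.t0 + m) -
          P.pot tr A z e (ini (P.ty e) (P.lam e)) P.t0)) / 2 ≤
        Real.log ((engine H P).wealth tr P.t0 o m) := fun m => by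
    induction m with
    | zero =>
      exact fun _ => ⟨fun _ => (none, 0, .inl false), fun x hx => (d0 x hx).symm,
        sinv_ini (by omega) hV, by simp [Bettor.wealth],
        by simp [Bettor.wealth, Bettor.run_zero, engine]⟩
    | succ m ih =>
      intro hm
      obtain ⟨o, i1, i2, i3, i4⟩ := ih (by omega)
      set s := (engine H P).run tr P.t0 o m with hs
      have hw : P.t0 + m + 1 ∈ Ioc P.t0 P.te := mem_Ioc.2 ⟨by omega, hm⟩
      have hd : dnew (eN H) s.1 (tr.cut (P.t0 + m + 1)) (P.t0 + m + 1) (ρ (P.t0 + m + 1)) =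
          dh (P.t0 + m + 1) := by
        rw [d1 _ hw]
        cases ρ (P.t0 + m + 1)
        · simp only [dnew, Tr.cut, le_refl, if_true,
            i1 _ (Nat.le_of_lt_succ (h.u_lt _ (Nat.succ_pos _))),
            i1 _ (Nat.le_of_lt_succ (h.v_lt _ (Nat.succ_pos _)))]
        · rfl
      obtain ⟨o', e1, e2, e3⟩ := hstep H (le_of_max_le_left hH) P tr A z h hK hV _ hw s i2
        (ρ (P.t0 + m + 1)) (hd ▸ d2 _ hm) (hd ▸ d3 _ hw)
      have hr : ∀ r ≤ m, (engine H P).run tr P.t0 (Function.update o m o') r =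
          (engine H P).run tr P.t0 o r := fun r hr =>
        run_congr _ _ _ r fun i hi => Function.update_of_ne (by omega) _ _
      have hrun : (engine H P).run tr P.t0 (Function.update o m o') (m + 1) =
          P.eupd H s (tr.cut (P.t0 + m + 1)) (P.t0 + m + 1) o' (tr.c (P.t0 + m + 1)) := by
        rw [Bettor.run_succ, hr m le_rfl, Function.update_self]; rfl
      have hG := fun b => eG_pos P s (tr.cut (P.t0 + m + 1)) (P.t0 + m + 1) o' b
        (tr.c (P.t0 + m + 1) b) (Tr.pb_nonneg (Tr.cut_WF h _) _ _) (Tr.pb_le_one (Tr.cut_WF h _) _ _)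
      have hp := prod_pos fun b (_ : b ∈ univ) => hG b
      have hwe : (engine H P).wealth tr P.t0 (Function.update o m o') (m + 1) =
          (engine H P).wealth tr P.t0 o m * (P.ewt H s (tr.cut (P.t0 + m + 1)) (P.t0 + m + 1) o' *
            √(∏ b, P.eG H s (tr.cut (P.t0 + m + 1)) (P.t0 + m + 1) o' b
              (tr.c (P.t0 + m + 1) b))) := by
        rw [Bettor.wealth, prod_range_succ, hr m le_rfl, Function.update_self, Bettor.wealth]
        congr 1
        exact prod_congr rfl fun r hr' => by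
          rw [hr r (mem_range.1 hr').le, Function.update_of_ne (mem_range.1 hr').ne]
      refine ⟨Function.update o m o', fun x hx => ?_, hrun ▸ sinv_upd i2 _ _ _ _,
        hwe ▸ mul_pos i3 (mul_pos e2 (Real.sqrt_pos.2 hp)), ?_⟩
      · rw [hrun]
        simp only [Plan.eupd, e1, hd]
        rcases hx.lt_or_eq with hx | rfl
        · rw [Function.update_of_ne (by omega), i1 x (Nat.le_of_lt_succ hx)]
        · exact Function.update_self _ _ _
      · rw [hwe, hrun, Real.log_mul i3.ne' (mul_pos e2 (Real.sqrt_pos.2 hp)).ne',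
          Real.log_mul e2.ne' (Real.sqrt_pos.2 hp).ne', Real.log_sqrt hp.le,
          Real.log_prod fun b _ => (hG b).ne', log_eG hV, ← add_assoc P.t0,
          sum_Ioc_succ_top (by omega)]
        simp only [sum_sub_distrib, Nat.add_sub_cancel] at i4 e3 ⊢
        linarith
  have ht := Nat.add_sub_cancel' hV.t0_le
  obtain ⟨o, -, i2, i3, i4⟩ := key (P.te - P.t0) ht.le
  refine ⟨o, (Real.le_log_iff_exp_le i3).1 (le_trans ?_ i4)⟩
  rw [ht]
  have a1 := sum_le_sum fun e (_ : e ∈ univ) => gain_le (by omega) h hV i2 e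
  have a2 := sum_le_sum fun w (_ : w ∈ Ioc P.t0 P.te) => log_w1 (ρ w)
  rw [sum_sub_distrib, ← sum_filter, sum_const, sum_const, nsmul_eq_mul, nsmul_eq_mul] at a2
  have a3 := resync_cost h40 hK k0 d4
  rw [sum_sub_distrib (f := fun w => Real.log (Plan.w1 H K (ρ w))), sum_const, nsmul_eq_mul]
  rw [Nat.card_Ioc, Nat.cast_sub hV.t0_le] at a2 ⊢
  linarith

theorem family_prob : ∃ A0 : ℝ, 0 < A0 ∧ ∃ H0 : ℕ, ∀ H ≥ H0, ∀ {n : ℕ} {I E K : Type} [Fintype I]
    [Fintype E] [Fintype K] (P : I → Plan n E K) (wt : I → ℝ), 0 < Fintype.card K →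
    Fintype.card K ≤ H ^ 5 → (∀ i, 0 < wt i) → ∑ i, wt i ≤ 1 →
    ∀ (A : BAlg n) (O : Finset (Fin n)) (T : ℕ) (g : ℝ),
      Pr A (T + 1) (fun xs => ∃ i, (P i).Win A0 H T (nrm A O xs) (g - Real.log (wt i))) ≤
        Real.exp (-g) := by
  obtain ⟨A0, hA, H0, hw⟩ := engine_wins
  refine ⟨A0, hA, H0, fun H hH n I E K _ _ _ P wt k0 hK w0 w1 A O T g => ?_⟩
  refine (Pr_mono A _ fun xs _ ⟨i, h⟩ => ⟨i, mem_univ i, h⟩).trans ((Pr_exists A _ univ _).trans
    ((sum_le_sum (g := fun i => wt i * Real.exp (-g)) fun i _ => ?_).trans ?_))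
  · rw [← Real.exp_log (w0 i), ← Real.exp_add, Real.log_exp,
      show Real.log (wt i) + -g = -(g - Real.log (wt i)) by ring]
    by_cases h : (P i).t0 + ((P i).te - (P i).t0) ≤ T
    · exact (Pr_mono A _ fun xs _ hx => hw H hH (P i) _ T _ (nrm_WF A O xs) k0 hK hx).trans
        (bet_bound (engine H (P i)) A O _ _ T h _)
    · refine (Pr_mono A _ fun xs _ hx => ?_).trans
        (bet_bound (engine H (P i)) A O 0 0 T (Nat.zero_le _) _)
      obtain ⟨h1, _, _, hV, -⟩ := hx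
      have := hV.t0_le
      omega
  · rw [← sum_mul]
    exact mul_le_of_le_one_left (Real.exp_pos _).le w1

end Pool.Agent.P.MP_5c258a_lc.Bin
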