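import Pool.Agent.P.MP_5c258a_lc.Bin.Eng

/-! Task STEP, auxiliary file: modes, grid, index payment. -/

namespace Pool.Agent.P.MP_5c258a_lc.Bin.SB

open Finset Classical

theorem abs_sum_le {K : Type} [Fintype K] {om f b : K → ℝ} {α β : ℝ} (om0 : ∀ k, 0 ≤ om k)
    (om1 : ∑ k, om k ≤ 1) (hβ : 0 ≤ β) (h : ∀ k, |f k| ≤ α * b k + β) :
    |∑ k, om k * f k| ≤ α * ∑ k, om k * b k + β := by
  refine (abs_sum_le_sum_abs _ _).trans ?_
  have h1 : ∑ k, |om k * f k| ≤ ∑ k, (α * (om k * b k) + β * om k) := by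
    refine sum_le_sum fun k _ => ?_
    rw [abs_mul, abs_of_nonneg (om0 k)]
    nlinarith [mul_le_mul_of_nonneg_left (h k) (om0 k)]
  rw [sum_add_distrib, ← mul_sum, ← mul_sum] at h1
  nlinarith

theorem modes_gen {K : Type} [Fintype K] {om b d v : K → ℝ} {S a g t κ ε η θ' : ℝ}
    (om0 : ∀ k, 0 ≤ om k) (om1 : ∑ k, om k ≤ 1) (b0 : ∀ k, 0 ≤ b k) (k0 : 0 < κ) (k1 : κ ≤ 1)
    (e0 : 0 ≤ ε) (h0 : 0 ≤ η) (t0 : 0 ≤ θ') (acc : ∀ k, |b k - S * d k| ≤ ε * κ * b k + 2 * (η * κ))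
    (hv : ∀ k, |v k - (S * d k + (b k - S * d k) / κ)| ≤ θ') (hS : (1 - t) * a + t * g = S) :
    |∑ k, om k * b k - S * ∑ k, om k * d k| ≤ ε * ∑ k, om k * b k + 2 * η ∧
    |∑ k, om k * v k - ∑ k, om k * b k| ≤ ε * ∑ k, om k * b k + (θ' + 2 * η) ∧
    |(1 - κ) * (1 - t) * (a * ∑ k, om k * d k) + (1 - κ) * t * (g * ∑ k, om k * d k) +
      κ * ∑ k, om k * v k - ∑ k, om k * b k| ≤ θ' := by
  refine ⟨?_, ?_, ?_⟩
  · have e : ∑ k, om k * b k - S * ∑ k, om k * d k = ∑ k, om k * (b k - S * d k) := by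
      rw [mul_sum, ← sum_sub_distrib]; exact sum_congr rfl fun k _ => by ring
    rw [e]
    refine abs_sum_le om0 om1 (by positivity) fun k => (acc k).trans ?_
    nlinarith [mul_nonneg e0 (b0 k)]
  · have e : ∑ k, om k * v k - ∑ k, om k * b k = ∑ k, om k * (v k - b k) := by
      rw [← sum_sub_distrib]; exact sum_congr rfl fun k _ => by ring
    rw [e]
    refine abs_sum_le om0 om1 (by positivity) fun k => ?_
    set u := (b k - S * d k) / κ with hu
    have e1 : b k - S * d k = κ * u := by rw [hu]; field_simp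
    have a1 : |u| ≤ ε * b k + 2 * η := by
      have := acc k
      rw [e1, abs_mul, abs_of_pos k0] at this
      exact le_of_mul_le_mul_left (by linarith) k0
    have e2 : v k - b k = (v k - (S * d k + u)) + (1 - κ) * u := by linarith
    rw [e2]
    refine (abs_add_le _ _).trans ?_
    rw [abs_mul, abs_of_nonneg (by linarith : 0 ≤ 1 - κ)]
    nlinarith [hv k, abs_nonneg u]
  · have e : (1 - κ) * (1 - t) * (a * ∑ k, om k * d k) + (1 - κ) * t * (g * ∑ k, om k * d k) +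
        κ * ∑ k, om k * v k - ∑ k, om k * b k =
        ∑ k, om k * (κ * (v k - (S * d k + (b k - S * d k) / κ))) := by
      have e1 : (1 - κ) * (1 - t) * (a * ∑ k, om k * d k) + (1 - κ) * t * (g * ∑ k, om k * d k) =
          (1 - κ) * S * ∑ k, om k * d k := by rw [← hS]; ring
      rw [e1, mul_sum, mul_sum, ← sum_add_distrib, ← sum_sub_distrib]
      exact sum_congr rfl fun k _ => by field_simp; ring
    rw [e]
    have := abs_sum_le (b := b) (α := 0) (f := fun k => κ * (v k - (S * d k + (b k - S * d k) / κ)))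
      om0 om1 t0 fun k => by
        rw [abs_mul, abs_of_pos k0]; nlinarith [hv k, abs_nonneg (v k - (S * d k + (b k - S * d k) / κ))]
    linarith

theorem exists_round (N M : ℕ) (hN : 0 < N) {y : ℝ} (h0 : -1 ≤ y) (h1 : (y + 1) * N ≤ M) :
    ∃ B : Fin (M + 1), |((B : ℕ) : ℝ) / N - 1 - y| ≤ 1 / N := by
  have N0 : (0 : ℝ) < N := by exact_mod_cast hN
  have p0 : 0 ≤ (y + 1) * N := mul_nonneg (by linarith) N0.le
  refine ⟨⟨⌊(y + 1) * N⌋₊, Nat.lt_succ_of_le (Nat.floor_le_of_le h1)⟩, ?_⟩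
  have a1 := Nat.floor_le p0
  have a2 := Nat.lt_floor_add_one ((y + 1) * N)
  have e : ((⌊(y + 1) * N⌋₊ : ℕ) : ℝ) / N - 1 - y = (⌊(y + 1) * N⌋₊ - (y + 1) * N) / N := by
    field_simp; ring
  simp only
  rw [e, abs_div, abs_of_pos N0]
  exact div_le_div_of_nonneg_right (abs_le.2 ⟨by linarith, by linarith⟩) N0.le

theorem grid_pos {H : ℕ} (hH : 0 < H) (j : ℕ) : 0 < grid H j := by
  unfold grid; positivity

theorem grid_add (H j i : ℕ) : grid H j = (1 + 1 / 300000) ^ i * grid H (j + i) := by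
  unfold grid; rw [pow_add]; field_simp

theorem grid_last {H : ℕ} (hH : 0 < H) : grid H (eJ H) ≤ 1 / (H : ℝ) ^ 42 := by
  have H0 : (0 : ℝ) < H := by exact_mod_cast hH
  have b := one_add_mul_le_pow (a := (1 / 300000 : ℝ)) (by norm_num) (eJ H)
  have e : ((eJ H : ℕ) : ℝ) * (1 / 300000) = (H : ℝ) ^ 47 := by unfold eJ; push_cast; ring
  rw [e] at b
  unfold grid
  generalize (1 + 1 / 300000 : ℝ) ^ eJ H = Z at b
  have Z0 : 0 < Z := lt_of_lt_of_le (by positivity) b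
  rw [div_le_div_iff₀ Z0 (by positivity)]
  have : (H : ℝ) ^ 5 * H ^ 42 = H ^ 47 := by ring
  linarith

theorem pay_nonneg {F p : ℝ} (hF : 0 ≤ F) (p0 : 0 ≤ p) (p1 : p ≤ 1) : 0 ≤ pay F p := by
  have : 0 ≤ min F 6 := le_min hF (by norm_num)
  have : 0 ≤ 1 - p := by linarith
  unfold pay; positivity

theorem pay_le_sq {F p : ℝ} (hF : 0 ≤ F) (p0 : 0 ≤ p) (p1 : p ≤ 1) : pay F p ≤ F ^ 2 := by
  have h1 : 0 ≤ min F 6 := le_min hF (by norm_num)
  have h2 : F * min F 6 ≤ F ^ 2 := by nlinarith [min_le_left F 6]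
  have h3 : p * (1 - p) ≤ 1 := by nlinarith
  unfold pay
  nlinarith [mul_nonneg hF h1]

theorem pay_mul_ge {F p r : ℝ} (hF : 0 ≤ F) (p0 : 0 ≤ p) (p1 : p ≤ 1) (hr : 1 ≤ r) :
    r * pay F p ≤ pay (r * F) p := by
  have h1 : min F 6 ≤ min (r * F) 6 := min_le_min_right _ (by nlinarith)
  have h2 : 0 ≤ p * (1 - p) := mul_nonneg p0 (by linarith)
  have := mul_le_mul_of_nonneg_left h1 (show 0 ≤ p * (1 - p) * (r * F) by positivity)
  unfold pay; linarith

theorem pay_mul_le {F p r : ℝ} (hF : 0 ≤ F) (p0 : 0 ≤ p) (p1 : p ≤ 1) (hr : 1 ≤ r) :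
    pay (r * F) p ≤ r ^ 2 * pay F p := by
  have h1 : min (r * F) 6 ≤ r * min F 6 := by
    rcases le_total F 6 with h | h
    · rw [min_eq_left h]; exact min_le_left _ _
    · rw [min_eq_right h]; exact (min_le_right _ _).trans (by linarith)
  have h2 : 0 ≤ p * (1 - p) := mul_nonneg p0 (by linarith)
  have := mul_le_mul_of_nonneg_left h1 (show 0 ≤ p * (1 - p) * (r * F) by positivity)
  unfold pay; linarith

theorem index_cost {γ : ℝ} (hγ : 0 < γ) :
    ∃ A : ℝ, 0 ≤ A ∧ ∀ i : ℕ, Real.log ((i + 1 + 1 : ℝ) * (i + 1 + 2)) ≤ γ * i + A := by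
  refine ⟨3 * γ + 2 * |Real.log (γ / 2)|, by positivity, fun i => ?_⟩
  have i0 : (0 : ℝ) ≤ i := Nat.cast_nonneg i
  have h1 : Real.log ((i + 1 + 1 : ℝ) * (i + 1 + 2)) ≤ 2 * Real.log (i + 3) := by
    have := Real.log_le_log (by positivity)
      (show (i + 1 + 1 : ℝ) * (i + 1 + 2) ≤ (i + 3) ^ 2 by nlinarith)
    rw [Real.log_pow] at this
    exact_mod_cast this
  have h2 := Real.log_le_sub_one_of_pos (show 0 < γ / 2 * (i + 3) by positivity)
  rw [Real.log_mul (by positivity) (by positivity)] at h2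
  linarith [neg_abs_le (Real.log (γ / 2))]

/-- If the grid value one step above the reference was not admissible, the gains of case U pay
for the index. -/
theorem index_pay {E : Type} (s : Finset E) (F0 p l l1 c : E → ℝ) {r : ℝ} (hr : 1 ≤ r)
    (hF : ∀ e ∈ s, 0 ≤ F0 e) (p0 : ∀ e ∈ s, 0 ≤ p e) (p1 : ∀ e ∈ s, p e ≤ 1)
    (hl : ∀ e ∈ s, 0 < l e) (hl1 : ∀ e ∈ s, l e ≤ l1 e)
    (cap : ∀ e ∈ s, r * F0 e * c e ≤ 3 * l1 e)
    (h : 1 < ∑ e ∈ s, pay (F0 e / l e) (p e) ∨ ∃ e ∈ s, 3 * l e < F0 e * c e) :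
    Real.log r ≤ 3 * ∑ e ∈ s, (pay (r * F0 e / l1 e) (p e) + Real.log (l1 e / l e)) := by
  have r0 : 0 < r := by linarith
  have hρ : ∀ e ∈ s, 1 ≤ l1 e / l e := fun e he => by
    rw [le_div_iff₀ (hl e he)]; linarith [hl1 e he]
  have hF1 : ∀ e ∈ s, 0 ≤ r * F0 e / l1 e := fun e he =>
    div_nonneg (mul_nonneg r0.le (hF e he)) ((hl e he).le.trans (hl1 e he))
  have hp : ∀ e ∈ s, 0 ≤ pay (r * F0 e / l1 e) (p e) := fun e he =>
    pay_nonneg (hF1 e he) (p0 e he) (p1 e he)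
  set T := ∑ e ∈ s, (pay (r * F0 e / l1 e) (p e) + Real.log (l1 e / l e)) with hT
  have hnn : ∀ e ∈ s, 0 ≤ pay (r * F0 e / l1 e) (p e) + Real.log (l1 e / l e) := fun e he =>
    add_nonneg (hp e he) (Real.log_nonneg (hρ e he))
  have T0 : 0 ≤ T := sum_nonneg hnn
  have hone : ∀ e ∈ s, Real.log (l1 e / l e) ≤ T := fun e he => by
    have := single_le_sum hnn he
    linarith [hp e he]
  rcases h with h | ⟨e, he, h⟩
  · have a1 : ∀ e ∈ s, r * pay (F0 e / l e) (p e) ≤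
        Real.exp (2 * T) * pay (r * F0 e / l1 e) (p e) := by
      intro e he
      have le := hl e he
      have l1e : 0 < l1 e := le.trans_le (hl1 e he)
      have b1 := pay_mul_ge (div_nonneg (hF e he) le.le) (p0 e he) (p1 e he) hr
      have b2 := pay_mul_le (hF1 e he) (p0 e he) (p1 e he) (hρ e he)
      have e1 : l1 e / l e * (r * F0 e / l1 e) = r * (F0 e / l e) := by field_simp
      rw [e1] at b2
      have b3 : (l1 e / l e) ^ 2 ≤ Real.exp (2 * T) := by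
        have : l1 e / l e ≤ Real.exp T := (Real.log_le_iff_le_exp (by positivity)).1 (hone e he)
        rw [show 2 * T = T + T by ring, Real.exp_add, sq]
        exact mul_le_mul this this (by positivity) (by positivity)
      exact b1.trans (b2.trans (mul_le_mul_of_nonneg_right b3 (hp e he)))
    have a2 := sum_le_sum a1
    rw [← mul_sum, ← mul_sum] at a2
    have a3 : ∑ e ∈ s, pay (r * F0 e / l1 e) (p e) ≤ T :=
      sum_le_sum fun e he => by linarith [Real.log_nonneg (hρ e he)]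
    have a4 : T ≤ Real.exp T := by linarith [Real.add_one_le_exp T]
    have a5 : r ≤ Real.exp (3 * T) := by
      rw [show 3 * T = 2 * T + T by ring, Real.exp_add]
      have := mul_le_mul_of_nonneg_left (a3.trans a4) (Real.exp_pos (2 * T)).le
      nlinarith
    exact (Real.log_le_iff_le_exp r0).2 a5
  · have a1 : r ≤ l1 e / l e := by
      rw [le_div_iff₀ (hl e he)]
      nlinarith [cap e he, mul_le_mul_of_nonneg_left h.le r0.le]
    linarith [Real.log_le_log r0 a1, hone e he]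

theorem exists_ge_avg {π f : Fin 3 → ℝ} (h0 : ∀ m, 0 ≤ π m) (h1 : ∑ m, π m = 1) :
    ∃ m, ∑ m, π m * f m ≤ f m := by
  obtain ⟨m, -, hm⟩ := exists_max_image univ f univ_nonempty
  refine ⟨m, ?_⟩
  have := sum_le_sum fun i (_ : i ∈ univ) => mul_le_mul_of_nonneg_left (hm i (mem_univ i)) (h0 i)
  rwa [← sum_mul, h1, one_mul] at this

theorem stepU (ty : Ty) (hA : StepU .A) (hH : StepU .H) : StepU ty := by
  cases ty
  exacts [hA, hH, stepU_L]

theorem stepD (ty : Ty) (hA : StepD .A) (hH : StepD .H) : StepD ty := by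
  cases ty
  exacts [hA, hH, stepD_L]

variable {n : ℕ} {E K : Type} [Fintype E] [Fintype K]

theorem card_act {H : ℕ} {P : Plan n E K} {tr : Tr n} {A : K → ℕ → Prop} {z : K → ℕ}
    (hV : P.Valid H tr A z) (w : ℕ) : (univ.filter fun e => P.act e w).card ≤ H ^ 81 := by
  refine le_trans (card_le_card_of_injOn P.col (fun e _ => mem_coe.2 (mem_image_of_mem _ (mem_univ e)))
    fun e he e' he' h => ?_) hV.cols
  by_contra hne
  exact hV.disj e e' hne h w (mem_filter.1 he).2 (mem_filter.1 he').2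

omit [Fintype E] in
theorem pot_idle {P : Plan n E K} {tr : Tr n} {A : K → ℕ → Prop} {z : K → ℕ} {e : E} {w : ℕ}
    (h : ¬P.act e w) (s : MS) : P.pot tr A z e s w = P.pot tr A z e s (w - 1) := by
  simp only [Plan.act, mem_Ioc, not_and_or, not_lt, not_le] at h
  have : Ioc (P.lo e) (min w (P.hi e)) = Ioc (P.lo e) (min (w - 1) (P.hi e)) := by
    ext x; simp only [mem_Ioc]; omega
  simp only [Plan.pot, Tr.XX, Tr.QQ, this]

theorem XX_succ (tr : Tr n) (q : ℕ → ℝ) (b : Fin n) {lo w : ℕ} (h : lo < w) :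
    tr.XX q b lo w = tr.XX q b lo (w - 1) + q w * (bR (tr.c w b) - tr.pb w b) := by
  obtain ⟨w, rfl⟩ : ∃ w', w = w' + 1 := ⟨w - 1, by omega⟩
  simp only [Tr.XX, Nat.add_sub_cancel]
  rw [sum_Ioc_succ_top (by omega)]
  rfl

theorem QQ_succ (tr : Tr n) (q : ℕ → ℝ) (b : Fin n) {lo w : ℕ} (h : lo < w) :
    tr.QQ q b lo w = tr.QQ q b lo (w - 1) +
      q w ^ 2 * ((bR (tr.c w b) - tr.pb w b) ^ 2 + tr.pb w b * (1 - tr.pb w b)) := by
  obtain ⟨w, rfl⟩ : ∃ w', w = w' + 1 := ⟨w - 1, by omega⟩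
  simp only [Tr.QQ, Nat.add_sub_cancel]
  rw [sum_Ioc_succ_top (by omega)]
  rfl

theorem tok_of {H : ℕ} {P : Plan n E K} {tr : Tr n} {A : K → ℕ → Prop} {z : K → ℕ}
    (hV : P.Valid H tr A z) {e : E} {w : ℕ} (h : P.act e w) {s : MS}
    (hL : P.ty e = .L → s.lam = P.lam e) :
    TOK (P.ty e) s (base (P.ty e) (P.lam e) + tr.XX (P.q tr A z e) (P.col e) (P.lo e) (w - 1))
      (P.q tr A z e w) (tr.pb w (P.col e)) (tr.c w (P.col e)) := by
  have hc := hV.cond e
  have hw := mem_Ioc.1 h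
  have hs := XX_succ tr (P.q tr A z e) (P.col e) hw.1
  generalize P.ty e = ty at hc hL
  cases ty
  · exact hc w h
  · obtain ⟨-, hc⟩ := hc
    obtain ⟨a1, a2, a3⟩ := hc w h
    have b : -2 ≤ tr.XX (P.q tr A z e) (P.col e) (P.lo e) (w - 1) ∧
        tr.XX (P.q tr A z e) (P.col e) (P.lo e) (w - 1) ≤ 1 := by
      by_cases h1 : P.lo e < w - 1
      · exact (hc (w - 1) (mem_Ioc.2 ⟨h1, by omega⟩)).2
      · simp only [Tr.XX]; rw [Ioc_eq_empty h1]; norm_num
    simp only [TOK, base]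
    refine ⟨a1, ?_, ?_, ?_, ?_⟩ <;> linarith [b.1, b.2]
  · simp only [TOK]; rw [hL rfl]; exact hc w h

end Pool.Agent.P.MP_5c258a_lc.Bin.SB
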