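import Mathlib

/-! Normalised trajectories, backward flows, plans (paper sections 1-3): definitions only. -/

namespace Pool.Agent.P.MP_5c258a_lc.Bin

open Finset Classical

/-- A trajectory: strings, the two parents of each step and the two flip rates. -/
structure Tr (n : ℕ) where
  c : ℕ → Fin n → Bool
  u : ℕ → ℕ
  v : ℕ → ℕ
  al : ℕ → ℝ
  be : ℕ → ℝ

namespace Tr

variable {n : ℕ}

structure WF (tr : Tr n) : Prop where
  u_lt : ∀ w, 0 < w → tr.u w < w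
  v_lt : ∀ w, 0 < w → tr.v w < w
  al0 : ∀ w, 0 ≤ tr.al w
  al1 : ∀ w, tr.al w ≤ 1
  be0 : ∀ w, 0 ≤ tr.be w
  be1 : ∀ w, tr.be w ≤ 1

noncomputable def bt (tr : Tr n) (w : ℕ) (b : Fin n) : ℝ := if tr.c w b = true then 1 else 0

noncomputable def kb (tr : Tr n) (w : ℕ) (b : Fin n) : ℝ :=
  tr.be w * (1 - tr.bt (tr.u w) b) + (1 - tr.be w) * (1 - tr.bt (tr.v w) b)

/-- Conditional probability that bit `b` of string `w` is one. -/
noncomputable def pb (tr : Tr n) (w : ℕ) (b : Fin n) : ℝ :=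
  (1 - tr.al w) * (1 - tr.be w) * tr.bt (tr.u w) b + (1 - tr.al w) * tr.be w * tr.bt (tr.v w) b
    + tr.al w * tr.kb w b

noncomputable def xi (tr : Tr n) (w : ℕ) (b : Fin n) : ℝ := tr.bt w b - tr.pb w b

noncomputable def vr (tr : Tr n) (w : ℕ) (b : Fin n) : ℝ := tr.pb w b * (1 - tr.pb w b)

/-- Weight of the parent `x` of `w`. -/
noncomputable def p (tr : Tr n) (w x : ℕ) : ℝ :=
  (if tr.u w = x then (1 - tr.al w) * (1 - tr.be w) else 0) +
    (if tr.v w = x then (1 - tr.al w) * tr.be w else 0)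

/-- What is known just before the bits of string `w` are drawn. -/
def cut (w : ℕ) (tr : Tr n) : Tr n where
  c := fun i => if i < w then tr.c i else fun _ => false
  u := fun i => if i ≤ w then tr.u i else 0
  v := fun i => if i ≤ w then tr.v i else 0
  al := fun i => if i ≤ w then tr.al i else 0
  be := fun i => if i ≤ w then tr.be i else 0

/-- Backward flow from the node `z` through the allowed nodes `A`. Use `gr_eq`, never unfold. -/
noncomputable def gr (tr : Tr n) (A : ℕ → Prop) (z x : ℕ) : ℝ :=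
  (if x = z then 1 else 0) +
    ∑ w ∈ (Ioc x z).attach, if A w.1 then gr tr A z w.1 * tr.p w.1 x else 0
termination_by z - x
decreasing_by
  have := mem_Ioc.1 w.2
  omega

theorem gr_eq (tr : Tr n) (A : ℕ → Prop) (z x : ℕ) : tr.gr A z x =
    (if x = z then 1 else 0) + ∑ w ∈ Ioc x z, if A w then tr.gr A z w * tr.p w x else 0 := by
  rw [gr, sum_attach (Ioc x z) fun w => if A w then tr.gr A z w * tr.p w x else 0]

/-- Stopping distribution of the flow. -/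
noncomputable def st (tr : Tr n) (A : ℕ → Prop) (z x : ℕ) : ℝ := if A x then 0 else tr.gr A z x

/-- Full flow above the time `τ`. -/
noncomputable def pi (tr : Tr n) (τ z x : ℕ) : ℝ := tr.gr (fun w => τ < w) z x

noncomputable def x1 (tr : Tr n) (t z : ℕ) (b : Fin n) : ℝ :=
  ∑ x ∈ range (z + 1), tr.st (fun w => t < w) z x * tr.bt x b

noncomputable def x0 (tr : Tr n) (t z : ℕ) (b : Fin n) : ℝ :=
  ∑ x ∈ range (z + 1), tr.st (fun w => t < w) z x * (1 - tr.bt x b)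

noncomputable def kap (tr : Tr n) (τ z : ℕ) : ℝ := ∑ w ∈ Ioc τ z, tr.pi τ z w * tr.al w

noncomputable def VV (tr : Tr n) (N : Finset (Fin n)) (w : ℕ) : ℝ := (∑ b ∈ N, tr.vr w b) / N.card

noncomputable def vv (tr : Tr n) (N : Finset (Fin n)) (τ z : ℕ) : ℝ :=
  ∑ w ∈ Ioc τ z, tr.pi τ z w ^ 2 * tr.VV N w

noncomputable def df (tr : Tr n) (f f' : ℕ) (b : Fin n) : ℝ := if tr.c f b = tr.c f' b then 0 else 1

structure Good (tr : Tr n) (O N : Finset (Fin n)) (δ : ℝ) (T : ℕ) : Prop where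
  gN : ∀ w, 0 < w → w ≤ T → ∀ x < w, |∑ b ∈ N, tr.xi w b * (tr.bt x b - 1 / 2)| ≤ δ * N.card
  gO : ∀ w, 0 < w → w ≤ T → |∑ b ∈ O, tr.xi w b| ≤ δ * O.card

structure Norm (tr : Tr n) (O : Finset (Fin n)) : Prop where
  n0 : (O.card : ℝ) / 2 ≤ ∑ b ∈ O, tr.bt 0 b
  nw : ∀ w, 0 < w → (O.card : ℝ) / 2 ≤ ∑ b ∈ O, tr.pb w b

structure Typ (tr : Tr n) {L : ℕ} (W : Fin L → Fin n) (N : Finset (Fin n)) (ε : ℝ) (τ : ℕ) :
    Prop where
  one : ∀ f ≤ τ, ∑ l, tr.bt f (W l) ≤ (1 / 2 + ε) * L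
  two : ∀ f ≤ τ, ∀ f' ≤ τ, ∑ l, tr.df f f' (W l) ≤ ((∑ b ∈ N, tr.df f f' b) / N.card + ε) * L

noncomputable def XX (tr : Tr n) (q : ℕ → ℝ) (b : Fin n) (lo t : ℕ) : ℝ :=
  ∑ w ∈ Ioc lo t, q w * tr.xi w b

noncomputable def QQ (tr : Tr n) (q : ℕ → ℝ) (b : Fin n) (lo t : ℕ) : ℝ :=
  ∑ w ∈ Ioc lo t, q w ^ 2 * (tr.xi w b ^ 2 + tr.vr w b)

end Tr

/-- The three kinds of episodes. -/
inductive Ty
  | A
  | H
  | L
  deriving DecidableEq

noncomputable def cA : ℝ := 1 / 20000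
noncomputable def cH : ℝ := 1 / 10 ^ 13

noncomputable def gainOf : Ty → ℝ → ℝ → ℝ → ℝ
  | .A, lam, X, _ => cA * Real.log ((lam + X) / lam) - 1
  | .H, _, _, Q => cH * Q - 1
  | .L, lam, X, Q => cA * X / lam - Q / lam ^ 2

/-- The condition an episode must satisfy on the true path. -/
def Cond {n : ℕ} (tr : Tr n) (q : ℕ → ℝ) (b : Fin n) (lo hi : ℕ) (lam : ℝ) : Ty → Prop
  | .A => ∀ w ∈ Ioc lo hi, q w * tr.pb w b ≤ lam + tr.XX q b lo (w - 1)
  | .H => lam = 1 ∧ ∀ w ∈ Ioc lo hi, q w ≤ 1 ∧ -2 ≤ tr.XX q b lo w ∧ tr.XX q b lo w ≤ 1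
  | .L => ∀ w ∈ Ioc lo hi, q w ≤ lam

theorem ty_realize : True := by
  have := @gainOf.eq_1
  have := @gainOf.eq_2
  have := @gainOf.eq_3
  have := @Cond.eq_1
  have := @Cond.eq_2
  have := @Cond.eq_3
  trivial

structure Plan (n : ℕ) (E K : Type) where
  t0 : ℕ
  te : ℕ
  col : E → Fin n
  ty : E → Ty
  lam : E → ℝ
  lo : E → ℕ
  hi : E → ℕ
  om : E → Tr n → ℕ → K → ℝ

namespace Plan

variable {n : ℕ} {E K : Type} [Fintype E] [Fintype K]

/-- True weight of the episode `e` at step `w` for the flows from `z k` through `A k`. -/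
noncomputable def q (P : Plan n E K) (tr : Tr n) (A : K → ℕ → Prop) (z : K → ℕ) (e : E) (w : ℕ) :
    ℝ := ∑ k, P.om e (tr.cut w) w k * tr.gr (A k) (z k) w

noncomputable def gain (P : Plan n E K) (tr : Tr n) (A : K → ℕ → Prop) (z : K → ℕ) (e : E) : ℝ :=
  gainOf (P.ty e) (P.lam e) (tr.XX (P.q tr A z e) (P.col e) (P.lo e) (P.hi e))
    (tr.QQ (P.q tr A z e) (P.col e) (P.lo e) (P.hi e))

structure Valid (H : ℕ) (P : Plan n E K) (tr : Tr n) (A : K → ℕ → Prop) (z : K → ℕ) : Prop where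
  t0_le : P.t0 ≤ P.te
  lo_ge : ∀ e, P.t0 ≤ P.lo e
  lo_le : ∀ e, P.lo e ≤ P.hi e
  hi_le : ∀ e, P.hi e ≤ P.te
  z_le : ∀ k, z k ≤ P.te
  cols : (univ.image P.col).card ≤ H ^ 81
  disj : ∀ e e', e ≠ e' → P.col e = P.col e' →
    ∀ w, w ∈ Ioc (P.lo e) (P.hi e) → w ∉ Ioc (P.lo e') (P.hi e')
  lam_ge : ∀ e, 1 / (H : ℝ) ≤ P.lam e
  om0 : ∀ e, ∀ w ∈ Ioc (P.lo e) (P.hi e), ∀ k, 0 ≤ P.om e (tr.cut w) w k
  om1 : ∀ e, ∀ w ∈ Ioc (P.lo e) (P.hi e), ∑ k, P.om e (tr.cut w) w k ≤ 1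
  cond : ∀ e, Cond tr (P.q tr A z e) (P.col e) (P.lo e) (P.hi e) (P.lam e) (P.ty e)

/-- The plan wins `g` on the trajectory `tr` after paying `A0` per step. -/
def Win (A0 : ℝ) (H T : ℕ) (P : Plan n E K) (tr : Tr n) (g : ℝ) : Prop :=
  P.te ≤ T ∧ ∃ A z, P.Valid H tr A z ∧
    g + A0 * ((P.te : ℝ) - P.t0) + (H : ℝ) ^ 80 ≤ (∑ e, P.gain tr A z e) / 2

end Plan

/-- An abstract bettor (paper section 1). All arguments `tr` are meant to be cut trajectories. -/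
structure Bettor (n : ℕ) (St Opt : Type) [Fintype Opt] where
  init : St
  wt : St → Tr n → ℕ → Opt → ℝ
  G : St → Tr n → ℕ → Opt → Fin n → Bool → ℝ
  upd : St → Tr n → ℕ → Opt → (Fin n → Bool) → St
  wt0 : ∀ s tr w o, 0 ≤ wt s tr w o
  wt1 : ∀ s tr w, ∑ o, wt s tr w o ≤ 1
  G0 : ∀ s tr w o b x, 0 ≤ tr.pb w b → tr.pb w b ≤ 1 → 0 ≤ G s tr w o b x
  G1 : ∀ s tr w o b, 0 ≤ tr.pb w b → tr.pb w b ≤ 1 →
    tr.pb w b * G s tr w o b true + (1 - tr.pb w b) * G s tr w o b false ≤ 1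

namespace Bettor

variable {n : ℕ} {St Opt : Type} [Fintype Opt]

/-- State after the steps `t0 + 1, …, t0 + r`. -/
def run (B : Bettor n St Opt) (tr : Tr n) (t0 : ℕ) (o : ℕ → Opt) : ℕ → St
  | 0 => B.init
  | r + 1 => B.upd (run B tr t0 o r) (tr.cut (t0 + r + 1)) (t0 + r + 1) (o r) (tr.c (t0 + r + 1))

theorem run_zero (B : Bettor n St Opt) (tr : Tr n) (t0 : ℕ) (o : ℕ → Opt) :
    B.run tr t0 o 0 = B.init := rfl

theorem run_succ (B : Bettor n St Opt) (tr : Tr n) (t0 : ℕ) (o : ℕ → Opt) (r : ℕ) :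
    B.run tr t0 o (r + 1) =
      B.upd (B.run tr t0 o r) (tr.cut (t0 + r + 1)) (t0 + r + 1) (o r) (tr.c (t0 + r + 1)) := rfl

theorem run_realize : True := by have := @run.eq_def; trivial

/-- The factor earned at step `w` from the state `s` with the option `o`. -/
noncomputable def fac (B : Bettor n St Opt) (tr : Tr n) (s : St) (w : ℕ) (o : Opt) : ℝ :=
  B.wt s (tr.cut w) w o * √(∏ b, B.G s (tr.cut w) w o b (tr.c w b))

noncomputable def wealth (B : Bettor n St Opt) (tr : Tr n) (t0 : ℕ) (o : ℕ → Opt) (m : ℕ) : ℝ :=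
  ∏ r ∈ range m, B.fac tr (B.run tr t0 o r) (t0 + r + 1) (o r)

end Bettor

end Pool.Agent.P.MP_5c258a_lc.Bin
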